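import Mathlib

section

/-! A bijection preserving fibre sizes descends to a bijection of the bases. -/

namespace Pool.Agent.MP_88b4a2_lc

open Finset

theorem sum_inv_fibre {X Y : Type} [Fintype X] [Fintype Y] [DecidableEq Y] (p : X → Y)
    (hp : Function.Surjective p) (S : Finset Y) :
    ∑ x ∈ univ.filter (fun x => p x ∈ S), (({y | p y = p x} : Set X).ncard : ℚ)⁻¹ = S.card := by
  classical
  rw [← Finset.sum_fiberwise_of_maps_to (s := univ.filter (fun x => p x ∈ S)) (t := S) (g := p)
    (fun x hx => by simpa using hx), card_eq_sum_ones, Nat.cast_sum]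
  refine sum_congr rfl fun y hy => ?_
  have h1 : (univ.filter (fun x => p x ∈ S)).filter (fun x => p x = y)
      = univ.filter (fun x => p x = y) := by
    ext x; simp only [mem_filter, mem_univ, true_and]
    exact ⟨fun h => h.2, fun h => ⟨h ▸ hy, h⟩⟩
  have h2 : ({x | p x = y} : Set X).ncard = (univ.filter (fun x => p x = y)).card := by
    rw [← Set.ncard_coe_finset]; congr 1; ext x; simp
  have h3 : (univ.filter (fun x => p x = y)).card ≠ 0 := by
    obtain ⟨x, hx⟩ := hp y
    exact card_ne_zero.mpr ⟨x, by simp [hx]⟩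
  rw [h1, sum_congr rfl (g := fun _ => ((univ.filter (fun x => p x = y)).card : ℚ)⁻¹)
    (fun x hx => by rw [(mem_filter.mp hx).2, h2]), sum_const, nsmul_eq_mul]
  rw [mul_inv_cancel₀ (by exact_mod_cast h3)]; simp

theorem hall_fibre {X X' Y Y' : Type} [Finite X] [Finite X'] [Finite Y] [Finite Y']
    (p : X → Y) (p' : X' → Y') (hp : Function.Surjective p) (hp' : Function.Surjective p')
    (b : X ≃ X')
    (h : ∀ x, ({y | p y = p x} : Set X).ncard = ({y | p' y = p' (b x)} : Set X').ncard) :
    ∃ c : Y ≃ Y', ∀ y, ∃ x, p x = y ∧ p' (b x) = c y := by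
  classical
  have := Fintype.ofFinite X
  have := Fintype.ofFinite X'
  have := Fintype.ofFinite Y
  have := Fintype.ofFinite Y'
  let t : Y → Finset Y' := fun y => (univ.filter (fun x => p x = y)).image (fun x => p' (b x))
  have key : ∀ (S : Finset Y) (S' : Finset Y'), (∀ x, p x ∈ S → p' (b x) ∈ S') →
      S.card ≤ S'.card := by
    intro S S' hS
    have h1 := sum_inv_fibre p hp S
    have h2 := sum_inv_fibre p' hp' S'
    have h3 : ∑ x ∈ univ.filter (fun x => p x ∈ S), (({y | p y = p x} : Set X).ncard : ℚ)⁻¹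
        = ∑ x' ∈ (univ.filter (fun x => p x ∈ S)).map b.toEmbedding,
          (({y | p' y = p' x'} : Set X').ncard : ℚ)⁻¹ := by
      rw [sum_map]; exact sum_congr rfl fun x _ => by rw [h x]; rfl
    have h4 : ∑ x' ∈ (univ.filter (fun x => p x ∈ S)).map b.toEmbedding,
          (({y | p' y = p' x'} : Set X').ncard : ℚ)⁻¹ ≤
        ∑ x ∈ univ.filter (fun x => p' x ∈ S'), (({y | p' y = p' x} : Set X').ncard : ℚ)⁻¹ := by
      refine sum_le_sum_of_subset_of_nonneg ?_ (fun _ _ _ => by positivity)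
      intro x' hx'
      obtain ⟨x, hx, rfl⟩ := mem_map.mp hx'
      simpa using hS x (by simpa using hx)
    have : (S.card : ℚ) ≤ S'.card := by rw [← h1, ← h2, h3]; exact h4
    exact_mod_cast this
  obtain ⟨f, hf, hft⟩ := (Finset.all_card_le_biUnion_card_iff_exists_injective t).mp (fun S =>
    key S _ fun x hx => mem_biUnion.mpr ⟨p x, hx, mem_image.mpr ⟨x, by simp, rfl⟩⟩)
  have hcard : Fintype.card Y = Fintype.card Y' := by
    have h1 := sum_inv_fibre p hp univ
    have h2 := sum_inv_fibre p' hp' univ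
    simp only [mem_univ, filter_true, card_univ] at h1 h2
    have h3 := Fintype.sum_equiv b (fun x => (({y | p y = p x} : Set X).ncard : ℚ)⁻¹)
      (fun x => (({y | p' y = p' x} : Set X').ncard : ℚ)⁻¹) (fun x => by rw [h x])
    have : (Fintype.card Y : ℚ) = Fintype.card Y' := by rw [← h1, ← h2, h3]
    exact_mod_cast this
  refine ⟨Equiv.ofBijective f ((Fintype.bijective_iff_injective_and_card f).mpr ⟨hf, hcard⟩),
    fun y => ?_⟩
  obtain ⟨x, hx, h1⟩ := mem_image.mp (hft y)
  exact ⟨x, by simpa using hx, h1⟩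

/-- A numbering of the points inside each class of an equivalence relation. -/
theorem exists_omega {V : Type} [Finite V] {r : V → V → Prop} (hr : Equivalence r) :
    ∃ ω : V → ℕ, (∀ x y, r x y → ω x = ω y → x = y) ∧ (∀ x, ω x < {y | r x y}.ncard) ∧
      ∀ x n, n < {y | r x y}.ncard → ∃ y, r x y ∧ ω y = n := by
  classical
  let s : Setoid V := ⟨r, hr⟩
  let F : ∀ c : Quotient s, {y // Quotient.mk s y = c} ≃ Fin (Nat.card {y // Quotient.mk s y = c}) :=
    fun c => Finite.equivFin _
  let ω : V → ℕ := fun x => (F (Quotient.mk s x) ⟨x, rfl⟩).val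
  have hω : ∀ c y (h : Quotient.mk s y = c), ω y = (F c ⟨y, h⟩).val := by
    rintro c y rfl; rfl
  have hc : ∀ x, Nat.card {y // Quotient.mk s y = Quotient.mk s x} = {y | r x y}.ncard := by
    intro x
    rw [← Nat.card_coe_set_eq]
    exact Nat.card_congr (Equiv.subtypeEquivRight fun y =>
      ⟨fun h => hr.symm (Quotient.exact h), fun h => Quotient.sound (hr.symm h)⟩)
  refine ⟨ω, fun x y hxy h => ?_, fun x => ?_, fun x n hn => ?_⟩
  · have h1 : Quotient.mk s y = Quotient.mk s x := Quotient.sound (hr.symm hxy)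
    rw [hω _ x rfl, hω _ y h1] at h
    exact congrArg Subtype.val ((F _).injective (Fin.ext h))
  · rw [← hc]; exact (F _ _).2
  · rw [← hc] at hn
    obtain ⟨⟨y, hy⟩, h⟩ := (F (Quotient.mk s x)).surjective ⟨n, hn⟩
    exact ⟨y, hr.symm (Quotient.exact hy), by rw [hω _ y hy, h]⟩

end Pool.Agent.MP_88b4a2_lc

end

section

/-! Counting lemma: if the sum over non-identity elements of `Q ^ (-|supp g|)` is below one,
some colouring with `Q ^ 3` colours is fixed by no non-identity element. -/

namespace Pool.Agent.MP_88b4a2_lc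

open Equiv Finset

/-- A large subset of the support that is moved off itself. -/
theorem exists_indep {B : Type} [Fintype B] [DecidableEq B] (g : Perm B) :
    ∃ T : Finset B, (∀ x ∈ T, g x ∉ T) ∧ g.support.card ≤ 3 * T.card := by
  classical
  obtain ⟨T, hT, hmax⟩ := Finset.exists_max_image
    ((univ : Finset (Finset B)).filter (fun T => ∀ x ∈ T, g x ∉ T)) Finset.card ⟨∅, by simp⟩
  have hT' : ∀ x ∈ T, g x ∉ T := by simpa using hT
  refine ⟨T, hT', ?_⟩
  have hsub : g.support ⊆ T ∪ T.image g ∪ T.image g.symm := by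
    intro z hz
    by_contra hcon
    simp only [mem_union, mem_image, not_or, not_exists, not_and] at hcon
    obtain ⟨⟨h1, h2⟩, h3⟩ := hcon
    have hz' : g z ≠ z := by simpa using hz
    have := hmax (insert z T) (by
      simp only [mem_filter, mem_univ, true_and, mem_insert, not_or]
      rintro x (rfl | hx)
      · refine ⟨hz', fun h => h3 _ h (by simp)⟩
      · exact ⟨fun h => h2 _ hx h, hT' x hx⟩)
    rw [card_insert_of_notMem h1] at this
    omega
  calc g.support.card ≤ (T ∪ T.image g ∪ T.image g.symm).card := card_le_card hsub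
    _ ≤ T.card + (T.image g).card + (T.image g.symm).card :=
        (card_union_le _ _).trans (by gcongr; exact card_union_le _ _)
    _ ≤ 3 * T.card := by
        have h1 := card_image_le (s := T) (f := g)
        have h2 := card_image_le (s := T) (f := g.symm)
        omega

theorem card_fixed_le {B : Type} [Fintype B] [DecidableEq B] (g : Perm B) (Q : ℕ) (hQ : 0 < Q) :
    (univ.filter (fun M : B → Fin (Q ^ 3) => ∀ x, M (g x) = M x)).card * Q ^ g.support.card
      ≤ (Q ^ 3) ^ Fintype.card B := by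
  classical
  obtain ⟨T, hT, hcard⟩ := exists_indep g
  have hinj : (univ.filter (fun M : B → Fin (Q ^ 3) => ∀ x, M (g x) = M x)).card
      ≤ (univ : Finset ({x // x ∉ T} → Fin (Q ^ 3))).card := by
    refine card_le_card_of_injOn (fun M x => M x.1) (by simp) ?_
    intro M hM M' hM' h
    have hM1 : ∀ x, M (g x) = M x := by simpa using hM
    have hM2 : ∀ x, M' (g x) = M' x := by simpa using hM'
    funext x
    by_cases hx : x ∈ T
    · rw [← hM1 x, ← hM2 x]
      exact congrFun h ⟨g x, hT x hx⟩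
    · exact congrFun h ⟨x, hx⟩
  have hc : Fintype.card {x // x ∉ T} = Fintype.card B - T.card := by
    rw [Fintype.card_subtype_compl]; simp
  simp only [card_univ, Fintype.card_fun, Fintype.card_fin, hc] at hinj
  have hle : T.card ≤ Fintype.card B := card_le_univ T
  calc _ ≤ (Q ^ 3) ^ (Fintype.card B - T.card) * Q ^ (3 * T.card) :=
        Nat.mul_le_mul hinj (Nat.pow_le_pow_right hQ hcard)
    _ = (Q ^ 3) ^ Fintype.card B := by
        rw [pow_mul, ← pow_add, Nat.sub_add_cancel hle]

open Classical in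
theorem rigid_of_sum {B : Type} [Fintype B] [DecidableEq B] (G : Subgroup (Perm B)) (Q : ℕ)
    (hQ : 0 < Q)
    (h : ∑ g ∈ univ.filter (fun g : Perm B => g ∈ G ∧ g ≠ 1), ((Q : ℝ) ^ g.support.card)⁻¹ < 1) :
    ∃ M : B → ℕ, (∀ x, M x < Q ^ 3) ∧ ∀ g ∈ G, (∀ x, M (g x) = M x) → g = 1 := by
  by_contra hcon
  push Not at hcon
  have hcover : (univ : Finset (B → Fin (Q ^ 3))) ⊆
      (univ.filter (fun g : Perm B => g ∈ G ∧ g ≠ 1)).biUnion
        (fun g => univ.filter (fun M : B → Fin (Q ^ 3) => ∀ x, M (g x) = M x)) := by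
    intro M _
    obtain ⟨g, hg, h1, h2⟩ := hcon (fun x => (M x : ℕ)) (fun x => (M x).2)
    simp only [mem_biUnion, mem_filter, mem_univ, true_and]
    exact ⟨g, ⟨hg, h2⟩, fun x => Fin.ext (h1 x)⟩
  have h1 := (card_le_card hcover).trans card_biUnion_le
  simp only [card_univ, Fintype.card_fun, Fintype.card_fin] at h1
  have hQ' : (0 : ℝ) < Q := by exact_mod_cast hQ
  have hN : (0 : ℝ) < ((Q : ℝ) ^ 3) ^ Fintype.card B := by positivity
  have h2 : (((Q : ℝ) ^ 3) ^ Fintype.card B) ≤
      ∑ g ∈ univ.filter (fun g : Perm B => g ∈ G ∧ g ≠ 1),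
        ((Q : ℝ) ^ 3) ^ Fintype.card B * ((Q : ℝ) ^ g.support.card)⁻¹ := by
    have h3 : ((((Q ^ 3) ^ Fintype.card B : ℕ)) : ℝ) ≤ _ := Nat.cast_le.mpr h1
    push_cast at h3
    refine h3.trans (sum_le_sum fun g _ => ?_)
    have h4 : (((univ.filter (fun M : B → Fin (Q ^ 3) => ∀ x, M (g x) = M x)).card
        * Q ^ g.support.card : ℕ) : ℝ) ≤ (((Q ^ 3) ^ Fintype.card B : ℕ) : ℝ) :=
      Nat.cast_le.mpr (card_fixed_le g Q hQ)
    push_cast at h4
    rw [← div_eq_mul_inv, le_div_iff₀ (by positivity)]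
    exact h4
  rw [← mul_sum] at h2
  nlinarith

end Pool.Agent.MP_88b4a2_lc

end

section

/-! Two-transitive groups not containing the alternating group have a rigid colouring with a
bounded number of colours. -/

namespace Pool.Agent.MP_88b4a2_lc

open Equiv Finset

namespace TwoTrans

variable {B : Type} [Fintype B] [DecidableEq B]

open Classical in
/-- The elements of a subgroup as a finset. -/
noncomputable def el (H : Subgroup (Perm B)) : Finset (Perm B) := univ.filter (· ∈ H)

@[simp] lemma mem_el {H : Subgroup (Perm B)} {g : Perm B} : g ∈ el H ↔ g ∈ H := by simp [el]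

lemma el_pos (H : Subgroup (Perm B)) : 0 < (el H).card :=
  card_pos.2 ⟨1, mem_el.2 H.one_mem⟩

lemma fiber_card {X : Type} [DecidableEq X] [MulAction (Perm B) X] (H : Subgroup (Perm B))
    (a b : X) (h : Perm B) (hh : h ∈ H) (hab : h • a = b) :
    ((el H).filter (fun g => g • a = b)).card = ((el H).filter (fun g => g • a = a)).card := by
  refine card_nbij' (fun g => h⁻¹ * g) (fun g => h * g) ?_ ?_ ?_ ?_
  · intro g hg
    simp only [coe_filter, mem_el, Set.mem_ofPred_eq] at hg ⊢
    exact ⟨H.mul_mem (H.inv_mem hh) hg.1, by rw [mul_smul, hg.2, ← hab, inv_smul_smul]⟩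
  · intro g hg
    simp only [coe_filter, mem_el, Set.mem_ofPred_eq] at hg ⊢
    exact ⟨H.mul_mem hh hg.1, by rw [mul_smul, hg.2, hab]⟩
  · intro g _; simp
  · intro g _; simp

lemma count {X : Type} [DecidableEq X] [MulAction (Perm B) X] (H : Subgroup (Perm B))
    (a : X) (R : Finset X) (hR : ∀ b ∈ R, ∃ h ∈ H, h • a = b) :
    ((el H).filter (fun g => g • a ∈ R)).card
      = R.card * ((el H).filter (fun g => g • a = a)).card := by
  rw [card_eq_sum_card_fiberwise (f := fun g : Perm B => g • a) (t := R)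
    (by intro g hg; simpa using (mem_filter.1 (mem_coe.1 hg)).2)]
  rw [← smul_eq_mul, ← sum_const]
  refine sum_congr rfl fun b hb => ?_
  obtain ⟨h, hh, hab⟩ := hR b hb
  rw [← fiber_card H a b h hh hab, filter_filter]
  congr 1
  refine filter_congr fun g _ => ⟨fun h => h.2, fun h => ⟨h ▸ hb, h⟩⟩

/-- Uniform distribution of the image of a point on an orbit. -/
lemma count_orbit {X : Type} [DecidableEq X] [MulAction (Perm B) X] (H : Subgroup (Perm B))
    (a : X) (O R : Finset X) (hO : ∀ b ∈ O, ∃ h ∈ H, h • a = b) (hO' : ∀ h ∈ H, h • a ∈ O)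
    (hR : R ⊆ O) :
    ((el H).filter (fun g => g • a ∈ R)).card * O.card = R.card * (el H).card := by
  have h1 := count H a R (fun b hb => hO b (hR hb))
  have h2 := count H a O hO
  rw [filter_true_of_mem (fun g hg => hO' g (mem_el.1 hg))] at h2
  rw [h1, h2]; ring

/-- The pointwise stabiliser of a finite set inside a subgroup. -/
def fixing (G : Subgroup (Perm B)) (A : Finset B) : Subgroup (Perm B) where
  carrier := {g | g ∈ G ∧ ∀ a ∈ A, g a = a}
  mul_mem' := by
    rintro g h ⟨hg, hg'⟩ ⟨hh, hh'⟩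
    exact ⟨G.mul_mem hg hh, fun a ha => by simp [hh' a ha, hg' a ha]⟩
  one_mem' := ⟨G.one_mem, by simp⟩
  inv_mem' := by
    rintro g ⟨hg, hg'⟩
    exact ⟨G.inv_mem hg, fun a ha => by rw [Perm.inv_eq_iff_eq]; exact (hg' a ha).symm⟩

omit [Fintype B] [DecidableEq B] in
lemma ai (g : Perm B) (x : B) : g (g⁻¹ x) = x := by simp

omit [Fintype B] [DecidableEq B] in
lemma mem_fixing {G : Subgroup (Perm B)} {A : Finset B} {g : Perm B} :
    g ∈ fixing G A ↔ g ∈ G ∧ ∀ a ∈ A, g a = a := Iff.rfl

lemma support_comm (g h : Perm B) :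
    (g * h * g⁻¹ * h⁻¹).support ⊆ (g.support ∩ h.support) ∪ (g.support ∩ h.support).image g
      ∪ (g.support ∩ h.support).image h := by
  intro z hz
  by_contra hcon
  simp only [mem_union, mem_image, mem_inter, Perm.mem_support, not_or, not_exists, not_and]
    at hcon
  obtain ⟨⟨h1, h2⟩, h3⟩ := hcon
  rw [Perm.mem_support] at hz
  apply hz
  simp only [Perm.mul_apply]
  by_cases hg : g z = z
  · have hg' : g (h⁻¹ z) = h⁻¹ z := by
      by_contra hne
      by_cases hh : h z = z
      · apply hne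
        have : h⁻¹ z = z := by rw [Perm.inv_eq_iff_eq]; exact hh.symm
        rw [this, hg]
      · refine h3 (h⁻¹ z) ⟨hne, ?_⟩ (by simp)
        simp only [ai]
        intro h4
        apply hh
        conv_lhs => rw [h4]
        simp
    have : g⁻¹ (h⁻¹ z) = h⁻¹ z := by rw [Perm.inv_eq_iff_eq]; exact hg'.symm
    rw [this]; simp [hg]
  · have hh : h z = z := by
      by_contra hne
      exact h1 hg hne
    have h5 : h⁻¹ z = z := by rw [Perm.inv_eq_iff_eq]; exact hh.symm
    have h6 : h (g⁻¹ z) = g⁻¹ z := by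
      by_contra hne
      refine h2 (g⁻¹ z) ⟨?_, hne⟩ (by simp)
      simp only [ai]
      intro h4
      apply hg
      conv_lhs => rw [h4]
      simp
    rw [h5, h6]; simp

lemma four_le (G : Subgroup (Perm B))
    (h2 : ∀ x y x' y' : B, x ≠ y → x' ≠ y' → ∃ g ∈ G, g x = x' ∧ g y = y')
    (hA : ¬ alternatingGroup B ≤ G) (g : Perm B) (hg : g ∈ G) (h1 : g ≠ 1) :
    4 ≤ g.support.card := by
  have hp : MulAction.IsPreprimitive G B := by
    apply MulAction.isPreprimitive_of_is_two_pretransitive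
    rw [MulAction.is_two_pretransitive_iff]
    intro a b c d hab hcd
    obtain ⟨k, hk, e1, e2⟩ := h2 a b c d hab hcd
    exact ⟨⟨k, hk⟩, e1, e2⟩
  have h3 := Perm.two_le_card_support_of_ne_one h1
  by_contra hlt
  rcases (by omega : g.support.card = 2 ∨ g.support.card = 3) with h | h
  · apply hA
    rw [Perm.subgroup_eq_top_of_isPreprimitive_of_isSwap_mem hp g
      (Perm.card_support_eq_two.1 h) hg]
    exact le_top
  · exact hA (Perm.alternatingGroup_le_of_isPreprimitive_of_isThreeCycle_mem hp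
      (card_support_eq_three_iff.1 h) hg)

/-- Bochert type bound for the minimal degree. -/
lemma min_degree (G : Subgroup (Perm B))
    (h2 : ∀ x y x' y' : B, x ≠ y → x' ≠ y' → ∃ g ∈ G, g x = x' ∧ g y = y')
    (hA : ¬ alternatingGroup B ≤ G) (g0 : Perm B) (hg0 : g0 ∈ G) (h10 : g0 ≠ 1) :
    Fintype.card B ≤ 7 * g0.support.card := by
  classical
  obtain ⟨g, hg, hmin⟩ := exists_min_image ((el G).filter (· ≠ 1)) (fun g => g.support.card)
    ⟨g0, by simp [hg0, h10]⟩
  simp only [mem_filter, mem_el] at hg hmin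
  obtain ⟨hg, h1⟩ := hg
  refine le_trans ?_ (Nat.mul_le_mul_left 7 (hmin g0 ⟨hg0, h10⟩))
  have h4 := four_le G h2 hA g hg h1
  obtain ⟨x, hx⟩ : g.support.Nonempty := card_pos.1 (by omega)
  set s := g.support.card with hs
  set H := fixing G {x} with hH
  set S := g.support.erase x with hS
  have hScard : S.card + 1 = s := card_erase_add_one hx
  set O := (univ : Finset B).erase x with hO
  have hOcard : O.card + 1 = Fintype.card B := card_erase_add_one (mem_univ x)
  have hcount : ∀ z ∈ S, ((el H).filter (fun a => a z ∈ S)).card * O.card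
      = S.card * (el H).card := by
    intro z hz
    have hzx : z ≠ x := ne_of_mem_erase hz
    refine count_orbit H z O S ?_ ?_ (erase_subset_erase x (subset_univ _))
    · intro b hb
      obtain ⟨k, hk, e1, e2⟩ := h2 z x b x hzx (ne_of_mem_erase hb)
      exact ⟨k, ⟨hk, by simpa using e2⟩, e1⟩
    · intro k hk
      have hkx : k x = x := hk.2 x (mem_singleton_self x)
      simp only [hO, mem_erase, mem_univ, and_true, Perm.smul_def]
      intro h
      exact hzx (k.injective (h.trans hkx.symm))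
  have hgx : g x ∈ S := by
    rw [hS, mem_erase]
    exact ⟨Perm.mem_support.1 hx, Perm.apply_mem_support.2 hx⟩
  -- the sum of the intersection sizes
  have hsum : (∑ a ∈ el H, (S.filter (fun z => a z ∈ S)).card) * O.card
      = S.card * (S.card * (el H).card) := by
    have : ∑ a ∈ el H, (S.filter (fun z => a z ∈ S)).card
        = ∑ z ∈ S, ((el H).filter (fun a => a z ∈ S)).card := by
      simp only [card_filter]
      exact sum_comm
    rw [this, sum_mul, sum_congr rfl hcount, sum_const, smul_eq_mul]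
  have hbig : ∀ a ∈ (el H).filter (fun a => ¬ a (g x) ∈ S),
      s ≤ 6 * (S.filter (fun z => a z ∈ S)).card := by
    intro a ha
    rw [mem_filter, mem_el] at ha
    obtain ⟨⟨haG, hax⟩, hna⟩ := ha
    have hax' : a x = x := hax x (mem_singleton_self x)
    have hax'' : a⁻¹ x = x := by rw [Perm.inv_eq_iff_eq]; exact hax'.symm
    set h := a * g * a⁻¹ with hh
    have hhG : h ∈ G := G.mul_mem (G.mul_mem haG hg) (G.inv_mem haG)
    have hhx : h x = a (g x) := by rw [hh, Perm.mul_apply, Perm.mul_apply, hax'']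
    have hc : g * h * g⁻¹ * h⁻¹ ≠ 1 := by
      intro hc
      have hcomm : g * h = h * g := by
        rw [mul_inv_eq_one, mul_inv_eq_iff_eq_mul] at hc; exact hc
      apply hna
      rw [← hhx, hS, mem_erase, Perm.mem_support]
      constructor
      · rw [hhx]
        intro h5
        exact Perm.mem_support.1 hx (a.injective (h5.trans hax'.symm))
      · intro h5
        have h6 : h (g x) = h x := by
          rw [← h5]; exact (congrArg (fun k : Perm B => k x) hcomm).symm
        exact Perm.mem_support.1 hx (h.injective h6)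
    have hcG : g * h * g⁻¹ * h⁻¹ ∈ G :=
      G.mul_mem (G.mul_mem (G.mul_mem hg hhG) (G.inv_mem hg)) (G.inv_mem hhG)
    have h7 := (hmin _ ⟨hcG, hc⟩).trans (card_le_card (support_comm g h))
    set I := g.support ∩ h.support with hI
    have h8 : (I ∪ I.image g ∪ I.image h).card ≤ 3 * I.card := by
      have e1 := card_union_le (I ∪ I.image g) (I.image h)
      have e2 := card_union_le I (I.image g)
      have e3 := card_image_le (s := I) (f := g)
      have e4 := card_image_le (s := I) (f := h)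
      omega
    have h9 : I.card ≤ (S.filter (fun z => a z ∈ S)).card + 1 := by
      have : I ⊆ insert x ((S.filter (fun z => a z ∈ S)).image a) := by
        intro w hw
        rw [hI, mem_inter] at hw
        by_cases hwx : w = x
        · simp [hwx]
        · refine mem_insert_of_mem (mem_image.2 ⟨a⁻¹ w, mem_filter.2 ⟨?_, ?_⟩, by simp⟩)
          · rw [hS, mem_erase, Perm.mem_support]
            constructor
            · intro h5
              apply hwx
              rw [Perm.inv_eq_iff_eq] at h5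
              rw [h5, hax']
            · intro h5
              apply Perm.mem_support.1 hw.2
              rw [hh, Perm.mul_apply, Perm.mul_apply, h5, ai]
          · simp only [ai, hS, mem_erase]
            exact ⟨hwx, hw.1⟩
      exact (card_le_card this).trans ((card_insert_le _ _).trans
        (by have := card_image_le (s := S.filter (fun z => a z ∈ S)) (f := a); omega))
    omega
  have hlow : s * ((el H).filter (fun a => ¬ a (g x) ∈ S)).card
      ≤ 6 * ∑ a ∈ el H, (S.filter (fun z => a z ∈ S)).card := by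
    rw [mul_comm, ← smul_eq_mul, ← sum_const, mul_sum]
    exact (sum_le_sum hbig).trans (sum_le_sum_of_subset (filter_subset _ _))
  have hsplit := card_filter_add_card_filter_not (s := el H) (fun a => a (g x) ∈ S)
  have hc := hcount _ hgx
  have hpos := el_pos H
  set N := (el H).card
  set u := ((el H).filter (fun a => a (g x) ∈ S)).card
  set v := ((el H).filter (fun a => ¬ a (g x) ∈ S)).card
  set T := ∑ a ∈ el H, (S.filter (fun z => a z ∈ S)).card
  set m := O.card
  set r := S.card
  have key : s * (N * m) ≤ 6 * (r * (r * N)) + s * (r * N) := by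
    calc s * (N * m) = s * v * m + s * (u * m) := by rw [← hsplit]; ring
      _ ≤ 6 * T * m + s * (u * m) := by gcongr
      _ = _ := by rw [hc, mul_assoc, hsum]
  have key2 : s * m ≤ 6 * (r * r) + s * r := by
    apply Nat.le_of_mul_le_mul_right _ hpos
    calc s * m * N = s * (N * m) := by ring
      _ ≤ _ := key
      _ = _ := by ring
  have key3 : s * m ≤ s * (7 * r) := by
    have : r * r ≤ s * r := Nat.mul_le_mul_right _ (by omega)
    nlinarith
  have := Nat.le_of_mul_le_mul_left key3 (by omega)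
  omega

open Classical in
/-- The orbit of a point under the pointwise stabiliser of a set. -/
noncomputable def orb (G : Subgroup (Perm B)) (A : Finset B) (z : B) : Finset B :=
  univ.filter (fun w => ∃ g ∈ fixing G A, g z = w)

lemma mem_orb {G : Subgroup (Perm B)} {A : Finset B} {z w : B} :
    w ∈ orb G A z ↔ ∃ g ∈ fixing G A, g z = w := by simp [orb]

lemma card_fixing_insert (G : Subgroup (Perm B)) (A : Finset B) (z : B) :
    (el (fixing G A)).card = (orb G A z).card * (el (fixing G (insert z A))).card := by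
  have h := count (fixing G A) z (orb G A z) (fun b hb => mem_orb.1 hb)
  rw [filter_true_of_mem (p := fun g : Perm B => g • z ∈ orb G A z)
    (fun g hg => mem_orb.2 ⟨g, mem_el.1 hg, rfl⟩)] at h
  rw [h]
  congr 2
  ext g
  simp only [mem_filter, mem_el, mem_fixing, mem_insert, forall_eq_or_imp, Perm.smul_def]
  tauto

lemma grow (G : Subgroup (Perm B)) (t : ℕ) (c : ℝ) (hc : 1 ≤ c)
    (h : ∀ A : Finset B, A.card ≤ t → ∃ z, c < (orb G A z).card) (j : ℕ) (hj : j ≤ t) :
    ∃ A : Finset B, A.card = j ∧ c ^ j * (el (fixing G A)).card ≤ (el G).card := by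
  induction j with
  | zero =>
    refine ⟨∅, rfl, ?_⟩
    simp only [pow_zero, one_mul, Nat.cast_le]
    exact card_le_card fun g hg => mem_el.2 (mem_el.1 hg).1
  | succ j ih =>
    obtain ⟨A, hA, hle⟩ := ih (by omega)
    obtain ⟨z, hz⟩ := h A (by omega)
    have hzA : z ∉ A := by
      intro hzA
      have : orb G A z ⊆ {z} := by
        intro w hw
        obtain ⟨g, hg, rfl⟩ := mem_orb.1 hw
        simp [hg.2 z hzA]
      have h1 : ((orb G A z).card : ℝ) ≤ 1 := by exact_mod_cast (card_le_card this)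
      linarith
    refine ⟨insert z A, by rw [card_insert_of_notMem hzA, hA], le_trans ?_ hle⟩
    rw [card_fixing_insert G A z, pow_succ, mul_assoc]
    push_cast
    gcongr

lemma realise (G : Subgroup (Perm B)) {ι : Type} [Fintype ι] [DecidableEq ι] (x : ι → B)
    (A : Finset B) (hA : ∀ g : Perm B, (∀ i, g (x i) = x i) → ∀ a ∈ A, g a = a)
    (h : Fintype.card B ^ Fintype.card ι * (el (fixing G A)).card < 2 * (el G).card)
    (σ : ι → ι) (hσ : Function.Surjective σ) : ∃ g ∈ G, ∀ i, g (x i) = x (σ i) := by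
  classical
  set O : Finset (ι → B) := (el G).image (fun g => g • x) with hO
  have h1 := count G x O (by
    intro b hb
    obtain ⟨g, hg, rfl⟩ := mem_image.1 hb
    exact ⟨g, mem_el.1 hg, rfl⟩)
  rw [filter_true_of_mem (fun g hg => mem_image_of_mem _ hg)] at h1
  have h2 : ((el G).filter (fun g => g • x = x)).card ≤ (el (fixing G A)).card := by
    refine card_le_card fun g hg => ?_
    rw [mem_filter, mem_el] at hg
    exact mem_el.2 ⟨hg.1, hA g fun i => congrFun hg.2 i⟩
  have h3 : Fintype.card B ^ Fintype.card ι < 2 * O.card := by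
    refine lt_of_mul_lt_mul_right (a := (el (fixing G A)).card) (h.trans_le ?_) (Nat.zero_le _)
    rw [h1, mul_assoc]
    gcongr
  set O' : Finset (ι → B) := O.image (fun w => w ∘ σ) with hO'
  have h4 : O'.card = O.card :=
    card_image_of_injective _ (fun w w' hw => hσ.injective_comp_right hw)
  have h5 : ¬ Disjoint O O' := by
    intro hd
    have := card_le_univ (O ∪ O')
    rw [card_union_of_disjoint hd, Fintype.card_fun] at this
    omega
  obtain ⟨w, hw, hw'⟩ := not_disjoint_iff.1 h5
  obtain ⟨g, hg, rfl⟩ := mem_image.1 hw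
  obtain ⟨w', hw'', he⟩ := mem_image.1 hw'
  obtain ⟨k, hk, rfl⟩ := mem_image.1 hw''
  refine ⟨k⁻¹ * g, G.mul_mem (G.inv_mem (mem_el.1 hk)) (mem_el.1 hg), fun i => ?_⟩
  have : k (x (σ i)) = g (x i) := congrFun he i
  rw [Perm.mul_apply, ← this]; simp

lemma exists_primes (y : ℕ) (hy : 0 < y) (k : ℕ) :
    ∃ P : Finset ℕ, P.card = k ∧ ∀ p ∈ P, p.Prime ∧ y < p ∧ p ≤ 2 ^ k * y := by
  induction k with
  | zero => exact ⟨∅, rfl, by simp⟩
  | succ k ih =>
    obtain ⟨P, hP, h⟩ := ih
    obtain ⟨p, hp, h1, h2⟩ := Nat.exists_prime_lt_and_le_two_mul (2 ^ k * y) (by positivity)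
    have h3 : y ≤ 2 ^ k * y := Nat.le_mul_of_pos_left _ (by positivity)
    have hpP : p ∉ P := fun hm => absurd (h p hm).2.2 (by omega)
    refine ⟨insert p P, by rw [card_insert_of_notMem hpP, hP], ?_⟩
    intro r hr
    rcases mem_insert.1 hr with rfl | hr
    · exact ⟨hp, by omega, by rw [pow_succ]; linarith⟩
    · obtain ⟨e1, e2, e3⟩ := h r hr
      exact ⟨e1, e2, by rw [pow_succ]; linarith⟩

lemma no_cycles (G : Subgroup (Perm B))
    (hmin : ∀ g ∈ G, g ≠ 1 → Fintype.card B ≤ 7 * g.support.card) (y : ℕ)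
    (hy : Fintype.card B < y ^ 3) (P : Finset ℕ) (hP : P.card = 15)
    (hP' : ∀ p ∈ P, p.Prime ∧ y < p) (g : Perm B) (hg : g ∈ G)
    (hcyc : ∀ p ∈ P, ∃ b : B, ∀ E : ℕ, (g ^ E) b = b → p ∣ E) : False := by
  classical
  set l : B → ℕ := fun b => Function.minimalPeriod g b with hl
  have hl0 : ∀ b, 0 < l b := fun b =>
    Function.minimalPeriod_pos_of_mem_periodicPts (g.injective.mem_periodicPts b)
  have hln : ∀ b, l b ≤ Fintype.card B := fun b => Function.minimalPeriod_le_card
  have hfix : ∀ b E, l b ∣ E → (g ^ E) b = b := by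
    intro b E hE
    have := Function.isPeriodicPt_iff_minimalPeriod_dvd.2 hE
    rw [Perm.coe_pow]
    exact this
  have h2 : ∀ b, (P.filter (fun p => p ∣ l b)).card ≤ 2 := by
    intro b
    by_contra hlt
    have e1 : ∏ p ∈ P.filter (fun p => p ∣ l b), p ∣ l b :=
      prod_primes_dvd _ (fun p hp => (hP' p (mem_filter.1 hp).1).1.prime)
        (fun p hp => (mem_filter.1 hp).2)
    have e2 := Nat.le_of_dvd (hl0 b) e1
    have hy1 : 1 ≤ y := by
      rcases Nat.eq_zero_or_pos y with rfl | h
      · simp at hy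
      · exact h
    have e3 : y ^ (P.filter (fun p => p ∣ l b)).card ≤ ∏ p ∈ P.filter (fun p => p ∣ l b), p :=
      pow_card_le_prod _ _ _ (fun p hp => (hP' p (mem_filter.1 hp).1).2.le)
    have e4 : y ^ 3 ≤ y ^ (P.filter (fun p => p ∣ l b)).card :=
      Nat.pow_le_pow_right hy1 (by omega)
    have := hln b
    omega
  have hsum : ∑ p ∈ P, (univ.filter (fun b => p ∣ l b)).card ≤ 2 * Fintype.card B := by
    have : ∑ p ∈ P, (univ.filter (fun b => p ∣ l b)).card
        = ∑ b : B, (P.filter (fun p => p ∣ l b)).card := by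
      simp only [card_filter]
      exact sum_comm
    rw [this]
    calc _ ≤ ∑ _b : B, 2 := sum_le_sum fun b _ => h2 b
      _ = _ := by simp [mul_comm]
  have hall : ∀ p ∈ P, Fintype.card B ≤ 7 * (univ.filter (fun b => p ∣ l b)).card ∧
      0 < Fintype.card B := by
    intro p hp
    obtain ⟨b, hb⟩ := hcyc p hp
    set E := ∏ b ∈ univ.filter (fun b => ¬ p ∣ l b), l b with hE
    have hpE : ¬ p ∣ E := by
      rw [hE, (hP' p hp).1.prime.dvd_finsetProd_iff]
      rintro ⟨b, hb, hb'⟩
      exact (mem_filter.1 hb).2 hb'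
    have hne : g ^ E ≠ 1 := fun h => hpE (hb E (by rw [h]; rfl))
    refine ⟨(hmin _ (G.pow_mem hg E) hne).trans (Nat.mul_le_mul_left 7 (card_le_card ?_)),
      Fintype.card_pos_iff.2 ⟨b⟩⟩
    intro w hw
    rw [mem_filter]
    refine ⟨mem_univ _, ?_⟩
    by_contra hn
    exact Perm.mem_support.1 hw (hfix w E (dvd_prod_of_mem _ (by simpa using hn)))
  have h3 : ∑ _p ∈ P, Fintype.card B ≤ ∑ p ∈ P, 7 * (univ.filter (fun b => p ∣ l b)).card :=
    sum_le_sum fun p hp => (hall p hp).1
  rw [sum_const, hP, ← mul_sum, smul_eq_mul] at h3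
  obtain ⟨p, hp⟩ : P.Nonempty := card_pos.1 (by omega)
  have := (hall p hp).2
  omega

/-- A small set whose pointwise stabiliser has no very long orbit. -/
lemma exists_small (G : Subgroup (Perm B))
    (hmin : ∀ g ∈ G, g ≠ 1 → Fintype.card B ≤ 7 * g.support.card) (y : ℕ) (hy0 : 0 < y)
    (hy : Fintype.card B < y ^ 3) (hn : 2 ≤ Fintype.card B) :
    ∃ t : ℕ, 0 < t ∧ t ≤ 2 ^ 19 * y ∧ ∃ A : Finset B, A.card ≤ t ∧
      ∀ z, ((orb G A z).card : ℝ) ≤ (1 - 1 / (4 * t)) * Fintype.card B := by
  classical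
  obtain ⟨P, hP, hP'⟩ := exists_primes y hy0 15
  have : ∀ p : P, NeZero (p : ℕ) := fun p => ⟨(hP' p p.2).1.ne_zero⟩
  let ι := (p : P) × ZMod p
  set t := Fintype.card ι with ht
  have hts : t = ∑ p ∈ P, p := by
    rw [ht, Fintype.card_sigma]
    simp only [ZMod.card]
    exact sum_coe_sort P (fun p => p)
  have htle : t ≤ 2 ^ 19 * y := by
    rw [hts]
    calc _ ≤ ∑ _p ∈ P, 2 ^ 15 * y := sum_le_sum fun p hp => (hP' p hp).2.2
      _ = 15 * (2 ^ 15 * y) := by rw [sum_const, hP, smul_eq_mul]
      _ ≤ _ := by omega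
  have ht0 : 0 < t := by
    obtain ⟨p, hp⟩ : P.Nonempty := card_pos.1 (by omega)
    rw [hts]
    exact lt_of_lt_of_le (hP' p hp).1.pos (single_le_sum (f := fun p => p) (by simp) hp)
  refine ⟨t, ht0, htle, ?_⟩
  by_contra hcon
  push Not at hcon
  have ht1 : (1 : ℝ) ≤ t := by exact_mod_cast ht0
  have hn' : (2 : ℝ) ≤ Fintype.card B := by exact_mod_cast hn
  have hb : (1 : ℝ) / (4 * t) ≤ 1 / 4 := by
    apply one_div_le_one_div_of_le <;> linarith
  obtain ⟨A, hA, hle⟩ := grow G t _ (by nlinarith) hcon t le_rfl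
  have hber : (3 : ℝ) / 4 ≤ (1 - 1 / (4 * t)) ^ t := by
    have := one_add_mul_le_pow (a := -(1 / (4 * (t : ℝ)))) (by linarith) t
    have e : 1 + (t : ℝ) * -(1 / (4 * t)) = 3 / 4 := by field_simp; ring
    rw [e, ← sub_eq_add_neg] at this
    exact this
  have hlt : Fintype.card B ^ Fintype.card ι * (el (fixing G A)).card < 2 * (el G).card := by
    have hpos : (0 : ℝ) < (Fintype.card B : ℝ) ^ t * (el (fixing G A)).card := by
      have := el_pos (fixing G A)
      positivity
    rw [mul_pow, mul_assoc] at hle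
    have : (Fintype.card B : ℝ) ^ t * (el (fixing G A)).card < 2 * (el G).card := by nlinarith
    exact_mod_cast this
  obtain ⟨e⟩ : Nonempty (ι ≃ A) := Fintype.card_eq.1 (by simp [hA, ht])
  obtain ⟨g, hg, hgx⟩ := realise G (fun i => (e i : B)) A
    (fun g hg a ha => by simpa using hg (e.symm ⟨a, ha⟩)) hlt
    (fun i => ⟨i.1, i.2 + 1⟩) (fun i => ⟨⟨i.1, i.2 - 1⟩, by simp⟩)
  refine no_cycles G hmin y hy P hP (fun p hp => ⟨(hP' p hp).1, (hP' p hp).2.1⟩) g hg ?_
  intro p hp
  refine ⟨e ⟨⟨p, hp⟩, 0⟩, fun E hE => ?_⟩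
  have hpow : ∀ E : ℕ, (g ^ E) (e ⟨⟨p, hp⟩, 0⟩) = e ⟨⟨p, hp⟩, (E : ZMod p)⟩ := by
    intro E
    induction E with
    | zero => simp
    | succ E ih => rw [pow_succ', Perm.mul_apply, ih, hgx]; simp
  rw [hpow] at hE
  have h1 := e.injective (Subtype.ext hE)
  have h2 : (E : ZMod p) = 0 := eq_of_heq (Sigma.mk.inj_iff.1 h1).2
  exact (ZMod.natCast_eq_zero_iff E p).1 h2

open Classical in
/-- Ordered pairs of distinct points in one orbit of the pointwise stabiliser. -/
noncomputable def pairs (G : Subgroup (Perm B)) (A : Finset B) : Finset (B × B) :=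
  univ.filter (fun p => p.1 ≠ p.2 ∧ ∃ g ∈ fixing G A, g p.1 = p.2)

lemma mem_pairs {G : Subgroup (Perm B)} {A : Finset B} {p : B × B} :
    p ∈ pairs G A ↔ p.1 ≠ p.2 ∧ ∃ g ∈ fixing G A, g p.1 = p.2 := by simp [pairs]

lemma card_pairs (G : Subgroup (Perm B)) (A : Finset B) (c : ℝ)
    (h : ∀ z, ((orb G A z).card : ℝ) ≤ c) :
    ((pairs G A).card : ℝ) ≤ Fintype.card B * (c - 1) := by
  rw [card_eq_sum_card_fiberwise (f := Prod.fst) (t := univ) (by simp)]
  push_cast
  calc _ ≤ ∑ _z : B, (c - 1) := sum_le_sum fun z _ => ?_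
    _ = _ := by simp [mul_sub]
  have hz : z ∈ orb G A z := mem_orb.2 ⟨1, one_mem _, rfl⟩
  have h1 : ((pairs G A).filter (fun p => p.1 = z)).card ≤ ((orb G A z).erase z).card := by
    refine card_le_card_of_injOn Prod.snd ?_ ?_
    · intro p hp
      rw [mem_coe, mem_filter, mem_pairs] at hp
      obtain ⟨⟨h1, g, hg, h2⟩, rfl⟩ := hp
      exact mem_coe.2 (mem_erase.2 ⟨h1.symm, mem_orb.2 ⟨g, hg, h2⟩⟩)
    · intro p hp p' hp' he
      exact Prod.ext ((mem_filter.1 (mem_coe.1 hp)).2.trans (mem_filter.1 (mem_coe.1 hp')).2.symm)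
        he
  have h2 := card_erase_add_one hz
  have h3 : (((pairs G A).filter (fun p => p.1 = z)).card : ℝ) + 1 ≤ (orb G A z).card := by
    exact_mod_cast (by omega)
  linarith [h z]

lemma shrink (G : Subgroup (Perm B))
    (h2 : ∀ x y x' y' : B, x ≠ y → x' ≠ y' → ∃ g ∈ G, g x = x' ∧ g y = y')
    (hn : 2 ≤ Fintype.card B) (A : Finset B) (β : ℝ) (hβ : β ≤ 1)
    (h : ∀ z, ((orb G A z).card : ℝ) ≤ β * Fintype.card B) (S : Finset B) :
    ∃ S' : Finset B, S'.card ≤ S.card + A.card ∧
      ((pairs G S').card : ℝ) ≤ β * (pairs G S).card := by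
  classical
  set O := (univ : Finset B).offDiag with hO
  have hOc : (O.card : ℝ) = Fintype.card B * (Fintype.card B - 1) := by
    rw [hO, offDiag_card, card_univ, Nat.cast_sub (Nat.le_mul_self _)]
    push_cast; ring
  have hn' : (2 : ℝ) ≤ Fintype.card B := by exact_mod_cast hn
  have hOpos : (0 : ℝ) < O.card := by rw [hOc]; apply mul_pos <;> linarith
  have hA : ((pairs G A).card : ℝ) ≤ β * O.card := by
    refine (card_pairs G A _ h).trans ?_
    rw [hOc]; nlinarith
  have hcount : ∀ p ∈ pairs G S, (((el G).filter (fun g => g • p ∈ pairs G A)).card : ℝ)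
      ≤ β * (el G).card := by
    intro p hp
    have hp1 := (mem_pairs.1 hp).1
    have := count_orbit G p O (pairs G A) (by
        intro b hb
        obtain ⟨k, hk, e1, e2⟩ := h2 p.1 p.2 b.1 b.2 hp1 (mem_offDiag.1 hb).2.2
        exact ⟨k, hk, Prod.ext e1 e2⟩)
      (by
        intro k _
        exact mem_offDiag.2 ⟨mem_univ _, mem_univ _, fun he => hp1 (k.injective he)⟩)
      (by
        intro b hb
        exact mem_offDiag.2 ⟨mem_univ _, mem_univ _, (mem_pairs.1 hb).1⟩)
    have h3 : (((el G).filter (fun g => g • p ∈ pairs G A)).card : ℝ) * O.card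
        = (pairs G A).card * (el G).card := by exact_mod_cast this
    refine le_of_mul_le_mul_right ?_ hOpos
    rw [h3]
    calc _ ≤ β * O.card * (el G).card := by gcongr
      _ = _ := by ring
  have hsum : ∑ g ∈ el G, (((pairs G S).filter (fun p => g • p ∈ pairs G A)).card : ℝ)
      ≤ ∑ _g ∈ el G, β * (pairs G S).card := by
    have : ∑ g ∈ el G, ((pairs G S).filter (fun p => g • p ∈ pairs G A)).card
        = ∑ p ∈ pairs G S, ((el G).filter (fun g => g • p ∈ pairs G A)).card := by
      simp only [card_filter]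
      exact sum_comm
    rw [← Nat.cast_sum, this, Nat.cast_sum]
    calc _ ≤ ∑ _p ∈ pairs G S, β * (el G).card := sum_le_sum hcount
      _ = _ := by simp only [sum_const, nsmul_eq_mul]; ring
  obtain ⟨g, hg, hle⟩ := exists_le_of_sum_le (card_pos.1 (el_pos G)) hsum
  have hg := mem_el.1 hg
  refine ⟨S ∪ A.image (⇑g⁻¹), (card_union_le _ _).trans (Nat.add_le_add_left card_image_le _),
    le_trans ?_ hle⟩
  refine Nat.cast_le.2 (card_le_card fun p hp => ?_)
  obtain ⟨h1, k, hk, h3⟩ := mem_pairs.1 hp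
  refine mem_filter.2 ⟨mem_pairs.2 ⟨h1, k, ⟨hk.1, fun a ha => hk.2 a (mem_union_left _ ha)⟩, h3⟩,
    mem_pairs.2 ⟨fun he => h1 (g.injective he), g * k * g⁻¹,
      ⟨G.mul_mem (G.mul_mem hg hk.1) (G.inv_mem hg), fun a ha => ?_⟩, ?_⟩⟩
  · rw [Perm.mul_apply, Perm.mul_apply, hk.2 _ (mem_union_right _ (mem_image_of_mem _ ha)), ai]
  · simp [h3]

lemma card_le_of_base (G : Subgroup (Perm B)) (S : Finset B) :
    (el G).card ≤ Fintype.card B ^ S.card * (el (fixing G S)).card := by
  induction S using Finset.induction_on with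
  | empty =>
    simp only [card_empty, pow_zero, one_mul]
    exact card_le_card fun g hg => mem_el.2 ⟨mem_el.1 hg, by simp⟩
  | insert z S hz ih =>
    rw [card_insert_of_notMem hz, pow_succ, mul_assoc]
    refine ih.trans (Nat.mul_le_mul_left _ ?_)
    rw [card_fixing_insert G S z]
    exact Nat.mul_le_mul_right _ (card_le_univ _)

lemma sq_le_two_pow (u : ℕ) : u ^ 2 ≤ 2 * 2 ^ u := by
  induction u with
  | zero => simp
  | succ u ih =>
    rcases Nat.lt_or_ge u 3 with h | h
    · interval_cases u <;> simp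
    · rw [pow_succ 2 u]; nlinarith

lemma card_bound : ∃ K : ℕ, ∀ (B : Type) [Fintype B] [DecidableEq B] (G : Subgroup (Perm B)),
    (∀ x y x' y' : B, x ≠ y → x' ≠ y' → ∃ g ∈ G, g x = x' ∧ g y = y') →
    ¬ alternatingGroup B ≤ G → 2 ≤ Fintype.card B →
    (el G).card ≤ 2 ^ (K * Fintype.card B) := by
  refine ⟨72 * 2 ^ 42, fun B _ _ G h2 hA hn => ?_⟩
  set n := Fintype.card B with hnn
  set u := Nat.log 8 n + 1 with hu
  have hu1 : n < 8 ^ u := Nat.lt_pow_succ_log_self (by norm_num) n
  have hu2 : 8 ^ u ≤ 8 * n := by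
    rw [hu, pow_succ, mul_comm]
    exact Nat.mul_le_mul_left 8 (Nat.pow_log_le_self 8 (by omega))
  have hy3 : (2 ^ u) ^ 3 = 8 ^ u := by rw [← pow_mul, mul_comm, pow_mul]; norm_num
  obtain ⟨t, ht0, htle, A, hAt, hA'⟩ := exists_small G (min_degree G h2 hA) (2 ^ u)
    (by positivity) (by rw [hy3]; exact hu1) hn
  set β : ℝ := 1 - 1 / (4 * t) with hβ
  have ht1 : (1 : ℝ) ≤ t := by exact_mod_cast ht0
  have hb : (1 : ℝ) / (4 * t) ≤ 1 / 4 := by
    apply one_div_le_one_div_of_le <;> linarith
  have hb0 : (0 : ℝ) < 1 / (4 * t) := by positivity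
  have hβ0 : 0 ≤ β := by linarith
  have hiter : ∀ k : ℕ, ∃ S : Finset B, S.card ≤ k * t ∧
      ((pairs G S).card : ℝ) ≤ β ^ k * (n : ℝ) ^ 2 := by
    intro k
    induction k with
    | zero =>
      refine ⟨∅, by simp, ?_⟩
      have := card_le_univ (pairs G ∅)
      rw [Fintype.card_prod, ← sq] at this
      rw [pow_zero, one_mul]
      exact_mod_cast this
    | succ k ih =>
      obtain ⟨S, hS, hS'⟩ := ih
      obtain ⟨S', e1, e2⟩ := shrink G h2 hn A β (by linarith) hA' S
      refine ⟨S', by nlinarith, e2.trans ?_⟩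
      rw [pow_succ', mul_assoc]
      gcongr
  have hhalf : β ^ (4 * t) ≤ 1 / 2 := by
    have e1 := one_add_mul_le_pow (a := (1 / (4 * (t : ℝ)))) (by linarith) (4 * t)
    have e2 : 1 + ((4 * t : ℕ) : ℝ) * (1 / (4 * t)) = 2 := by push_cast; field_simp; ring
    rw [e2] at e1
    have e3 : β ^ (4 * t) * (1 + 1 / (4 * (t : ℝ))) ^ (4 * t) ≤ 1 := by
      rw [← mul_pow]
      apply pow_le_one₀
      · positivity
      · rw [hβ]; nlinarith
    have e4 : 0 ≤ β ^ (4 * t) := by positivity
    nlinarith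
  obtain ⟨S, hS, hS'⟩ := hiter (4 * t * (6 * u))
  have hempty : pairs G S = ∅ := by
    rw [← card_eq_zero]
    have e1 : β ^ (4 * t * (6 * u)) ≤ (1 / 2) ^ (6 * u) := by
      rw [pow_mul]; gcongr
    have e2 : (n : ℝ) ^ 2 < 2 ^ (6 * u) := by
      have : n ^ 2 < 2 ^ (6 * u) := by
        calc n ^ 2 < (8 ^ u) ^ 2 := Nat.pow_lt_pow_left hu1 (by norm_num)
          _ = 2 ^ (6 * u) := by rw [← hy3, ← pow_mul, ← pow_mul]; congr 1; ring
      exact_mod_cast this
    have e3 : ((1 : ℝ) / 2) ^ (6 * u) * 2 ^ (6 * u) = 1 := by rw [← mul_pow]; norm_num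
    have e4 : ((pairs G S).card : ℝ) < 1 := by
      calc _ ≤ β ^ (4 * t * (6 * u)) * (n : ℝ) ^ 2 := hS'
        _ ≤ (1 / 2) ^ (6 * u) * (n : ℝ) ^ 2 := by gcongr
        _ < (1 / 2) ^ (6 * u) * 2 ^ (6 * u) := by gcongr
        _ = 1 := e3
    have : (pairs G S).card < 1 := by exact_mod_cast e4
    omega
  have hone : (el (fixing G S)).card ≤ 1 := by
    refine card_le_one.2 fun g hg g' hg' => ?_
    have : ∀ g ∈ el (fixing G S), g = 1 := by
      intro g hg
      ext z
      by_contra hne
      have : (z, g z) ∈ pairs G S :=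
        mem_pairs.2 ⟨fun he => hne he.symm, g, mem_el.1 hg, rfl⟩
      simp [hempty] at this
    rw [this g hg, this g' hg']
  have hn8 : n ≤ 2 ^ (3 * u) := by rw [mul_comm, pow_mul, hy3]; exact hu1.le
  calc (el G).card ≤ n ^ S.card * (el (fixing G S)).card := card_le_of_base G S
    _ ≤ (2 ^ (3 * u)) ^ S.card * 1 := by gcongr
    _ = 2 ^ (3 * u * S.card) := by rw [mul_one, ← pow_mul]
    _ ≤ _ := Nat.pow_le_pow_right (by norm_num) ?_
  have hu3 := sq_le_two_pow u
  generalize 2 ^ u = y at *
  calc 3 * u * S.card ≤ 3 * u * (4 * t * (6 * u) * t) := by gcongr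
    _ = 72 * u ^ 2 * t ^ 2 := by ring
    _ ≤ 72 * (2 * y) * (2 ^ 19 * y) ^ 2 := by gcongr
    _ = 72 * 2 ^ 39 * y ^ 3 := by ring
    _ ≤ 72 * 2 ^ 39 * (8 * n) := by rw [hy3]; gcongr
    _ = _ := by ring

end TwoTrans

open TwoTrans in
theorem rigid_two_trans : ∃ q : ℕ, ∀ (B : Type) [Fintype B] [DecidableEq B]
    (G : Subgroup (Perm B)),
    (∀ x y x' y' : B, x ≠ y → x' ≠ y' → ∃ g ∈ G, g x = x' ∧ g y = y') →
    ¬ alternatingGroup B ≤ G →
    ∃ M : B → ℕ, (∀ x, M x < q) ∧ ∀ g ∈ G, (∀ x, M (g x) = M x) → g = 1 := by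
  classical
  obtain ⟨K, hK⟩ := card_bound
  refine ⟨(2 ^ (7 * (K + 1))) ^ 3, fun B _ _ G h2 hA => ?_⟩
  rcases Nat.lt_or_ge (Fintype.card B) 2 with hn | hn
  · refine ⟨fun _ => 0, fun _ => by positivity, fun g _ _ => ?_⟩
    have : Subsingleton B := Fintype.card_le_one_iff_subsingleton.1 (by omega)
    exact Subsingleton.elim _ _
  refine rigid_of_sum G _ (by positivity) ?_
  have h1 : ((el G).card : ℝ) ≤ 2 ^ (K * Fintype.card B) := by exact_mod_cast hK B G h2 hA hn
  have hterm : ∀ g ∈ univ.filter (fun g : Perm B => g ∈ G ∧ g ≠ 1),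
      (((2 ^ (7 * (K + 1)) : ℕ) : ℝ) ^ g.support.card)⁻¹
        ≤ ((2 : ℝ) ^ ((K + 1) * Fintype.card B))⁻¹ := by
    intro g hg
    obtain ⟨hg, hg1⟩ := (mem_filter.1 hg).2
    have := min_degree G h2 hA g hg hg1
    push_cast
    rw [← pow_mul]
    apply inv_anti₀ (by positivity)
    apply pow_le_pow_right₀ (by norm_num)
    nlinarith
  refine lt_of_le_of_lt (sum_le_sum hterm) ?_
  rw [sum_const, nsmul_eq_mul, ← div_eq_mul_inv, div_lt_one (by positivity)]
  have h3 : ((univ.filter (fun g : Perm B => g ∈ G ∧ g ≠ 1)).card : ℝ) ≤ (el G).card :=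
    Nat.cast_le.2 (card_le_card fun g hg => mem_el.2 (mem_filter.1 hg).2.1)
  refine (h3.trans h1).trans_lt (pow_lt_pow_right₀ (by norm_num) ?_)
  nlinarith

end Pool.Agent.MP_88b4a2_lc

end

section

/-! Primitive permutation groups that are not doubly transitive have a colouring with boundedly
many colours that is fixed by no non-identity element (elementary, after Babai). -/

namespace Pool.Agent.MP_88b4a2_lc

open Equiv Finset

namespace UniPrim

variable {B : Type} [Fintype B] [DecidableEq B]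

/-- A nonempty set closed under an invariant relation with an off-diagonal pair is everything. -/
theorem closed_eq_univ (G : Subgroup (Perm B)) (hG : MulAction.IsPreprimitive G B)
    (E : B → B → Prop) (hE : ∀ g ∈ G, ∀ x y, E x y → E (g x) (g y))
    (a b : B) (hab : a ≠ b) (hEab : E a b)
    (S : B → Prop) (s : B) (hs : S s) (hS : ∀ x y, S x → E x y → S y) (t : B) : S t := by
  have htr : ∀ x y : B, ∃ g ∈ G, g x = y := by
    intro x y
    obtain ⟨g, hg⟩ := hG.toIsPretransitive.exists_smul_eq x y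
    exact ⟨g.1, g.2, hg⟩
  have hinv : ∀ g ∈ G, ∀ x y, Relation.ReflTransGen E x y →
      Relation.ReflTransGen E (g x) (g y) := by
    intro g hg x y h
    induction h with
    | refl => exact Relation.ReflTransGen.refl
    | tail _ h2 ih => exact ih.tail (hE g hg _ _ h2)
  have hstep : ∀ x y, E x y → Relation.ReflTransGen E y x := by
    intro x y hxy
    obtain ⟨g, hg, rfl⟩ := htr x y
    have key : ∀ k : ℕ, Relation.ReflTransGen E (g x) ((g ^ (k + 1)) x) := by
      intro k
      induction k with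
      | zero => simpa using Relation.ReflTransGen.refl
      | succ k ih =>
        refine ih.tail ?_
        have := hE (g ^ (k + 1)) (G.pow_mem hg _) x (g x) hxy
        rw [pow_succ g (k + 1), Perm.mul_apply]
        exact this
    have h1 := key (orderOf g - 1)
    rw [Nat.sub_add_cancel (orderOf_pos g), pow_orderOf_eq_one] at h1
    simpa using h1
  have hsymm : ∀ x y, Relation.ReflTransGen E x y → Relation.ReflTransGen E y x := by
    intro x y h
    induction h with
    | refl => exact Relation.ReflTransGen.refl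
    | tail _ h2 ih => exact (hstep _ _ h2).trans ih
  have hblock : MulAction.IsBlock G {y | Relation.ReflTransGen E a y} := by
    rw [MulAction.isBlock_iff_smul_eq_of_mem]
    intro g c hc hgc
    have hc' : Relation.ReflTransGen E a c := hc
    have hgc' : Relation.ReflTransGen E a (g.1 c) := hgc
    have hga : Relation.ReflTransGen E a (g.1 a) :=
      hgc'.trans (hsymm _ _ (hinv g.1 g.2 _ _ hc'))
    ext y
    rw [Set.mem_smul_set_iff_inv_smul_mem]
    constructor
    · intro h
      have h1 : Relation.ReflTransGen E a ((g.1)⁻¹ y) := h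
      have h2 := hinv g.1 g.2 _ _ h1
      simp only [Perm.coe_inv, Equiv.apply_symm_apply] at h2
      exact hga.trans h2
    · intro h
      have h1 : Relation.ReflTransGen E a y := h
      have h2 := hinv (g.1)⁻¹ (G.inv_mem g.2) _ _ ((hsymm _ _ hga).trans h1)
      have h3 : (g.1)⁻¹ (g.1 a) = a := by simp
      rw [h3] at h2
      exact h2
  have hall : ∀ y, Relation.ReflTransGen E a y := by
    rcases hG.isTrivialBlock_of_isBlock hblock with h | h
    · exact absurd (h (show a ∈ {y | Relation.ReflTransGen E a y} from Relation.ReflTransGen.refl)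
        (show b ∈ {y | Relation.ReflTransGen E a y} from Relation.ReflTransGen.single hEab)) hab
    · intro y
      have : y ∈ {y | Relation.ReflTransGen E a y} := h ▸ Set.mem_univ y
      exact this
  have hst : Relation.ReflTransGen E s t := (hsymm _ _ (hall s)).trans (hall t)
  induction hst with
  | refl => exact hs
  | tail _ h2 ih => exact hS _ _ ih h2

open Classical in
/-- The points `z` whose stabiliser does not move `x` to `y`. -/
noncomputable def dset (G : Subgroup (Perm B)) (x y : B) : Finset B :=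
  univ.filter (fun z => ¬ ∃ g ∈ G, g x = y ∧ g z = z)

theorem mem_dset {G : Subgroup (Perm B)} {x y z : B} :
    z ∈ dset G x y ↔ ¬ ∃ g ∈ G, g x = y ∧ g z = z := by
  simp [dset]

theorem dset_self (G : Subgroup (Perm B)) (x : B) : dset G x x = ∅ := by
  ext z
  simp only [mem_dset, notMem_empty, iff_false, not_not]
  exact ⟨1, G.one_mem, rfl, rfl⟩

theorem dset_symm (G : Subgroup (Perm B)) (x y : B) : dset G x y = dset G y x := by
  have : ∀ x y z : B, (∃ g ∈ G, g x = y ∧ g z = z) → ∃ g ∈ G, g y = x ∧ g z = z := by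
    rintro x y z ⟨g, hg, rfl, h2⟩
    refine ⟨g⁻¹, G.inv_mem hg, by simp, ?_⟩
    rw [Perm.inv_eq_iff_eq, h2]
  ext z
  simp only [mem_dset]
  exact not_congr ⟨this _ _ _, this _ _ _⟩

theorem dset_tri (G : Subgroup (Perm B)) (x w y : B) :
    (dset G x y).card ≤ (dset G x w).card + (dset G w y).card := by
  refine le_trans (card_le_card ?_) (card_union_le _ _)
  intro z hz
  by_contra hcon
  simp only [mem_union, mem_dset, not_or, not_not] at hcon hz
  obtain ⟨⟨g, hg, h1, h2⟩, ⟨h, hh, h3, h4⟩⟩ := hcon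
  exact hz ⟨h * g, G.mul_mem hh hg, by simp [h1, h3], by simp [h2, h4]⟩

theorem dset_inv (G : Subgroup (Perm B)) (g : Perm B) (hg : g ∈ G) (x y : B) :
    (dset G (g x) (g y)).card ≤ (dset G x y).card := by
  refine card_le_card_of_injOn (fun z => g⁻¹ z) ?_ (fun a _ b _ h => (g⁻¹).injective h)
  intro z hz
  simp only [mem_coe, mem_dset] at hz ⊢
  rintro ⟨h, hh, h1, h2⟩
  refine hz ⟨g * h * g⁻¹, G.mul_mem (G.mul_mem hg hh) (G.inv_mem hg), by simp [h1], ?_⟩
  simp only [Perm.mul_apply, h2]
  simp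

open Classical in
/-- Every other point distinguishes `x` from one of its neighbours. -/
theorem card_le_sum (G : Subgroup (Perm B)) (hG : MulAction.IsPreprimitive G B)
    (E : B → B → Prop) (hE : ∀ g ∈ G, ∀ x y, E x y → E (g x) (g y))
    (a b : B) (hab : a ≠ b) (hEab : E a b) (x : B) (K : ℕ)
    (hK : ∀ w, E x w → (dset G x w).card ≤ K) :
    Fintype.card B - 1 ≤ (univ.filter (fun w => E x w)).card * K := by
  have hsub : univ.erase x ⊆ (univ.filter (fun w => E x w)).biUnion (fun w => dset G x w) := by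
    intro z hz
    by_contra hcon
    simp only [mem_biUnion, mem_filter, mem_univ, true_and, mem_dset, not_exists, not_and,
      not_forall, not_not] at hcon
    have hz' : z ≠ x := (mem_erase.mp hz).1
    have := closed_eq_univ G hG E hE a b hab hEab (fun y => ∃ g ∈ G, g x = y ∧ g z = z) x
      ⟨1, G.one_mem, rfl, rfl⟩ (by
        rintro u v ⟨g, hg, rfl, h2⟩ huv
        have h3 := hE g⁻¹ (G.inv_mem hg) _ _ huv
        have h4 : g⁻¹ (g x) = x := by simp
        rw [h4] at h3
        obtain ⟨h, hh, h5, h6⟩ := hcon _ h3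
        exact ⟨g * h, G.mul_mem hg hh, by simp [h5], by simp [h6, h2]⟩) z
    obtain ⟨g, _, h1, h2⟩ := this
    exact hz' (g.injective (h2.trans h1.symm))
  have h1 := (card_le_card hsub).trans card_biUnion_le
  rw [card_erase_of_mem (mem_univ x), card_univ] at h1
  refine h1.trans ?_
  have := sum_le_card_nsmul (univ.filter (fun w => E x w)) (fun w => (dset G x w).card) K
    (fun w hw => hK w (mem_filter.mp hw).2)
  simpa using this

/-- All distinguishing sets are at most quadratic in the smallest one. -/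
theorem dset_le (G : Subgroup (Perm B)) (hG : MulAction.IsPreprimitive G B)
    (a b : B) (hab : a ≠ b) (d : ℕ) (hd : (dset G a b).card ≤ d) (x y : B) :
    (dset G x y).card ≤ 3 * (2 * d + 1) * d := by
  classical
  have hE : ∀ g ∈ G, ∀ x y : B, (dset G x y).card ≤ d → (dset G (g x) (g y)).card ≤ d :=
    fun g hg x y h => (dset_inv G g hg x y).trans h
  have hn : 2 ≤ Fintype.card B := Fintype.one_lt_card_iff.mpr ⟨a, b, hab⟩
  have key : ∀ s : ℕ, (∀ y, (dset G x y).card ≤ 3 * s * d) ∨
      s * (Fintype.card B - 1) ≤ (univ.filter (fun y => (dset G x y).card ≤ 3 * s * d)).card * d := by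
    intro s
    induction s with
    | zero => right; simp
    | succ s ih =>
      rcases ih with ih | ih
      · left
        intro y
        exact (ih y).trans (by gcongr; omega)
      by_cases hall : ∀ y, (dset G x y).card ≤ (3 * s + 1) * d
      · left
        intro y
        exact (hall y).trans (by gcongr; omega)
      right
      have hex : ∃ u v, (dset G x u).card ≤ (3 * s + 1) * d ∧ (dset G u v).card ≤ d ∧
          ¬ (dset G x v).card ≤ (3 * s + 1) * d := by
        by_contra hcon
        push Not at hcon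
        exact hall (fun t => closed_eq_univ G hG (fun x y => (dset G x y).card ≤ d) hE a b hab hd
          (fun y => (dset G x y).card ≤ (3 * s + 1) * d) x (by simp [dset_self])
          (fun u v h1 h2 => hcon u v h1 h2) t)
      obtain ⟨u, v, hu, huv, hv⟩ := hex
      have hv1 := card_le_sum G hG (fun x y => (dset G x y).card ≤ d) hE a b hab hd v d
        (fun w hw => hw)
      have hdisj : Disjoint (univ.filter (fun y => (dset G x y).card ≤ 3 * s * d))
          (univ.filter (fun w => (dset G v w).card ≤ d)) := by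
        rw [disjoint_left]
        intro w h1 h2
        simp only [mem_filter, mem_univ, true_and] at h1 h2
        have h3 := dset_tri G x w v
        rw [dset_symm G w v] at h3
        apply hv
        nlinarith
      have hsub : (univ.filter (fun y => (dset G x y).card ≤ 3 * s * d)) ∪
          (univ.filter (fun w => (dset G v w).card ≤ d)) ⊆
          univ.filter (fun y => (dset G x y).card ≤ 3 * (s + 1) * d) := by
        intro w hw
        simp only [mem_union, mem_filter, mem_univ, true_and] at hw ⊢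
        rcases hw with hw | hw
        · nlinarith
        · have h1 := dset_tri G x u w
          have h2 := dset_tri G u v w
          nlinarith
      have h1 := card_le_card hsub
      rw [card_union_of_disjoint hdisj] at h1
      have h2 := Nat.mul_le_mul_right d h1
      have hv2 : Fintype.card B - 1 ≤ (univ.filter (fun w => (dset G v w).card ≤ d)).card * d := by
        refine hv1.trans (Nat.mul_le_mul_right d (card_le_card fun w hw => ?_))
        simpa using hw
      nlinarith
  rcases key (2 * d + 1) with h | h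
  · exact h y
  · exfalso
    have h1 : (univ.filter (fun y => (dset G x y).card ≤ 3 * (2 * d + 1) * d)).card
        ≤ Fintype.card B := card_le_univ _
    have h2 := Nat.mul_le_mul_right d h1
    obtain ⟨m, hm⟩ : ∃ m, Fintype.card B = m + 2 := ⟨Fintype.card B - 2, by omega⟩
    rw [hm] at h h2
    have h3 : m + 2 - 1 = m + 1 := by omega
    rw [h3] at h
    nlinarith

/-- If all distinguishing sets are small then the degree is small. -/
theorem card_le_sq (G : Subgroup (Perm B)) (hG : MulAction.IsPreprimitive G B)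
    (h2 : ¬ (∀ x y x' y' : B, x ≠ y → x' ≠ y' → ∃ g ∈ G, g x = x' ∧ g y = y'))
    (K : ℕ) (hK : ∀ x y, (dset G x y).card ≤ K) : Fintype.card B - 1 ≤ K * K := by
  classical
  push Not at h2
  obtain ⟨x, y, x', y', hxy, hxy', hno⟩ := h2
  have hz : ∃ z : B, (univ.filter (fun w => z ∈ dset G x w)).card ≤ K := by
    by_contra hcon
    push Not at hcon
    have h1 : ∑ z : B, (univ.filter (fun w => z ∈ dset G x w)).card
        = ∑ w : B, (dset G x w).card := by
      simp only [card_filter]
      rw [sum_comm]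
      refine sum_congr rfl fun w _ => ?_
      rw [← card_filter]
      simp
    have h3 : ∑ w : B, (dset G x w).card ≤ ∑ _w : B, K := sum_le_sum fun w _ => hK x w
    have h4 : ∑ _w : B, K < ∑ z : B, (univ.filter (fun w => z ∈ dset G x w)).card :=
      sum_lt_sum_of_nonempty ⟨x, mem_univ x⟩ fun z _ => hcon z
    omega
  obtain ⟨z, hz⟩ := hz
  have hE : ∀ g ∈ G, ∀ u v : B, (¬ ∃ h ∈ G, h z = u ∧ h x = v) →
      ¬ ∃ h ∈ G, h z = g u ∧ h x = g v := by
    rintro g hg u v h1 ⟨h, hh, h3, h4⟩
    exact h1 ⟨g⁻¹ * h, G.mul_mem (G.inv_mem hg) hh, by simp [h3], by simp [h4]⟩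
  have hex : ∃ a b : B, a ≠ b ∧ ¬ ∃ h ∈ G, h z = a ∧ h x = b := by
    by_contra hcon
    push Not at hcon
    obtain ⟨g, hg, h1, h2⟩ := hcon x y hxy
    obtain ⟨h, hh, h3, h4⟩ := hcon x' y' hxy'
    refine hno (h * g⁻¹) (G.mul_mem hh (G.inv_mem hg)) ?_ ?_
    · rw [← h3, Perm.mul_apply]
      congr 1
      rw [Perm.inv_eq_iff_eq, h1]
    · rw [← h4, Perm.mul_apply]
      congr 1
      rw [Perm.inv_eq_iff_eq, h2]
  obtain ⟨a, b, hab, hEab⟩ := hex
  have h1 := card_le_sum G hG (fun u v => ¬ ∃ h ∈ G, h z = u ∧ h x = v) hE a b hab hEab z K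
    (fun w _ => hK z w)
  refine h1.trans (Nat.mul_le_mul_right K (le_trans (le_of_eq ?_) hz))
  congr 1
  ext w
  simp only [mem_filter, mem_univ, true_and, mem_dset]
  exact not_congr ⟨fun ⟨h, hh, h3, h4⟩ => ⟨h, hh, h4, h3⟩, fun ⟨h, hh, h3, h4⟩ => ⟨h, hh, h4, h3⟩⟩

theorem two_mul_pow_le (m : ℕ) : 2 * m ^ (m + 1) ≤ (m + 1) ^ (m + 1) := by
  have key : ∀ k : ℕ, m ^ (k + 1) + (k + 1) * m ^ k ≤ (m + 1) ^ (k + 1) := by
    intro k
    induction k with
    | zero => simp
    | succ k ih =>
      have h1 := Nat.mul_le_mul_right (m + 1) ih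
      rw [← pow_succ] at h1
      refine le_trans ?_ h1
      have : 0 ≤ (k + 1) * m ^ k := Nat.zero_le _
      simp only [pow_succ] at *
      nlinarith
  have h := key m
  have : m ^ (m + 1) ≤ (m + 1) * m ^ m := by
    rw [pow_succ, mul_comm]
    gcongr
    omega
  omega

/-- A colouring all of whose classes meet all sets of a small family of large sets. -/
theorem exists_psi (D : B → B → Finset B) (m : ℕ) (hn : Fintype.card B < 2 ^ (m + 1))
    (hD : ∀ x y, x ≠ y → 3 * (m + 1) ^ 2 ≤ (D x y).card) :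
    ∃ ψ : B → Fin (m + 1), ∀ i x y, x ≠ y → ∃ z ∈ D x y, ψ z = i := by
  classical
  by_contra hcon
  push Not at hcon
  have hcover : (univ : Finset (B → Fin (m + 1))) ⊆
      (univ.filter (fun p : Fin (m + 1) × B × B => p.2.1 ≠ p.2.2)).biUnion
        (fun p => Fintype.piFinset (fun z => if z ∈ D p.2.1 p.2.2 then univ.erase p.1 else univ)) := by
    intro ψ _
    obtain ⟨i, x, y, hxy, h⟩ := hcon ψ
    simp only [mem_biUnion, mem_filter, mem_univ, true_and, Fintype.mem_piFinset]
    refine ⟨(i, x, y), hxy, fun z => ?_⟩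
    split_ifs with hz
    · simpa using h z hz
    · simp
  have h1 := (card_le_card hcover).trans card_biUnion_le
  have h2 : ∀ p ∈ univ.filter (fun p : Fin (m + 1) × B × B => p.2.1 ≠ p.2.2),
      (Fintype.piFinset (fun z => if z ∈ D p.2.1 p.2.2 then univ.erase p.1 else
        (univ : Finset (Fin (m + 1))))).card * 8 ^ (m + 1) ≤ (m + 1) ^ Fintype.card B := by
    rintro ⟨i, x, y⟩ hp
    have hxy : x ≠ y := by simpa using hp
    have hc : (Fintype.piFinset (fun z => if z ∈ D x y then univ.erase i else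
        (univ : Finset (Fin (m + 1))))).card
        = m ^ (D x y).card * (m + 1) ^ (Fintype.card B - (D x y).card) := by
      rw [Fintype.card_piFinset]
      simp only [apply_ite Finset.card, card_erase_of_mem (mem_univ i), card_univ,
        Fintype.card_fin, Nat.add_sub_cancel]
      rw [prod_ite]
      simp only [prod_const, filter_mem_eq_inter, univ_inter]
      congr 2
      rw [← card_compl]
      congr 1
      ext z
      simp
    simp only
    rw [hc]
    obtain ⟨e, he⟩ := Nat.exists_eq_add_of_le (hD x y hxy)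
    have hle : (D x y).card ≤ Fintype.card B := card_le_univ _
    have h3 : m ^ (D x y).card * 8 ^ (m + 1) ≤ (m + 1) ^ (D x y).card := by
      have h4 := Nat.pow_le_pow_left (two_mul_pow_le m) (3 * (m + 1))
      rw [mul_pow, ← pow_mul, ← pow_mul, pow_mul 2 3] at h4
      have h5 : (m + 1) * (3 * (m + 1)) = 3 * (m + 1) ^ 2 := by ring
      rw [h5] at h4
      rw [he, pow_add, pow_add (m + 1)]
      have h6 : m ^ e ≤ (m + 1) ^ e := Nat.pow_le_pow_left (by omega) e
      calc m ^ (3 * (m + 1) ^ 2) * m ^ e * 8 ^ (m + 1)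
          = ((2 ^ 3) ^ (m + 1) * m ^ (3 * (m + 1) ^ 2)) * m ^ e := by norm_num; ring
        _ ≤ _ := Nat.mul_le_mul h4 h6
    calc m ^ (D x y).card * (m + 1) ^ (Fintype.card B - (D x y).card) * 8 ^ (m + 1)
        = m ^ (D x y).card * 8 ^ (m + 1) * (m + 1) ^ (Fintype.card B - (D x y).card) := by ring
      _ ≤ (m + 1) ^ (D x y).card * (m + 1) ^ (Fintype.card B - (D x y).card) := by gcongr
      _ = _ := by rw [← pow_add, Nat.add_sub_cancel' hle]
  have h3 := Nat.mul_le_mul_right (8 ^ (m + 1)) h1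
  rw [sum_mul] at h3
  have h4 := h3.trans (sum_le_card_nsmul _ _ _ h2)
  have h5 : (univ.filter (fun p : Fin (m + 1) × B × B => p.2.1 ≠ p.2.2)).card
      ≤ (m + 1) * (Fintype.card B * Fintype.card B) := by
    refine (card_le_univ _).trans ?_
    simp
  simp only [card_univ, Fintype.card_fun, Fintype.card_fin, smul_eq_mul] at h4
  have hpos : 0 < (m + 1) ^ Fintype.card B := by positivity
  have h6 : 8 ^ (m + 1) ≤ (m + 1) * (Fintype.card B * Fintype.card B) := by
    have h7 := h4.trans (Nat.mul_le_mul_right _ h5)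
    rw [mul_comm] at h7
    exact Nat.le_of_mul_le_mul_right h7 hpos
  have h8 : m + 1 < 2 ^ (m + 1) := Nat.lt_two_pow_self
  have h9 : (m + 1) * (Fintype.card B * Fintype.card B)
      < 2 ^ (m + 1) * (2 ^ (m + 1) * 2 ^ (m + 1)) :=
    Nat.mul_lt_mul'' h8 (Nat.mul_lt_mul'' hn hn)
  rw [← mul_pow, ← mul_pow] at h9
  norm_num at h9
  omega

open Classical in
/-- The weighted count of group elements by their behaviour on a base. -/
theorem sum_base (G : Subgroup (Perm B)) (A : B → Prop)
    (hA : ∀ g ∈ G, (∀ z, A z → g z = z) → g = 1) (t : ℝ) (ht : 0 ≤ t) :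
    ∑ g ∈ univ.filter (fun g : Perm B => g ∈ G ∧ g ≠ 1), t ^ (g.support.filter A).card
      ≤ (1 + t) ^ (Fintype.card B * Fintype.card B) - 1 := by
  let F : Perm B → Finset (B × B) := fun g => (g.support.filter A).image (fun z => (z, g z))
  have hcard : ∀ g, (F g).card = (g.support.filter A).card := fun g =>
    card_image_of_injective _ (fun a b h => congrArg Prod.fst h)
  have hmem : ∀ g z w, (z, w) ∈ F g ↔ g z ≠ z ∧ A z ∧ g z = w := by
    intro g z w
    simp only [F, mem_image, mem_filter, Perm.mem_support, Prod.mk.injEq]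
    constructor
    · rintro ⟨a, ⟨h1, h2⟩, rfl, rfl⟩
      exact ⟨h1, h2, rfl⟩
    · rintro ⟨h1, h2, rfl⟩
      exact ⟨z, ⟨h1, h2⟩, rfl, rfl⟩
  have hinj : Set.InjOn F (univ.filter (fun g : Perm B => g ∈ G ∧ g ≠ 1) : Finset _) := by
    intro g hg h hh hF
    simp only [coe_filter, mem_univ, true_and, Set.mem_setOf_eq] at hg hh
    have : h⁻¹ * g = 1 := by
      refine hA _ (G.mul_mem (G.inv_mem hh.1) hg.1) fun z hz => ?_
      rw [Perm.mul_apply, Perm.inv_eq_iff_eq]
      by_cases h1 : g z = z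
      · by_contra h2
        have h3 : (z, h z) ∈ F h := (hmem h z _).mpr ⟨fun h4 => h2 (h1.trans h4.symm), hz, rfl⟩
        rw [← hF] at h3
        exact ((hmem g z _).mp h3).1 h1
      · have h3 : (z, g z) ∈ F g := (hmem g z _).mpr ⟨h1, hz, rfl⟩
        rw [hF] at h3
        exact ((hmem h z _).mp h3).2.2.symm
    exact (inv_mul_eq_one.mp this).symm
  have hsub : (univ.filter (fun g : Perm B => g ∈ G ∧ g ≠ 1)).image F ⊆
      (univ : Finset (B × B)).powerset.erase ∅ := by
    intro S hS
    simp only [mem_image, mem_filter, mem_univ, true_and] at hS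
    obtain ⟨g, ⟨hg, hg1⟩, rfl⟩ := hS
    simp only [mem_erase, mem_powerset, subset_univ, and_true]
    intro h0
    refine hg1 (hA g hg fun z hz => ?_)
    by_contra h1
    have : (z, g z) ∈ F g := (hmem g z _).mpr ⟨h1, hz, rfl⟩
    simp [h0] at this
  have h1 : ∑ g ∈ univ.filter (fun g : Perm B => g ∈ G ∧ g ≠ 1), t ^ (g.support.filter A).card
      = ∑ S ∈ (univ.filter (fun g : Perm B => g ∈ G ∧ g ≠ 1)).image F, t ^ S.card := by
    rw [sum_image hinj]
    simp only [hcard]
  have h2 : (1 + t) ^ (Fintype.card B * Fintype.card B)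
      = ∑ S ∈ (univ : Finset (B × B)).powerset, t ^ S.card := by
    have := prod_one_add (f := fun _ : B × B => t) univ
    simpa using this
  rw [h1, h2, ← add_sum_erase _ _ (empty_mem_powerset _)]
  have := sum_le_sum_of_subset_of_nonneg hsub (f := fun S => t ^ S.card)
    (fun _ _ _ => by positivity)
  simp only [card_empty, pow_zero]
  linarith

open Classical in
theorem sum_lt_one (G : Subgroup (Perm B)) (m : ℕ) (hn : Fintype.card B < 2 ^ (m + 1))
    (ψ : B → Fin (m + 1)) (hψ : ∀ i, ∀ g ∈ G, (∀ z, ψ z = i → g z = z) → g = 1) :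
    ∑ g ∈ univ.filter (fun g : Perm B => g ∈ G ∧ g ≠ 1), (((8 : ℕ) : ℝ) ^ g.support.card)⁻¹
      < 1 := by
  set t : ℝ := ((8 : ℝ) ^ (m + 1))⁻¹ with ht
  have ht0 : 0 < t := by positivity
  have h1 : ∀ g : Perm B, (((8 : ℕ) : ℝ) ^ g.support.card)⁻¹
      ≤ ∑ i : Fin (m + 1), t ^ (g.support.filter (fun z => ψ z = i)).card := by
    intro g
    have hex : ∃ i : Fin (m + 1),
        (m + 1) * (g.support.filter (fun z => ψ z = i)).card ≤ g.support.card := by
      by_contra hcon
      push Not at hcon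
      have h2 := card_eq_sum_card_fiberwise (f := ψ) (s := g.support) (t := univ) (by simp)
      have h3 : ∑ _i : Fin (m + 1), g.support.card
          < ∑ i : Fin (m + 1), (m + 1) * (g.support.filter (fun z => ψ z = i)).card :=
        sum_lt_sum_of_nonempty univ_nonempty fun i _ => hcon i
      rw [← mul_sum, ← h2] at h3
      simp at h3
    obtain ⟨i, hi⟩ := hex
    refine le_trans ?_ (single_le_sum (f := fun i => t ^ (g.support.filter (fun z => ψ z = i)).card)
      (fun _ _ => by positivity) (mem_univ i))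
    simp only [ht, inv_pow, ← pow_mul]
    push_cast
    exact inv_anti₀ (by positivity) (pow_le_pow_right₀ (by norm_num) hi)
  refine lt_of_le_of_lt (sum_le_sum fun g _ => h1 g) ?_
  rw [sum_comm]
  set N := Fintype.card B * Fintype.card B with hN
  have hNlt : (N : ℝ) < 4 ^ (m + 1) := by
    have : N < 2 ^ (m + 1) * 2 ^ (m + 1) := Nat.mul_lt_mul'' hn hn
    rw [← mul_pow] at this
    exact_mod_cast this
  have hm : (2 : ℝ) * (m + 1) ≤ 2 ^ (m + 1) := by
    have : m + 1 ≤ 2 ^ m := Nat.lt_two_pow_self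
    have h2 : ((m + 1 : ℕ) : ℝ) ≤ ((2 ^ m : ℕ) : ℝ) := Nat.cast_le.mpr this
    push_cast at h2
    rw [pow_succ]
    linarith
  have h8 : (8 : ℝ) ^ (m + 1) = 2 ^ (m + 1) * 4 ^ (m + 1) := by rw [← mul_pow]; norm_num
  have hkey : 2 * (m + 1) * (N * t) < 1 := by
    rw [ht, ← mul_assoc, ← div_eq_mul_inv, div_lt_one (by positivity), h8]
    exact mul_lt_mul' hm hNlt (by positivity) (by positivity)
  have hNt : 0 ≤ N * t := by positivity
  have hNt1 : N * t ≤ 1 := by nlinarith
  have h2 : (1 + t) ^ N - 1 ≤ 2 * (N * t) := by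
    have h3 : (1 + t) ^ N ≤ Real.exp (N * t) := by
      rw [Real.exp_nat_mul]
      exact pow_le_pow_left₀ (by positivity) (by linarith [Real.add_one_le_exp t]) N
    have h4 := Real.abs_exp_sub_one_le (x := N * t) (by rwa [abs_of_nonneg hNt])
    rw [abs_of_nonneg hNt] at h4
    linarith [le_abs_self (Real.exp (N * t) - 1)]
  have h3 : ∑ i : Fin (m + 1), ∑ g ∈ univ.filter (fun g : Perm B => g ∈ G ∧ g ≠ 1),
      t ^ (g.support.filter (fun z => ψ z = i)).card ≤ ∑ _i : Fin (m + 1), 2 * (N * t) := by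
    refine sum_le_sum fun i _ => le_trans ?_ h2
    have := sum_base G (fun z => ψ z = i) (hψ i) t ht0.le
    refine le_trans (le_of_eq ?_) this
    refine sum_congr rfl fun g _ => ?_
    congr 3
  refine lt_of_le_of_lt h3 ?_
  simp only [sum_const, card_univ, Fintype.card_fin, nsmul_eq_mul]
  push_cast
  linarith

theorem growth (r : ℕ) (hr : 64 ≤ r) : 2 * (6561 * r ^ 8 + 1) < 2 ^ r := by
  induction r, hr using Nat.le_induction with
  | base => norm_num
  | succ r hr ih =>
    have h1 : (64 * (r + 1)) ^ 8 ≤ (65 * r) ^ 8 := Nat.pow_le_pow_left (by omega) 8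
    rw [mul_pow, mul_pow] at h1
    rw [pow_succ 2 r]
    norm_num at h1
    omega

end UniPrim

open UniPrim in
theorem rigid_uniprimitive : ∃ q : ℕ, ∀ (B : Type) [Fintype B] [DecidableEq B]
    (G : Subgroup (Perm B)),
    MulAction.IsPreprimitive G B →
    ¬ (∀ x y x' y' : B, x ≠ y → x' ≠ y' → ∃ g ∈ G, g x = x' ∧ g y = y') →
    ∃ M : B → ℕ, (∀ x, M x < q) ∧ ∀ g ∈ G, (∀ x, M (g x) = M x) → g = 1 := by
  refine ⟨2 ^ 64, fun B _ _ G hG h2 => ?_⟩
  by_cases hn : Fintype.card B ≤ 2 ^ 64
  · refine ⟨fun x => (Fintype.equivFin B x : ℕ), fun x => lt_of_lt_of_le (Fin.is_lt _) hn, ?_⟩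
    intro g _ h
    ext x
    exact (Fintype.equivFin B).injective (Fin.ext (h x))
  push Not at hn
  set m := Nat.log 2 (Fintype.card B) with hm
  have hlt : Fintype.card B < 2 ^ (m + 1) := Nat.lt_pow_succ_log_self (by norm_num) _
  have hge : 2 ^ m ≤ Fintype.card B := Nat.pow_log_le_self 2 (by omega)
  have hm64 : 64 ≤ m + 1 :=
    le_of_lt ((Nat.pow_lt_pow_iff_right (by norm_num : 1 < 2)).mp (hn.trans hlt))
  have hD : ∀ x y : B, x ≠ y → 3 * (m + 1) ^ 2 ≤ (dset G x y).card := by
    intro x y hxy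
    by_contra hcon
    push Not at hcon
    obtain ⟨d, hd⟩ : ∃ d, d + 1 = 3 * (m + 1) ^ 2 := ⟨3 * (m + 1) ^ 2 - 1, by omega⟩
    have h1 := card_le_sq G hG h2 _ (dset_le G hG x y hxy d (by omega))
    have h3 : 3 * (2 * d + 1) * d ≤ 81 * (m + 1) ^ 4 := by
      have : 81 * (m + 1) ^ 4 = 9 * (d + 1) ^ 2 := by rw [hd]; ring
      rw [this]
      nlinarith
    have h4 := h1.trans (Nat.mul_le_mul h3 h3)
    have h5 : 81 * (m + 1) ^ 4 * (81 * (m + 1) ^ 4) = 6561 * (m + 1) ^ 8 := by ring
    have h6 := growth (m + 1) hm64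
    rw [h5] at h4
    rw [pow_succ 2 m] at h6
    omega
  obtain ⟨ψ, hψ⟩ := exists_psi (dset G) m hlt hD
  have hbase : ∀ i, ∀ g ∈ G, (∀ z, ψ z = i → g z = z) → g = 1 := by
    intro i g hg h
    ext x
    by_contra hx
    obtain ⟨z, hz, hzi⟩ := hψ i x (g x) (fun h1 => hx (by simpa using h1.symm))
    exact mem_dset.mp hz ⟨g, hg, rfl, h z hzi⟩
  obtain ⟨M, hM, hrig⟩ := rigid_of_sum G 8 (by norm_num) (sum_lt_one G m hlt ψ hbase)
  exact ⟨M, fun x => (hM x).trans (by norm_num), hrig⟩

end Pool.Agent.MP_88b4a2_lc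

end

section

/-! Lovasz-type lemmas: finite modules with the same numbers of homomorphisms from every
test module are isomorphic. -/

namespace Pool.Agent.MP_88b4a2_lc

namespace Lovasz

/-- Moebius-type inversion over a finite poset. -/
theorem moebius {L S S' : Type} [PartialOrder L] [Finite L] [Finite S] [Finite S']
    (k : S → L) (k' : S' → L)
    (h : ∀ K : L, Nat.card {s // K ≤ k s} = Nat.card {s // K ≤ k' s}) (K : L) :
    Nat.card {s // k s = K} = Nat.card {s // k' s = K} := by
  classical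
  have key : ∀ {T : Type} [Finite T] (t : T → L) (K : L),
      Nat.card {s // K ≤ t s} = Nat.card {s // t s = K} +
        ∑ K' ∈ (Set.toFinite {K' | K < K'}).toFinset, Nat.card {s // t s = K'} := by
    intro T _ t K
    have := Fintype.ofFinite T
    simp only [Nat.card_eq_fintype_card, Fintype.card_subtype]
    rw [← Finset.card_biUnion, ← Finset.card_union_of_disjoint]
    · congr 1
      ext s
      simp only [Finset.mem_filter, Finset.mem_univ, true_and, Finset.mem_union,
        Finset.mem_biUnion, Set.Finite.mem_toFinset, Set.mem_ofPred_eq]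
      constructor
      · intro hs
        rcases hs.eq_or_lt with h1 | h1
        · exact Or.inl h1.symm
        · exact Or.inr ⟨_, h1, rfl⟩
      · rintro (h1 | ⟨K', h1, h2⟩)
        · exact h1.ge
        · exact h2 ▸ h1.le
    · rw [Finset.disjoint_left]
      intro s hs hs'
      simp only [Finset.mem_filter, Finset.mem_univ, true_and, Finset.mem_biUnion,
        Set.Finite.mem_toFinset, Set.mem_ofPred_eq] at hs hs'
      obtain ⟨K', h1, h2⟩ := hs'
      rw [← h2, hs] at h1
      exact lt_irrefl _ h1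
    · intro K1 _ K2 _ hne
      simp only [Function.onFun]
      rw [Finset.disjoint_left]
      intro s hs hs'
      simp only [Finset.mem_filter, Finset.mem_univ, true_and] at hs hs'
      exact hne (hs.symm.trans hs')
  induction K using WellFoundedGT.induction with
  | ind K ih =>
    have h1 := key k K
    have h2 := key k' K
    have h3 : ∑ K' ∈ (Set.toFinite {K' | K < K'}).toFinset, Nat.card {s // k s = K'} =
        ∑ K' ∈ (Set.toFinite {K' | K < K'}).toFinset, Nat.card {s // k' s = K'} := by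
      refine Finset.sum_congr rfl fun K' hK' => ih K' ?_
      simpa using hK'
    have h4 := h K
    omega

section General

variable {R : Type} [CommRing R]

/-- Homomorphisms over a base module. -/
abbrev HomOver {X M C : Type} [AddCommGroup X] [Module R X] [AddCommGroup M] [Module R M]
    [AddCommGroup C] [Module R C] (ξ : X →ₗ[R] C) (f : M →ₗ[R] C) : Type :=
  {φ : X →ₗ[R] M // ∀ x, f (φ x) = ξ x}

theorem finite_hom (X M : Type) [AddCommGroup X] [Module R X] [AddCommGroup M] [Module R M]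
    [Finite X] [Finite M] : Finite (X →ₗ[R] M) :=
  Finite.of_injective (fun φ : X →ₗ[R] M => (φ : X → M)) DFunLike.coe_injective

theorem card_ker_ge {X M C : Type} [AddCommGroup X] [Module R X] [AddCommGroup M] [Module R M]
    [AddCommGroup C] [Module R C] (ξ : X →ₗ[R] C) (f : M →ₗ[R] C) (K : Submodule R X)
    (hK : K ≤ LinearMap.ker ξ) :
    Nat.card {φ : HomOver ξ f // K ≤ LinearMap.ker φ.1} = Nat.card (HomOver (K.liftQ ξ hK) f) := by
  refine Nat.card_congr
    { toFun := fun φ => ⟨K.liftQ φ.1.1 φ.2, fun x => ?_⟩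
      invFun := fun ψ => ⟨⟨ψ.1 ∘ₗ K.mkQ, fun x => ?_⟩, fun x hx => ?_⟩
      left_inv := fun φ => ?_
      right_inv := fun ψ => ?_ }
  · obtain ⟨x, rfl⟩ := K.mkQ_surjective x
    simpa using φ.1.2 x
  · simpa using ψ.2 (K.mkQ x)
  · have : K.mkQ x = 0 := by simpa using hx
    simp only [LinearMap.mem_ker, LinearMap.comp_apply, this, map_zero]
  · ext x
    simp
  · apply Subtype.ext
    apply Submodule.linearMap_qext
    ext x
    simp

theorem exists_inj (I : Ideal R) {M M' C : Type} [AddCommGroup M] [Module R M]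
    [AddCommGroup M'] [Module R M'] [AddCommGroup C] [Module R C] [Finite M] [Finite M']
    (f : M →ₗ[R] C) (f' : M' →ₗ[R] C) (hM : ∀ r ∈ I, ∀ x : M, r • x = 0)
    (hH : ∀ (X : Type) [AddCommGroup X] [Module R X] [Finite X] (ξ : X →ₗ[R] C),
      (∀ r ∈ I, ∀ x : X, r • x = 0) → Nat.card (HomOver ξ f) = Nat.card (HomOver ξ f')) :
    ∃ φ : M →ₗ[R] M', Function.Injective φ ∧ ∀ x, f' (φ x) = f x := by
  have := finite_hom (R := R) M M
  have := finite_hom (R := R) M M'
  have : Finite (Submodule R M) :=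
    Finite.of_injective (fun K : Submodule R M => (K : Set M)) SetLike.coe_injective
  have h := moebius (fun φ : HomOver f f => LinearMap.ker φ.1)
    (fun φ : HomOver f f' => LinearMap.ker φ.1) (fun K => ?_) ⊥
  · have h1 : 0 < Nat.card {φ : HomOver f f // LinearMap.ker φ.1 = ⊥} := by
      rw [Nat.card_pos_iff]
      exact ⟨⟨⟨⟨LinearMap.id, fun _ => rfl⟩, LinearMap.ker_id⟩⟩, inferInstance⟩
    rw [h, Nat.card_pos_iff] at h1
    obtain ⟨⟨⟨⟨φ, hφ⟩, hk⟩⟩, -⟩ := h1
    exact ⟨φ, LinearMap.ker_eq_bot.1 hk, hφ⟩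
  · by_cases hK : K ≤ LinearMap.ker f
    · rw [card_ker_ge f f K hK, card_ker_ge f f' K hK]
      have : Finite (M ⧸ K) := Finite.of_surjective _ K.mkQ_surjective
      refine hH _ _ fun r hr x => ?_
      obtain ⟨x, rfl⟩ := K.mkQ_surjective x
      rw [← map_smul, hM r hr, map_zero]
    · have e1 : IsEmpty {φ : HomOver f f // K ≤ LinearMap.ker φ.1} := by
        refine ⟨fun φ => hK fun x hx => ?_⟩
        have := φ.2 hx
        rw [LinearMap.mem_ker] at this ⊢
        rw [← φ.1.2 x, this, map_zero]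
      have e2 : IsEmpty {φ : HomOver f f' // K ≤ LinearMap.ker φ.1} := by
        refine ⟨fun φ => hK fun x hx => ?_⟩
        have := φ.2 hx
        rw [LinearMap.mem_ker] at this ⊢
        rw [← φ.1.2 x, this, map_zero]
      rw [Nat.card_of_isEmpty, Nat.card_of_isEmpty]

theorem exists_equiv (I : Ideal R) {M M' C : Type} [AddCommGroup M] [Module R M]
    [AddCommGroup M'] [Module R M'] [AddCommGroup C] [Module R C] [Finite M] [Finite M']
    (f : M →ₗ[R] C) (f' : M' →ₗ[R] C) (hM : ∀ r ∈ I, ∀ x : M, r • x = 0)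
    (hM' : ∀ r ∈ I, ∀ x : M', r • x = 0)
    (hH : ∀ (X : Type) [AddCommGroup X] [Module R X] [Finite X] (ξ : X →ₗ[R] C),
      (∀ r ∈ I, ∀ x : X, r • x = 0) → Nat.card (HomOver ξ f) = Nat.card (HomOver ξ f')) :
    ∃ α : M ≃ₗ[R] M', ∀ x, f' (α x) = f x := by
  obtain ⟨φ, hφ, hf⟩ := exists_inj I f f' hM hH
  obtain ⟨ψ, hψ, -⟩ := exists_inj I f' f hM' fun X _ _ _ ξ hX => (hH X ξ hX).symm
  have hb : Function.Bijective φ := by
    refine hφ.bijective_of_nat_card_le ?_
    exact Nat.card_le_card_of_injective ψ hψ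
  exact ⟨LinearEquiv.ofBijective φ hb, hf⟩

/-- Counting homomorphisms out of a direct sum of a cyclic module and a complement. -/
theorem card_split (I : Ideal R) {X M C : Type} [AddCommGroup X] [Module R X]
    [AddCommGroup M] [Module R M] [AddCommGroup C] [Module R C]
    (ξ : X →ₗ[R] C) (f : M →ₗ[R] C) (hM : ∀ r ∈ I, ∀ m : M, r • m = 0)
    (x : X) (Y : Submodule R X) (hc : IsCompl (R ∙ x) Y) (a : R) (ha : a • x = 0)
    (hann : ∀ r : R, r • x = 0 → ∃ r', r - a * r' ∈ I) :
    Nat.card (HomOver ξ f) =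
      Nat.card {m : M // a • m = 0 ∧ f m = ξ x} * Nat.card (HomOver (ξ ∘ₗ Y.subtype) f) := by
  rw [← Nat.card_prod]
  refine Nat.card_congr (Equiv.ofBijective (fun φ => (⟨φ.1 x, ?_, φ.2 x⟩,
    ⟨φ.1 ∘ₗ Y.subtype, fun y => φ.2 y⟩)) ⟨?_, ?_⟩)
  · rw [← map_smul, ha, map_zero]
  · intro φ ψ hφψ
    have e1 : φ.1 x = ψ.1 x := congrArg (fun t => t.1.1) hφψ
    have e2 : φ.1 ∘ₗ Y.subtype = ψ.1 ∘ₗ Y.subtype := congrArg (fun t => t.2.1) hφψ
    apply Subtype.ext
    ext z
    have hz : z ∈ (R ∙ x) ⊔ Y := by rw [hc.sup_eq_top]; trivial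
    obtain ⟨u, hu, y, hy, rfl⟩ := Submodule.mem_sup.1 hz
    obtain ⟨r, rfl⟩ := Submodule.mem_span_singleton.1 hu
    have h2 : φ.1 y = ψ.1 y := LinearMap.congr_fun e2 (⟨y, hy⟩ : Y)
    rw [map_add, map_add, map_smul, map_smul, e1, h2]
  · rintro ⟨⟨m, hm, hfm⟩, ⟨ψ, hψ⟩⟩
    have hle : Ideal.torsionOf R X x ≤ LinearMap.ker (LinearMap.toSpanSingleton R M m) := by
      intro r hr
      rw [Ideal.mem_torsionOf_iff] at hr
      obtain ⟨r', hr'⟩ := hann r hr
      have h1 := hM _ hr' m
      rw [LinearMap.mem_ker, LinearMap.toSpanSingleton_apply]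
      rw [sub_smul, mul_comm, mul_smul, hm, smul_zero, sub_zero] at h1
      exact h1
    let χ : (R ∙ x) →ₗ[R] M :=
      (Submodule.liftQ _ (LinearMap.toSpanSingleton R M m) hle) ∘ₗ
        (Ideal.quotTorsionOfEquivSpanSingleton R X x).symm.toLinearMap
    have hχ : χ ⟨x, Submodule.mem_span_singleton_self x⟩ = m := by
      have h1 : (Ideal.quotTorsionOfEquivSpanSingleton R X x).symm
          ⟨x, Submodule.mem_span_singleton_self x⟩ = Submodule.Quotient.mk 1 := by
        rw [LinearEquiv.symm_apply_eq, Ideal.quotTorsionOfEquivSpanSingleton_apply_mk, one_smul]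
      simp only [χ, LinearMap.comp_apply, LinearEquiv.coe_coe, h1, Submodule.liftQ_apply,
        LinearMap.toSpanSingleton_apply, one_smul]
    have hx : LinearMap.ofIsCompl hc χ ψ x = m := by
      rw [← hχ]
      exact LinearMap.ofIsCompl_apply_left hc ⟨x, Submodule.mem_span_singleton_self x⟩
    have hy : ∀ y : Y, LinearMap.ofIsCompl hc χ ψ y = ψ y := fun y =>
      LinearMap.ofIsCompl_apply_right hc y
    refine ⟨⟨LinearMap.ofIsCompl hc χ ψ, fun z => ?_⟩, ?_⟩
    · have hz : z ∈ (R ∙ x) ⊔ Y := by rw [hc.sup_eq_top]; trivial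
      obtain ⟨u, hu, y, hy', rfl⟩ := Submodule.mem_sup.1 hz
      obtain ⟨r, rfl⟩ := Submodule.mem_span_singleton.1 hu
      have h2 := hy ⟨y, hy'⟩
      have h3 := hψ ⟨y, hy'⟩
      simp only [LinearMap.comp_apply, Submodule.subtype_apply] at h2 h3
      rw [map_add, map_add, map_add, map_smul, map_smul, map_smul, hx, hfm, h2, h3]
    · simp only [Prod.mk.injEq, Subtype.mk.injEq]
      refine ⟨hx, ?_⟩
      ext y
      exact hy y

/-- The splitting of a cyclic summand of maximal order in the local case. -/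
theorem exists_compl (I : Ideal R) (p : R)
    (hloc : ∀ r : R, (∃ u, u * r - 1 ∈ I) ∨ ∃ r', r - p * r' ∈ I)
    {X : Type} [AddCommGroup X] [Module R X] [Finite X] (hX : ∀ r ∈ I, ∀ z : X, r • z = 0)
    (c : ℕ) (hc : ∀ z : X, p ^ (c + 1) • z = 0) (x : X) (hx : p ^ c • x ≠ 0) :
    ∃ Y : Submodule R X, IsCompl (R ∙ x) Y := by
  have : Finite (Submodule R X) :=
    Finite.of_injective (fun K : Submodule R X => (K : Set X)) SetLike.coe_injective
  have hunit : ∀ (u r : R) (z : X), u * r - 1 ∈ I → u • r • z = z := by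
    intro u r z h
    have := hX _ h z
    rw [sub_smul, one_smul, mul_smul, sub_eq_zero] at this
    exact this
  have hdiv : ∀ (r r' : R) (z : X), r - p * r' ∈ I → r • z = r' • p • z := by
    intro r r' z h
    have := hX _ h z
    rw [sub_smul, mul_comm, mul_smul, sub_eq_zero] at this
    exact this
  obtain ⟨Y, hY, hmax⟩ := (Set.toFinite {Y : Submodule R X | Disjoint (R ∙ x) Y}).exists_maximal
    ⟨⊥, disjoint_bot_right⟩
  have hY : Disjoint (R ∙ x) Y := hY
  refine ⟨Y, hY, ?_⟩
  rw [codisjoint_iff, eq_top_iff]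
  have step : ∀ z : X, p • z ∈ (R ∙ x) ⊔ Y → z ∈ (R ∙ x) ⊔ Y := by
    intro z hz
    by_contra hzS
    obtain ⟨u, hu, y, hy, hpz⟩ := Submodule.mem_sup.1 hz
    obtain ⟨r, rfl⟩ := Submodule.mem_span_singleton.1 hu
    have h0 : p ^ c • r • x = 0 := by
      have h1 : p ^ c • r • x + p ^ c • y = 0 := by
        rw [← smul_add, hpz, ← mul_smul, ← pow_succ, hc]
      have h2 : p ^ c • r • x ∈ Y := by
        rw [eq_neg_of_add_eq_zero_left h1]
        exact Y.neg_mem (Y.smul_mem _ hy)
      exact (Submodule.disjoint_def.1 hY) _ (Submodule.smul_mem _ _ hu) h2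
    rcases hloc r with ⟨u, hu'⟩ | ⟨r', hr'⟩
    · apply hx
      rw [← hunit u r x hu', smul_comm, h0, smul_zero]
    · have hz'Y : p • (z - r' • x) ∈ Y := by
        have : p • (z - r' • x) = y := by
          rw [smul_sub, ← hpz, hdiv r r' x hr', smul_comm p r' x]
          abel
        rw [this]
        exact hy
      have hz'S : z - r' • x ∉ (R ∙ x) ⊔ Y := by
        intro h
        apply hzS
        have h2 : r' • x ∈ (R ∙ x) ⊔ Y :=
          Submodule.mem_sup_left (Submodule.smul_mem _ _ (Submodule.mem_span_singleton_self x))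
        simpa using Submodule.add_mem _ h h2
      have hdisj : Disjoint (R ∙ x) (Y ⊔ R ∙ (z - r' • x)) := by
        rw [Submodule.disjoint_def]
        intro w hw hw'
        obtain ⟨y', hy', v, hv, hw2⟩ := Submodule.mem_sup.1 hw'
        obtain ⟨t, rfl⟩ := Submodule.mem_span_singleton.1 hv
        rcases hloc t with ⟨u, hu'⟩ | ⟨t', ht'⟩
        · exfalso
          apply hz'S
          rw [← hunit u t (z - r' • x) hu']
          apply Submodule.smul_mem
          have : t • (z - r' • x) = w - y' := by rw [← hw2]; abel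
          rw [this]
          exact Submodule.sub_mem _ (Submodule.mem_sup_left hw) (Submodule.mem_sup_right hy')
        · refine (Submodule.disjoint_def.1 hY) _ hw ?_
          rw [← hw2, hdiv t t' _ ht']
          exact Y.add_mem hy' (Y.smul_mem _ hz'Y)
      have hle := hmax hdisj le_sup_left
      apply hz'S
      exact Submodule.mem_sup_right
        (hle (Submodule.mem_sup_right (Submodule.mem_span_singleton_self _)))
  have all : ∀ (j : ℕ) (z : X), p ^ j • z ∈ (R ∙ x) ⊔ Y → z ∈ (R ∙ x) ⊔ Y := by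
    intro j
    induction j with
    | zero => intro z hz; simpa using hz
    | succ j ih =>
      intro z hz
      apply ih
      apply step
      rwa [← mul_smul, ← pow_succ']
  intro z _
  apply all (c + 1)
  rw [hc]
  exact Submodule.zero_mem _

theorem ann_local (I : Ideal R) (p : R)
    (hloc : ∀ r : R, (∃ u, u * r - 1 ∈ I) ∨ ∃ r', r - p * r' ∈ I)
    {X : Type} [AddCommGroup X] [Module R X] (hX : ∀ r ∈ I, ∀ z : X, r • z = 0)
    (c : ℕ) (x : X) (hx : p ^ c • x ≠ 0) (r : R) (hr : r • x = 0) :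
    ∃ r', r - p ^ (c + 1) * r' ∈ I := by
  have key : ∀ j ≤ c + 1, ∃ r', r - p ^ j * r' ∈ I := by
    intro j
    induction j with
    | zero => intro _; exact ⟨r, by simp⟩
    | succ j ih =>
      intro hj
      obtain ⟨r', hr'⟩ := ih (by omega)
      rcases hloc r' with ⟨u, hu⟩ | ⟨r'', hr''⟩
      · exfalso
        apply hx
        have h1 := hX _ hr' x
        rw [sub_smul, hr, zero_sub, neg_eq_zero] at h1
        have h2 := hX _ hu (p ^ j • x)
        rw [sub_smul, one_smul, mul_smul, ← mul_smul r', mul_comm r', h1, smul_zero, zero_sub,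
          neg_eq_zero] at h2
        obtain ⟨d, rfl⟩ : ∃ d, c = d + j := ⟨c - j, by omega⟩
        rw [pow_add, mul_smul, h2, smul_zero]
      · refine ⟨r'', ?_⟩
        have : r - p ^ (j + 1) * r'' = (r - p ^ j * r') + p ^ j * (r' - p * r'') := by ring
        rw [this]
        exact I.add_mem hr' (I.mul_mem_left _ hr'')
  exact key _ le_rfl

theorem card_local (I : Ideal R) (p : R) (a : ℕ) (hp : p ^ a ∈ I)
    (hloc : ∀ r : R, (∃ u, u * r - 1 ∈ I) ∨ ∃ r', r - p * r' ∈ I)
    {M M' C : Type} [AddCommGroup M] [Module R M]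
    [AddCommGroup M'] [Module R M'] [AddCommGroup C] [Module R C]
    (f : M →ₗ[R] C) (f' : M' →ₗ[R] C) (hM : ∀ r ∈ I, ∀ x : M, r • x = 0)
    (hM' : ∀ r ∈ I, ∀ x : M', r • x = 0)
    (h : ∀ (b : ℕ) (c : C), Nat.card {m : M // p ^ b • m = 0 ∧ f m = c} =
      Nat.card {m : M' // p ^ b • m = 0 ∧ f' m = c}) (n : ℕ) :
    ∀ (X : Type) [AddCommGroup X] [Module R X] [Finite X] (ξ : X →ₗ[R] C), Nat.card X = n →
      (∀ r ∈ I, ∀ x : X, r • x = 0) → Nat.card (HomOver ξ f) = Nat.card (HomOver ξ f') := by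
  classical
  induction n using Nat.strong_induction_on with
  | _ n ih =>
    intro X _ _ _ ξ hn hX
    have hex : ∃ j : ℕ, ∀ z : X, p ^ j • z = 0 := ⟨a, hX _ hp⟩
    have hspec := Nat.find_spec hex
    rcases hj : Nat.find hex with _ | c
    · rw [hj] at hspec
      have hz : ∀ z : X, z = 0 := by simpa using hspec
      have u1 : Nat.card (HomOver ξ f) = 1 := by
        rw [Nat.card_eq_one_iff_exists]
        refine ⟨⟨0, fun x => by simp [hz x]⟩, fun φ => ?_⟩
        apply Subtype.ext
        ext x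
        simp [hz x]
      have u2 : Nat.card (HomOver ξ f') = 1 := by
        rw [Nat.card_eq_one_iff_exists]
        refine ⟨⟨0, fun x => by simp [hz x]⟩, fun φ => ?_⟩
        apply Subtype.ext
        ext x
        simp [hz x]
      rw [u1, u2]
    · rw [hj] at hspec
      have hmin := Nat.find_min hex (m := c) (by omega)
      push Not at hmin
      obtain ⟨x, hx⟩ := hmin
      obtain ⟨Y, hY⟩ := exists_compl I p hloc hX c hspec x hx
      have hann := ann_local I p hloc hX c x hx
      rw [card_split I ξ f hM x Y hY _ (hspec x) hann,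
        card_split I ξ f' hM' x Y hY _ (hspec x) hann, h]
      congr 1
      have hxY : x ∉ Y := by
        intro hxY
        have := (Submodule.disjoint_def.1 hY.disjoint) x (Submodule.mem_span_singleton_self x) hxY
        apply hx
        rw [this, smul_zero]
      have hlt : Nat.card Y < n := by
        rw [← hn]
        exact Finite.card_subtype_lt hxY
      refine ih _ hlt Y _ rfl fun r hr y => ?_
      apply Subtype.ext
      simpa using hX r hr y

end General

/-- Counting homomorphisms out of a finite abelian group. -/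
theorem card_int {X M C : Type} [AddCommGroup X] [AddCommGroup M] [AddCommGroup C]
    (ξ : X →ₗ[ℤ] C) (f : M →+ C) {ι : Type} [Fintype ι] [DecidableEq ι] (n : ι → ℕ)
    (e : X ≃+ DirectSum ι fun i => ZMod (n i)) :
    Nat.card (HomOver ξ f.toIntLinearMap) =
      ∏ i, Nat.card {m : M // n i • m = 0 ∧
        f m = ξ (e.symm (DirectSum.of (fun i => ZMod (n i)) i 1))} := by
  rw [← Nat.card_pi]
  have hext : ∀ {N : Type} [AddCommGroup N] (φ ψ : X →+ N),
      (∀ i, φ (e.symm (DirectSum.of (fun i => ZMod (n i)) i 1)) =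
        ψ (e.symm (DirectSum.of (fun i => ZMod (n i)) i 1))) → φ = ψ := by
    intro N _ φ ψ hi
    have : φ.comp e.symm.toAddMonoidHom = ψ.comp e.symm.toAddMonoidHom := by
      refine DirectSum.addHom_ext fun i y => ?_
      obtain ⟨k, rfl⟩ := ZMod.intCast_surjective y
      have hk : ((k : ℤ) : ZMod (n i)) = k • (1 : ZMod (n i)) := by simp
      rw [hk, map_zsmul, map_zsmul, map_zsmul]
      exact congrArg _ (hi i)
    ext x
    simpa using DFunLike.congr_fun this (e x)
  refine Nat.card_congr (Equiv.ofBijective (fun φ i =>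
    ⟨φ.1 (e.symm (DirectSum.of (fun i => ZMod (n i)) i 1)), ?_, φ.2 _⟩) ⟨?_, ?_⟩)
  · rw [← map_nsmul, ← map_nsmul, ← map_nsmul]
    simp
  · intro φ ψ hφψ
    have := hext φ.1.toAddMonoidHom ψ.1.toAddMonoidHom fun i =>
      congrArg Subtype.val (congrFun hφψ i)
    apply Subtype.ext
    ext x
    exact DFunLike.congr_fun this x
  · intro m
    let g : ∀ i, ZMod (n i) →+ M := fun i =>
      ZMod.lift (n i) ⟨zmultiplesHom M (m i).1, by simpa using (m i).2.1⟩
    have hg : ∀ i, g i 1 = (m i).1 := by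
      intro i
      have h1 : g i ((1 : ℤ) : ZMod (n i)) = (m i).1 := by
        simp only [g, ZMod.lift_coe]
        simp
      rwa [Int.cast_one] at h1
    let φ : X →+ M := (DirectSum.toAddMonoid g).comp e.toAddMonoidHom
    have hφ : ∀ i, φ (e.symm (DirectSum.of (fun i => ZMod (n i)) i 1)) = (m i).1 := by
      intro i
      simp [φ, hg]
    have hf : f.comp φ = ξ.toAddMonoidHom := by
      refine hext _ _ fun i => ?_
      rw [AddMonoidHom.comp_apply, hφ]
      exact (m i).2.2
    refine ⟨⟨φ.toIntLinearMap, fun x => DFunLike.congr_fun hf x⟩, ?_⟩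
    funext i
    exact Subtype.ext (hφ i)

end Lovasz

theorem lovasz_abelian {Q Q' C : Type} [AddCommGroup Q] [AddCommGroup Q'] [AddCommGroup C]
    [Finite Q] [Finite Q'] (f : Q →+ C) (f' : Q' →+ C)
    (h : ∀ (p r : ℕ) (c : C), p.Prime →
      Nat.card {x : Q // p ^ r • x = 0 ∧ f x = c} = Nat.card {x : Q' // p ^ r • x = 0 ∧ f' x = c}) :
    ∃ α : Q ≃+ Q', ∀ x, f' (α x) = f x := by
  classical
  obtain ⟨α, hα⟩ := Lovasz.exists_equiv (⊥ : Ideal ℤ) f.toIntLinearMap f'.toIntLinearMap
    (by simp) (by simp) (fun X _ inst _ ξ _ => by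
      obtain rfl : inst = AddCommGroup.toIntModule X := Subsingleton.elim _ _
      obtain ⟨ι, _, p, hp, e, ⟨φ⟩⟩ := AddCommGroup.equiv_directSum_zmod_of_finite X
      rw [Lovasz.card_int ξ f _ φ, Lovasz.card_int ξ f' _ φ]
      exact Finset.prod_congr rfl fun i _ => h _ _ _ (hp i))
  exact ⟨α.toAddEquiv, hα⟩

theorem modIso {R M M' : Type} [CommRing R] [AddCommGroup M] [AddCommGroup M'] [Module R M]
    [Module R M'] [Finite M] [Finite M'] (I : Ideal R) (p : R) (a : ℕ) (hp : p ^ a ∈ I)
    (hloc : ∀ r : R, (∃ u, u * r - 1 ∈ I) ∨ ∃ r', r - p * r' ∈ I)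
    (hM : ∀ r ∈ I, ∀ x : M, r • x = 0) (hM' : ∀ r ∈ I, ∀ x : M', r • x = 0)
    (h : ∀ b : ℕ, Nat.card {x : M // p ^ b • x = 0} = Nat.card {x : M' // p ^ b • x = 0}) :
    Nonempty (M ≃ₗ[R] M') := by
  obtain ⟨α, -⟩ := Lovasz.exists_equiv I (0 : M →ₗ[R] PUnit) (0 : M' →ₗ[R] PUnit) hM hM'
    (fun X _ _ _ ξ hX => Lovasz.card_local I p a hp hloc _ _ hM hM' (fun b c => by
      simpa [Subsingleton.elim _ c] using h b) _ X ξ rfl hX)
  exact ⟨α⟩

end Pool.Agent.MP_88b4a2_lc

end
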