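import Mathlib
import Pool.Agent.Mg.F88b4a2.G44e7b8

section

/-! The alternating group on a subset, seen inside the permutations of the ambient type. -/

namespace Pool.Agent.MP_88b4a2_lc

open Equiv Equiv.Perm

variable {V : Type} [Fintype V] [DecidableEq V]

/-- Even permutations fixing every point outside `β`. -/
def AltOn (β : Set V) : Subgroup (Perm V) where
  carrier := {σ | (∀ x, x ∉ β → σ x = x) ∧ sign σ = 1}
  one_mem' := ⟨fun _ _ => rfl, by simp⟩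
  mul_mem' := by
    rintro a b ⟨ha, ha'⟩ ⟨hb, hb'⟩
    exact ⟨fun x hx => by simp [hb x hx, ha x hx], by simp [ha', hb']⟩
  inv_mem' := by
    rintro a ⟨ha, ha'⟩
    refine ⟨fun x hx => ?_, by simp [ha']⟩
    rw [Perm.inv_eq_iff_eq]; exact (ha x hx).symm

theorem mem_AltOn {β : Set V} {σ : Perm V} :
    σ ∈ AltOn β ↔ (∀ x, x ∉ β → σ x = x) ∧ sign σ = 1 := Iff.rfl

omit [Fintype V] [DecidableEq V] in
theorem mem_iff_of_fix {β : Set V} {σ : Perm V} (h : ∀ x, x ∉ β → σ x = x) (x : V) :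
    σ x ∈ β ↔ x ∈ β := by
  constructor
  · intro hx
    by_contra hx'
    rw [h x hx'] at hx; exact hx' hx
  · intro hx
    by_contra hx'
    have := h _ hx'
    rw [σ.injective this] at hx'; exact hx' hx

theorem AltOn.mem_iff {β : Set V} {σ : Perm V} (h : σ ∈ AltOn β) (x : V) : σ x ∈ β ↔ x ∈ β :=
  mem_iff_of_fix h.1 x

open Classical in
/-- Identification with the alternating group of the subtype. -/
noncomputable def altEquiv (β : Set V) : alternatingGroup β ≃* AltOn β :=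
  MulEquiv.ofBijective
    (((Perm.ofSubtype (p := fun x => x ∈ β)).comp (alternatingGroup β).subtype).codRestrict
      (AltOn β) (fun σ => ⟨fun x hx => Perm.ofSubtype_apply_of_not_mem _ hx, by
        have h := Perm.sign_ofSubtype (p := fun x => x ∈ β) σ.1
        have h2 : sign σ.1 = 1 := Perm.mem_alternatingGroup.mp σ.2
        simp only [MonoidHom.coe_comp, Subgroup.coe_subtype, Function.comp_apply]
        rw [h]; convert h2⟩))
    (by
      constructor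
      · intro a b h
        have h1 := congrArg Subtype.val h
        exact Subtype.ext (Perm.ofSubtype_injective h1)
      · rintro ⟨σ, hσ⟩
        have h1 : ∀ x, σ x ∈ β ↔ x ∈ β := AltOn.mem_iff hσ
        have h2 : ∀ x, σ x ≠ x → x ∈ β := fun x hx => by
          by_contra hc; exact hx (hσ.1 x hc)
        refine ⟨⟨σ.subtypePerm h1, ?_⟩, Subtype.ext (Perm.ofSubtype_subtypePerm h1 h2)⟩
        rw [Perm.mem_alternatingGroup]
        have := Perm.sign_subtypePerm σ (p := fun x => x ∈ β) h1 h2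
        rw [← hσ.2, ← this])

theorem altOn_simple {β : Set V} (h : 5 ≤ β.ncard) : IsSimpleGroup (AltOn β) := by
  classical
  have : IsSimpleGroup (alternatingGroup β) := alternatingGroup.isSimpleGroup (by
    rw [Nat.card_coe_set_eq]; exact h)
  exact (altEquiv β).symm.isSimpleGroup

theorem altOn_card {β : Set V} (h : 2 ≤ β.ncard) :
    2 * Nat.card (AltOn β) = β.ncard.factorial := by
  classical
  have hn : Nontrivial β := by
    rw [← Finite.one_lt_card_iff_nontrivial, Nat.card_coe_set_eq]; omega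
  rw [← Nat.card_congr (altEquiv β).toEquiv, two_mul_nat_card_alternatingGroup, Nat.card_perm,
    Nat.card_coe_set_eq]

theorem altOn_index {β : Set V} (h : 5 ≤ β.ncard) (T : Subgroup (AltOn β)) (hT : T ≠ ⊤) :
    β.ncard ≤ T.index := by
  classical
  have hs := altOn_simple h
  have hcore : T.normalCore = ⊥ := by
    rcases hs.eq_bot_or_eq_top_of_normal T.normalCore inferInstance with h1 | h1
    · exact h1
    · exact absurd (top_le_iff.mp (h1 ▸ T.normalCore_le)) hT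
  have hinj : Function.Injective (MulAction.toPermHom (AltOn β) (AltOn β ⧸ T)) := by
    rw [← MonoidHom.ker_eq_bot_iff, ← Subgroup.normalCore_eq_ker, hcore]
  have h1 := Nat.card_le_card_of_injective _ hinj
  rw [Nat.card_perm, ← Subgroup.index] at h1
  have h2 := altOn_card (β := β) (by omega)
  by_contra hlt
  push Not at hlt
  obtain ⟨m, hm⟩ : ∃ m, β.ncard = m + 1 := ⟨β.ncard - 1, by omega⟩
  have h3 : T.index.factorial ≤ m.factorial := Nat.factorial_le (by omega)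
  rw [hm, Nat.factorial_succ] at h2
  have h4 := Nat.factorial_pos m
  nlinarith

theorem altOn_full {β : Set V} (h : 5 ≤ β.ncard) (T : Subgroup (Perm V)) (hT : T ≤ AltOn β)
    (hn : ∀ σ ∈ AltOn β, ∀ τ ∈ T, σ * τ * σ⁻¹ ∈ T) (hne : ∃ τ ∈ T, τ ≠ 1) : AltOn β ≤ T := by
  have hs := altOn_simple h
  have hN : (T.subgroupOf (AltOn β)).Normal := ⟨fun τ hτ σ => hn σ σ.2 τ hτ⟩
  rcases hs.eq_bot_or_eq_top_of_normal _ hN with h1 | h1
  · obtain ⟨τ, hτ, hτ1⟩ := hne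
    have : (⟨τ, hT hτ⟩ : AltOn β) ∈ T.subgroupOf (AltOn β) := hτ
    rw [h1, Subgroup.mem_bot] at this
    exact absurd (congrArg Subtype.val this) hτ1
  · exact Subgroup.subgroupOf_eq_top.mp h1

omit [Fintype V] [DecidableEq V] in
theorem exists_not_mem_of_ncard {β : Set V} (F : Finset V) (h : F.card < β.ncard) :
    ∃ a ∈ β, a ∉ F := by
  by_contra hc
  push Not at hc
  have : β ⊆ (F : Set V) := fun a ha => hc a ha
  have := Set.ncard_le_ncard this F.finite_toSet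
  rw [Set.ncard_coe_finset] at this
  omega

theorem swap_mul_swap_mem {β : Set V} {a b c : V} (ha : a ∈ β) (hb : b ∈ β) (hc : c ∈ β)
    (hab : a ≠ b) (hac : a ≠ c) : swap a b * swap a c ∈ AltOn β := by
  refine ⟨fun x hx => ?_, by simp [sign_swap hab, sign_swap hac]⟩
  have h1 : x ≠ a := fun h => hx (h ▸ ha)
  have h2 : x ≠ b := fun h => hx (h ▸ hb)
  have h3 : x ≠ c := fun h => hx (h ▸ hc)
  simp [swap_apply_of_ne_of_ne h1 h2, swap_apply_of_ne_of_ne h1 h3]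

/-- An even permutation of `β` sending `u` to `v` and fixing a third point `z`. -/
theorem exists_map_fix {β : Set V} (h : 4 ≤ β.ncard) {u v z : V} (hu : u ∈ β) (hv : v ∈ β)
    (hzu : z ≠ u) (hzv : z ≠ v) : ∃ σ ∈ AltOn β, σ u = v ∧ σ z = z := by
  by_cases huv : u = v
  · exact ⟨1, (AltOn β).one_mem, huv, rfl⟩
  obtain ⟨a, ha, ha'⟩ := exists_not_mem_of_ncard (β := β) {u, v, z}
    (lt_of_le_of_lt Finset.card_le_three (by omega))
  simp only [Finset.mem_insert, Finset.mem_singleton, not_or] at ha'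
  obtain ⟨h1, h2, h3⟩ := ha'
  refine ⟨swap u a * swap u v, swap_mul_swap_mem hu ha hv (Ne.symm h1) huv, ?_, ?_⟩
  · simp [swap_apply_of_ne_of_ne (Ne.symm huv) (Ne.symm h2)]
  · simp [swap_apply_of_ne_of_ne hzu hzv, swap_apply_of_ne_of_ne hzu (Ne.symm h3)]

theorem exists_map {β : Set V} (h : 4 ≤ β.ncard) {u v : V} (hu : u ∈ β) (hv : v ∈ β) :
    ∃ σ ∈ AltOn β, σ u = v := by
  obtain ⟨a, -, ha'⟩ := exists_not_mem_of_ncard (β := β) {u, v}
    (lt_of_le_of_lt Finset.card_le_two (by omega))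
  simp only [Finset.mem_insert, Finset.mem_singleton, not_or] at ha'
  obtain ⟨σ, h1, h2, -⟩ := exists_map_fix h hu hv ha'.1 ha'.2
  exact ⟨σ, h1, h2⟩

theorem exists_move_fix {β : Set V} (h : 4 ≤ β.ncard) {u z : V} (hu : u ∈ β) (hzu : z ≠ u) :
    ∃ σ ∈ AltOn β, σ u ≠ u ∧ σ z = z := by
  obtain ⟨a, ha, ha'⟩ := exists_not_mem_of_ncard (β := β) {u, z}
    (lt_of_le_of_lt Finset.card_le_two (by omega))
  simp only [Finset.mem_insert, Finset.mem_singleton, not_or] at ha'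
  obtain ⟨σ, h1, h2, h3⟩ := exists_map_fix h hu ha hzu (Ne.symm ha'.2)
  exact ⟨σ, h1, h2 ▸ ha'.1, h3⟩

theorem AltOn.conj {β : Set V} {σ : Perm V} (h : σ ∈ AltOn β) (τ : Perm V) :
    τ * σ * τ⁻¹ ∈ AltOn (τ '' β) := by
  refine ⟨fun x hx => ?_, by simp [h.2]⟩
  have : τ⁻¹ x ∉ β := fun hc => hx ⟨_, hc, by simp⟩
  rw [Perm.mul_apply, Perm.mul_apply, h.1 _ this]; simp

end Pool.Agent.MP_88b4a2_lc

end

section

/-! Groups inducing the alternating group on a block. -/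

namespace Pool.Agent.MP_88b4a2_lc

open Equiv Equiv.Perm

variable {V : Type} [Fintype V] [DecidableEq V] {G : Type} [Group G] [MulAction G V]

/-- `g` acts on `D` as `σ`. -/
def Rz (D : Set V) (g : G) (σ : Perm V) : Prop := ∀ x ∈ D, g • x = σ x

/-- Every even permutation of `β` is induced on `D` by an element of `A`. -/
def Ind (A : Subgroup G) (β D : Set V) : Prop := ∀ σ ∈ AltOn β, ∃ g ∈ A, Rz D g σ

omit [Fintype V] [DecidableEq V] in
theorem Rz.mul {D : Set V} {g h : G} {σ τ : Perm V} (hg : Rz D g σ) (hh : Rz D h τ)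
    (hD : ∀ x ∈ D, h • x ∈ D) : Rz D (g * h) (σ * τ) := fun x hx => by
  rw [mul_smul, hg _ (hD x hx), hh x hx, Perm.mul_apply]

omit [Fintype V] [DecidableEq V] in
theorem Rz.inv {D : Set V} {g : G} {σ : Perm V} (hg : Rz D g σ)
    (hD : ∀ x ∈ D, g⁻¹ • x ∈ D) : Rz D g⁻¹ σ⁻¹ := fun x hx => by
  have := hg _ (hD x hx)
  rw [smul_inv_smul] at this
  rw [eq_comm, Perm.inv_eq_iff_eq]; exact this

omit [Fintype V] [DecidableEq V] in
theorem Rz.comm {D : Set V} {A : Subgroup G} (hD : ∀ g ∈ A, ∀ x ∈ D, g • x ∈ D) {g h : G}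
    {σ τ : Perm V} (hgA : g ∈ A) (hhA : h ∈ A) (hg : Rz D g σ) (hh : Rz D h τ) :
    Rz D (g * h * g⁻¹ * h⁻¹) (σ * τ * σ⁻¹ * τ⁻¹) :=
  (((hg.mul hh (hD _ hhA)).mul (hg.inv (hD _ (A.inv_mem hgA))) (hD _ (A.inv_mem hgA))).mul
    (hh.inv (hD _ (A.inv_mem hhA))) (hD _ (A.inv_mem hhA)))

theorem Ind.mono {A B : Subgroup G} {β D D' : Set V} (h : Ind A β D) (hAB : A ≤ B)
    (hD : D' ⊆ D) : Ind B β D' := fun σ hσ => by
  obtain ⟨g, hg, h1⟩ := h σ hσ
  exact ⟨g, hAB hg, fun x hx => h1 x (hD hx)⟩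

theorem Ind.of_rz {A B : Subgroup G} {β D : Set V} (h5 : 5 ≤ β.ncard) (hA : Ind A β D)
    (hBA : B ≤ A) (hn : ∀ a ∈ A, ∀ b ∈ B, a * b * a⁻¹ ∈ B) (hD : ∀ g ∈ A, ∀ x ∈ D, g • x ∈ D)
    {b : G} (hb : b ∈ B) {τ : Perm V} (hτ : τ ∈ AltOn β) (hτ1 : τ ≠ 1) (hbτ : Rz D b τ) :
    Ind B β D := by
  let T : Subgroup (Perm V) :=
    { carrier := {σ | σ ∈ AltOn β ∧ ∃ g ∈ B, Rz D g σ}
      one_mem' := ⟨(AltOn β).one_mem, 1, B.one_mem, fun x _ => by simp⟩
      mul_mem' := by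
        rintro σ τ ⟨h1, g, hg, h2⟩ ⟨h3, h, hh, h4⟩
        exact ⟨(AltOn β).mul_mem h1 h3, g * h, B.mul_mem hg hh, h2.mul h4 (hD _ (hBA hh))⟩
      inv_mem' := by
        rintro σ ⟨h1, g, hg, h2⟩
        exact ⟨(AltOn β).inv_mem h1, g⁻¹, B.inv_mem hg, h2.inv (hD _ (hBA (B.inv_mem hg)))⟩ }
  have := altOn_full h5 T (fun σ hσ => hσ.1) (by
    rintro σ hσ ρ ⟨h1, g, hg, h2⟩
    obtain ⟨a, ha, h3⟩ := hA σ hσ
    refine ⟨(AltOn β).mul_mem ((AltOn β).mul_mem hσ h1) ((AltOn β).inv_mem hσ), a * g * a⁻¹,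
      hn a ha g hg, ?_⟩
    exact (h3.mul h2 (hD _ (hBA hg))).mul (h3.inv (hD _ (A.inv_mem ha))) (hD _ (A.inv_mem ha)))
    ⟨τ, ⟨hτ, b, hb, hbτ⟩, hτ1⟩
  exact fun σ hσ => (this hσ).2

theorem Ind.sub {A B : Subgroup G} {β D : Set V} (h5 : 5 ≤ β.ncard) (hA : Ind A β D)
    (hBA : B ≤ A) (hn : ∀ a ∈ A, ∀ b ∈ B, a * b * a⁻¹ ∈ B) (hD : ∀ g ∈ A, ∀ x ∈ D, g • x ∈ D)
    {b : G} (hb : b ∈ B) {z : V} (hz : z ∈ β) (hbz : b • z ≠ z)
    (hblk : (∀ x ∈ β, b • x ∈ β) ∨ ∀ x ∈ β, b • x ∉ β) : Ind B β D := by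
  have hcomm : ∀ a ∈ A, ∀ c ∈ B, a * c * a⁻¹ * c⁻¹ ∈ B := fun a ha c hc =>
    B.mul_mem (hn a ha c hc) (B.inv_mem hc)
  set τ : Perm V := MulAction.toPerm b with hτ
  have hbτ : Rz D b τ := fun x _ => rfl
  have hτx : ∀ x, τ x = b • x := fun x => rfl
  rcases hblk with h | h
  · have himg : τ '' β = β := by
      refine Set.eq_of_subset_of_ncard_le ?_ ?_ (Set.toFinite _)
      · rintro _ ⟨x, hx, rfl⟩; exact h x hx
      · rw [Set.ncard_image_of_injective _ τ.injective]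
    obtain ⟨σ, hσ, h1, h2⟩ := exists_move_fix (β := β) (by omega) (h z hz) hbz.symm
    obtain ⟨a, ha, h3⟩ := hA σ hσ
    have h4 := AltOn.conj ((AltOn β).inv_mem hσ) τ
    rw [himg] at h4
    refine hA.of_rz h5 hBA hn hD (hcomm a ha b hb) (τ := σ * τ * σ⁻¹ * τ⁻¹) ?_ ?_
      (Rz.comm hD ha (hBA hb) h3 hbτ)
    · have := (AltOn β).mul_mem hσ h4
      simpa only [mul_assoc] using this
    · intro hc
      have h5' := congrArg (fun ρ : Perm V => ρ (τ z)) hc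
      have h6 : σ⁻¹ z = z := by rw [Perm.inv_eq_iff_eq]; exact h2.symm
      have h7 : τ⁻¹ (τ z) = z := by simp
      simp only [Perm.mul_apply, h7, h6, Perm.one_apply] at h5'
      exact h1 h5'
  · obtain ⟨w, hw, hw'⟩ := exists_not_mem_of_ncard (β := β) {z} (by simp; omega)
    obtain ⟨σ, hσ, h1⟩ := exists_map (β := β) (by omega) hz hw
    have hwz : z ≠ w := by simpa [eq_comm] using hw'
    obtain ⟨σ', hσ', h2, h3⟩ := exists_move_fix (β := β) (by omega) hw hwz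
    obtain ⟨a, ha, h4⟩ := hA σ hσ
    obtain ⟨a', ha', h4'⟩ := hA σ' hσ'
    have h6 := AltOn.conj ((AltOn β).inv_mem hσ) τ
    set ς := τ * σ⁻¹ * τ⁻¹ with hς
    have hdis : ∀ ρ ∈ AltOn β, Commute ρ ς := fun ρ hρ => by
      refine Perm.Disjoint.commute fun x => ?_
      by_cases hx : x ∈ β
      · right
        refine h6.1 x ?_
        rintro ⟨y, hy, rfl⟩
        exact h y hy hx
      · left; exact hρ.1 x hx
    have h7 := Rz.comm hD ha' (hBA (hcomm a ha b hb)) h4' (Rz.comm hD ha (hBA hb) h4 hbτ)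
    have h8 : σ' * (σ * τ * σ⁻¹ * τ⁻¹) * σ'⁻¹ * (σ * τ * σ⁻¹ * τ⁻¹)⁻¹ = σ' * σ * σ'⁻¹ * σ⁻¹ := by
      have e1 : σ * τ * σ⁻¹ * τ⁻¹ = σ * ς := by simp only [hς, mul_assoc]
      have e2 := (hdis _ ((AltOn β).inv_mem hσ')).eq
      rw [e1, mul_inv_rev]
      calc σ' * (σ * ς) * σ'⁻¹ * (ς⁻¹ * σ⁻¹) = σ' * σ * (ς * σ'⁻¹) * ς⁻¹ * σ⁻¹ := by group
        _ = σ' * σ * (σ'⁻¹ * ς) * ς⁻¹ * σ⁻¹ := by rw [e2]
        _ = _ := by group
    rw [h8] at h7
    refine hA.of_rz h5 hBA hn hD (hcomm a' ha' _ (hcomm a ha b hb)) ?_ ?_ h7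
    · exact (AltOn β).mul_mem ((AltOn β).mul_mem ((AltOn β).mul_mem hσ' hσ)
        ((AltOn β).inv_mem hσ')) ((AltOn β).inv_mem hσ)
    · intro hc
      have h5' := congrArg (fun ρ : Perm V => ρ w) hc
      have h9 : σ'⁻¹ z = z := by rw [Perm.inv_eq_iff_eq]; exact h3.symm
      have h10 : σ⁻¹ w = z := by rw [Perm.inv_eq_iff_eq]; exact h1.symm
      simp only [Perm.mul_apply, h9, h10, h1, Perm.one_apply] at h5'
      exact h2 h5'

/-- Elements of `P` fixing `S` pointwise. -/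
def Fx (P : Subgroup G) (S : Set V) : Subgroup G where
  carrier := {k | k ∈ P ∧ ∀ x ∈ S, k • x = x}
  one_mem' := ⟨P.one_mem, fun x _ => one_smul _ x⟩
  mul_mem' := by
    rintro a b ⟨ha, ha'⟩ ⟨hb, hb'⟩
    exact ⟨P.mul_mem ha hb, fun x hx => by rw [mul_smul, hb' x hx, ha' x hx]⟩
  inv_mem' := by
    rintro a ⟨ha, ha'⟩
    exact ⟨P.inv_mem ha, fun x hx => by rw [inv_smul_eq_iff, ha' x hx]⟩

omit [Fintype V] [DecidableEq V] in
theorem Fx_normal {P : Subgroup G} {S : Set V} (hS : ∀ g ∈ P, ∀ x ∈ S, g • x ∈ S) :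
    ∀ a ∈ P, ∀ b ∈ Fx P S, a * b * a⁻¹ ∈ Fx P S := by
  rintro a ha b ⟨hb, hb'⟩
  refine ⟨P.mul_mem (P.mul_mem ha hb) (P.inv_mem ha), fun x hx => ?_⟩
  rw [mul_smul, mul_smul, hb' _ (hS _ (P.inv_mem ha) x hx), smul_inv_smul]

theorem scott_two {P : Subgroup G} {β S T : Set V} (h5 : 5 ≤ β.ncard) (hP : Ind P β β)
    (hβ : ∀ g ∈ P, ∀ x ∈ β, g • x ∈ β) (hS : ∀ g ∈ P, ∀ x ∈ S, g • x ∈ S)
    (hT : ∀ g ∈ P, ∀ x ∈ T, g • x ∈ T) (h1 : Ind (Fx P S) β β) (h2 : Ind (Fx P T) β β) :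
    Ind (Fx P (S ∪ T)) β β := by
  obtain ⟨z, hz, -⟩ := exists_not_mem_of_ncard (β := β) ∅ (by simp; omega)
  obtain ⟨w, hw, hw'⟩ := exists_not_mem_of_ncard (β := β) {z} (by simp; omega)
  obtain ⟨σ, hσ, h3⟩ := exists_map (β := β) (by omega) hz hw
  have hwz : z ≠ w := by simpa [eq_comm] using hw'
  obtain ⟨σ', hσ', h4, h6⟩ := exists_move_fix (β := β) (by omega) hw hwz
  obtain ⟨a, ha, h7⟩ := h1 σ hσ
  obtain ⟨a', ha', h7'⟩ := h2 σ' hσ'
  have h8 := Rz.comm hβ ha'.1 ha.1 h7' h7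
  have hmem : a' * a * a'⁻¹ * a⁻¹ ∈ Fx P (S ∪ T) := by
    have e1 : a' * a * a'⁻¹ * a⁻¹ ∈ Fx P S :=
      (Fx P S).mul_mem (Fx_normal hS a' ha'.1 a ha) ((Fx P S).inv_mem ha)
    have e2 : a' * (a * a'⁻¹ * a⁻¹) ∈ Fx P T :=
      (Fx P T).mul_mem ha' (Fx_normal hT a ha.1 _ ((Fx P T).inv_mem ha'))
    refine ⟨e1.1, ?_⟩
    rintro x (hx | hx)
    · exact e1.2 x hx
    · have := e2.2 x hx
      simpa only [mul_assoc] using this
  refine hP.sub h5 (fun k hk => hk.1) (Fx_normal ?_) hβ hmem hw ?_ (Or.inl (hβ _ hmem.1))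
  · rintro g hg x (hx | hx)
    · exact Or.inl (hS g hg x hx)
    · exact Or.inr (hT g hg x hx)
  · rw [h8 w hw]
    have h9 : σ'⁻¹ z = z := by rw [Perm.inv_eq_iff_eq]; exact h6.symm
    have h10 : σ⁻¹ w = z := by rw [Perm.inv_eq_iff_eq]; exact h3.symm
    simp only [Perm.mul_apply, h9, h10, h3]
    exact h4

/-- Scott-type lemma. -/
theorem scott {P : Subgroup G} {β : Set V} (h5 : 5 ≤ β.ncard) (hP : Ind P β β)
    (hβ : ∀ g ∈ P, ∀ x ∈ β, g • x ∈ β) (C : V → Set V) (E : Finset V)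
    (hC : ∀ y ∈ E, ∀ g ∈ P, ∀ x ∈ C y, g • x ∈ C y)
    (hker : ∀ y ∈ E, ∃ k ∈ P, (∀ x ∈ C y, k • x = x) ∧ ∃ z ∈ β, k • z ≠ z) :
    Ind (Fx P (⋃ y ∈ E, C y)) β β := by
  induction E using Finset.induction_on with
  | empty => exact hP.mono (fun k hk => ⟨hk, by simp⟩) subset_rfl
  | insert y E hy ih =>
    have ih' := ih (fun y hy => hC y (Finset.mem_insert_of_mem hy))
      (fun y hy => hker y (Finset.mem_insert_of_mem hy))
    obtain ⟨k, hk, h1, z, hz, h2⟩ := hker y (Finset.mem_insert_self _ _)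
    have hCy := hC y (Finset.mem_insert_self _ _)
    have h3 : Ind (Fx P (C y)) β β :=
      hP.sub h5 (fun k hk => hk.1) (Fx_normal hCy) hβ (b := k) ⟨hk, h1⟩ hz h2 (Or.inl (hβ _ hk))
    rw [Finset.set_biUnion_insert]
    refine scott_two h5 hP hβ hCy ?_ h3 ih'
    intro g hg x hx
    simp only [Set.mem_iUnion] at hx ⊢
    obtain ⟨y', hy', hx⟩ := hx
    exact ⟨y', hy', hC y' (Finset.mem_insert_of_mem hy') g hg x hx⟩

/-- An invariant equivalence relation. -/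
structure IsCong (G : Type) [Group G] [MulAction G V] (r : V → V → Prop) : Prop where
  refl : ∀ x, r x x
  symm : ∀ {x y}, r x y → r y x
  trans : ∀ {x y z}, r x y → r y z → r x z
  smul : ∀ (g : G) {x y}, r x y → r (g • x) (g • y)

/-- Elements of `P` fixing the class of each point of `S`. -/
def ClsFx {r : V → V → Prop} (hr : IsCong G r) (P : Subgroup G) (S : Set V) : Subgroup G where
  carrier := {k | k ∈ P ∧ ∀ x ∈ S, r x (k • x)}
  one_mem' := ⟨P.one_mem, fun x _ => by rw [one_smul]; exact hr.refl x⟩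
  mul_mem' := by
    rintro a b ⟨ha, ha'⟩ ⟨hb, hb'⟩
    exact ⟨P.mul_mem ha hb, fun x hx => by
      rw [mul_smul]; exact hr.trans (ha' x hx) (hr.smul a (hb' x hx))⟩
  inv_mem' := by
    rintro a ⟨ha, ha'⟩
    refine ⟨P.inv_mem ha, fun x hx => ?_⟩
    have := hr.smul a⁻¹ (ha' x hx)
    rw [inv_smul_smul] at this
    exact hr.symm this

omit [Fintype V] [DecidableEq V] in
theorem ClsFx_normal {r : V → V → Prop} (hr : IsCong G r) {P : Subgroup G} {S : Set V}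
    (hS : ∀ g ∈ P, ∀ x ∈ S, g • x ∈ S) :
    ∀ a ∈ P, ∀ b ∈ ClsFx hr P S, a * b * a⁻¹ ∈ ClsFx hr P S := by
  rintro a ha b ⟨hb, hb'⟩
  refine ⟨P.mul_mem (P.mul_mem ha hb) (P.inv_mem ha), fun x hx => ?_⟩
  have := hr.smul a (hb' _ (hS _ (P.inv_mem ha) x hx))
  rwa [smul_inv_smul, ← mul_smul, ← mul_smul] at this

omit [Fintype V] [DecidableEq V] in
theorem IsCong.block {r : V → V → Prop} (hr : IsCong G r) (b : G) (z : V) :
    (∀ x ∈ {y | r z y}, b • x ∈ {y | r z y}) ∨ ∀ x ∈ {y | r z y}, b • x ∉ {y | r z y} := by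
  by_cases h : r z (b • z)
  · exact Or.inl fun x hx => hr.trans h (hr.smul b hx)
  · exact Or.inr fun x hx hc => h (hr.trans hc (hr.symm (hr.smul b hx)))

theorem chain_step {r : V → V → Prop} (hr : IsCong G r) {L P A : Subgroup G} {D : Set V}
    (hPL : P ≤ L) (hAP : A ≤ P) (hnP : ∀ a ∈ L, ∀ b ∈ P, a * b * a⁻¹ ∈ P)
    (hnA : ∀ a ∈ P, ∀ b ∈ A, a * b * a⁻¹ ∈ A) (hD : ∀ g ∈ L, ∀ x ∈ D, g • x ∈ D)
    (hInd : ∀ x ∈ D, 5 ≤ {y | r x y}.ncard ∧ Ind L {y | r x y} D)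
    {b : G} (hb : b ∈ A) {z : V} (hz : z ∈ D) (hbz : b • z ≠ z) :
    ∃ k ∈ A, (∀ x ∈ D, r x (k • x)) ∧ k • z ≠ z := by
  obtain ⟨h5, h1⟩ := hInd z hz
  have h2 := h1.sub h5 hPL hnP hD (hAP hb) (hr.refl z) hbz (hr.block b z)
  have h3 := h2.sub h5 hAP hnA (fun g hg => hD g (hPL hg)) hb (hr.refl z) hbz (hr.block b z)
  obtain ⟨w, hw, hw'⟩ := exists_not_mem_of_ncard (β := {y | r z y}) {z} (by simp; omega)
  obtain ⟨σ, hσ, h4⟩ := exists_map (β := {y | r z y}) (by omega) (hr.refl z) hw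
  obtain ⟨k, hk, h6⟩ := h3 σ hσ
  refine ⟨k, hk, fun x hx => ?_, ?_⟩
  · rw [h6 x hx]
    by_cases hx' : x ∈ {y | r z y}
    · exact hr.trans (hr.symm hx') ((AltOn.mem_iff hσ x).mpr hx')
    · rw [hσ.1 x hx']; exact hr.refl x
  · rw [h6 z hz, h4]; simpa using hw'

theorem chain {r : V → V → Prop} (hr : IsCong G r) {P : Subgroup G} (D : V → Set V)
    (L : V → Subgroup G) (E : Set V) (s : Finset V)
    (hPL : ∀ a ∈ s, P ≤ L a) (hnP : ∀ a ∈ s, ∀ g ∈ L a, ∀ b ∈ P, g * b * g⁻¹ ∈ P)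
    (hD : ∀ a ∈ s, ∀ g ∈ L a, ∀ x ∈ D a, g • x ∈ D a) (hE : ∀ a ∈ s, D a ⊆ E)
    (hInd : ∀ a ∈ s, ∀ x ∈ D a, 5 ≤ {y | r x y}.ncard ∧ Ind (L a) {y | r x y} (D a))
    (hb : ∃ b ∈ P, ∃ z ∈ E, b • z ≠ z) :
    ∃ k ∈ P, (∀ a ∈ s, ∀ x ∈ D a, r x (k • x)) ∧ ∃ z ∈ E, k • z ≠ z := by
  induction s using Finset.induction_on with
  | empty => obtain ⟨b, h1, h2⟩ := hb; exact ⟨b, h1, by simp, h2⟩
  | insert a s ha ih =>
    have m1 := Finset.mem_insert_self a s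
    obtain ⟨k, hk, h1, z, hz, h2⟩ := ih (fun a h => hPL a (Finset.mem_insert_of_mem h))
      (fun a h => hnP a (Finset.mem_insert_of_mem h))
      (fun a h => hD a (Finset.mem_insert_of_mem h))
      (fun a h => hE a (Finset.mem_insert_of_mem h))
      (fun a h => hInd a (Finset.mem_insert_of_mem h))
    by_cases h3 : ∀ x ∈ D a, k • x = x
    · refine ⟨k, hk, ?_, z, hz, h2⟩
      intro a' ha' x hx
      rcases Finset.mem_insert.mp ha' with rfl | ha'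
      · rw [h3 x hx]; exact hr.refl x
      · exact h1 a' ha' x hx
    · push Not at h3
      obtain ⟨x0, hx0, h3⟩ := h3
      have hS : ∀ g ∈ P, ∀ x ∈ (⋃ a ∈ s, D a), g • x ∈ (⋃ a ∈ s, D a) := by
        intro g hg x hx
        simp only [Set.mem_iUnion] at hx ⊢
        obtain ⟨a', ha', hx⟩ := hx
        have m2 := Finset.mem_insert_of_mem (b := a) ha'
        exact ⟨a', ha', hD a' m2 g (hPL a' m2 hg) x hx⟩
      obtain ⟨k', hk', h4, h5⟩ := chain_step hr (A := ClsFx hr P (⋃ a ∈ s, D a)) (hPL a m1)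
        (fun k hk => hk.1) (hnP a m1) (ClsFx_normal hr hS) (hD a m1) (hInd a m1) (b := k)
        ⟨hk, fun x hx => by
          simp only [Set.mem_iUnion] at hx
          obtain ⟨a', ha', hx⟩ := hx
          exact h1 a' ha' x hx⟩ hx0 h3
      refine ⟨k', hk'.1, ?_, x0, hE a m1 hx0, h5⟩
      intro a' ha' x hx
      rcases Finset.mem_insert.mp ha' with rfl | ha'
      · exact h4 x hx
      · exact hk'.2 x (Set.mem_biUnion ha' hx)

end Pool.Agent.MP_88b4a2_lc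

end

section

/-! Tame colourings and the two reduction steps. -/

namespace Pool.Agent.MP_88b4a2_lc

open Equiv Equiv.Perm

section defs

variable {V : Type} (G : Type) [Group G] [MulAction G V]

/-- The stabiliser of a colouring. -/
def presSub {C : Type} (M : V → C) : Subgroup G where
  carrier := {g | ∀ x, M (g • x) = M x}
  one_mem' := fun x => by rw [one_smul]
  mul_mem' := fun {a b} ha hb x => by rw [mul_smul, ha, hb]
  inv_mem' := fun {a} ha x => by rw [← ha (a⁻¹ • x), smul_inv_smul]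

/-- Relations that are equitable with respect to the orbitals of the stabiliser of `M`. -/
def Equit {C : Type} (M : V → C) (r : V → V → Prop) : Prop :=
  (∃ b : V ≃ V, ∀ x, r x (b x)) ∧
  ∀ u u', r u u' → ∃ b : V ≃ V, ∀ x, r x (b x) ∧
    ∃ γ : G, (∀ z, M (γ • z) = M z) ∧ γ • u = u' ∧ γ • x = b x

def Tame {C : Type} (M : V → C) : Prop :=
  ∀ r : V → V → Prop, Equit G M r → ∃ g : G, ∀ x, r x (g • x)

variable {G} in
def Realz {I T : Type} (e : I × T → V) (g : G) (σ : Perm I) : Prop :=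
  (∀ i t, g • e (i, t) = e (σ i, t)) ∧ ∀ x, x ∉ Set.range e → g • x = x

variable (V) in
/-- If all even column permutations of a grid are induced, then all of them are. -/
def PStar : Prop :=
  ∀ (I T : Type) [Fintype I] [DecidableEq I] (e : I × T → V), Function.Injective e →
    5 ≤ Fintype.card I → (∀ σ : Perm I, sign σ = 1 → ∃ g : G, Realz e g σ) →
    ∀ σ : Perm I, ∃ g : G, Realz e g σ

def Bd (q : ℕ) (M : V → ℕ × ℕ) : Prop := ∀ x, (M x).1 < q ∧ (M x).2 < q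

end defs

theorem exists_even_map {I : Type} [Fintype I] [DecidableEq I] (h : 4 ≤ Fintype.card I)
    (i j : I) : ∃ σ : Perm I, sign σ = 1 ∧ σ i = j := by
  obtain ⟨σ, h1, h2⟩ := exists_map (β := (Set.univ : Set I)) (by
    rw [Set.ncard_univ, Nat.card_eq_fintype_card]; exact h) (Set.mem_univ i) (Set.mem_univ j)
  exact ⟨σ, h1.2, h2⟩

variable {V : Type} {G : Type} [Group G] [MulAction G V]

theorem pstar_pres {C : Type} (M : V → C) (h : PStar V G) : PStar V (presSub G M) := by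
  intro I T _ _ e he h5 hev σ
  obtain ⟨g, hg1, hg2⟩ := h I T e he h5 (fun σ hσ => by
    obtain ⟨g, hg⟩ := hev σ hσ
    exact ⟨g.1, hg⟩) σ
  refine ⟨⟨g, fun x => ?_⟩, hg1, hg2⟩
  by_cases hx : x ∈ Set.range e
  · obtain ⟨⟨i, t⟩, rfl⟩ := hx
    obtain ⟨τ, h1, h2⟩ := exists_even_map (by omega) i (σ i)
    obtain ⟨k, hk, -⟩ := hev τ h1
    rw [hg1, ← h2, ← hk]
    exact k.2 _
  · rw [hg2 x hx]

/-- The fixed points of an equivariant map. -/
def fixSub (π : V → V) (hπ : ∀ (g : G) x, π (g • x) = g • π x) : SubMulAction G V where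
  carrier := {x | π x = x}
  smul_mem' := fun g x hx => by
    show π (g • x) = g • x
    rw [hπ, hx]

theorem pstar_lift (π : V → V) (hπ : ∀ (g : G) x, π (g • x) = g • π x) (hππ : ∀ x, π (π x) = π x)
    (hst : ∀ (g : G) x, g • π x = π x → g • x = x) (h : PStar V G) :
    PStar (fixSub π hπ) G := by
  intro I T _ _ e he h5 hev σ
  obtain ⟨i₀⟩ : Nonempty I := Fintype.card_pos_iff.mp (by omega)
  have hex : ∀ i, ∃ g : G, ∀ t, g • (e (i₀, t)).1 = (e (i, t)).1 := fun i => by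
    obtain ⟨τ, h1, h2⟩ := exists_even_map (by omega) i₀ i
    obtain ⟨k, hk, -⟩ := hev τ h1
    exact ⟨k, fun t => by rw [← h2, ← hk]; rfl⟩
  choose γ hγ using hex
  let E : I × {x : V // ∃ t, π x = (e (i₀, t)).1} → V := fun z => γ z.1 • z.2.1
  have hE : Function.Injective E := by
    rintro ⟨i, x, t, hx⟩ ⟨j, y, t', hy⟩ hxy
    have h1 : γ i • x = γ j • y := hxy
    have h2 := congrArg π h1
    rw [hπ, hπ, hx, hy, hγ, hγ] at h2
    have h3 := congrArg Prod.fst (he (Subtype.ext h2))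
    obtain rfl : i = j := h3
    obtain rfl : x = y := smul_left_cancel _ h1
    rfl
  have hup : ∀ (g : G) (τ : Perm I), Realz e g τ → Realz E g τ := by
    rintro g τ ⟨h1, h2⟩
    refine ⟨?_, fun y hy => ?_⟩
    · rintro i ⟨x, t, hx⟩
      show g • γ i • x = γ (τ i) • x
      have := hst ((γ (τ i))⁻¹ * g * γ i) x (by
        rw [hx, mul_smul, mul_smul, hγ, inv_smul_eq_iff, hγ]
        exact congrArg Subtype.val (h1 i t))
      rwa [mul_smul, mul_smul, inv_smul_eq_iff] at this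
    · apply hst
      have := h2 ⟨π y, hππ y⟩ (by
        rintro ⟨⟨i, t⟩, h3⟩
        have h4 : (e (i, t)).1 = π y := congrArg Subtype.val h3
        refine hy ⟨⟨i, (γ i)⁻¹ • y, t, ?_⟩, smul_inv_smul _ _⟩
        rw [hπ, inv_smul_eq_iff, hγ, h4])
      exact congrArg Subtype.val this
  obtain ⟨g, hg1, hg2⟩ := h I _ E hE h5 (fun τ hτ => by
    obtain ⟨g, hg⟩ := hev τ hτ
    exact ⟨g, hup g τ hg⟩) σ
  refine ⟨g, fun i t => Subtype.ext ?_, fun y hy => Subtype.ext ?_⟩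
  · have := hg1 i ⟨(e (i₀, t)).1, t, (e (i₀, t)).2⟩
    simp only [E, hγ] at this
    exact this
  · refine hg2 y.1 ?_
    rintro ⟨⟨i, x, t, hx⟩, h3⟩
    have h4 : γ i • x = y.1 := h3
    have h5' := congrArg π h4
    rw [hπ, hx, hγ, y.2] at h5'
    exact hy ⟨(i, t), Subtype.ext h5'⟩

theorem exists_select {r : V → V → Prop} (hr : IsCong G r)
    (hrig : ∀ (h : G) x, r x (h • x) → h • x = x) (A : V → V)
    (hA1 : ∀ x, ∃ h : G, r (h • x) (A x)) :
    ∃ π : V → V, ∀ x (h : G), r (h • x) (A x) → π x = h⁻¹ • A x := by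
  choose κ hκ using hA1
  refine ⟨fun x => (κ x)⁻¹ • A x, fun x h hx => ?_⟩
  have h1 := hr.smul (κ x)⁻¹ (hκ x)
  have h2 := hr.smul h⁻¹ hx
  rw [inv_smul_smul] at h1 h2
  have h3 := hr.trans (hr.symm h1) h2
  have h4 := hrig (h⁻¹ * κ x) ((κ x)⁻¹ • A x) (by rwa [mul_smul, smul_inv_smul])
  rw [mul_smul, smul_inv_smul] at h4
  exact h4.symm

theorem exists_retract {r : V → V → Prop} (hr : IsCong G r)
    (hrig : ∀ (h : G) x, r x (h • x) → h • x = x) :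
    ∃ π π₂ : V → V, (∀ x, r x (π x)) ∧ (∀ x y, r x y → π x = π y) ∧
      (∀ (g : G) x, π (g • x) = g • π x) ∧ (∀ x, r x (π₂ x)) ∧ (∀ x y, r x y → π₂ x = π₂ y) ∧
      (∀ (g : G) x, π₂ (g • x) = g • π₂ x) ∧ ∀ x y, r x y → x ≠ y → π x ≠ π₂ x := by
  classical
  let s : Setoid V := ⟨fun x y => ∃ h : G, r (h • x) y,
    ⟨fun x => ⟨1, by rw [one_smul]; exact hr.refl x⟩,
     fun {x y} ⟨h, hh⟩ => ⟨h⁻¹, by
      have := hr.smul h⁻¹ hh
      rw [inv_smul_smul] at this; exact hr.symm this⟩,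
     fun {x y z} ⟨h, hh⟩ ⟨k, hk⟩ => ⟨k * h, by
      rw [mul_smul]; exact hr.trans (hr.smul k hh) hk⟩⟩⟩
  let A : V → V := fun x => (Quotient.mk s x).out
  have hA1 : ∀ x, ∃ h : G, r (h • x) (A x) := fun x => s.symm (Quotient.mk_out (s := s) x)
  have hA2 : ∀ (h : G) x y, r (h • x) y → A x = A y := fun h x y hxy => by
    have : Quotient.mk s x = Quotient.mk s y := Quotient.sound ⟨h, hxy⟩
    simp only [A, this]
  have hb : ∀ a, ∃ b, r a b ∧ ((∃ y, r a y ∧ a ≠ y) → a ≠ b) := fun a => by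
    by_cases h : ∃ y, r a y ∧ a ≠ y
    · obtain ⟨y, h1, h2⟩ := h
      exact ⟨y, h1, fun _ => h2⟩
    · exact ⟨a, hr.refl a, fun h' => absurd h' h⟩
  choose b hb1 hb2 using hb
  have gen : ∀ (B π : V → V), (∀ x, ∃ h : G, r (h • x) (B x)) →
      (∀ (h : G) x y, r (h • x) y → B x = B y) →
      (∀ x (h : G), r (h • x) (B x) → π x = h⁻¹ • B x) →
      (∀ x, r x (π x)) ∧ (∀ x y, r x y → π x = π y) ∧ ∀ (g : G) x, π (g • x) = g • π x := by
    intro B π h1 h2 h3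
    refine ⟨fun x => ?_, fun x y hxy => ?_, fun g x => ?_⟩
    · obtain ⟨h, hh⟩ := h1 x
      have := hr.smul h⁻¹ hh
      rwa [inv_smul_smul, ← h3 x h hh] at this
    · obtain ⟨h, hh⟩ := h1 x
      have e := h2 1 x y (by rwa [one_smul])
      rw [h3 x h hh, h3 y h (e ▸ hr.trans (hr.smul h (hr.symm hxy)) hh), e]
    · obtain ⟨h, hh⟩ := h1 (g • x)
      have e := h2 g x (g • x) (hr.refl _)
      rw [h3 _ h hh, h3 x (h * g) (by rw [mul_smul, e]; exact hh), e, mul_inv_rev, mul_smul,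
        smul_inv_smul]
  have hB1 : ∀ x, ∃ h : G, r (h • x) (b (A x)) := fun x => by
    obtain ⟨h, hh⟩ := hA1 x
    exact ⟨h, hr.trans hh (hb1 _)⟩
  obtain ⟨π, hπ⟩ := exists_select hr hrig A hA1
  obtain ⟨π₂, hπ₂⟩ := exists_select hr hrig (fun x => b (A x)) hB1
  obtain ⟨a1, a2, a3⟩ := gen A π hA1 hA2 hπ
  obtain ⟨b1, b2, b3⟩ := gen (fun x => b (A x)) π₂ hB1
    (fun h x y hxy => by simp only [hA2 h x y hxy]) hπ₂
  refine ⟨π, π₂, a1, a2, a3, b1, b2, b3, fun x y hxy hne hc => ?_⟩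
  obtain ⟨h, hh⟩ := hA1 x
  rw [hπ x h hh, hπ₂ x h (hr.trans hh (hb1 _))] at hc
  refine hb2 (A x) ?_ (smul_left_cancel _ hc)
  by_cases h1 : A x = h • x
  · exact ⟨h • y, h1 ▸ hr.smul h hxy, h1 ▸ fun h2 => hne (smul_left_cancel _ h2)⟩
  · exact ⟨h • x, hr.symm hh, h1⟩

theorem IsCong.restrict {r : V → V → Prop} (hr : IsCong G r) (H : Subgroup G) : IsCong H r :=
  ⟨hr.refl, hr.symm, hr.trans, fun g _ _ h => hr.smul g.1 h⟩

/-- The induction hypothesis. -/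
def IH (q n : ℕ) : Prop :=
  ∀ (V : Type) [Finite V] (G : Type) [Group G] [Finite G] [MulAction G V], Nat.card V < n →
    PStar V G → ∃ M : V → ℕ × ℕ, Bd q M ∧ Tame G M

variable (V G) in
/-- First reduction: blocks that become rigid after a colouring. -/
def R1 (q : ℕ) : Prop :=
  ∃ (r : V → V → Prop) (M : V → ℕ), IsCong G r ∧ (∃ x y, r x y ∧ x ≠ y) ∧ (∀ x, M x < q) ∧
    (∀ x, (∀ y, r x y → y = x) → M x = 0) ∧
    ∀ g : G, (∀ x, M (g • x) = M x) → ∀ x, r x (g • x) → g • x = x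

variable (V G) in
/-- Second reduction: independent full symmetric groups on the blocks. -/
def R3 : Prop :=
  ∃ r : V → V → Prop, IsCong G r ∧ (∃ x y, r x y ∧ x ≠ y) ∧
    ∀ s : Perm V, (∀ x, r x (s x)) → ∃ g : G, ∀ x, g • x = s x

theorem card_fixSub_lt [Finite V] {r : V → V → Prop} (π : V → V)
    (hπ : ∀ (g : G) x, π (g • x) = g • π x) (h2 : ∀ x y, r x y → π x = π y)
    (hne : ∃ x y, r x y ∧ x ≠ y) : Nat.card (fixSub π hπ) < Nat.card V := by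
  obtain ⟨x, y, hxy, hne⟩ := hne
  have : ∃ z, π z ≠ z := by
    by_contra hc
    push Not at hc
    exact hne (by rw [← hc x, ← hc y]; exact h2 x y hxy)
  obtain ⟨z, hz⟩ := this
  exact Finite.card_subtype_lt (p := fun x => x ∈ fixSub π hπ) (x := z) hz

theorem red1 [Finite V] [Finite G] {q : ℕ} (ih : IH q (Nat.card V)) (hP : PStar V G)
    (h : R1 V G q) : ∃ M : V → ℕ × ℕ, Bd q M ∧ Tame G M := by
  classical
  obtain ⟨r, M₁, hr, hne, hM₁, hM₀, hrig⟩ := h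
  let H := presSub G M₁
  have hrH := hr.restrict H
  have hrigH : ∀ (h : H) x, r x (h • x) → h • x = x := fun h => hrig h.1 h.2
  obtain ⟨π, π₂, a1, a2, a3, b1, b2, b3, hππ₂⟩ := exists_retract hrH hrigH
  have hππ : ∀ x, π (π x) = π x := fun x => (a2 _ _ (a1 x)).symm
  have hst : ∀ (g : H) x, g • π x = π x → g • x = x := fun g x hg => hrigH g x (by
    have := hrH.smul g (a1 x)
    rw [hg] at this
    exact hr.trans (a1 x) (hr.symm this))
  obtain ⟨N, hN, hT⟩ := ih (fixSub π a3) H (card_fixSub_lt π a3 a2 hne)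
    (pstar_lift π a3 hππ hst (pstar_pres M₁ hP))
  let m : V → ℕ × ℕ := fun x => N ⟨π x, hππ x⟩
  let M : V → ℕ × ℕ := fun x => if ∀ y, r x y → y = x then m x else
    (M₁ x, if π₂ x = x then (m x).2 else (m x).1)
  have htriv : ∀ (g : G) x, (∀ y, r (g • x) y → y = g • x) ↔ ∀ y, r x y → y = x := fun g x =>
    ⟨fun h y hy => smul_left_cancel g (h _ (hr.smul g hy)), fun h y hy => by
      have := hr.smul g⁻¹ hy
      rw [inv_smul_smul] at this
      rw [← h _ this, smul_inv_smul]⟩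
  have hH : ∀ g : G, (∀ z, M (g • z) = M z) → g ∈ H := fun g hg x => by
    by_cases hx : ∀ y, r x y → y = x
    · rw [hM₀ x hx, hM₀ _ ((htriv g x).mpr hx)]
    · have := congrArg Prod.fst (hg x)
      simpa only [M, if_neg hx, if_neg (mt (htriv g x).mp hx)] using this
  have hN' : ∀ (g : G) (hg : ∀ z, M (g • z) = M z) (u : fixSub π a3),
      N ((⟨g, hH g hg⟩ : H) • u) = N u := by
    intro g hg u
    have hm : ∀ x, π x = u.1 → m x = N u ∧ m (g • x) = N ((⟨g, hH g hg⟩ : H) • u) := by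
      intro x hx
      refine ⟨congrArg N (Subtype.ext hx), congrArg N (Subtype.ext ?_)⟩
      have := a3 ⟨g, hH g hg⟩ x
      rw [hx] at this
      exact this
    by_cases hx : ∀ y, r u.1 y → y = u.1
    · have := hg u.1
      simp only [M, if_pos hx, if_pos ((htriv g _).mpr hx)] at this
      rw [← (hm u.1 u.2).1, ← (hm u.1 u.2).2, this]
    · have hx' := hx
      push Not at hx'
      obtain ⟨y, hy, hy'⟩ := hx'
      have hu : π u.1 = u.1 := u.2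
      have hd : π₂ u.1 ≠ u.1 := fun hc => hππ₂ _ _ hy hy'.symm (by rw [hu, hc])
      have hb3 : ∀ x, π₂ (g • x) = g • π₂ x := b3 ⟨g, hH g hg⟩
      apply Prod.ext
      · have := congrArg Prod.snd (hg u.1)
        have hd' : π₂ (g • u.1) ≠ g • u.1 := fun hc => hd (smul_left_cancel g (hb3 _ ▸ hc))
        simp only [M, if_neg hx, if_neg (mt (htriv g _).mp hx), if_neg hd, if_neg hd'] at this
        rw [← (hm u.1 u.2).1, ← (hm u.1 u.2).2, this]
      · have e1 : π₂ (π₂ u.1) = π₂ u.1 := (b2 _ _ (b1 _)).symm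
        have e2 : π (π₂ u.1) = u.1 := by rw [← a2 _ _ (b1 u.1), hu]
        have hx2 : ¬ ∀ y, r (π₂ u.1) y → y = π₂ u.1 := fun hc => hd (hc _ (hr.symm (b1 _))).symm
        have e3 : π₂ (g • π₂ u.1) = g • π₂ u.1 := by rw [hb3, e1]
        have := congrArg Prod.snd (hg (π₂ u.1))
        simp only [M, if_neg hx2, if_neg (mt (htriv g _).mp hx2), if_pos e1, if_pos e3] at this
        rw [← (hm _ e2).1, ← (hm _ e2).2, this]
  refine ⟨M, fun x => ?_, fun ρ ⟨⟨b₀, hb₀⟩, hc⟩ => ?_⟩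
  · simp only [M]
    split_ifs
    · exact hN _
    · exact ⟨hM₁ x, (hN _).2⟩
    · exact ⟨hM₁ x, (hN _).1⟩
  · have hsub : ∀ b : V ≃ V, (∀ x, ∃ γ : G, (∀ z, M (γ • z) = M z) ∧ γ • x = b x) →
        ∀ x, x ∈ fixSub π a3 ↔ b x ∈ fixSub π a3 := by
      intro b hb x
      obtain ⟨γ, h1, h2⟩ := hb x
      rw [← h2]
      exact ((fixSub π a3).smul_mem_iff' (⟨γ, hH γ h1⟩ : H)).symm
    obtain ⟨g, hg⟩ := hT (fun u u' => ρ u.1 u'.1) ⟨⟨b₀.subtypeEquiv (hsub b₀ fun x => by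
      obtain ⟨b, hb⟩ := hc _ _ (hb₀ x)
      obtain ⟨-, γ, h1, h2, -⟩ := hb x
      exact ⟨γ, h1, h2⟩), fun x => hb₀ x.1⟩, fun u u' huu' => by
      obtain ⟨b, hb⟩ := hc _ _ huu'
      refine ⟨b.subtypeEquiv (hsub b fun x => by
        obtain ⟨-, γ, h1, -, h2⟩ := hb x
        exact ⟨γ, h1, h2⟩), fun x => ?_⟩
      obtain ⟨h0, γ, h1, h2, h3⟩ := hb x.1
      exact ⟨h0, ⟨γ, hH γ h1⟩, hN' γ h1, Subtype.ext h2, Subtype.ext h3⟩⟩
    refine ⟨g.1, fun x => ?_⟩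
    obtain ⟨b, hb⟩ := hc _ _ (hg ⟨π x, hππ x⟩)
    obtain ⟨h0, γ, h1, h2, h3⟩ := hb x
    have := hst (g⁻¹ * ⟨γ, hH γ h1⟩) x (by rw [mul_smul, inv_smul_eq_iff]; exact h2)
    rw [mul_smul, inv_smul_eq_iff] at this
    have h4 : γ • x = g.1 • x := this
    rwa [← h4, h3]

theorem IsCong.ncard_smul {r : V → V → Prop} (hr : IsCong G r) (g : G) (x : V) :
    {y | r (g • x) y}.ncard = {y | r x y}.ncard := by
  rw [← Set.ncard_image_of_injective {y | r x y} (MulAction.injective g)]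
  congr 1
  ext y
  constructor
  · intro hy
    have := hr.smul g⁻¹ hy
    rw [inv_smul_smul] at this
    exact ⟨_, this, smul_inv_smul _ _⟩
  · rintro ⟨z, hz, rfl⟩; exact hr.smul g hz

theorem red3 [Finite V] [Finite G] {q : ℕ} (ih : IH q (Nat.card V)) (hP : PStar V G)
    (h : R3 V G) : ∃ M : V → ℕ × ℕ, Bd q M ∧ Tame G M := by
  classical
  obtain ⟨r, hr, hne, hall⟩ := h
  obtain ⟨ω, hω1, hω2, hω3⟩ := exists_omega (r := r) ⟨hr.refl, hr.symm, hr.trans⟩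
  let H := presSub G ω
  have hrH := hr.restrict H
  have hrigH : ∀ (h : H) x, r x (h • x) → h • x = x := fun h x hx =>
    (hω1 _ _ hx (h.2 x).symm).symm
  obtain ⟨π, -, a1, a2, a3, -⟩ := exists_retract hrH hrigH
  have hππ : ∀ x, π (π x) = π x := fun x => (a2 _ _ (a1 x)).symm
  have hst : ∀ (g : H) x, g • π x = π x → g • x = x := fun g x hg => hrigH g x (by
    have := hrH.smul g (a1 x)
    rw [hg] at this
    exact hr.trans (a1 x) (hr.symm this))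
  obtain ⟨N, hN, hT⟩ := ih (fixSub π a3) H (card_fixSub_lt π a3 a2 hne)
    (pstar_lift π a3 hππ hst (pstar_pres ω hP))
  let p : V → fixSub π a3 := fun x => ⟨π x, hππ x⟩
  have hp : Function.Surjective p := fun u => ⟨u.1, Subtype.ext u.2⟩
  have hpr : ∀ x y, p y = p x ↔ r x y := fun x y =>
    ⟨fun h => hr.trans (a1 x) (by
      have : π y = π x := congrArg Subtype.val h
      rw [← this]; exact hr.symm (a1 y)), fun h => Subtype.ext (a2 _ _ h).symm⟩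
  have hcorr : ∀ γ : G, ∃ k : H, ∀ x, k • p x = p (γ • x) := by
    intro γ
    have h1 : ∀ y, ∃ y', r y y' ∧ ω y' = ω (γ⁻¹ • y) := fun y =>
      hω3 y _ (by rw [← hr.ncard_smul γ⁻¹ y]; exact hω2 _)
    choose s hs1 hs2 using h1
    have hs : Function.Injective s := fun y y' hyy => by
      have e1 : r y y' := hr.trans (hs1 y) (hyy ▸ hr.symm (hs1 y'))
      exact smul_left_cancel γ⁻¹ (hω1 _ _ (hr.smul γ⁻¹ e1) (by rw [← hs2, ← hs2, hyy]))
    obtain ⟨g, hg⟩ := hall (Equiv.ofBijective s (Finite.injective_iff_bijective.mp hs)) hs1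
    have hg' : ∀ x, g • x = s x := hg
    refine ⟨⟨g * γ, fun x => by rw [mul_smul, hg', hs2, inv_smul_smul]⟩, fun x => Subtype.ext ?_⟩
    refine (a3 _ x).symm.trans (a2 _ _ ?_)
    show r ((g * γ) • x) (γ • x)
    rw [mul_smul, hg']; exact hr.symm (hs1 _)
  have hdesc : ∀ b : V ≃ V, (∀ x, ∃ γ : G, γ • x = b x) →
      ∃ c : fixSub π a3 ≃ fixSub π a3, ∀ u, ∃ x, p x = u ∧ p (b x) = c u := fun b hb =>
    hall_fibre p p hp hp b fun x => by
      obtain ⟨γ, hγ⟩ := hb x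
      simp only [hpr]
      rw [← hγ, hr.ncard_smul]
  refine ⟨fun x => N (p x), fun x => hN _, fun ρ ⟨⟨b₀, hb₀⟩, hc⟩ => ?_⟩
  obtain ⟨g, hg⟩ := hT (fun u u' => ∃ x x', p x = u ∧ p x' = u' ∧ ρ x x') ⟨by
    obtain ⟨c, hc'⟩ := hdesc b₀ fun x => by
      obtain ⟨b, hb⟩ := hc _ _ (hb₀ x)
      obtain ⟨-, γ, -, h2, -⟩ := hb x
      exact ⟨γ, h2⟩
    refine ⟨c, fun u => ?_⟩
    obtain ⟨x, h1, h2⟩ := hc' u
    exact ⟨x, b₀ x, h1, h2, hb₀ x⟩, by
    rintro u u' ⟨x₀, x₀', rfl, rfl, h0⟩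
    obtain ⟨b, hb⟩ := hc _ _ h0
    obtain ⟨c, hc'⟩ := hdesc b fun x => by
      obtain ⟨-, γ, -, -, h2⟩ := hb x
      exact ⟨γ, h2⟩
    refine ⟨c, fun u => ?_⟩
    obtain ⟨x, rfl, h2⟩ := hc' u
    obtain ⟨h3, γ, h4, h5, h6⟩ := hb x
    obtain ⟨k, hk⟩ := hcorr γ
    refine ⟨⟨x, b x, rfl, h2, h3⟩, k, fun z => ?_, by rw [hk, h5], by rw [hk, h6, h2]⟩
    obtain ⟨y, rfl⟩ := hp z
    rw [hk]; exact h4 y⟩
  have hB : ∀ u, ∃ b : V ≃ V, ∀ x, p x = u → ρ x (b x) ∧ r (g • x) (b x) := by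
    intro u
    obtain ⟨x₁, x₁', h1, h2, h3⟩ := hg u
    obtain ⟨b, hb⟩ := hc _ _ h3
    refine ⟨b, fun x hx => ?_⟩
    obtain ⟨h4, γ, -, h5, h6⟩ := hb x
    refine ⟨h4, ?_⟩
    have e1 : r x₁ x := (hpr _ _).mp (hx.trans h1.symm)
    have e2 := hr.smul γ e1
    rw [h5, h6] at e2
    refine hr.trans ((hpr _ _).mp ?_) e2
    rw [h2, ← hx]; exact Subtype.ext (a3 g x).symm
  choose B hB using hB
  have hs1 : ∀ x, r x (g⁻¹ • B (p x) x) := fun x => by
    have := hrH.smul g⁻¹ (hB _ x rfl).2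
    rwa [inv_smul_smul] at this
  have hs : Function.Injective (fun x => g⁻¹ • B (p x) x) := fun x y hxy => by
    have e0 : g⁻¹ • B (p x) x = g⁻¹ • B (p y) y := hxy
    have e1 : r x y := hr.trans (hs1 x) (e0 ▸ hr.symm (hs1 y))
    have e2 := smul_left_cancel _ e0
    rw [(hpr _ _).mpr e1] at e2
    exact (B _).injective e2
  obtain ⟨k, hk⟩ := hall (Equiv.ofBijective _ (Finite.injective_iff_bijective.mp hs)) hs1
  refine ⟨g.1 * k, fun x => ?_⟩
  have hk' : k • x = g⁻¹ • B (p x) x := hk x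
  have : (g.1 * k) • x = B (p x) x := by
    rw [mul_smul, hk']; exact smul_inv_smul g _
  rw [this]; exact (hB _ x rfl).1

end Pool.Agent.MP_88b4a2_lc

end

section

/-! Two alternating actions with the same kernel are equivalent. -/

namespace Pool.Agent.MP_88b4a2_lc

open Equiv Equiv.Perm MulAction

/-- Primitive groups not containing the alternating group have rigid colourings. -/
def PrimHyp (q : ℕ) : Prop :=
  ∀ (B : Type) [Fintype B] [DecidableEq B] (G : Subgroup (Perm B)),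
    IsPreprimitive G B → ¬ alternatingGroup B ≤ G →
    ∃ M : B → ℕ, (∀ x, M x < q) ∧ ∀ g ∈ G, (∀ x, M (g x) = M x) → g = 1

variable {V : Type} [Fintype V] [DecidableEq V]

theorem altOn_univ (B : Type) [Fintype B] [DecidableEq B] :
    AltOn (Set.univ : Set B) = alternatingGroup B := by
  ext σ; simp [mem_AltOn, Perm.mem_alternatingGroup]

theorem alt_moves {B : Type} [Fintype B] [DecidableEq B] (h : 4 ≤ Fintype.card B) (y : B) :
    ∃ σ ∈ alternatingGroup B, σ y ≠ y := by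
  have h4 : 4 ≤ (Set.univ : Set B).ncard := by
    rw [Set.ncard_univ, Nat.card_eq_fintype_card]; exact h
  obtain ⟨w, -, hw'⟩ := exists_not_mem_of_ncard (β := (Set.univ : Set B)) {y} (by
    rw [Finset.card_singleton]; omega)
  obtain ⟨σ, hσ, h1⟩ := exists_map h4 (Set.mem_univ y) (Set.mem_univ w)
  exact ⟨σ, altOn_univ B ▸ hσ, by rw [h1]; simpa using hw'⟩

theorem card_alt (B : Type) [Fintype B] [DecidableEq B] (h : 2 ≤ Fintype.card B) :
    2 * Nat.card (alternatingGroup B) = (Fintype.card B).factorial := by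
  have := altOn_card (β := (Set.univ : Set B)) (by
    rw [Set.ncard_univ, Nat.card_eq_fintype_card]; exact h)
  rwa [altOn_univ, Set.ncard_univ, Nat.card_eq_fintype_card (α := B)] at this

theorem fixed_of_index {q : ℕ} (hP : PrimHyp q) {B : Type} [Fintype B] [DecidableEq B]
    (H : Subgroup (Perm B)) (m : ℕ) (hB : Fintype.card B = m + 1) (hm : 5 ≤ m)
    (hcard : 2 * Nat.card H = m.factorial) (hq : 2 * q ^ (m + 1) < m.factorial)
    (hidx : ∀ T : Subgroup H, T ≠ ⊤ → m ≤ T.index) : ∃ y : B, ∀ h ∈ H, h y = y := by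
  classical
  by_contra hc
  push Not at hc
  have hst : ∀ y : B, stabilizer H y ≠ ⊤ := fun y h => by
    obtain ⟨g, hg, h1⟩ := hc y
    have : (⟨g, hg⟩ : H) ∈ stabilizer H y := h ▸ Subgroup.mem_top _
    exact h1 this
  have horb : ∀ y : B, m ≤ (orbit H y).ncard := fun y => by
    rw [← MulAction.index_stabilizer]; exact hidx _ (hst y)
  have htr : IsPretransitive H B := ⟨fun y y' => by
    by_contra hne
    have hdis : _root_.Disjoint (orbit H y) (orbit H y') := by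
      rw [Set.disjoint_left]
      rintro _ ⟨a, rfl⟩ ⟨b, hb⟩
      exact hne ⟨b⁻¹ * a, by rw [mul_smul, inv_smul_eq_iff]; exact hb.symm⟩
    have h1 := Set.ncard_union_eq hdis
    have h2 := Set.ncard_le_ncard (Set.subset_univ (orbit H y ∪ orbit H y'))
    rw [Set.ncard_univ, Nat.card_eq_fintype_card] at h2
    have := horb y
    have := horb y'
    omega⟩
  have hnt : Nontrivial B := Fintype.one_lt_card_iff_nontrivial.mp (by omega)
  obtain ⟨y⟩ : Nonempty B := inferInstance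
  have hco : IsCoatom (stabilizer H y) := by
    refine ⟨hst y, fun T hT => ?_⟩
    by_contra hT'
    have h1 := hidx T hT'
    have h2 := Subgroup.relIndex_mul_index hT.le
    rw [MulAction.index_stabilizer_of_transitive, Nat.card_eq_fintype_card, hB] at h2
    have h3 : (stabilizer H y).relIndex T ≠ 1 := fun h =>
      hT.not_ge (Subgroup.relIndex_eq_one.mp h)
    have h4 : (stabilizer H y).relIndex T ≠ 0 := fun h => by rw [h] at h2; omega
    have h5 : 2 ≤ (stabilizer H y).relIndex T := by omega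
    nlinarith
  have hprim := (isCoatom_stabilizer_iff_preprimitive H y).mp hco
  have hng : ¬ alternatingGroup B ≤ H := fun h => by
    have h1 := Subgroup.card_le_of_le h
    have h2 := card_alt B (by omega)
    rw [hB, Nat.factorial_succ] at h2
    have := Nat.factorial_pos m
    nlinarith
  obtain ⟨M, hM, hrig⟩ := hP B H hprim hng
  have hinj : Function.Injective (fun h : H => fun x : B => (⟨M (h.1 x), hM _⟩ : Fin q)) := by
    intro a b hab
    have : a.1 * b.1⁻¹ = 1 := hrig _ (H.mul_mem a.2 (H.inv_mem b.2)) fun x => by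
      have := congrArg Fin.val (congrFun hab (b.1⁻¹ x))
      simpa using this
    exact Subtype.ext (mul_inv_eq_one.mp this)
  have h1 := Nat.card_le_card_of_injective _ hinj
  rw [Nat.card_fun, Nat.card_eq_fintype_card (α := B), hB, Nat.card_fin] at h1
  omega

theorem partner' {q : ℕ} (hP : PrimHyp q) {β : Set V} {B : Type} [Fintype B] [DecidableEq B]
    (φ : AltOn β →* Perm B) (hsurj : alternatingGroup B ≤ φ.range) (hB : 5 ≤ Fintype.card B)
    (h6 : 6 ≤ β.ncard) (hq : 2 * q ^ β.ncard < (β.ncard - 1).factorial) :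
    Fintype.card B = β.ncard ∧ ∀ x ∈ β, ∃ y : B, ∀ σ : AltOn β, σ.1 x = x ↔ φ σ y = y := by
  classical
  have hs := altOn_simple (β := β) (by omega)
  have hmove : ∀ y : B, ∃ σ, φ σ y ≠ y := fun y => by
    obtain ⟨τ, hτ, h1⟩ := alt_moves (by omega) y
    obtain ⟨σ, rfl⟩ := hsurj hτ
    exact ⟨σ, h1⟩
  have hnt : Nontrivial B := Fintype.one_lt_card_iff_nontrivial.mp (by omega)
  have hinj : Function.Injective φ := by
    rw [← MonoidHom.ker_eq_bot_iff]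
    rcases hs.eq_bot_or_eq_top_of_normal φ.ker inferInstance with h | h
    · exact h
    · obtain ⟨y⟩ : Nonempty B := inferInstance
      obtain ⟨σ, hσ⟩ := hmove y
      have : σ ∈ φ.ker := h ▸ Subgroup.mem_top _
      rw [MonoidHom.mem_ker] at this
      rw [this] at hσ; exact absurd rfl hσ
  let _ : MulAction (AltOn β) B := MulAction.compHom B φ
  have hsm : ∀ (σ : AltOn β) (y : B), σ • y = φ σ y := fun _ _ => rfl
  have hst : ∀ y : B, β.ncard ≤ (stabilizer (AltOn β) y).index := fun y =>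
    altOn_index (by omega) _ fun h => by
      obtain ⟨σ, hσ⟩ := hmove y
      have : σ ∈ stabilizer (AltOn β) y := h ▸ Subgroup.mem_top _
      exact hσ this
  have hcard : Fintype.card B = β.ncard := by
    apply le_antisymm
    · have h1 := Subgroup.card_le_of_le hsurj
      have h2 : Nat.card φ.range = Nat.card (AltOn β) :=
        (Nat.card_congr (MonoidHom.ofInjective hinj).toEquiv).symm
      have h3 := card_alt B (by omega)
      have h4 := altOn_card (β := β) (by omega)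
      by_contra hlt
      have := (Nat.factorial_lt (n := β.ncard) (m := Fintype.card B) (by omega)).mpr (by omega)
      omega
    · obtain ⟨y⟩ : Nonempty B := inferInstance
      have h1 := hst y
      rw [MulAction.index_stabilizer] at h1
      have h2 := Set.ncard_le_ncard (Set.subset_univ (orbit (AltOn β) y))
      rw [Set.ncard_univ, Nat.card_eq_fintype_card] at h2
      omega
  refine ⟨hcard, fun x hx => ?_⟩
  have hle : AltOn (β \ {x}) ≤ AltOn β := fun σ hσ =>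
    ⟨fun z hz => hσ.1 z fun h => hz h.1, hσ.2⟩
  have hn : (β \ {x}).ncard = β.ncard - 1 := Set.ncard_sdiff_singleton_of_mem hx
  let ψ : AltOn (β \ {x}) →* Perm B := φ.comp (Subgroup.inclusion hle)
  have hψ : Function.Injective ψ := hinj.comp (Subgroup.inclusion_injective hle)
  obtain ⟨y, hy⟩ := fixed_of_index hP ψ.range (β.ncard - 1) (by omega) (by omega)
    (by rw [← Nat.card_congr (MonoidHom.ofInjective hψ).toEquiv, altOn_card (by omega), hn])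
    (by rwa [Nat.sub_add_cancel (by omega)])
    (fun T hT => by
      have h1 := altOn_index (β := β \ {x}) (by omega)
        (T.comap (MonoidHom.ofInjective hψ).toMonoidHom) (fun h => hT (by
          rw [eq_top_iff]
          intro t _
          obtain ⟨s, rfl⟩ := (MonoidHom.ofInjective hψ).surjective t
          have : s ∈ T.comap (MonoidHom.ofInjective hψ).toMonoidHom := h ▸ Subgroup.mem_top _
          exact this))
      rw [Subgroup.index_comap_of_surjective T (f := (MonoidHom.ofInjective hψ).toMonoidHom)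
        (MonoidHom.ofInjective hψ).surjective] at h1
      omega)
  have hSy : stabilizer (AltOn β) x ≤ stabilizer (AltOn β) y := by
    intro σ hσ
    have hσ' : σ.1 x = x := hσ
    have hmem : σ.1 ∈ AltOn (β \ {x}) := ⟨fun z hz => by
      by_cases hz' : z = x
      · rw [hz', hσ']
      · exact σ.2.1 z fun h => hz ⟨h, hz'⟩, σ.2.2⟩
    exact hy _ ⟨⟨σ.1, hmem⟩, rfl⟩
  have hidx : (stabilizer (AltOn β) x).index ≤ β.ncard := by
    rw [MulAction.index_stabilizer]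
    refine Set.ncard_le_ncard ?_
    rintro _ ⟨σ, rfl⟩
    exact (AltOn.mem_iff σ.2 x).mpr hx
  have heq : stabilizer (AltOn β) y ≤ stabilizer (AltOn β) x := by
    have h2 := Subgroup.relIndex_mul_index hSy
    have h3 := hst y
    have h4 : (stabilizer (AltOn β) x).index ≠ 0 := Subgroup.index_ne_zero_of_finite
    apply Subgroup.relIndex_eq_one.mp
    have h5 : (stabilizer (AltOn β) x).relIndex (stabilizer (AltOn β) y) ≠ 0 := fun h => by
      rw [h] at h2; omega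
    by_contra h7
    have h8 : 2 ≤ (stabilizer (AltOn β) x).relIndex (stabilizer (AltOn β) y) := by omega
    nlinarith
  exact ⟨y, fun σ => ⟨fun h => hSy h, fun h => heq h⟩⟩

variable {G : Type} [Group G] [MulAction G V]

theorem partner {q : ℕ} (hP : PrimHyp q) {P : Subgroup G} {β β' : Set V}
    (hInd : Ind P β β) (hEv : ∀ k ∈ P, ∃ σ ∈ AltOn β, Rz β k σ) (hInd' : Ind P β' β')
    (hinv' : ∀ k ∈ P, ∀ x ∈ β', k • x ∈ β')
    (hker : ∀ k ∈ P, (∀ x ∈ β, k • x = x) → ∀ y ∈ β', k • y = y)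
    (h5 : 5 ≤ β'.ncard) (h6 : 6 ≤ β.ncard) (hq : 2 * q ^ β.ncard < (β.ncard - 1).factorial) :
    β'.ncard = β.ncard ∧ ∀ x ∈ β, ∃ y ∈ β', ∀ k ∈ P, k • x = x ↔ k • y = y := by
  classical
  have hinv : ∀ k ∈ P, ∀ x ∈ β, k • x ∈ β := fun k hk x hx => by
    obtain ⟨σ, hσ, h⟩ := hEv k hk
    rw [h x hx]; exact (AltOn.mem_iff hσ x).mpr hx
  have hiff : ∀ k ∈ P, ∀ x, (MulAction.toPerm k : Perm V) x ∈ β' ↔ x ∈ β' := fun k hk x =>
    ⟨fun h => by
      have := hinv' _ (P.inv_mem hk) _ h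
      simpa using this, hinv' k hk x⟩
  have hsame : ∀ k ∈ P, ∀ k' ∈ P, ∀ σ, Rz β k σ → Rz β k' σ → ∀ y ∈ β', k • y = k' • y := by
    intro k hk k' hk' σ h1 h2 y hy
    have := hker (k'⁻¹ * k) (P.mul_mem (P.inv_mem hk') hk) (fun x hx => by
      rw [mul_smul, h1 x hx, ← h2 x hx, inv_smul_smul]) y hy
    rw [mul_smul, inv_smul_eq_iff] at this
    exact this
  choose κ hκ hκ' using hInd
  let φ : AltOn β →* Perm β' := MonoidHom.mk'
    (fun σ => (MulAction.toPerm (κ σ.1 σ.2) : Perm V).subtypePerm (hiff _ (hκ _ _)))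
    (fun σ τ => by
      ext y
      have := hsame _ (hκ _ (σ * τ).2) _ (P.mul_mem (hκ _ σ.2) (hκ _ τ.2)) _ (hκ' _ (σ * τ).2)
        ((hκ' _ σ.2).mul (hκ' _ τ.2) (hinv _ (hκ _ τ.2))) y.1 y.2
      simpa [mul_smul] using this)
  have hφ : ∀ k ∈ P, ∀ σ (hσ : σ ∈ AltOn β), Rz β k σ → ∀ y : β', (φ ⟨σ, hσ⟩ y).1 = k • y.1 :=
    fun k hk σ hσ h y => hsame _ (hκ _ hσ) _ hk _ (hκ' _ hσ) h y.1 y.2
  have hc : Fintype.card β' = β'.ncard := by
    rw [← Nat.card_eq_fintype_card, Nat.card_coe_set_eq]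
  obtain ⟨h1, h2⟩ := partner' hP φ (by
    intro τ hτ
    obtain ⟨k, hk, h3⟩ := hInd' _ (altEquiv β' ⟨τ, by convert hτ⟩).2
    obtain ⟨σ, hσ, h4⟩ := hEv k hk
    refine ⟨⟨σ, hσ⟩, ?_⟩
    ext y
    rw [hφ k hk σ hσ h4 y, h3 y.1 y.2]
    exact Perm.ofSubtype_apply_coe τ y) (by omega) h6 hq
  refine ⟨by omega, fun x hx => ?_⟩
  obtain ⟨y, hy⟩ := h2 x hx
  refine ⟨y.1, y.2, fun k hk => ?_⟩
  obtain ⟨σ, hσ, h4⟩ := hEv k hk
  rw [h4 x hx, ← hφ k hk σ hσ h4 y]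
  exact (hy ⟨σ, hσ⟩).trans Subtype.ext_iff

end Pool.Agent.MP_88b4a2_lc

end

section

/-! Block systems on one orbit and colourings making blocks rigid. -/

namespace Pool.Agent.MP_88b4a2_lc

open Equiv Equiv.Perm MulAction

variable {V : Type} {G : Type} [Group G] [MulAction G V]

theorem mem_orb {L : Subgroup G} {x₀ x : V} : x ∈ orbit L x₀ ↔ ∃ g ∈ L, g • x₀ = x :=
  ⟨fun ⟨g, hg⟩ => ⟨g.1, g.2, hg⟩, fun ⟨g, h1, h2⟩ => ⟨⟨g, h1⟩, h2⟩⟩

theorem orb_inv {L : Subgroup G} {x₀ : V} : ∀ g ∈ L, ∀ x ∈ orbit L x₀, g • x ∈ orbit L x₀ := by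
  intro g hg x hx
  obtain ⟨h, h1, rfl⟩ := mem_orb.mp hx
  exact mem_orb.mpr ⟨g * h, L.mul_mem hg h1, mul_smul _ _ _⟩

theorem orb_mono {L L' : Subgroup G} (h : L ≤ L') (x₀ : V) : orbit L x₀ ⊆ orbit L' x₀ :=
  fun _ hx => by
    obtain ⟨g, h1, h2⟩ := mem_orb.mp hx
    exact mem_orb.mpr ⟨g, h h1, h2⟩

/-- The block system of `L` on the orbit of `x₀`. -/
def rel (x₀ : V) (L : Subgroup G) (x y : V) : Prop :=
  x = y ∨ ∃ g h : G, x = g • x₀ ∧ y = h • x₀ ∧ g⁻¹ * h ∈ L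

variable {x₀ : V} {L : Subgroup G}

theorem rel_iff (hA : stabilizer G x₀ ≤ L) (g h : G) :
    rel x₀ L (g • x₀) (h • x₀) ↔ g⁻¹ * h ∈ L := by
  have key : ∀ a b : G, a • x₀ = b • x₀ → a⁻¹ * b ∈ L := fun a b hab => hA (by
    rw [mem_stabilizer_iff, mul_smul, ← hab, inv_smul_smul])
  refine ⟨?_, fun h1 => Or.inr ⟨g, h, rfl, rfl, h1⟩⟩
  rintro (h1 | ⟨a, b, h1, h2, h3⟩)
  · exact key _ _ h1
  · have := L.mul_mem (L.mul_mem (key _ _ h1) h3) (key _ _ h2.symm)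
    simpa [mul_assoc] using this

theorem rel_iff' (hA : stabilizer G x₀ ≤ L) (g : G) (y : V) :
    rel x₀ L (g • x₀) y ↔ ∃ l ∈ L, y = (g * l) • x₀ := by
  refine ⟨fun h => ?_, ?_⟩
  · have : ∃ b : G, y = b • x₀ := by
      rcases h with h | ⟨a, b, -, h, -⟩
      · exact ⟨g, h.symm⟩
      · exact ⟨b, h⟩
    obtain ⟨b, rfl⟩ := this
    exact ⟨g⁻¹ * b, (rel_iff hA g b).mp h, by simp⟩
  · rintro ⟨l, hl, rfl⟩
    exact (rel_iff hA _ _).mpr (by simpa using hl)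

theorem rel_cong (hA : stabilizer G x₀ ≤ L) : IsCong G (rel x₀ L) where
  refl := fun _ => Or.inl rfl
  symm := by
    rintro x y (h | ⟨g, h, h1, h2, h3⟩)
    · exact Or.inl h.symm
    · exact Or.inr ⟨h, g, h2, h1, by simpa using L.inv_mem h3⟩
  trans := by
    rintro x y z (rfl | ⟨g, h, rfl, rfl, h3⟩) h4
    · exact h4
    · obtain ⟨l, hl, rfl⟩ := (rel_iff' hA _ _).mp h4
      exact (rel_iff hA _ _).mpr (by simpa [mul_assoc] using L.mul_mem h3 hl)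
  smul := by
    rintro k x y (rfl | ⟨g, h, rfl, rfl, h3⟩)
    · exact Or.inl rfl
    · exact Or.inr ⟨k * g, k * h, (mul_smul _ _ _).symm, (mul_smul _ _ _).symm, by
        simpa [mul_assoc] using h3⟩

theorem rel_class (hA : stabilizer G x₀ ≤ L) (g : G) :
    {y | rel x₀ L (g • x₀) y} = (fun x => g • x) '' orbit L x₀ := by
  ext y
  rw [Set.mem_ofPred_eq, rel_iff' hA]
  constructor
  · rintro ⟨l, hl, rfl⟩; exact ⟨l • x₀, mem_orb.mpr ⟨l, hl, rfl⟩, (mul_smul _ _ _).symm⟩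
  · rintro ⟨x, hx, rfl⟩
    obtain ⟨l, hl, rfl⟩ := mem_orb.mp hx
    exact ⟨l, hl, (mul_smul _ _ _).symm⟩

theorem rel_class_one (hA : stabilizer G x₀ ≤ L) : {y | rel x₀ L x₀ y} = orbit L x₀ := by
  have := rel_class hA 1
  simpa using this

theorem rel_ncard (hA : stabilizer G x₀ ≤ L) (g : G) :
    {y | rel x₀ L (g • x₀) y}.ncard = (orbit L x₀).ncard := by
  rw [rel_class hA, Set.ncard_image_of_injective _ (MulAction.injective g)]

open Classical in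
/-- The coset of `L` attached to a point of the orbit. -/
noncomputable def cos (x₀ : V) (L : Subgroup G) (x : V) : G ⧸ L :=
  if h : ∃ g : G, g • x₀ = x then (h.choose : G ⧸ L) else ((1 : G) : G ⧸ L)

theorem cos_smul (hA : stabilizer G x₀ ≤ L) (g : G) : cos x₀ L (g • x₀) = (g : G ⧸ L) := by
  have h : ∃ g' : G, g' • x₀ = g • x₀ := ⟨g, rfl⟩
  rw [cos, dif_pos h, QuotientGroup.eq, ← rel_iff hA, h.choose_spec]
  exact Or.inl rfl

theorem transport {q : ℕ} {L₁ L₂ : Subgroup G} (h1 : stabilizer G x₀ < L₁) (h2 : L₁ ≤ L₂)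
    (M : V → ℕ) (hM : ∀ x, M x < q)
    (hrig : ∀ g ∈ L₂, (∀ x ∈ orbit L₂ x₀, M (g • x) = M x) →
      ∀ x ∈ orbit L₂ x₀, rel x₀ L₁ x (g • x) → g • x = x) : R1 V G q := by
  classical
  have hA := h1.le
  have hr := rel_cong hA
  obtain ⟨l₀, hl₀, hl₀'⟩ := SetLike.exists_of_lt h1
  let M₁ : V → ℕ := fun x => if x ∈ orbit G x₀ then M ((cos x₀ L₂ x).out⁻¹ • x) else 0
  refine ⟨rel x₀ L₁, M₁, hr, ⟨x₀, l₀ • x₀, ?_, fun h => hl₀' h.symm⟩, fun x => ?_,
    fun x hx => ?_, fun g hg x hx => ?_⟩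
  · exact Or.inr ⟨1, l₀, by simp, rfl, by simpa using hl₀⟩
  · simp only [M₁]; split_ifs
    · exact hM _
    · exact lt_of_le_of_lt (Nat.zero_le _) (hM x)
  · simp only [M₁]
    rw [if_neg]
    rintro ⟨g, rfl⟩
    have := hx ((g * l₀) • x₀) ((rel_iff hA _ _).mpr (by simpa using hl₀))
    rw [mul_smul] at this
    exact hl₀' (smul_left_cancel g this)
  · by_cases hx' : x ∈ orbit G x₀
    · obtain ⟨h, rfl⟩ := hx'
      simp only at hx ⊢
      set τ := (h : G ⧸ L₂).out with hτ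
      have e1 : τ⁻¹ * h ∈ L₂ := by
        rw [← QuotientGroup.eq, hτ, QuotientGroup.out_eq']
      have e2 : h⁻¹ * (g * h) ∈ L₂ := h2 ((rel_iff hA _ _).mp (by rwa [mul_smul]))
      have e3 : τ⁻¹ * g * τ ∈ L₂ := by
        have := L₂.mul_mem (L₂.mul_mem e1 e2) (L₂.inv_mem e1)
        simpa [mul_assoc] using this
      have e4 : ∀ y ∈ orbit L₂ x₀, M₁ (τ • y) = M y := by
        intro y hy
        obtain ⟨l, hl, rfl⟩ := mem_orb.mp hy
        have : cos x₀ L₂ (τ • l • x₀) = (h : G ⧸ L₂) := by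
          rw [← mul_smul, cos_smul (hA.trans h2), QuotientGroup.eq]
          simpa [mul_assoc] using L₂.mul_mem (L₂.inv_mem hl) e1
        simp only [M₁]
        rw [if_pos ⟨τ * l, mul_smul _ _ _⟩, this, ← hτ, inv_smul_smul]
      have := hrig _ e3 (fun y hy => by
        rw [← e4 _ (orb_inv _ e3 y hy), ← e4 y hy, ← hg (τ • y)]
        simp [mul_smul]) (τ⁻¹ • h • x₀) (mem_orb.mpr ⟨_, e1, mul_smul _ _ _⟩) (by
        have := hr.smul τ⁻¹ hx
        simpa [mul_smul] using this)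
      simpa [mul_smul] using this
    · rcases hx with hx | ⟨a, b, rfl, -⟩
      · exact hx.symm
      · exact absurd ⟨a, rfl⟩ hx'

theorem count_label [Finite V] [Finite G] {La Lb : Subgroup G} (hA : stabilizer G x₀ ≤ La)
    (hab : La ≤ Lb) (h : (orbit Lb ((1 : G) : G ⧸ La)).ncard ≤ (orbit La x₀).ncard + 1) :
    ∃ M : V → ℕ, (∀ x, M x < 2) ∧ ∀ g ∈ Lb, (∀ x ∈ orbit Lb x₀, M (g • x) = M x) →
      ∀ x ∈ orbit Lb x₀, rel x₀ La x (g • x) := by
  classical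
  have hr := rel_cong hA
  obtain ⟨ω, hω1, -, hω3⟩ := exists_omega (r := rel x₀ La) ⟨hr.refl, hr.symm, hr.trans⟩
  obtain ⟨ν, hν1, hν2, -⟩ := exists_omega (r := fun a b : G ⧸ La =>
    a ∈ orbit Lb ((1 : G) : G ⧸ La) ↔ b ∈ orbit Lb ((1 : G) : G ⧸ La))
    ⟨fun _ => Iff.rfl, Iff.symm, Iff.trans⟩
  have hmem : ∀ g ∈ Lb, (g : G ⧸ La) ∈ orbit Lb ((1 : G) : G ⧸ La) := fun g hg =>
    mem_orb.mpr ⟨g, hg, by simp⟩
  let M : V → ℕ := fun x => if ω x < ν (cos x₀ La x) then 1 else 0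
  have hcount : ∀ g ∈ Lb, {y | rel x₀ La (g • x₀) y ∧ M y = 1}.ncard = ν g := by
    intro g hg
    have e1 : ν g ≤ (orbit La x₀).ncard := by
      have := hν2 g
      simp only [hmem g hg, true_iff, Set.ofPred_mem_eq] at this
      omega
    have e2 : ∀ y, rel x₀ La (g • x₀) y → cos x₀ La y = g := fun y hy => by
      obtain ⟨l, hl, rfl⟩ := (rel_iff' hA _ _).mp hy
      rw [cos_smul hA, QuotientGroup.eq]; simpa using hl
    rw [← Set.ncard_Iio_nat (ν g), ← Set.InjOn.ncard_image (f := ω)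
      (fun x hx y hy hxy => hω1 _ _ (hr.trans (hr.symm hx.1) hy.1) hxy)]
    congr 1
    ext n
    constructor
    · rintro ⟨y, ⟨h1, h2⟩, rfl⟩
      simp only [M, e2 y h1] at h2
      by_contra hc
      rw [if_neg (show ¬ ω y < ν g from hc)] at h2; exact absurd h2 (by decide)
    · intro hn
      obtain ⟨y, h1, rfl⟩ := hω3 (g • x₀) n (by rw [rel_ncard hA]; exact lt_of_lt_of_le hn e1)
      exact ⟨y, ⟨h1, by simp only [M, e2 y h1]; exact if_pos hn⟩, rfl⟩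
  refine ⟨M, fun x => by simp only [M]; split_ifs <;> decide, fun g hg hM x hx => ?_⟩
  obtain ⟨h, hh, rfl⟩ := mem_orb.mp hx
  rw [← mul_smul, rel_iff hA, ← QuotientGroup.eq]
  refine hν1 _ _ (by simp [hmem _ hh, hmem _ (Lb.mul_mem hg hh)]) ?_
  rw [← hcount _ hh, ← hcount _ (Lb.mul_mem hg hh),
    ← Set.ncard_image_of_injective _ (MulAction.injective g)]
  have hin : ∀ y, rel x₀ La (h • x₀) y → y ∈ orbit Lb x₀ := fun y hy => by
    obtain ⟨l, hl, rfl⟩ := (rel_iff' hA _ _).mp hy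
    exact mem_orb.mpr ⟨_, Lb.mul_mem hh (hab hl), rfl⟩
  congr 1
  ext y
  constructor
  · rintro ⟨z, ⟨h1, h2⟩, rfl⟩
    exact ⟨by rw [mul_smul]; exact hr.smul g h1, by rw [hM z (hin z h1), h2]⟩
  · rintro ⟨h1, h2⟩
    have h3 := hr.smul g⁻¹ h1
    rw [mul_smul, inv_smul_smul] at h3
    exact ⟨g⁻¹ • y, ⟨h3, by rw [← hM _ (hin _ h3), smul_inv_smul, h2]⟩, smul_inv_smul _ _⟩

theorem grid' [Finite V] [Finite G] {q : ℕ} (hq : 2 ≤ q) {L₁ L₂ L₃ : Subgroup G}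
    (h1 : stabilizer G x₀ ≤ L₁) (h2 : stabilizer G x₀ < L₂) (h13 : L₁ ≤ L₃) (h23 : L₂ ≤ L₃)
    (hinf : L₁ ⊓ L₂ ≤ stabilizer G x₀) (hprod : ∀ g ∈ L₃, ∃ b ∈ L₂, ∃ a ∈ L₁, g = b * a)
    (hle : (orbit L₂ x₀).ncard ≤ (orbit L₁ x₀).ncard) : R1 V G q := by
  obtain ⟨M, hM, hrig⟩ := count_label (Lb := L₃) h1 h13 (by
    refine le_trans (le_trans (Set.ncard_le_ncard (t := cos x₀ L₁ '' orbit L₂ x₀) ?_)
      (Set.ncard_image_le)) (by omega)
    intro c hc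
    obtain ⟨g, hg, rfl⟩ := mem_orb.mp hc
    obtain ⟨b, hb, a, ha, rfl⟩ := hprod g hg
    refine ⟨b • x₀, mem_orb.mpr ⟨b, hb, rfl⟩, ?_⟩
    rw [cos_smul h1]
    simp [ha])
  refine transport h2 h23 M (fun x => lt_of_lt_of_le (hM x) hq) fun g hg hgM x hx hx' => ?_
  have h3 := hrig g hg hgM x hx
  obtain ⟨h, hh, rfl⟩ := mem_orb.mp hx
  rw [← mul_smul] at h3 hx'
  have := hinf ⟨(rel_iff h1 _ _).mp h3, (rel_iff h2.le _ _).mp hx'⟩
  rw [mem_stabilizer_iff, mul_smul, inv_smul_eq_iff, mul_smul] at this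
  exact this

theorem grid [Finite V] [Finite G] {q : ℕ} (hq : 2 ≤ q) {L₁ L₂ L₃ : Subgroup G}
    (h1 : stabilizer G x₀ < L₁) (h2 : stabilizer G x₀ < L₂) (h13 : L₁ ≤ L₃) (h23 : L₂ ≤ L₃)
    (hinf : L₁ ⊓ L₂ ≤ stabilizer G x₀) (hprod : ∀ g ∈ L₃, ∃ b ∈ L₂, ∃ a ∈ L₁, g = b * a) :
    R1 V G q := by
  rcases le_total (orbit L₂ x₀).ncard (orbit L₁ x₀).ncard with h | h
  · exact grid' hq h1.le h2 h13 h23 hinf hprod h
  · refine grid' hq h2.le h1 h23 h13 (by rwa [inf_comm]) (fun g hg => ?_) h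
    obtain ⟨b, hb, a, ha, h3⟩ := hprod _ (L₃.inv_mem hg)
    exact ⟨a⁻¹, L₁.inv_mem ha, b⁻¹, L₂.inv_mem hb, by rw [← mul_inv_rev, ← h3, inv_inv]⟩

theorem prim_dich [Fintype V] [DecidableEq V] {q₀ q K : ℕ} (hP : PrimHyp q₀) (hq : q₀ ≤ q)
    (hK : K ≤ q) (y : V) (L : Subgroup G) (h : stabilizer G y ⋖ L) :
    (∃ M : V → ℕ, (∀ x, M x < q) ∧ ∀ g ∈ L, (∀ x ∈ orbit L y, M (g • x) = M x) →
      ∀ x ∈ orbit L y, g • x = x) ∨ (K < (orbit L y).ncard ∧ Ind L (orbit L y) (orbit L y)) := by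
  classical
  have hy : y ∈ orbit L y := mem_orbit_self y
  have fin : (∃ M : orbit L y → ℕ, (∀ x, M x < q) ∧ ∀ g : L, (∀ x, M (g • x) = M x) →
      ∀ x : orbit L y, g • x = x) → ∃ M : V → ℕ, (∀ x, M x < q) ∧ ∀ g ∈ L,
      (∀ x ∈ orbit L y, M (g • x) = M x) → ∀ x ∈ orbit L y, g • x = x := by
    rintro ⟨M, h1, h2⟩
    refine ⟨fun x => if h : x ∈ orbit L y then M ⟨x, h⟩ else M ⟨y, hy⟩, fun x => ?_,
      fun g hg hM x hx => congrArg Subtype.val (h2 ⟨g, hg⟩ (fun z => ?_) ⟨x, hx⟩)⟩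
    · beta_reduce; split_ifs <;> exact h1 _
    · have := hM z.1 z.2
      beta_reduce at this
      rw [dif_pos z.2, dif_pos (orb_inv g hg _ z.2)] at this
      exact this
  by_cases hc : (orbit L y).ncard ≤ K
  · refine Or.inl (fin ⟨fun x => (Finite.equivFin _ x : ℕ), fun x => ?_, fun g hg x => ?_⟩)
    · exact lt_of_lt_of_le (Finite.equivFin _ x).2
        ((Nat.card_coe_set_eq _).le.trans (hc.trans hK))
    · exact (Finite.equivFin _).injective (Fin.ext (hg x))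
  obtain ⟨l₀, hl₀, hl₀'⟩ := SetLike.exists_of_lt h.lt
  have hnt : Nontrivial (orbit L y) := ⟨⟨⟨y, hy⟩, ⟨l₀ • y, orb_inv _ hl₀ _ hy⟩,
    fun hh => hl₀' (congrArg Subtype.val hh).symm⟩⟩
  have hmem : ∀ g : L, g ∈ stabilizer L (⟨y, hy⟩ : orbit L y) ↔ g.1 ∈ stabilizer G y :=
    fun g => Subtype.ext_iff
  have hco : IsCoatom (stabilizer L (⟨y, hy⟩ : orbit L y)) := by
    refine ⟨fun hh => hl₀' ((hmem ⟨l₀, hl₀⟩).mp (hh ▸ Subgroup.mem_top _)), fun T hT => ?_⟩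
    obtain ⟨t, ht, ht'⟩ := SetLike.exists_of_lt hT
    rcases h.eq_or_eq (c := T.map L.subtype) (fun g hg =>
      ⟨⟨g, h.le hg⟩, hT.le ((hmem _).mpr hg), rfl⟩) (Subgroup.map_subtype_le T) with h1 | h1
    · exact absurd ((hmem t).mpr (h1 ▸ ⟨t, ht, rfl⟩)) ht'
    · rw [eq_top_iff]
      intro g _
      obtain ⟨s, hs, h2⟩ : g.1 ∈ T.map L.subtype := by rw [h1]; exact g.2
      rwa [← Subtype.ext h2]
  have hprim := (isCoatom_stabilizer_iff_preprimitive L _).mp hco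
  let φ := MulAction.toPermHom L (orbit L y)
  have hprim' : IsPreprimitive φ.range (orbit L y) :=
    IsPreprimitive.of_surjective (φ := φ.rangeRestrict)
      (f := ⟨id, fun _ _ => rfl⟩) Function.surjective_id
  by_cases hA : alternatingGroup (orbit L y) ≤ φ.range
  · refine Or.inr ⟨by omega, fun σ hσ => ?_⟩
    obtain ⟨τ, hτ⟩ := (altEquiv (orbit L y)).surjective ⟨σ, hσ⟩
    obtain ⟨g, hg⟩ := hA (by convert τ.2 : τ.1 ∈ _)
    refine ⟨g.1, g.2, fun x hx => ?_⟩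
    have h1 : σ = Perm.ofSubtype τ.1 := (congrArg Subtype.val hτ).symm
    rw [h1, ← hg]
    exact (Perm.ofSubtype_apply_coe (φ g) ⟨x, hx⟩).symm
  · obtain ⟨M, h1, h2⟩ := hP _ _ hprim' hA
    refine Or.inl (fin ⟨M, fun x => lt_of_lt_of_le (h1 x) hq, fun g hg x => ?_⟩)
    exact congrArg (fun π : Perm (orbit L y) => π x) (h2 (φ g) ⟨g, rfl⟩ hg)

end Pool.Agent.MP_88b4a2_lc

end

section

/-! Elements acting evenly on blocks, and the dichotomy between independence and partners. -/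

namespace Pool.Agent.MP_88b4a2_lc

open Equiv Equiv.Perm MulAction

variable {V : Type} [Fintype V] [DecidableEq V] {G : Type} [Group G] [MulAction G V]

theorem Ind.conj {A B : Subgroup G} {β D : Set V} (h : Ind A β D) (g : G)
    (hB : ∀ a ∈ A, g * a * g⁻¹ ∈ B) : Ind B ((fun x => g • x) '' β) ((fun x => g • x) '' D) := by
  intro σ hσ
  have h1 := AltOn.conj hσ (MulAction.toPerm g : Perm V)⁻¹
  have h2 : ((MulAction.toPerm g : Perm V)⁻¹ : Perm V) '' ((fun x => g • x) '' β) = β := by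
    rw [Set.image_image]
    have : ∀ x : V, ((MulAction.toPerm g : Perm V)⁻¹ : Perm V) (g • x) = x := fun x =>
      (MulAction.toPerm g : Perm V).symm_apply_apply x
    simp [this]
  rw [h2] at h1
  obtain ⟨a, ha, h3⟩ := h _ h1
  refine ⟨_, hB a ha, ?_⟩
  rintro _ ⟨x, hx, rfl⟩
  rw [mul_smul, inv_smul_smul, mul_smul, h3 x hx]
  exact (MulAction.toPerm g : Perm V).apply_symm_apply _

variable (G) in
/-- Elements acting on `β` as an even permutation of `β`. -/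
def Ev (β : Set V) : Subgroup G where
  carrier := {k | ∃ σ ∈ AltOn β, Rz β k σ}
  one_mem' := ⟨1, (AltOn β).one_mem, fun x _ => by simp⟩
  mul_mem' := by
    rintro a b ⟨σ, hσ, h1⟩ ⟨τ, hτ, h2⟩
    exact ⟨σ * τ, (AltOn β).mul_mem hσ hτ, h1.mul h2 fun x hx => by
      rw [h2 x hx]; exact (AltOn.mem_iff hτ x).mpr hx⟩
  inv_mem' := by
    rintro a ⟨σ, hσ, h1⟩
    refine ⟨σ⁻¹, (AltOn β).inv_mem hσ, fun x hx => ?_⟩
    have h2 := (AltOn.mem_iff ((AltOn β).inv_mem hσ) x).mpr hx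
    rw [inv_smul_eq_iff, h1 _ h2]; simp

theorem Ev.inv {β : Set V} {k : G} (h : k ∈ Ev G β) : ∀ x ∈ β, k • x ∈ β := by
  obtain ⟨σ, hσ, h1⟩ := h
  intro x hx
  rw [h1 x hx]; exact (AltOn.mem_iff hσ x).mpr hx

theorem Ev.conj {β : Set V} {k : G} (h : k ∈ Ev G β) (g : G) :
    g * k * g⁻¹ ∈ Ev G ((fun x => g • x) '' β) := by
  obtain ⟨σ, hσ, h1⟩ := h
  refine ⟨_, AltOn.conj hσ (MulAction.toPerm g), ?_⟩
  rintro _ ⟨x, hx, rfl⟩
  have : ((MulAction.toPerm g : Perm V)⁻¹ : Perm V) (g • x) = x :=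
    (MulAction.toPerm g : Perm V).symm_apply_apply x
  rw [mul_smul, inv_smul_smul, mul_smul, h1 x hx, Perm.mul_apply, Perm.mul_apply, this]
  rfl

theorem Ev.comm {β : Set V} {A : Subgroup G} (hA : ∀ g ∈ A, ∀ x ∈ β, g • x ∈ β) {a b : G}
    (ha : a ∈ A) (hb : b ∈ A) : a * b * a⁻¹ * b⁻¹ ∈ Ev G β := by
  classical
  have key : ∀ a ∈ A, ∃ σ : Perm V, (∀ x, x ∉ β → σ x = x) ∧ Rz β a σ := by
    intro a ha
    have h1 : ∀ x, (MulAction.toPerm a : Perm V) x ∈ β ↔ x ∈ β := fun x =>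
      ⟨fun h => by simpa using hA _ (A.inv_mem ha) _ h, hA a ha x⟩
    exact ⟨Perm.ofSubtype ((MulAction.toPerm a : Perm V).subtypePerm h1),
      fun x hx => Perm.ofSubtype_apply_of_not_mem _ hx,
      fun x hx => by rw [Perm.ofSubtype_apply_of_mem _ hx]; rfl⟩
  obtain ⟨σ, h1, h2⟩ := key a ha
  obtain ⟨τ, h3, h4⟩ := key b hb
  refine ⟨_, ⟨fun x hx => ?_, ?_⟩, Rz.comm hA ha hb h2 h4⟩
  · have e1 : σ⁻¹ x = x := by rw [Perm.inv_eq_iff_eq, h1 x hx]
    have e2 : τ⁻¹ x = x := by rw [Perm.inv_eq_iff_eq, h3 x hx]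
    simp only [Perm.mul_apply, e1, e2, h1 x hx, h3 x hx]
  · simp only [map_mul, map_inv]
    rw [mul_comm (sign σ) (sign τ)]; group

theorem Ind.comm {A : Subgroup G} {β D : Set V} (h : Ind A β D) (h4 : 4 ≤ β.ncard) (hβ : β ⊆ D)
    (hD : ∀ g ∈ A, ∀ x ∈ D, g • x ∈ D) :
    ∃ a ∈ A, ∃ b ∈ A, ∃ z ∈ β, (a * b * a⁻¹ * b⁻¹) • z ≠ z := by
  obtain ⟨z, hz, -⟩ := exists_not_mem_of_ncard (β := β) ∅ (by simp; omega)
  obtain ⟨w, hw, hw'⟩ := exists_not_mem_of_ncard (β := β) {z} (by simp; omega)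
  obtain ⟨σ, hσ, h3⟩ := exists_map h4 hz hw
  have hwz : z ≠ w := by simpa [eq_comm] using hw'
  obtain ⟨σ', hσ', h5, h6⟩ := exists_move_fix h4 hw hwz
  obtain ⟨a, ha, h7⟩ := h σ hσ
  obtain ⟨a', ha', h7'⟩ := h σ' hσ'
  refine ⟨a', ha', a, ha, w, hw, ?_⟩
  rw [Rz.comm hD ha' ha h7' h7 w (hβ hw)]
  have h9 : σ'⁻¹ z = z := by rw [Perm.inv_eq_iff_eq]; exact h6.symm
  have h10 : σ⁻¹ w = z := by rw [Perm.inv_eq_iff_eq]; exact h3.symm
  simp only [Perm.mul_apply, h9, h10, h3]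
  exact h5

theorem Ind.sep {A : Subgroup G} {β D : Set V} (h : Ind A β D) (h4 : 4 ≤ β.ncard) (hβ : β ⊆ D)
    {u v : V} (hu : u ∈ β) (hv : v ∈ D) (huv : ∀ k ∈ A, k • v = v → k • u = u) : v = u := by
  by_contra hne
  obtain ⟨σ, hσ, h1, h2⟩ := exists_move_fix h4 hu hne
  obtain ⟨k, hk, h3⟩ := h σ hσ
  exact h1 (by rw [← h3 u (hβ hu)]; exact huv k hk (by rw [h3 v hv, h2]))

theorem Ind.trans' {A : Subgroup G} {β D : Set V} (h : Ind A β D) (h4 : 4 ≤ β.ncard) (hβ : β ⊆ D)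
    {u v : V} (hu : u ∈ β) (hv : v ∈ β) : ∃ k ∈ A, k • u = v := by
  obtain ⟨σ, hσ, h1⟩ := exists_map h4 hu hv
  obtain ⟨k, hk, h3⟩ := h σ hσ
  exact ⟨k, hk, by rw [h3 u (hβ hu), h1]⟩

omit [Fintype V] [DecidableEq V] in
theorem IsCong.class_smul {r : V → V → Prop} (hr : IsCong G r) (g : G) (x : V) :
    {y | r (g • x) y} = (fun x => g • x) '' {y | r x y} := by
  ext y
  constructor
  · intro hy
    have := hr.smul g⁻¹ hy
    rw [inv_smul_smul] at this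
    exact ⟨_, this, smul_inv_smul _ _⟩
  · rintro ⟨z, hz, rfl⟩; exact hr.smul g hz

/-- Elements of `N` acting evenly on the class of every point of `S`. -/
def EvSub (r : V → V → Prop) (N : Subgroup G) (S : Set V) : Subgroup G where
  carrier := {k | k ∈ N ∧ ∀ x ∈ S, k ∈ Ev G {y | r x y}}
  one_mem' := ⟨N.one_mem, fun _ _ => (Ev G _).one_mem⟩
  mul_mem' := fun ha hb =>
    ⟨N.mul_mem ha.1 hb.1, fun x hx => (Ev G _).mul_mem (ha.2 x hx) (hb.2 x hx)⟩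
  inv_mem' := fun ha => ⟨N.inv_mem ha.1, fun x hx => (Ev G _).inv_mem (ha.2 x hx)⟩

theorem EvSub_normal {r : V → V → Prop} (hr : IsCong G r) {L N : Subgroup G} {S : Set V}
    (hn : ∀ a ∈ L, ∀ b ∈ N, a * b * a⁻¹ ∈ N) (hS : ∀ g ∈ L, ∀ x ∈ S, g • x ∈ S) :
    ∀ a ∈ L, ∀ b ∈ EvSub r N S, a * b * a⁻¹ ∈ EvSub r N S := by
  intro a ha b hb
  refine ⟨hn a ha b hb.1, fun x hx => ?_⟩
  have := Ev.conj (hb.2 _ (hS _ (L.inv_mem ha) x hx)) a
  rwa [← hr.class_smul, smul_inv_smul] at this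

theorem ev_ind {r : V → V → Prop} (hr : IsCong G r) {N : Subgroup G} {S β D : Set V}
    (hN : ∀ k ∈ N, ∀ x ∈ S, r x (k • x)) (hS : ∀ g ∈ N, ∀ x ∈ S, g • x ∈ S)
    (h5 : 5 ≤ β.ncard) (hInd : Ind N β D) (hβ : β ⊆ D) (hD : ∀ g ∈ N, ∀ x ∈ D, g • x ∈ D)
    (hβ' : ∀ g ∈ N, ∀ x ∈ β, g • x ∈ β) : Ind (EvSub r N S) β D := by
  obtain ⟨a, ha, b, hb, z, hz, h1⟩ := hInd.comm (by omega) hβ hD
  have h2 : a * b * a⁻¹ * b⁻¹ ∈ N :=
    N.mul_mem (N.mul_mem (N.mul_mem ha hb) (N.inv_mem ha)) (N.inv_mem hb)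
  exact hInd.sub h5 (fun k hk => hk.1) (EvSub_normal hr
    (fun a ha b hb => N.mul_mem (N.mul_mem ha hb) (N.inv_mem ha)) hS) hD
    ⟨h2, fun x hx => Ev.comm (A := N)
      (fun g hg y hy => hr.trans (hN g hg x hx) (hr.smul g hy)) ha hb⟩ hz h1 (Or.inl (hβ' _ h2))

theorem dich {q₀ K : ℕ} (hP : PrimHyp q₀) (hK : ∀ m, K < m → 2 * q₀ ^ m < (m - 1).factorial)
    (h5 : 5 ≤ K) {r : V → V → Prop} {P : Subgroup G} {S : Set V}
    (hev : ∀ k ∈ P, ∀ x ∈ S, k ∈ Ev G {y | r x y}) {z : V} (hz : z ∈ S)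
    (h5z : 5 ≤ {y | r z y}.ncard) (hz' : Ind P {y | r z y} {y | r z y})
    (hS : ∀ x ∈ S, (∀ k ∈ P, ∀ y, r x y → k • y = y) ∨
      (K < {y | r x y}.ncard ∧ Ind P {y | r x y} {y | r x y})) :
    Ind (Fx P {y | ∃ x ∈ S, ¬ r z x ∧ r x y}) {y | r z y} {y | r z y} ∨
      ∃ x ∈ S, ¬ r z x ∧ ∃ u v, r z u ∧ r x v ∧ (∃ k ∈ P, k • v ≠ v) ∧
        ∀ k ∈ P, k • v = v ↔ k • u = u := by
  classical
  by_cases h : ∀ x ∈ S, ¬ r z x → ∃ k ∈ P, (∀ y ∈ {y | r x y}, k • y = y) ∧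
      ∃ w ∈ {y | r z y}, k • w ≠ w
  · left
    have := scott h5z hz' (fun g hg => Ev.inv (hev g hg z hz)) (fun x => {y | r x y})
      (Finset.univ.filter fun x => x ∈ S ∧ ¬ r z x)
      (fun x hx g hg => Ev.inv (hev g hg x (by simp at hx; exact hx.1)))
      (fun x hx => by simp at hx; exact h x hx.1 hx.2)
    convert this using 2
    ext y; simp [and_assoc]
  · right
    push Not at h
    obtain ⟨x, hx, hzx, h1⟩ := h
    refine ⟨x, hx, hzx, ?_⟩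
    rcases hS x hx with h2 | ⟨h2, h3⟩
    · exfalso
      obtain ⟨a, ha, b, hb, w, hw, h3⟩ := hz'.comm (by omega) subset_rfl
        (fun g hg => Ev.inv (hev g hg z hz))
      have h4 : a * b * a⁻¹ * b⁻¹ ∈ P :=
        P.mul_mem (P.mul_mem (P.mul_mem ha hb) (P.inv_mem ha)) (P.inv_mem hb)
      exact h3 (h1 _ h4 (h2 _ h4) w hw)
    · obtain ⟨-, h4⟩ := partner hP h3 (fun k hk => hev k hk x hx) hz'
        (fun g hg => Ev.inv (hev g hg z hz)) h1 h5z (by omega) (hK _ h2)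
      obtain ⟨v, hv, -⟩ := exists_not_mem_of_ncard (β := {y | r x y}) ∅ (by simp; omega)
      obtain ⟨w, hw, hw'⟩ := exists_not_mem_of_ncard (β := {y | r x y}) {v} (by simp; omega)
      obtain ⟨k, hk, h6⟩ := h3.trans' (by omega) subset_rfl hv hw
      obtain ⟨u, hu, h7⟩ := h4 v hv
      exact ⟨u, v, hu, hv, ⟨k, hk, by rw [h6]; simpa using hw'⟩, h7⟩

theorem triv_of_small [Finite G] {X : Type} [MulAction G X] {P : Subgroup G} {O : Set V}
    {D : Set X} (hfin : D.Finite) (h5 : 5 ≤ O.ncard) (hInd : Ind P O O) (hev : P ≤ Ev G O)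
    (hD : ∀ k ∈ P, ∀ x ∈ D, k • x ∈ D) (hker : ∀ k ∈ P, (∀ c ∈ O, k • c = c) → ∀ x ∈ D, k • x = x)
    (hlt : D.ncard < O.ncard) : ∀ k ∈ P, ∀ x ∈ D, k • x = x := by
  intro k hk x hx
  have huniq : ∀ (g : G) (σ τ : AltOn O), Rz O g σ.1 → Rz O g τ.1 → σ = τ := by
    intro g σ τ h1 h2
    ext c
    by_cases hc : c ∈ O
    · rw [← h1 c hc, ← h2 c hc]
    · rw [σ.2.1 c hc, τ.2.1 c hc]
  have hex : ∀ g : P, ∃ σ : AltOn O, Rz O g.1 σ.1 := fun g => by
    obtain ⟨σ, h1, h2⟩ := hev g.2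
    exact ⟨⟨σ, h1⟩, h2⟩
  choose ψ₀ hψ using hex
  let ψ : P →* AltOn O := MonoidHom.mk' ψ₀ fun a b =>
    huniq _ _ _ (hψ (a * b)) ((hψ a).mul (hψ b) (Ev.inv (hev b.2)))
  have hsurj : Function.Surjective ψ := fun σ => by
    obtain ⟨g, hg, h1⟩ := hInd σ.1 σ.2
    exact ⟨⟨g, hg⟩, huniq _ _ _ (hψ _) h1⟩
  have h1 : (stabilizer P x).index ≤ D.ncard := by
    rw [MulAction.index_stabilizer]
    refine Set.ncard_le_ncard ?_ hfin
    rintro _ ⟨g, rfl⟩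
    exact hD g.1 g.2 x hx
  have h2 := Nat.le_of_dvd (Nat.pos_of_ne_zero Subgroup.index_ne_zero_of_finite)
    (Subgroup.index_map_dvd (stabilizer P x) hsurj)
  have h3 : (stabilizer P x).map ψ = ⊤ := by
    by_contra hc
    have := altOn_index h5 _ hc
    omega
  obtain ⟨k', hk', h4⟩ : ψ ⟨k, hk⟩ ∈ (stabilizer P x).map ψ := h3 ▸ Subgroup.mem_top _
  have h6 := hker (k'.1⁻¹ * k) (P.mul_mem (P.inv_mem k'.2) hk) (fun c hc => by
    have h7 : ψ₀ k' = ψ₀ ⟨k, hk⟩ := h4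
    rw [mul_smul, inv_smul_eq_iff, hψ k' c hc, h7]
    exact hψ ⟨k, hk⟩ c hc) x hx
  rw [mul_smul, inv_smul_eq_iff] at h6
  exact h6.trans hk'

end Pool.Agent.MP_88b4a2_lc

end

section

/-! The structure of one orbit when the first reduction does not apply. -/

namespace Pool.Agent.MP_88b4a2_lc

open Equiv Equiv.Perm MulAction

variable {V : Type} [Fintype V] [DecidableEq V] {G : Type} [Group G] [Finite G] [MulAction G V]

omit [Fintype V] [DecidableEq V] [Finite G] in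
theorem sim_smul {L P : Subgroup G} (hn : ∀ a ∈ L, ∀ b ∈ P, a * b * a⁻¹ ∈ P) {g : G} (hg : g ∈ L)
    {a b : V} (h : ∀ k ∈ P, k • a = a ↔ k • b = b) :
    ∀ k ∈ P, k • g • a = g • a ↔ k • g • b = g • b := by
  intro k hk
  have := h _ (hn _ (L.inv_mem hg) k hk)
  simpa only [inv_inv, mul_smul, inv_smul_eq_iff] using this

omit [Fintype V] [DecidableEq V] [Finite G] in
theorem rel_mem {x₀ : V} {L L' : Subgroup G} (hA : stabilizer G x₀ ≤ L) (h : L ≤ L') {x y : V}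
    (hx : x ∈ orbit L' x₀) (hxy : rel x₀ L x y) : y ∈ orbit L' x₀ := by
  obtain ⟨g, hg, rfl⟩ := mem_orb.mp hx
  obtain ⟨l, hl, rfl⟩ := (rel_iff' hA _ _).mp hxy
  exact mem_orb.mpr ⟨_, L'.mul_mem hg (h hl), rfl⟩

omit [Finite G] in
theorem ind_class {x₀ : V} {L₁ L₂ L' : Subgroup G} (hA : stabilizer G x₀ ≤ L₁) (h12 : L₁ ≤ L₂)
    (h2 : L₂ ≤ L') (hI : Ind L₂ (orbit L₁ x₀) (orbit L₂ x₀)) {a x : V} (ha : a ∈ orbit L' x₀)
    (hx : rel x₀ L₂ a x) :
    Ind (ClsFx (rel_cong (hA.trans h12)) L' {a}) {y | rel x₀ L₁ x y} {y | rel x₀ L₂ a y} := by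
  have hr := rel_cong (hA.trans h12)
  obtain ⟨g, hg, rfl⟩ := mem_orb.mp (rel_mem (hA.trans h12) h2 ha hx)
  have e : {y | rel x₀ L₂ a y} = {y | rel x₀ L₂ (g • x₀) y} :=
    Set.ext fun y => ⟨hr.trans (hr.symm hx), hr.trans hx⟩
  rw [e, rel_class hA, rel_class (hA.trans h12)]
  refine hI.conj g fun l hl => ⟨L'.mul_mem (L'.mul_mem hg (h2 hl)) (L'.inv_mem hg), ?_⟩
  rintro _ rfl
  refine hr.trans hx (hr.trans ?_ (hr.smul _ (hr.symm hx)))
  rw [← mul_smul, rel_iff (hA.trans h12)]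
  simpa [mul_assoc] using hl

theorem case_nontriv {q₀ K q : ℕ} (hP : PrimHyp q₀)
    (hK : ∀ m, K < m → 2 * q₀ ^ m < (m - 1).factorial) (h5 : 5 ≤ K) (hq : 2 ≤ q)
    {x₀ : V} {L₁ L' : Subgroup G} (hA : stabilizer G x₀ < L₁) (h1 : L₁ ≤ L')
    (hβ : K < (orbit L₁ x₀).ncard) (hI : Ind L₁ (orbit L₁ x₀) (orbit L₁ x₀))
    (hno : ¬ Ind L' (orbit L₁ x₀) (orbit L' x₀))
    (hk : ∃ k ∈ ClsFx (rel_cong hA.le) L' (orbit L' x₀), ∃ z ∈ orbit L' x₀, k • z ≠ z) :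
    R1 V G q := by
  have hr := rel_cong hA.le
  set r := rel x₀ L₁ with hrdef
  set N := ClsFx hr L' (orbit L' x₀) with hN
  have hNn : ∀ a ∈ L', ∀ b ∈ N, a * b * a⁻¹ ∈ N := ClsFx_normal hr orb_inv
  have hx₀ : x₀ ∈ orbit L' x₀ := mem_orbit_self x₀
  have hcard : ∀ x ∈ orbit L' x₀, K < {y | r x y}.ncard := fun x hx => by
    obtain ⟨g, -, rfl⟩ := mem_orb.mp hx
    rwa [rel_ncard hA.le]
  have hP' : ∀ x ∈ orbit L' x₀, Ind (EvSub r N (orbit L' x₀)) {y | r x y} {y | r x y} := by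
    intro x hx
    have hinv : ∀ g ∈ ClsFx hr L' {x}, ∀ y ∈ {y | r x y}, g • y ∈ {y | r x y} :=
      fun g hg y hy => hr.trans (hg.2 x rfl) (hr.smul g hy)
    have hle : N ≤ ClsFx hr L' {x} := fun k hk => ⟨hk.1, by rintro _ rfl; exact hk.2 _ hx⟩
    obtain ⟨k, hk, z, hz, h2⟩ := hk
    obtain ⟨g, hg, rfl⟩ := mem_orb.mp hz
    obtain ⟨h, hh, rfl⟩ := mem_orb.mp hx
    have h3 := hNn _ (L'.mul_mem hh (L'.inv_mem hg)) k hk
    have h4 := (ind_class hA.le le_rfl h1 hI hx (hr.refl _)).sub (h5.trans (hcard _ hx).le) hle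
      (fun a ha => hNn a ha.1) hinv h3 (hr.refl _) (by simpa [mul_smul, inv_smul_eq_iff] using h2)
      (Or.inl (hinv _ (hle h3)))
    exact ev_ind hr (fun k hk => hk.2) (fun g hg => orb_inv g hg.1) (by have := hcard _ hx; omega)
      h4 subset_rfl (fun g hg => hinv g (hle hg)) (fun g hg => hinv g (hle hg))
  set P := EvSub r N (orbit L' x₀) with hPdef
  have hPn : ∀ a ∈ L', ∀ b ∈ P, a * b * a⁻¹ ∈ P := EvSub_normal hr hNn orb_inv
  have hcl : {y | r x₀ y} = orbit L₁ x₀ := rel_class_one hA.le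
  rcases dich hP hK h5 (r := r) (P := P) (S := orbit L' x₀) (fun k hk => hk.2) hx₀
    (by have := hcard _ hx₀; omega) (hP' _ hx₀) (fun x hx => Or.inr ⟨hcard x hx, hP' x hx⟩)
    with h | ⟨x, hx, h2, u, v, hu, hv, -, huv⟩
  · refine absurd (fun σ hσ => ?_) hno
    obtain ⟨k, hk, h3⟩ := h σ (hcl ▸ hσ)
    refine ⟨k, hk.1.1.1, fun y hy => ?_⟩
    by_cases hy' : r x₀ y
    · exact h3 y hy'
    · rw [hk.2 y ⟨y, hy, hy', hr.refl y⟩, hσ.1 y (by rw [← hcl]; exact hy')]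
  · have htr : ∀ g ∈ L', ∀ y, r (g • x₀) y → ∃ k ∈ P, k • g • x₀ = y := fun g hg y hy =>
      (hP' _ (orb_inv g hg _ hx₀)).trans' (by have := hcard _ (orb_inv g hg _ hx₀); omega)
        subset_rfl (hr.refl _) hy
    let L₄ : Subgroup G :=
      { carrier := {g | g ∈ L' ∧ ∀ k ∈ P, k • x₀ = x₀ ↔ k • g • x₀ = g • x₀}
        one_mem' := ⟨L'.one_mem, by simp⟩
        mul_mem' := fun {a b} ha hb => ⟨L'.mul_mem ha.1 hb.1, fun k hk => by
          rw [ha.2 k hk, mul_smul]; exact sim_smul hPn ha.1 hb.2 k hk⟩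
        inv_mem' := fun {a} ha => ⟨L'.inv_mem ha.1, fun k hk => by
          have := sim_smul hPn (L'.inv_mem ha.1) ha.2 k hk
          rw [inv_smul_smul] at this; exact this.symm⟩ }
    let L₃ : Subgroup G :=
      { carrier := {g | g ∈ L' ∧ ∃ y, r x₀ y ∧ ∀ k ∈ P, k • y = y ↔ k • g • x₀ = g • x₀}
        one_mem' := ⟨L'.one_mem, x₀, hr.refl _, by simp⟩
        mul_mem' := by
          rintro a b ⟨ha, y, h3, h4⟩ ⟨hb, y', h6, h7⟩
          obtain ⟨k, hk, h8⟩ := htr a ha _ (hr.smul a h6)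
          refine ⟨L'.mul_mem ha hb, k • y, hr.trans (hk.1.2 _ hx₀) (hr.smul k h3), fun k' hk' => ?_⟩
          rw [sim_smul hPn hk.1.1 h4 k' hk', h8, mul_smul]
          exact sim_smul hPn ha h7 k' hk'
        inv_mem' := by
          rintro a ⟨ha, y, h3, h4⟩
          obtain ⟨k, hk, h8⟩ := htr _ (L'.inv_mem ha) _ (hr.smul a⁻¹ h3)
          have h9 := P.inv_mem hk
          refine ⟨L'.inv_mem ha, k⁻¹ • x₀, h9.1.2 _ hx₀, fun k' hk' => ?_⟩
          have := sim_smul hPn h9.1.1 (sim_smul hPn (L'.inv_mem ha) h4) k' hk'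
          rw [← h8, inv_smul_smul, inv_smul_smul] at this
          exact this.symm }
    obtain ⟨l, hl, rfl⟩ := mem_orb.mp (hcl ▸ hu : u ∈ orbit L₁ x₀)
    obtain ⟨h, hh, rfl⟩ := mem_orb.mp (rel_mem hA.le h1 hx hv)
    have hdiv : ∀ l ∈ L₁, ∀ g ∈ L', (∀ k ∈ P, k • l • x₀ = l • x₀ ↔ k • g • x₀ = g • x₀) →
        l⁻¹ * g ∈ L₄ := fun l hl g hg h3 =>
      ⟨L'.mul_mem (L'.inv_mem (h1 hl)) hg, fun k hk => by
        have := sim_smul hPn (L'.inv_mem (h1 hl)) h3 k hk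
        rwa [inv_smul_smul, ← mul_smul l⁻¹ g] at this⟩
    have hA4 : stabilizer G x₀ ≤ L₄ := fun g hg => ⟨h1 (hA.le hg), fun k _ => by rw [hg]⟩
    refine grid hq (L₁ := L₄) (L₂ := L₁) (L₃ := L₃) (lt_of_le_of_ne hA4 fun hc => ?_) hA
      (fun g hg => ⟨hg.1, x₀, hr.refl _, hg.2⟩)
      (fun g hg => ⟨h1 hg, g • x₀, by
        have : g • x₀ ∈ {y | r x₀ y} := by rw [hcl]; exact mem_orb.mpr ⟨g, hg, rfl⟩
        exact this, fun _ _ => Iff.rfl⟩) ?_ ?_
    · have h3 := hdiv l hl h hh fun k hk => (huv k hk).symm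
      rw [← hc, mem_stabilizer_iff, mul_smul, inv_smul_eq_iff] at h3
      exact h2 (hr.trans hu (h3 ▸ hr.symm hv))
    · rintro g ⟨hg4, hg1⟩
      refine (hP' _ hx₀).sep (by have := hcard _ hx₀; omega) subset_rfl (hr.refl _) ?_
        fun k hk => (hg4.2 k hk).mpr
      rw [hcl]; exact mem_orb.mpr ⟨g, hg1, rfl⟩
    · rintro g ⟨hg, y, h3, h4⟩
      obtain ⟨l', hl', rfl⟩ := mem_orb.mp (hcl ▸ h3 : y ∈ orbit L₁ x₀)
      exact ⟨l', hl', _, hdiv l' hl' g hg h4, by simp⟩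

theorem case_triv {q₀ K q : ℕ} (hP : PrimHyp q₀) (h5 : 5 ≤ K) (hq : q₀ ≤ q) (hKq : K ≤ q)
    {x₀ : V} {L₁ L₂ L' : Subgroup G} (hA : stabilizer G x₀ < L₁) (h12 : L₁ ≤ L₂) (h2 : L₂ ⋖ L')
    (hβ : K < (orbit L₁ x₀).ncard) (hI : Ind L₂ (orbit L₁ x₀) (orbit L₂ x₀))
    (hk : ∀ k ∈ ClsFx (rel_cong hA.le) L' (orbit L' x₀), ∀ z ∈ orbit L' x₀, k • z = z) :
    R1 V G q := by
  classical
  have hr := rel_cong hA.le
  have hA2 := hA.le.trans h12
  have hr₂ := rel_cong hA2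
  have hK₂ : ∀ g ∈ L', (∀ x ∈ orbit L' x₀, rel x₀ L₂ x (g • x)) →
      ∀ x ∈ orbit L' x₀, g • x = x := by
    intro g hg hg' x hx
    by_contra hne
    obtain ⟨k, hk1, hk2, z, hz, hk3⟩ := chain hr (P := ClsFx hr₂ L' (orbit L' x₀))
      (fun a => {y | rel x₀ L₂ a y}) (fun a => ClsFx hr₂ L' {a}) (orbit L' x₀)
      (Finset.univ.filter fun a => a ∈ orbit L' x₀)
      (fun a ha k hk => ⟨hk.1, by rintro _ rfl; exact hk.2 _ (by simpa using ha)⟩)
      (fun a _ g hg => ClsFx_normal hr₂ orb_inv g hg.1)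
      (fun a _ g hg y hy => hr₂.trans (hg.2 a rfl) (hr₂.smul g hy))
      (fun a ha y hy => rel_mem hA2 h2.le (by simpa using ha) hy)
      (fun a ha y hy => ⟨by
        obtain ⟨g, -, rfl⟩ := mem_orb.mp (rel_mem hA2 h2.le (by simpa using ha) hy)
        rw [rel_ncard hA.le]; omega, ind_class hA.le h12 h2.le hI (by simpa using ha) hy⟩)
      ⟨g, ⟨hg, hg'⟩, x, hx, hne⟩
    exact hk3 (hk k ⟨hk1.1, fun y hy => hk2 y (by simpa using hy) y (hr₂.refl y)⟩ z hz)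
  have hmem : ∀ g ∈ L', (g : G ⧸ L₂) ∈ orbit L' ((1 : G) : G ⧸ L₂) := fun g hg =>
    mem_orb.mpr ⟨g, hg, by simp⟩
  have hK₃ : ∀ g ∈ L', (∀ c ∈ orbit L' ((1 : G) : G ⧸ L₂), g • c = c) →
      ∀ x ∈ orbit L' x₀, g • x = x := fun g hg hg' => hK₂ g hg fun x hx => by
    obtain ⟨h, hh, rfl⟩ := mem_orb.mp hx
    rw [← mul_smul, rel_iff hA2, ← QuotientGroup.eq]
    exact (hg' _ (hmem h hh)).symm
  have := Fintype.ofFinite (G ⧸ L₂)
  rcases prim_dich hP hq hKq ((1 : G) : G ⧸ L₂) L' (by rwa [stabilizer_quotient]) with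
    ⟨M, hM, hrig⟩ | ⟨hn, hO⟩
  · refine transport hA (h12.trans h2.le) (fun x => M (cos x₀ L₂ x)) (fun x => hM _)
      fun g hg hgM x hx _ => hK₃ g hg (hrig g hg fun c hc => ?_) x hx
    obtain ⟨h, hh, rfl⟩ := mem_orb.mp hc
    have := hgM _ (mem_orb.mpr ⟨h, hh, rfl⟩)
    rw [← mul_smul, cos_smul hA2, cos_smul hA2] at this
    simpa using this
  by_cases hsm : (orbit L' ((1 : G) : G ⧸ L₂)).ncard ≤ (orbit L₂ x₀).ncard + 1
  · obtain ⟨M, hM, hrig⟩ := count_label hA2 h2.le hsm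
    exact transport hA (h12.trans h2.le) M (fun x => lt_of_lt_of_le (hM x) (by omega))
      fun g hg hgM x hx _ => hK₂ g hg (hrig g hg hgM) x hx
  exfalso
  have h1O : ((1 : G) : G ⧸ L₂) ∈ orbit L' ((1 : G) : G ⧸ L₂) := mem_orbit_self _
  have hOi : ∀ g ∈ L', ∀ c ∈ orbit L' ((1 : G) : G ⧸ L₂), g • c ∈ orbit L' ((1 : G) : G ⧸ L₂) :=
    orb_inv
  replace hn : K < (orbit L' ((1 : G) : G ⧸ L₂)).ncard := hn
  replace hO : Ind L' (orbit L' ((1 : G) : G ⧸ L₂)) (orbit L' ((1 : G) : G ⧸ L₂)) := hO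
  generalize orbit L' ((1 : G) : G ⧸ L₂) = O at *
  have hn' : (O \ {((1 : G) : G ⧸ L₂)}).ncard + 1 = O.ncard :=
    Set.ncard_sdiff_singleton_add_one h1O
  have hst : ∀ g : G, g ∈ L₂ ↔ g • ((1 : G) : G ⧸ L₂) = ((1 : G) : G ⧸ L₂) := fun g => by
    rw [← mem_stabilizer_iff, stabilizer_quotient]
  have h3 := triv_of_small (P := L₂ ⊓ Ev G (O \ {((1 : G) : G ⧸ L₂)}))
    (O := O \ {((1 : G) : G ⧸ L₂)}) (D := orbit L₂ x₀) (Set.toFinite _) (by omega)
    (fun σ hσ => by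
      obtain ⟨k, hk1, hk2⟩ := hO σ ⟨fun c hc => hσ.1 c fun h => hc h.1, hσ.2⟩
      have e : Rz (O \ {((1 : G) : G ⧸ L₂)}) k σ := fun c hc => hk2 c hc.1
      exact ⟨k, ⟨(hst k).mpr (by rw [hk2 _ h1O, hσ.1 _ (by simp)]), σ, hσ, e⟩, e⟩)
    inf_le_right (fun k hk => orb_inv k hk.1)
    (fun k hk hk' x hx => hK₃ k (h2.le hk.1) (fun c hc => by
      by_cases hc' : c = ((1 : G) : G ⧸ L₂)
      · rw [hc']; exact (hst k).mp hk.1
      · exact hk' c ⟨hc, hc'⟩) x (orb_mono h2.le _ hx)) (by omega)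
  obtain ⟨a, ha, b, hb, z, hz, h4⟩ := hI.comm (by omega) (orb_mono h12 _) orb_inv
  refine h4 (h3 _ ⟨L₂.mul_mem (L₂.mul_mem (L₂.mul_mem ha hb) (L₂.inv_mem ha)) (L₂.inv_mem hb),
    Ev.comm (A := L₂) (β := O \ {((1 : G) : G ⧸ L₂)}) (fun g hg c hc => ?_) ha hb⟩
    z (orb_mono h12 _ hz))
  exact ⟨hOi g (h2.le hg) c hc.1, fun h => hc.2
    (smul_left_cancel g (Eq.trans h ((hst g).mp hg).symm))⟩

theorem local_struct {q₀ K q : ℕ} (hP : PrimHyp q₀)
    (hK : ∀ m, K < m → 2 * q₀ ^ m < (m - 1).factorial) (h5 : 5 ≤ K) (hq : q₀ ≤ q) (hKq : K ≤ q)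
    (hR : ¬ R1 V G q) (x₀ : V) (hx : stabilizer G x₀ ≠ ⊤) :
    ∃ L : Subgroup G, stabilizer G x₀ ≤ L ∧ K < (orbit L x₀).ncard ∧
      Ind (⊤ : Subgroup G) (orbit L x₀) (orbit (⊤ : Subgroup G) x₀) := by
  obtain ⟨L₁, h1, -⟩ := exists_covBy_le_of_lt (lt_top_iff_ne_top.mpr hx)
  rcases prim_dich hP hq hKq x₀ L₁ h1 with ⟨M, hM, hrig⟩ | ⟨hβ, hI⟩
  · exact absurd (transport h1.lt le_rfl M hM fun g hg hgM x hx _ => hrig g hg hgM x hx) hR
  refine ⟨L₁, h1.le, hβ, ?_⟩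
  by_contra hc
  obtain ⟨L', ⟨h2, h3⟩, hmin⟩ := (wellFounded_lt (α := Subgroup G)).has_min
    {L' | L₁ ≤ L' ∧ ¬ Ind L' (orbit L₁ x₀) (orbit L' x₀)} ⟨⊤, le_top, hc⟩
  obtain ⟨L₂, h4, h6⟩ := exists_le_covBy_of_lt (lt_of_le_of_ne h2 fun h => h3 (h ▸ hI))
  have h7 : Ind L₂ (orbit L₁ x₀) (orbit L₂ x₀) := by
    by_contra h8
    exact hmin L₂ ⟨h4, h8⟩ h6.lt
  apply hR
  by_cases hk : ∀ k ∈ ClsFx (rel_cong h1.le) L' (orbit L' x₀), ∀ z ∈ orbit L' x₀, k • z = z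
  · exact case_triv hP h5 hq hKq h1.lt h4 h6 hβ h7 hk
  · push Not at hk
    exact case_nontriv hP hK h5 (by omega) h1.lt h2 hβ hI h3 hk

end Pool.Agent.MP_88b4a2_lc

end

section

/-! Existence of tame colourings with a bounded number of colours. -/

namespace Pool.Agent.MP_88b4a2_lc

open Equiv Equiv.Perm MulAction

variable {V : Type} [Fintype V] [DecidableEq V] {G : Type} [Group G] [Finite G] [MulAction G V]

omit [Fintype V] [DecidableEq V] [Finite G] in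
theorem mem_orb_top {x y : V} : y ∈ orbit (⊤ : Subgroup G) x ↔ ∃ g : G, g • x = y := by
  simp [mem_orb]

theorem exists_global {q₀ K q : ℕ} (hP : PrimHyp q₀)
    (hK : ∀ m, K < m → 2 * q₀ ^ m < (m - 1).factorial) (h5 : 5 ≤ K) (hq : q₀ ≤ q) (hKq : K ≤ q)
    (hR : ¬ R1 V G q) : ∃ r : V → V → Prop, IsCong G r ∧ (∀ x y, r x y → ∃ g : G, g • x = y) ∧
      ∀ x, (∃ g : G, g • x ≠ x) → K < {y | r x y}.ncard ∧
        Ind (⊤ : Subgroup G) {y | r x y} (orbit (⊤ : Subgroup G) x) := by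
  have h1 : ∀ x₀ : V, ∃ L : Subgroup G, stabilizer G x₀ ≤ L ∧ (stabilizer G x₀ ≠ ⊤ →
      K < (orbit L x₀).ncard ∧ Ind (⊤ : Subgroup G) (orbit L x₀) (orbit (⊤ : Subgroup G) x₀)) := by
    intro x₀
    by_cases h : stabilizer G x₀ = ⊤
    · exact ⟨⊤, le_top, fun h' => absurd h h'⟩
    · obtain ⟨L, h1, h2⟩ := local_struct hP hK h5 hq hKq hR x₀ h
      exact ⟨L, h1, fun _ => h2⟩
  choose L hL1 hL2 using h1
  let ρ : V → V := fun x => (Quotient.mk (orbitRel G V) x).out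
  have hρ1 : ∀ x, ∃ g : G, g • ρ x = x := fun x =>
    (orbitRel G V).symm (Quotient.mk_out (s := orbitRel G V) x)
  have hρ2 : ∀ (g : G) x, ρ (g • x) = ρ x := fun g x => by
    have : Quotient.mk (orbitRel G V) (g • x) = Quotient.mk (orbitRel G V) x :=
      Quotient.sound ⟨g, rfl⟩
    simp only [ρ, this]
  have horb : ∀ x y, rel (ρ x) (L (ρ x)) x y → ∃ g : G, g • x = y := by
    rintro x y (rfl | ⟨g, h, h1, h2, -⟩)
    · exact ⟨1, one_smul _ _⟩
    · exact ⟨h * g⁻¹, by rw [mul_smul, h2, smul_left_cancel_iff, inv_smul_eq_iff]; exact h1⟩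
  have hρ3 : ∀ x y, rel (ρ x) (L (ρ x)) x y → ρ y = ρ x := fun x y h => by
    obtain ⟨g, rfl⟩ := horb x y h
    exact hρ2 g x
  refine ⟨fun x y => rel (ρ x) (L (ρ x)) x y, ⟨fun x => Or.inl rfl, fun {x y} h => ?_,
    fun {x y z} h h' => ?_, fun g x y h => ?_⟩, horb, fun x hx => ?_⟩
  · rw [hρ3 x y h]; exact (rel_cong (hL1 _)).symm h
  · rw [hρ3 x y h] at h'; exact (rel_cong (hL1 _)).trans h h'
  · rw [hρ2]; exact (rel_cong (hL1 _)).smul g h
  · obtain ⟨g, hg⟩ := hρ1 x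
    obtain ⟨k, hk⟩ := hx
    obtain ⟨h2, h3⟩ := hL2 (ρ x) fun h => hk (by
      have : g⁻¹ * k * g ∈ stabilizer G (ρ x) := h ▸ Subgroup.mem_top _
      rwa [mem_stabilizer_iff, mul_smul, mul_smul, inv_smul_eq_iff, hg] at this)
    have e : {y | rel (ρ x) (L (ρ x)) x y} = (fun x => g • x) '' orbit (L (ρ x)) (ρ x) := by
      rw [← rel_class (hL1 _), hg]
    beta_reduce
    rw [e, Set.ncard_image_of_injective _ (MulAction.injective g)]
    refine ⟨h2, (h3.conj g fun _ _ => Subgroup.mem_top _).mono le_rfl fun y hy => ?_⟩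
    obtain ⟨a, rfl⟩ := mem_orb_top.mp hy
    exact ⟨(g⁻¹ * a * g) • ρ x, mem_orb_top.mpr ⟨_, rfl⟩, by simp [mul_smul, hg]⟩

omit [Finite G] in
theorem r3_of_ind (hPS : PStar V G) {r : V → V → Prop} (hr : IsCong G r) {z : V}
    (h5 : 5 ≤ {y | r z y}.ncard) (h : ∀ σ ∈ AltOn {y | r z y}, ∃ g : G, ∀ x, g • x = σ x) :
    R3 V G := by
  classical
  have key : ∀ (g : G) (σ : Perm {y | r z y}), (∀ x, g • x = Perm.ofSubtype σ x) ↔
      Realz (fun p : {y | r z y} × Unit => p.1.1) g σ := by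
    intro g σ
    constructor
    · intro h1
      refine ⟨fun i _ => by rw [h1, Perm.ofSubtype_apply_coe], fun x hx => ?_⟩
      rw [h1, Perm.ofSubtype_apply_of_not_mem _ fun hc => hx ⟨(⟨x, hc⟩, ()), rfl⟩]
    · rintro ⟨h1, h2⟩ x
      by_cases hx : x ∈ {y | r z y}
      · rw [Perm.ofSubtype_apply_of_mem _ hx]; exact h1 ⟨x, hx⟩ ()
      · rw [Perm.ofSubtype_apply_of_not_mem _ hx]
        exact h2 x (by rintro ⟨p, rfl⟩; exact hx p.1.2)
  have h1 := hPS {y | r z y} Unit (fun p => p.1.1) (fun p p' hp => Prod.ext (Subtype.ext hp) rfl)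
    (by rwa [← Nat.card_eq_fintype_card, Nat.card_coe_set_eq]) (fun σ hσ => by
      obtain ⟨g, hg⟩ := h (Perm.ofSubtype σ)
        ⟨fun x hx => Perm.ofSubtype_apply_of_not_mem _ hx, by rw [Perm.sign_ofSubtype]; exact hσ⟩
      exact ⟨g, (key g σ).mp hg⟩)
  have h2 : ∀ (g : G) x y, r (g • z) x → r (g • z) y →
      swap x y ∈ (MulAction.toPermHom G V).range := by
    intro g x y hx hy
    have hx' := hr.smul g⁻¹ hx
    have hy' := hr.smul g⁻¹ hy
    rw [inv_smul_smul] at hx' hy'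
    obtain ⟨k, hk⟩ := h1 (swap ⟨_, hx'⟩ ⟨_, hy'⟩)
    have h3 := (key _ _).mpr hk
    rw [Perm.ofSubtype_swap_eq] at h3
    have h4 : MulAction.toPermHom G V k = swap (g⁻¹ • x) (g⁻¹ • y) := Equiv.ext h3
    refine ⟨g * k * g⁻¹, ?_⟩
    rw [map_mul, map_mul, map_inv, h4, ← swap_apply_apply]
    simp
  obtain ⟨w, hw, hw'⟩ := exists_not_mem_of_ncard (β := {y | r z y}) {z} (by simp; omega)
  refine ⟨fun x y => x = y ∨ ((∃ g : G, r (g • z) x) ∧ r x y), ⟨fun _ => Or.inl rfl, ?_, ?_, ?_⟩,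
    ⟨z, w, Or.inr ⟨⟨1, by rw [one_smul]; exact hr.refl z⟩, hw⟩, by simpa [eq_comm] using hw'⟩,
    fun s hs => ?_⟩
  · rintro x y (rfl | ⟨⟨g, hg⟩, h3⟩)
    · exact Or.inl rfl
    · exact Or.inr ⟨⟨g, hr.trans hg h3⟩, hr.symm h3⟩
  · rintro x y u (rfl | ⟨h3, h4⟩) h6
    · exact h6
    · rcases h6 with rfl | ⟨-, h6⟩
      · exact Or.inr ⟨h3, h4⟩
      · exact Or.inr ⟨h3, hr.trans h4 h6⟩
  · rintro g x y (rfl | ⟨⟨k, hk⟩, h3⟩)
    · exact Or.inl rfl
    · exact Or.inr ⟨⟨g * k, by rw [mul_smul]; exact hr.smul g hk⟩, hr.smul g h3⟩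
  · have h3 : s ∈ Subgroup.closure
        {f : Perm V | f.IsSwap ∧ f ∈ (MulAction.toPermHom G V).range} := by
      refine (mem_closure_isSwap fun f hf => hf.1).mpr ⟨Set.toFinite _, fun x => ?_⟩
      by_cases hx : x = s x
      · rw [← hx]; exact mem_orbit_self x
      · rcases hs x with h4 | ⟨⟨g, hg⟩, h4⟩
        · exact absurd h4 hx
        · exact ⟨⟨swap x (s x), Subgroup.subset_closure
            ⟨⟨_, _, hx, rfl⟩, h2 g _ _ hg (hr.trans hg h4)⟩⟩, swap_apply_left _ _⟩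
    obtain ⟨g, hg⟩ := (Subgroup.closure_le (MulAction.toPermHom G V).range).mpr
      (fun f hf => hf.2) h3
    exact ⟨g, fun x => by rw [← hg]; rfl⟩

theorem global {q₀ K q : ℕ} (hP : PrimHyp q₀)
    (hK : ∀ m, K < m → 2 * q₀ ^ m < (m - 1).factorial) (h5 : 5 ≤ K) (hq : q₀ ≤ q) (hKq : K ≤ q)
    (hPS : PStar V G) (hR : ¬ R1 V G q) (hnt : ∃ (g : G) (x : V), g • x ≠ x) : R3 V G := by
  classical
  obtain ⟨r, hr, horb, hI⟩ := exists_global hP hK h5 hq hKq hR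
  have hmv : ∀ (x : V) (a : G), (∃ g : G, g • a • x ≠ a • x) ↔ ∃ g : G, g • x ≠ x := fun x a =>
    ⟨fun ⟨g, hg⟩ => ⟨a⁻¹ * g * a, by simpa [mul_smul, inv_smul_eq_iff] using hg⟩,
      fun ⟨g, hg⟩ => ⟨a * g * a⁻¹, by simpa [mul_smul] using hg⟩⟩
  obtain ⟨b, z₀, hb⟩ := hnt
  obtain ⟨k, -, hk1, z, -, hk2⟩ := chain hr (P := ⊤) (fun a => orbit (⊤ : Subgroup G) a)
    (fun _ => ⊤) Set.univ (Finset.univ.filter fun a => ∃ g : G, g • a ≠ a) (fun _ _ => le_rfl)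
    (fun _ _ _ _ _ _ => Subgroup.mem_top _) (fun _ _ => orb_inv) (fun _ _ => Set.subset_univ _)
    (fun a ha x hx => by
      obtain ⟨g, rfl⟩ := mem_orb_top.mp hx
      obtain ⟨h1, h2⟩ := hI _ ((hmv a g).mpr (by simpa using ha))
      exact ⟨by omega, orbit_eq_iff.mpr hx ▸ h2⟩)
    ⟨b, Subgroup.mem_top _, z₀, trivial, hb⟩
  set N := ClsFx hr (⊤ : Subgroup G) Set.univ with hN
  have hNn : ∀ a ∈ (⊤ : Subgroup G), ∀ b ∈ N, a * b * a⁻¹ ∈ N :=
    ClsFx_normal hr fun _ _ _ _ => trivial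
  have hkN : k ∈ N := ⟨Subgroup.mem_top _, fun x _ => by
    by_cases hx : k • x = x
    · rw [hx]; exact hr.refl x
    · exact hk1 x (by simp only [Finset.mem_filter, Finset.mem_univ, true_and]; exact ⟨k, hx⟩) x
        (mem_orbit_self x)⟩
  set P := EvSub r N Set.univ with hPdef
  have hPn : ∀ a ∈ (⊤ : Subgroup G), ∀ b ∈ P, a * b * a⁻¹ ∈ P :=
    EvSub_normal hr hNn fun _ _ _ _ => trivial
  have hsub : ∀ x, {y | r x y} ⊆ orbit (⊤ : Subgroup G) x := fun x y hy =>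
    mem_orb_top.mpr (horb x y hy)
  have hA : ∀ x y, r x y → ∀ k ∈ N, k • y ≠ y →
      K < {y | r x y}.ncard ∧ Ind P {y | r x y} (orbit (⊤ : Subgroup G) x) := by
    intro x y hxy k hk hky
    obtain ⟨a, rfl⟩ := horb x y hxy
    obtain ⟨h1, h2⟩ := hI x ((hmv x a).mp ⟨k, hky⟩)
    exact ⟨h1, ev_ind hr (fun k hk => hk.2) (fun _ _ _ _ => trivial) (by omega)
      (h2.sub (by omega) le_top hNn orb_inv hk hxy hky (hr.block k x)) (hsub x)
      (fun g _ => orb_inv g trivial) fun g hg y hy => hr.trans (hg.2 x trivial) (hr.smul g hy)⟩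
  obtain ⟨h1, h2⟩ := hA z z (hr.refl z) k hkN hk2
  rcases dich hP hK h5 (r := r) (P := P) (S := Set.univ) (fun k hk => hk.2) (z := z) trivial
    (by omega) (h2.mono le_rfl (hsub z)) (fun x _ => by
      by_cases h : ∀ k ∈ P, ∀ y, r x y → k • y = y
      · exact Or.inl h
      · push Not at h
        obtain ⟨k, hk, y, hy, h⟩ := h
        obtain ⟨h3, h4⟩ := hA x y hy k hk.1 h
        exact Or.inr ⟨h3, h4.mono le_rfl (hsub x)⟩)
    with h | ⟨x, -, h3, u, v, hu, hv, hmov, huv⟩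
  · refine r3_of_ind hPS hr (z := z) (by omega) fun σ hσ => ?_
    obtain ⟨g, hg, h3⟩ := h σ hσ
    refine ⟨g, fun y => ?_⟩
    by_cases hy : r z y
    · exact h3 y hy
    · rw [hg.2 y ⟨y, trivial, hy, hr.refl y⟩, hσ.1 y hy]
  · refine absurd ⟨fun a b => a = b ∨ ((∃ k ∈ P, k • a ≠ a) ∧ ∀ k ∈ P, k • a = a ↔ k • b = b),
      fun _ => 0, ⟨fun _ => Or.inl rfl, ?_, ?_, ?_⟩,
      ⟨v, u, Or.inr ⟨hmov, huv⟩, fun h => h3 (hr.trans hu (h ▸ hr.symm hv))⟩,
      fun _ => show 0 < q by omega, fun _ _ => rfl, ?_⟩ hR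
    · rintro a b (rfl | ⟨⟨k, hk, h4⟩, h6⟩)
      · exact Or.inl rfl
      · exact Or.inr ⟨⟨k, hk, fun h => h4 ((h6 k hk).mpr h)⟩, fun k hk => (h6 k hk).symm⟩
    · rintro a b c (rfl | ⟨h4, h6⟩) h7
      · exact h7
      · rcases h7 with rfl | ⟨-, h7⟩
        · exact Or.inr ⟨h4, h6⟩
        · exact Or.inr ⟨h4, fun k hk => (h6 k hk).trans (h7 k hk)⟩
    · rintro g a b (rfl | ⟨⟨k, hk, h4⟩, h6⟩)
      · exact Or.inl rfl
      · exact Or.inr ⟨⟨_, hPn g trivial k hk, by simpa [mul_smul] using h4⟩,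
          sim_smul hPn trivial h6⟩
    · rintro g - a (h | ⟨⟨k, hk, h4⟩, h6⟩)
      · exact h.symm
      · obtain ⟨h7, h8⟩ := hA a a (hr.refl a) k hk.1 h4
        exact h8.sep (by omega) (hsub a) (hr.refl a) (mem_orb_top.mpr ⟨g, rfl⟩)
          fun k hk => (h6 k hk).mpr

theorem primHyp : ∃ q, PrimHyp q := by
  obtain ⟨q₁, h1⟩ := rigid_two_trans
  obtain ⟨q₂, h2⟩ := rigid_uniprimitive
  refine ⟨q₁ + q₂, fun B _ _ G hG hA => ?_⟩
  by_cases h : ∀ x y x' y' : B, x ≠ y → x' ≠ y' → ∃ g ∈ G, g x = x' ∧ g y = y'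
  · obtain ⟨M, h3, h4⟩ := h1 B G h hA
    exact ⟨M, fun x => by have := h3 x; omega, h4⟩
  · obtain ⟨M, h3, h4⟩ := h2 B G hG h
    exact ⟨M, fun x => by have := h3 x; omega, h4⟩

theorem star : ∃ q, ∀ n, IH q n := by
  obtain ⟨q₀, hP⟩ := primHyp
  obtain ⟨K₀, hK₀⟩ := Filter.eventually_atTop.mp (Nat.eventually_mul_pow_lt_factorial_sub 2 q₀ 1)
  refine ⟨q₀ + (K₀ + 5), fun n => ?_⟩
  induction n with
  | zero => intro V _ G _ _ _ h; omega
  | succ n ih =>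
    intro V _ G _ _ _ h hPS
    classical
    have := Fintype.ofFinite V
    have ih' : IH (q₀ + (K₀ + 5)) (Nat.card V) := fun V _ G _ _ _ h' => ih V G (by omega)
    by_cases hR : R1 V G (q₀ + (K₀ + 5))
    · exact red1 ih' hPS hR
    by_cases hnt : ∃ (g : G) (x : V), g • x ≠ x
    · exact red3 ih' hPS (global hP (K := K₀ + 5) (fun m hm => hK₀ m (by omega)) (by omega)
        (by omega) (by omega) hPS hR hnt)
    · push Not at hnt
      refine ⟨fun _ => (0, 0), fun _ => ⟨by simp, by simp⟩, fun r ⟨⟨b, hb⟩, h2⟩ => ⟨1, fun x => ?_⟩⟩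
      obtain ⟨c, hc⟩ := h2 _ _ (hb x)
      obtain ⟨-, γ, -, h3, -⟩ := hc x
      rw [one_smul]
      have := hb x
      rwa [← h3, hnt] at this

end Pool.Agent.MP_88b4a2_lc

end

section

/-! An abstract back-and-forth system with point, set and vector moves. -/

namespace Pool.Agent.MP_88b4a2_lc

/-- Positions are lists of moves `ω : Ω`; `W` are the positions good for Duplicator;
`Pt ω j j'` says that the move `ω` marks the pair of points `j`, `j'`. -/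
structure Sys (J J' Ω : Type) (κ : ℕ) where
  W : List Ω → Prop
  Pt : Ω → J → J' → Prop
  m : J → ℕ
  m' : J' → ℕ
  Λ : ℕ → AddSubgroup (J → ℤ)
  Λ' : ℕ → AddSubgroup (J' → ℤ)
  m_pos : ∀ j, 0 < m j
  Λ_mono : Monotone Λ
  mem_Λ : ∀ i v, (∀ j, (m j : ℤ) ∣ v j) → v ∈ Λ i
  mem_Λ' : ∀ i v, (∀ j, (m' j : ℤ) ∣ v j) → v ∈ Λ' i
  mono : ∀ l l', l ⊆ l' → W l' → W l
  pt_m : ∀ ω j j', W [ω] → Pt ω j j' → m j = m' j'
  pt_eq : ∀ ω ω' j j' i i', W [ω, ω'] → Pt ω j j' → Pt ω' i i' → (j = i ↔ j' = i')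
  extPt : ∀ l, W l → l.length ≤ κ → ∃ b : J ≃ J', ∀ j, ∃ ω, Pt ω j (b j) ∧ W (ω :: l)
  extSet : ∀ l, W l → l.length ≤ κ → ∀ S : Set J, ∃ (S' : Set J') (ω : Ω), W (ω :: l) ∧
    ∀ ω' j j', W [ω, ω'] → Pt ω' j j' → (j ∈ S ↔ j' ∈ S')
  extVec : ∀ l, W l → l.length ≤ κ → ∀ a : J → ℤ, ∃ (a' : J' → ℤ) (ω : Ω), W (ω :: l) ∧
    (∀ i, a ∈ Λ i → a' ∈ Λ' i) ∧ ∀ ω' j j', W [ω, ω'] → Pt ω' j j' → a j ≡ a' j' [ZMOD m j]
  extVec' : ∀ l, W l → l.length ≤ κ → ∀ a' : J' → ℤ, ∃ (a : J → ℤ) (ω : Ω), W (ω :: l) ∧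
    (∀ i, a' ∈ Λ' i → a ∈ Λ i) ∧ ∀ ω' j j', W [ω, ω'] → Pt ω' j j' → a j ≡ a' j' [ZMOD m j]

/-- The abstract theorem for the bound `κ`. -/
def SysThm (κ : ℕ) : Prop :=
  ∀ (J J' Ω : Type) [Finite J] [Finite J'] (S : Sys J J' Ω κ), S.W [] →
    ∃ σ : J ≃ J', (∀ j, ∃ ω, S.Pt ω j (σ j) ∧ S.W [ω]) ∧
      ∀ i (v : J' → ℤ), (fun j => v (σ j)) ∈ S.Λ i ↔ v ∈ S.Λ' i

end Pool.Agent.MP_88b4a2_lc

end

section

/-! The abstract theorem from the existence of tame colourings. -/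

namespace Pool.Agent.MP_88b4a2_lc

open Equiv Equiv.Perm

/-- Coordinate permutations preserving a family of lattices. -/
def AutL {J : Type} (L : ℕ → AddSubgroup (J → ℤ)) : Subgroup (Perm J) where
  carrier := {g | ∀ i (v : J → ℤ), (fun j => v (g j)) ∈ L i ↔ v ∈ L i}
  one_mem' := fun _ _ => Iff.rfl
  mul_mem' := fun {a b} ha hb i v => (hb i (fun j => v (a j))).trans (ha i v)
  inv_mem' := fun {a} ha i v => by
    rw [← ha i]; simp

theorem Realz.mul {V G I T : Type} [Group G] [MulAction G V] {e : I × T → V} {g h : G}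
    {σ τ : Perm I} (h1 : Realz e g σ) (h2 : Realz e h τ) : Realz e (g * h) (σ * τ) :=
  ⟨fun i t => by rw [mul_smul, h2.1, h1.1, Perm.mul_apply],
    fun x hx => by rw [mul_smul, h2.2 x hx, h1.2 x hx]⟩

theorem pstar_autL {J : Type} (L : ℕ → AddSubgroup (J → ℤ)) : PStar J (AutL L) := by
  intro I T _ _ e he h5 hev σ
  obtain ⟨ι⟩ : Nonempty (Fin 5 ↪ I) := Function.Embedding.nonempty_of_card_le (by simpa using h5)
  let s : Perm I := (swap (0 : Fin 5) 1).viaFintypeEmbedding ι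
  have hs : ∃ g : AutL L, Realz e g s := by
    let g : Perm J := Perm.viaEmbedding (Equiv.prodCongr s (Equiv.refl T)) ⟨e, he⟩
    have hg1 : ∀ i t, g (e (i, t)) = e (s i, t) := fun i t =>
      Perm.viaEmbedding_apply _ ⟨e, he⟩ (i, t)
    have hg2 : ∀ x, x ∉ Set.range e → g x = x := fun x hx =>
      Perm.viaEmbedding_apply_of_notMem _ ⟨e, he⟩ x hx
    have hE : ∀ π : Perm (Fin 5), sign π = 1 →
        ∃ g : AutL L, Realz e g (π.viaFintypeEmbedding ι) := fun π h =>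
      hev _ (by rw [Perm.viaFintypeEmbedding_sign, h])
    obtain ⟨D, hD⟩ := hE (swap 1 3 * swap 1 2) (by decide)
    obtain ⟨E, hE'⟩ := hE (swap 0 2 * swap 0 4) (by decide)
    obtain ⟨B, hB⟩ := hE (swap 0 2 * swap 0 1) (by decide)
    obtain ⟨C, hC⟩ := hE (swap 0 1 * swap 0 3 * swap 0 2 * swap 0 4) (by decide)
    have key : ∀ i (v : J → ℤ), v ∈ L i → (fun j => v (g j)) ∈ L i := by
      intro i v hv
      have : (fun j => v (g j)) = v + (fun j => v (B.1 j)) + (fun j => v (C.1 j))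
          - (fun j => v (D.1 j)) - (fun j => v (E.1 j)) := by
        funext x
        simp only [Pi.add_apply, Pi.sub_apply]
        by_cases hx : x ∈ Set.range e
        · obtain ⟨⟨a, t⟩, rfl⟩ := hx
          rw [hg1, show B.1 (e (a, t)) = _ from hB.1 a t, show C.1 (e (a, t)) = _ from hC.1 a t,
            show D.1 (e (a, t)) = _ from hD.1 a t, show E.1 (e (a, t)) = _ from hE'.1 a t]
          by_cases ha : a ∈ Set.range ι
          · obtain ⟨c, rfl⟩ := ha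
            simp only [s, Perm.viaFintypeEmbedding_apply_image]
            fin_cases c <;> simp [swap_apply_def] <;> ring
          · simp only [s, Perm.viaFintypeEmbedding_apply_notMem_range _ _ ha]; ring
        · rw [hg2 x hx, show B.1 x = x from hB.2 x hx, show C.1 x = x from hC.2 x hx,
            show D.1 x = x from hD.2 x hx, show E.1 x = x from hE'.2 x hx]; ring
      rw [this]
      exact (L i).sub_mem ((L i).sub_mem ((L i).add_mem ((L i).add_mem hv ((B.2 i v).mpr hv))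
        ((C.2 i v).mpr hv)) ((D.2 i v).mpr hv)) ((E.2 i v).mpr hv)
    have hgg : ∀ x, g (g x) = x := fun x => by
      by_cases hx : x ∈ Set.range e
      · obtain ⟨⟨a, t⟩, rfl⟩ := hx
        rw [hg1, hg1]
        by_cases ha : a ∈ Set.range ι
        · obtain ⟨c, rfl⟩ := ha
          simp [s, Perm.viaFintypeEmbedding_apply_image]
        · simp only [s, Perm.viaFintypeEmbedding_apply_notMem_range _ _ ha]
      · rw [hg2 x hx, hg2 x hx]
    refine ⟨⟨g, fun i v => ⟨fun h => ?_, key i v⟩⟩, hg1, hg2⟩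
    simpa only [hgg] using key i _ h
  rcases Int.units_eq_one_or (sign σ) with h | h
  · exact hev σ h
  · obtain ⟨g, hg⟩ := hs
    have hss : sign s = -1 := by
      simp only [s]; rw [Perm.viaFintypeEmbedding_sign]; decide
    obtain ⟨k, hk⟩ := hev (σ * s⁻¹) (by simp [h, hss])
    exact ⟨k * g, by simpa using hk.mul hg⟩

namespace Sys

variable {J J' Ω : Type} {κ : ℕ} (S : Sys J J' Ω κ)

def Compat (l : List Ω) (σ : J ≃ J') : Prop := ∀ j, ∃ ω, S.Pt ω j (σ j) ∧ S.W (ω :: l)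

/-- The move `ω` forces the relation `P` on marked points. -/
def Forces (ω : Ω) (P : J → J' → Prop) : Prop :=
  ∀ ω' j j', S.W [ω, ω'] → S.Pt ω' j j' → P j j'

variable {S}

theorem Compat.forces {l : List Ω} {σ : J ≃ J'} (h : S.Compat l σ) {ω : Ω} (hω : ω ∈ l)
    {P : J → J' → Prop} (hP : S.Forces ω P) (j : J) : P j (σ j) := by
  obtain ⟨ω', h1, h2⟩ := h j
  exact hP ω' _ _ (S.mono _ _ (by simp [hω]) h2) h1

theorem forces_pt {ω : Ω} {i : J} {i' : J'} (h : S.Pt ω i i') :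
    S.Forces ω (fun j j' => i = j ↔ i' = j') := fun _ _ _ h1 h2 => S.pt_eq _ _ _ _ _ _ h1 h h2

theorem Compat.pt {l : List Ω} {σ : J ≃ J'} (h : S.Compat l σ) {ω : Ω} (hω : ω ∈ l)
    {i : J} {i' : J'} (hp : S.Pt ω i i') : σ i = i' :=
  ((h.forces hω (forces_pt hp) i).mp rfl).symm

theorem Compat.m_eq {l : List Ω} {σ : J ≃ J'} (h : S.Compat l σ) (j : J) :
    S.m j = S.m' (σ j) := by
  obtain ⟨ω', h1, h2⟩ := h j
  exact S.pt_m ω' _ _ (S.mono _ _ (by simp) h2) h1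

theorem Compat.mono {l l' : List Ω} {σ : J ≃ J'} (h : S.Compat l' σ) (hl : l ⊆ l') :
    S.Compat l σ := fun j => by
  obtain ⟨ω', h1, h2⟩ := h j
  exact ⟨ω', h1, S.mono _ _ (List.cons_subset_cons _ hl) h2⟩

theorem pebble_sets (cs : List (Set J)) (l : List Ω) (hl : S.W l)
    (hlen : l.length + cs.length ≤ κ) : ∃ l₀ : List Ω, l₀.length = cs.length ∧ S.W (l₀ ++ l) ∧
      ∀ A ∈ cs, ∃ ω ∈ l₀, ∃ A' : Set J', S.Forces ω (fun j j' => j ∈ A ↔ j' ∈ A') := by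
  induction cs with
  | nil => exact ⟨[], rfl, hl, by simp⟩
  | cons A cs ih =>
    simp only [List.length_cons] at hlen
    obtain ⟨l₀, h1, h2, h3⟩ := ih (by omega)
    obtain ⟨A', ω, h4, h5⟩ := S.extSet _ h2 (by simp; omega) A
    refine ⟨ω :: l₀, by simp [h1], h4, ?_⟩
    intro B hB
    rcases List.mem_cons.mp hB with rfl | hB
    · exact ⟨ω, by simp, A', h5⟩
    · obtain ⟨ω', h6, h7⟩ := h3 B hB
      exact ⟨ω', by simp [h6], h7⟩

def Iso (L : ℕ → AddSubgroup (J → ℤ)) (L' : ℕ → AddSubgroup (J' → ℤ)) (σ : J ≃ J') : Prop :=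
  ∀ i (v : J' → ℤ), (fun j => v (σ j)) ∈ L i ↔ v ∈ L' i

variable (S) in
/-- Positions of length at most `c` containing `ω₀` admit a compatible isomorphism. -/
def Good (L : ℕ → AddSubgroup (J → ℤ)) (L' : ℕ → AddSubgroup (J' → ℤ)) (ω₀ : Ω) (c : ℕ) : Prop :=
  ∀ l, S.W l → ω₀ ∈ l → l.length ≤ c → ∃ σ, Iso L L' σ ∧ S.Compat l σ

theorem lift {q : ℕ} {L : ℕ → AddSubgroup (J → ℤ)} {L' : ℕ → AddSubgroup (J' → ℤ)} {ω₀ : Ω}
    (M : J → ℕ × ℕ) (hM : Bd q M) (hT : Tame (AutL L) M) (hκ : 4 * q + 7 ≤ κ)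
    (h : S.Good L L' ω₀ (2 * q + 3)) : S.Good L L' ω₀ (2 * q + 6) := by
  intro l hl h0 hlen
  obtain ⟨l₀, h1, h2, h3⟩ := pebble_sets (S := S)
    ((List.range q).map (fun a => {x | (M x).1 = a}) ++
      (List.range q).map (fun a => {x | (M x).2 = a})) l hl (by simp; omega)
  simp only [List.length_append, List.length_map, List.length_range] at h1
  have hcol : ∀ (σ τ : J ≃ J'), S.Compat l₀ σ → S.Compat l₀ τ → ∀ z, M (τ.symm (σ z)) = M z := by
    intro σ τ hσ hτ z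
    have gen : ∀ A : Set J, (∃ ω ∈ l₀, ∃ A' : Set J', S.Forces ω (fun j j' => j ∈ A ↔ j' ∈ A')) →
        z ∈ A → τ.symm (σ z) ∈ A := by
      rintro A ⟨ω, hω, A', hA⟩ hz
      rw [hτ.forces hω hA, Equiv.apply_symm_apply, ← hσ.forces hω hA]
      exact hz
    exact Prod.ext (gen {x | (M x).1 = (M z).1} (h3 _ (List.mem_append_left _
      (List.mem_map.mpr ⟨_, List.mem_range.mpr (hM z).1, rfl⟩))) rfl)
      (gen {x | (M x).2 = (M z).2} (h3 _ (List.mem_append_right _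
      (List.mem_map.mpr ⟨_, List.mem_range.mpr (hM z).2, rfl⟩))) rfl)
  obtain ⟨τ, hτ1, hτ2⟩ := h (ω₀ :: l₀) (S.mono _ _ (by simp [h0]) h2) (by simp) (by simp; omega)
  obtain ⟨g, hg⟩ := hT (fun x y => ∃ ω, S.Pt ω x (τ y) ∧ S.W (ω :: (l₀ ++ l))) ⟨by
    obtain ⟨b, hb⟩ := S.extPt _ h2 (by simp; omega)
    exact ⟨b.trans τ.symm, fun x => by simpa using hb x⟩, by
    rintro u u' ⟨ω, h4, h5⟩
    obtain ⟨b, hb⟩ := S.extPt _ h5 (by simp; omega)
    refine ⟨b.trans τ.symm, fun x => ?_⟩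
    obtain ⟨ω', h6, h7⟩ := hb x
    refine ⟨⟨ω', by simpa using h6, S.mono _ _ (by intro a; simp; tauto) h7⟩, ?_⟩
    obtain ⟨σ, hσ1, hσ2⟩ := h (ω' :: ω :: ω₀ :: l₀) (S.mono _ _ (by
      intro a; simp only [List.mem_cons, List.mem_append]
      rintro (h | h | rfl | h) <;> simp [*]) h7) (by simp) (by simp; omega)
    refine ⟨⟨σ.trans τ.symm, fun i v => ?_⟩, fun z => hcol σ τ
      (hσ2.mono (by intro a; simp; tauto)) (hτ2.mono (by simp)) z, ?_, ?_⟩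
    · have e1 := hσ1 i (fun j' => v (τ.symm j'))
      have e2 := hτ1 i (fun j' => v (τ.symm j'))
      simp only [Equiv.symm_apply_apply] at e2
      exact e1.trans e2.symm
    · show τ.symm (σ u) = u'
      rw [hσ2.pt (by simp) h4, Equiv.symm_apply_apply]
    · show τ.symm (σ x) = τ.symm (b x)
      rw [hσ2.pt (by simp) h6]⟩
  refine ⟨g.1.trans τ, fun i v => (g.2 i (fun j => v (τ j))).trans (hτ1 i v), fun j => ?_⟩
  obtain ⟨ω, h4, h5⟩ := hg j
  exact ⟨ω, h4, S.mono _ _ (by intro a; simp; tauto) h5⟩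

/-- Vectors of the lattice whose coordinates are divisible by `s`. -/
def Lat {J : Type} (Λ : ℕ → AddSubgroup (J → ℤ)) (s : J → ℕ) (i : ℕ) : AddSubgroup (J → ℤ) where
  carrier := {v | v ∈ Λ i ∧ ∀ j, (s j : ℤ) ∣ v j}
  zero_mem' := ⟨(Λ i).zero_mem, fun _ => dvd_zero _⟩
  add_mem' := fun ha hb => ⟨(Λ i).add_mem ha.1 hb.1, fun j => dvd_add (ha.2 j) (hb.2 j)⟩
  neg_mem' := fun ha => ⟨(Λ i).neg_mem ha.1, fun j => (dvd_neg).mpr (ha.2 j)⟩

theorem extDiv (l : List Ω) (hl : S.W l) (hlen : l.length ≤ κ) (s : J → ℕ)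
    (hs : ∀ j, s j ∣ S.m j) :
    ∃ (s' : J' → ℕ) (ω : Ω), S.W (ω :: l) ∧ S.Forces ω (fun j j' => s j = s' j') := by
  obtain ⟨a', ω, h1, -, h2⟩ := S.extVec l hl hlen (fun j => s j)
  refine ⟨fun j' => Int.gcd (a' j') (S.m' j'), ω, h1, fun ω' j j' h3 h4 => ?_⟩
  have h5 := h2 ω' j j' h3 h4
  have h6 := S.pt_m ω' j j' (S.mono _ _ (by simp) h3) h4
  obtain ⟨k, hk⟩ := h5.dvd
  have : a' j' = s j + S.m j * k := by linarith
  show s j = Int.gcd (a' j') (S.m' j')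
  rw [← h6, this, Int.gcd_add_mul_left_left, Int.gcd_natCast_natCast, Nat.gcd_eq_left (hs j)]

theorem step {c : ℕ} (hκ : c + 2 ≤ κ) (s : J → ℕ) (hs : ∀ j, s j ∣ S.m j) (s' : J' → ℕ) (ω₀ : Ω)
    (h0 : S.Forces ω₀ (fun j j' => s j = s' j')) (w : J) (p : ℕ) (hp : p.Prime) (t : J → ℕ)
    (ht : ∀ j, t j ∣ S.m j) (htw : t w = s w * p) (hts : ∀ j, j ≠ w → t j = s j)
    (ih : ∀ (t' : J' → ℕ) (ω : Ω), S.Forces ω (fun j j' => t j = t' j') →
      S.Good (Lat S.Λ t) (Lat S.Λ' t') ω (c + 3)) :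
    S.Good (Lat S.Λ s) (Lat S.Λ' s') ω₀ c := by
  classical
  intro l hl hl0 hlen
  obtain ⟨b, hb⟩ := S.extPt l hl (by omega)
  obtain ⟨ωw, hw1, hw2⟩ := hb w
  have hc : ∃ c : J → ℤ, ∀ i, (∃ c ∈ Lat S.Λ s i, ¬ (t w : ℤ) ∣ c w) →
      c ∈ Lat S.Λ s i ∧ ¬ (t w : ℤ) ∣ c w := by
    by_cases h : ∃ i, ∃ c ∈ Lat S.Λ s i, ¬ (t w : ℤ) ∣ c w
    · obtain ⟨c, h1, h2⟩ := Nat.find_spec h
      exact ⟨c, fun i hi => ⟨⟨S.Λ_mono (Nat.find_min' h hi) h1.1, h1.2⟩, h2⟩⟩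
    · exact ⟨0, fun i hi => absurd ⟨i, hi⟩ h⟩
  obtain ⟨c, hc⟩ := hc
  obtain ⟨c', ωc, hc1, hc2, hc3⟩ := S.extVec _ hw2 (by simp; omega) c
  obtain ⟨t', ωt, ht1, ht2⟩ := extDiv _ hc1 (by simp; omega) t ht
  obtain ⟨σ, hσ1, hσ2⟩ := ih t' ωt ht2 _ ht1 (by simp) (by simp; omega)
  refine ⟨σ, fun i v => ?_, hσ2.mono (by intro a; simp; tauto)⟩
  have e1 : σ w = b w := hσ2.pt (by simp) hw1
  have e2 : ∀ j, s j = s' (σ j) := hσ2.forces (by simp [hl0]) h0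
  have e3 : ∀ j, t j = t' (σ j) := hσ2.forces (by simp) ht2
  have e4 : ∀ j, c j ≡ c' (σ j) [ZMOD S.m j] := hσ2.forces (ω := ωc) (by simp) hc3
  have hdiv : (∀ j, (s j : ℤ) ∣ v (σ j)) ↔ ∀ j', (s' j' : ℤ) ∣ v j' :=
    ⟨fun h j' => by simpa [e2] using h (σ.symm j'), fun h j => by rw [e2]; exact h _⟩
  have hkey : ∀ u : J' → ℤ, (∀ j, (s j : ℤ) ∣ u (σ j)) → (t w : ℤ) ∣ u (σ w) →
      ((fun j => u (σ j)) ∈ S.Λ i ↔ u ∈ S.Λ' i) := by
    intro u h1 h2
    have h3 : ∀ j, (t j : ℤ) ∣ u (σ j) := fun j => by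
      by_cases hj : j = w
      · rw [hj]; exact h2
      · rw [hts j hj]; exact h1 j
    have h4 : ∀ j', (t' j' : ℤ) ∣ u j' := fun j' => by simpa [e3] using h3 (σ.symm j')
    exact ⟨fun h => ((hσ1 i u).mp ⟨h, h3⟩).1, fun h => ((hσ1 i u).mpr ⟨h, h4⟩).1⟩
  have main : (∀ j, (s j : ℤ) ∣ v (σ j)) → ((fun j => v (σ j)) ∈ S.Λ i ↔ v ∈ S.Λ' i) := by
    intro hv
    by_cases hP : ∃ c ∈ Lat S.Λ s i, ¬ (t w : ℤ) ∣ c w
    · obtain ⟨⟨f1, f2⟩, f3⟩ := hc i hP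
      obtain ⟨γ, hγ⟩ := f2 w
      obtain ⟨β, hβ⟩ := hv w
      have f4 : ¬ (p : ℤ) ∣ γ := fun h => f3 (by
        rw [hγ, htw]; push_cast; exact mul_dvd_mul_left _ h)
      obtain ⟨x, y, hxy⟩ := (Nat.prime_iff_prime_int.mp hp).coprime_iff_not_dvd.mpr f4
      have f5 : (fun j => c' (σ j)) ∈ S.Λ i := by
        have := (S.Λ i).add_mem f1 (S.mem_Λ i (fun j => c' (σ j) - c j) (fun j => (e4 j).dvd))
        convert this using 1
        funext j; simp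
      have f6 := hkey (v - (β * y) • c') (fun j => by
        refine dvd_sub (hv j) (Dvd.dvd.mul_left ?_ _)
        have := (Int.natCast_dvd_natCast.mpr (hs j)).trans (e4 j).dvd
        simpa using dvd_add this (f2 j)) (by
        have := (Int.natCast_dvd_natCast.mpr (ht w)).trans (e4 w).dvd
        have e5 : (v - (β * y) • c') (σ w) = t w * (β * x) - β * y * (c' (σ w) - c w) := by
          simp only [Pi.sub_apply, Pi.smul_apply, smul_eq_mul]
          rw [hβ, hγ, htw]; push_cast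
          linear_combination (-(s w : ℤ) * β) * hxy
        rw [e5]
        exact dvd_sub (dvd_mul_right _ _) (Dvd.dvd.mul_left this _))
      have f7 := (S.Λ' i).zsmul_mem (hc2 i f1) (β * y)
      have f8 := (S.Λ i).zsmul_mem f5 (β * y)
      refine ⟨fun h => ?_, fun h => ?_⟩
      · simpa using (S.Λ' i).add_mem (f6.mp ((S.Λ i).sub_mem h f8)) f7
      · have := (S.Λ i).add_mem (f6.mpr ((S.Λ' i).sub_mem h f7)) f8
        convert this using 1
        funext j; simp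
    · push Not at hP
      refine ⟨fun h => (hkey v hv (hP _ ⟨h, hv⟩)).mp h, fun h => (hkey v hv ?_).mpr h⟩
      obtain ⟨a, ωa, ha1, ha2, ha3⟩ := S.extVec' _ hw2 (by simp; omega) v
      obtain ⟨b', hb'⟩ := S.extPt _ ha1 (by simp; omega)
      have hb'' : S.Compat _ b' := hb'
      have f1 := hP a ⟨ha2 i h, fun j => by
        have g1 : a j ≡ v (b' j) [ZMOD S.m j] := hb''.forces (ω := ωa) (by simp) ha3 j
        have g2 : s j = s' (b' j) := hb''.forces (by simp [hl0]) h0 j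
        have g3 := (Int.natCast_dvd_natCast.mpr (hs j)).trans g1.dvd
        have g4 : (s j : ℤ) ∣ v (b' j) := by rw [g2]; exact hdiv.mp hv _
        simpa using dvd_sub g4 g3⟩
      have f2 := ha3 ωw _ _ (S.mono _ _ (by simp) ha1) hw1
      have f3 := (Int.natCast_dvd_natCast.mpr (ht w)).trans f2.dvd
      rw [e1]
      simpa using dvd_add f3 f1
  exact ⟨fun h => ⟨(main h.2).mp h.1, hdiv.mp h.2⟩,
    fun h => ⟨(main (hdiv.mpr h.2)).mpr h.1, hdiv.mpr h.2⟩⟩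

theorem good_all [Finite J] {q : ℕ} (hq : ∀ n, IH q n) (hκ : 4 * q + 7 ≤ κ) (n : ℕ) :
    ∀ (s : J → ℕ), (∀ j, s j ∣ S.m j) → ∑ᶠ j, (S.m j - s j) ≤ n → ∀ (s' : J' → ℕ) (ω₀ : Ω),
      S.Forces ω₀ (fun j j' => s j = s' j') →
      S.Good (Lat S.Λ s) (Lat S.Λ' s') ω₀ (2 * q + 6) := by
  classical
  have := Fintype.ofFinite J
  simp only [finsum_eq_sum_of_fintype]
  induction n using Nat.strong_induction_on with
  | _ n ih =>
  intro s hs hn s' ω₀ h0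
  by_cases hall : ∀ j, s j = S.m j
  · intro l hl hl0 hlen
    obtain ⟨b, hb⟩ := S.extPt l hl (by omega)
    have hb' : S.Compat l b := hb
    have e2 : ∀ j, s j = s' (b j) := hb'.forces hl0 h0
    refine ⟨b, fun i v => ⟨fun h => ?_, fun h => ?_⟩, hb'⟩
    · have h1 : ∀ j', (s' j' : ℤ) ∣ v j' := fun j' => by simpa [e2] using h.2 (b.symm j')
      refine ⟨S.mem_Λ' i v fun j' => ?_, h1⟩
      obtain ⟨j, rfl⟩ := b.surjective j'
      rw [← hb'.m_eq, ← hall]; exact h.2 j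
    · have h1 : ∀ j, (s j : ℤ) ∣ v (b j) := fun j => by rw [e2]; exact h.2 _
      exact ⟨S.mem_Λ i _ fun j => by rw [← hall]; exact h1 j, h1⟩
  · push Not at hall
    obtain ⟨w, hw⟩ := hall
    obtain ⟨k, hk⟩ := hs w
    have hk1 : k ≠ 1 := fun h => hw (by rw [hk, h, mul_one])
    have hp := Nat.minFac_prime hk1
    have hm := S.m_pos w
    have hsw : 0 < s w := Nat.pos_of_ne_zero fun h => by rw [hk, h] at hm; simp at hm
    have ht : ∀ j, Function.update s w (s w * k.minFac) j ∣ S.m j := fun j => by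
      by_cases hj : j = w
      · rw [hj, Function.update_self, hk]; exact mul_dvd_mul_left _ (Nat.minFac_dvd k)
      · rw [Function.update_of_ne hj]; exact hs j
    obtain ⟨M, hM, hT⟩ := hq _ J (AutL (Lat S.Λ s)) (Nat.lt_succ_self _) (pstar_autL _)
    refine lift M hM hT hκ (step (by omega) s hs s' ω₀ h0 w _ hp _ ht (Function.update_self ..)
      (fun j hj => Function.update_of_ne hj ..) (ih _ ?_ _ ht le_rfl))
    refine lt_of_lt_of_le (Finset.sum_lt_sum (fun j _ => ?_) ⟨w, Finset.mem_univ _, ?_⟩) hn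
    · by_cases hj : j = w
      · rw [hj, Function.update_self]
        exact Nat.sub_le_sub_left (Nat.le_mul_of_pos_right _ hp.pos) _
      · rw [Function.update_of_ne hj]
    · have h1 := Nat.le_of_dvd hm (ht w)
      rw [Function.update_self] at h1 ⊢
      have := hp.two_le
      have : s w < s w * k.minFac := by nlinarith
      omega

end Sys

theorem sysThm {q : ℕ} (hq : ∀ n, IH q n) : SysThm (4 * q + 7) := by
  intro J J' Ω _ _ S h
  obtain ⟨s', ω₀, h1, h2⟩ := Sys.extDiv [] h (by simp) (fun _ => 1) (fun _ => one_dvd _)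
  obtain ⟨σ, h3, h4⟩ := Sys.good_all hq le_rfl _ (fun _ => 1) (fun _ => one_dvd _) le_rfl s' ω₀ h2
    _ h1 (by simp) (by simp)
  have e2 : ∀ j, 1 = s' (σ j) := h4.forces (by simp) h2
  refine ⟨σ, h4.mono (List.nil_subset _), fun i v => ⟨fun hv => ((h3 i v).mp ⟨hv, by simp⟩).1,
    fun hv => ((h3 i v).mpr ⟨hv, fun j' => ?_⟩).1⟩⟩
  obtain ⟨j, rfl⟩ := σ.surjective j'
  simp [← e2]

end Pool.Agent.MP_88b4a2_lc

end
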