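import Mathlib
import Pool.Agent.MP_88b4a2_lc.Defs
import Pool.Agent.Mg.F88b4a2.G44e7b8
import Pool.Agent.Mg.F88b4a2.Ga2b59b

section

/-! Back-and-forth systems extracted from the bijective pebble game, and the basic transfers. -/

namespace Pool.Agent.MP_88b4a2_lc

namespace GrL

/-- A back-and-forth system between two groups: lists of pairs that are good for Duplicator. -/
structure BF (G K : Type) [Group G] [Group K] (k : ℕ) where
  E : List (G × K) → Prop
  mono : ∀ {l l'}, l ⊆ l' → E l' → E l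
  eq_iff : ∀ {l a a' b b'}, E l → (a, a') ∈ l → (b, b') ∈ l → (a = b ↔ a' = b')
  mul_iff : ∀ {l a a' b b' c c'}, E l → (a, a') ∈ l → (b, b') ∈ l → (c, c') ∈ l →
    (a * b = c ↔ a' * b' = c')
  ext : ∀ {l}, E l → l.length ≤ k → ∃ f : G ≃ K, ∀ g, E ((g, f g) :: l)
  big : 8 ≤ k

theorem winsIn_succ {G K : Type} [Group G] [Group K] {n : ℕ} (hn : 0 < n) :
    ∀ (r : ℕ) (p : Fin n → Option (G × K)), WinsIn r p → WinsIn (r + 1) p := by
  intro r
  induction r with
  | zero => intro p h; exact Or.inl h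
  | succ r ih =>
    intro p h
    rcases h with h | ⟨i, h⟩
    · exact Or.inl h
    · refine Or.inr ⟨i, fun f => ?_⟩
      obtain ⟨g, hg⟩ := h f
      exact ⟨g, ih _ hg⟩

theorem winsIn_mono {G K : Type} [Group G] [Group K] {n : ℕ} (hn : 0 < n)
    {r r' : ℕ} (h : r ≤ r') (p : Fin n → Option (G × K)) (hw : WinsIn r p) : WinsIn r' p := by
  induction h with
  | refl => exact hw
  | step _ ih => exact winsIn_succ hn _ _ ih

/-- The back-and-forth system of the positions that Spoiler never wins. -/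
def ofGame (G K : Type) [Group G] [Group K] [Finite G] [Finite K] (k : ℕ) (hk : 8 ≤ k) :
    BF G K k where
  E l := ∃ p : Fin (k + 1) → Option (G × K), (∀ r, ¬ WinsIn r p) ∧ ∀ x ∈ l, ∃ i, p i = some x
  mono := by
    rintro l l' h ⟨p, hp, hl⟩
    exact ⟨p, hp, fun x hx => hl x (h hx)⟩
  eq_iff := by
    rintro l a a' b b' ⟨p, hp, hl⟩ ha hb
    obtain ⟨i, hi⟩ := hl _ ha
    obtain ⟨j, hj⟩ := hl _ hb
    have h0 : IsoOnPebbles p := not_not.mp (hp 0)
    exact h0.1 i j _ _ hi hj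
  mul_iff := by
    rintro l a a' b b' c c' ⟨p, hp, hl⟩ ha hb hc
    obtain ⟨i, hi⟩ := hl _ ha
    obtain ⟨j, hj⟩ := hl _ hb
    obtain ⟨m, hm⟩ := hl _ hc
    have h0 : IsoOnPebbles p := not_not.mp (hp 0)
    exact h0.2 i j m _ _ _ hi hj hm
  ext := by
    classical
    rintro l ⟨p, hp, hl⟩ hlen
    choose! idx hidx using hl
    obtain ⟨i, hi⟩ : ∃ i : Fin (k + 1), i ∉ l.toFinset.image idx := by
      by_contra hcon
      push Not at hcon
      have h1 : (Finset.univ : Finset (Fin (k + 1))).card ≤ (l.toFinset.image idx).card :=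
        Finset.card_le_card fun x _ => hcon x
      have h2 := Finset.card_image_le (s := l.toFinset) (f := idx)
      have h3 := List.toFinset_card_le l
      simp only [Finset.card_univ, Fintype.card_fin] at h1
      omega
    have key : ∃ f : G ≃ K, ∀ g r, ¬ WinsIn r (Function.update p i (some (g, f g))) := by
      by_contra hcon
      push Not at hcon
      choose g r hgr using hcon
      have : Finite (G ≃ K) :=
        Finite.of_injective (fun f : G ≃ K => (f : G → K)) DFunLike.coe_injective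
      obtain ⟨R, hR⟩ := (Set.finite_range r).bddAbove
      exact hp (R + 1) (Or.inr ⟨i, fun f => ⟨g f,
        winsIn_mono (Nat.succ_pos k) (hR ⟨f, rfl⟩) _ (hgr f)⟩⟩)
    obtain ⟨f, hf⟩ := key
    refine ⟨f, fun g => ⟨_, hf g, fun x hx => ?_⟩⟩
    rcases List.mem_cons.mp hx with rfl | hx
    · exact ⟨i, by simp⟩
    · refine ⟨idx x, ?_⟩
      have hne : idx x ≠ i := fun h =>
        hi (Finset.mem_image.mpr ⟨x, List.mem_toFinset.mpr hx, h⟩)
      rw [Function.update_of_ne hne]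
      exact hidx x hx
  big := hk

variable {G K : Type} [Group G] [Group K] {k : ℕ}

theorem mem_swap {l : List (G × K)} {a : G} {a' : K} (h : (a, a') ∈ l) :
    (a', a) ∈ l.map Prod.swap := List.mem_map.mpr ⟨_, h, rfl⟩

namespace BF

/-- The reversed system. -/
def symm (B : BF G K k) : BF K G k where
  E l := B.E (l.map Prod.swap)
  mono h h' := B.mono (List.map_subset _ h) h'
  eq_iff h ha hb := (B.eq_iff h (mem_swap ha) (mem_swap hb)).symm
  mul_iff h ha hb hc := (B.mul_iff h (mem_swap ha) (mem_swap hb) (mem_swap hc)).symm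
  ext := by
    intro l h hl
    obtain ⟨f, hf⟩ := B.ext h (by simpa using hl)
    refine ⟨f.symm, fun g => ?_⟩
    have := hf (f.symm g)
    simpa using this
  big := B.big

variable (B : BF G K k)

theorem swap {l : List (G × K)} (h : B.E l) : B.symm.E (l.map Prod.swap) := by
  show B.E _
  simpa [List.map_map] using h

theorem unswap {l : List (G × K)} {a : G} {a' : K} (h : B.symm.E ((a', a) :: l.map Prod.swap)) :
    B.E ((a, a') :: l) := by
  have h1 : B.E _ := h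
  simpa [List.map_map] using h1

theorem extB {l : List (G × K)} (h : B.E l) (l₀ : List (G × K)) (h₀ : l₀ ⊆ l)
    (hl : l₀.length ≤ 8) : ∃ f : G ≃ K, ∀ g, B.E ((g, f g) :: l₀) :=
  B.ext (B.mono h₀ h) (hl.trans B.big)

theorem fw {l : List (G × K)} (h : B.E l) (l₀ : List (G × K)) (h₀ : l₀ ⊆ l)
    (hl : l₀.length ≤ 8) (g : G) : ∃ g', B.E ((g, g') :: l₀) := by
  obtain ⟨f, hf⟩ := B.extB h l₀ h₀ hl
  exact ⟨_, hf g⟩

theorem bw {l : List (G × K)} (h : B.E l) (l₀ : List (G × K)) (h₀ : l₀ ⊆ l)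
    (hl : l₀.length ≤ 8) (g' : K) : ∃ g, B.E ((g, g') :: l₀) := by
  obtain ⟨f, hf⟩ := B.extB h l₀ h₀ hl
  exact ⟨f.symm g', by simpa using hf (f.symm g')⟩

theorem one {l : List (G × K)} (h : B.E l) {a : G} {a' : K} (ha : (a, a') ∈ l) :
    a = 1 ↔ a' = 1 := by
  have := B.mul_iff h ha ha ha
  simpa using this

theorem pow (n : ℕ) : ∀ {l : List (G × K)} (_ : B.E l) {a b : G} {a' b' : K}
    (_ : (a, a') ∈ l) (_ : (b, b') ∈ l), a ^ n = b → a' ^ n = b' := by
  induction n with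
  | zero =>
    intro l h a b a' b' ha hb hab
    rw [pow_zero] at hab ⊢
    exact ((B.one h hb).mp hab.symm).symm
  | succ n ih =>
    intro l h a b a' b' ha hb hab
    obtain ⟨c', hc⟩ := B.fw h [(a, a'), (b, b')] (by simp [*]) (by simp) (a ^ n)
    have h1 : a' ^ n = c' := ih hc (a := a) (b := a ^ n) (by simp) (by simp) rfl
    rw [pow_succ] at hab ⊢
    rw [h1]
    exact (B.mul_iff hc (a := a ^ n) (b := a) (c := b) (by simp) (by simp) (by simp)).mp hab

theorem inv {l : List (G × K)} (h : B.E l) {a b : G} {a' b' : K}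
    (ha : (a, a') ∈ l) (hb : (b, b') ∈ l) (hab : a⁻¹ = b) : a'⁻¹ = b' := by
  obtain ⟨c', hc⟩ := B.fw h [(a, a'), (b, b')] (by simp [*]) (by simp) 1
  have h1 : c' = 1 := (B.one hc (a := 1) (by simp)).mp rfl
  have h2 := (B.mul_iff hc (a := a) (a' := a') (b := b) (b' := b') (c := 1) (c' := c')
    (by simp) (by simp) (by simp)).mp (by rw [← hab, mul_inv_cancel])
  rw [h1] at h2
  exact inv_eq_of_mul_eq_one_right h2

theorem zpow (n : ℤ) {l : List (G × K)} (h : B.E l) {a b : G} {a' b' : K}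
    (ha : (a, a') ∈ l) (hb : (b, b') ∈ l) (hab : a ^ n = b) : a' ^ n = b' := by
  cases n with
  | ofNat n =>
    simp only [Int.ofNat_eq_natCast, zpow_natCast] at hab ⊢
    exact B.pow n h ha hb hab
  | negSucc n =>
    rw [zpow_negSucc] at hab ⊢
    obtain ⟨c', hc⟩ := B.fw h [(a, a'), (b, b')] (by simp [*]) (by simp) (a ^ (n + 1))
    have h1 : a' ^ (n + 1) = c' := B.pow _ hc (a := a) (b := a ^ (n + 1)) (by simp) (by simp) rfl
    rw [h1]
    exact B.inv hc (a := a ^ (n + 1)) (b := b) (by simp) (by simp) hab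

theorem pow_one' (n : ℕ) {l : List (G × K)} (h : B.E l) {a : G} {a' : K}
    (ha : (a, a') ∈ l) (hab : a ^ n = 1) : a' ^ n = 1 := by
  obtain ⟨c', hc⟩ := B.fw h [(a, a')] (by simp [*]) (by simp) 1
  have h1 : c' = 1 := (B.one hc (a := 1) (by simp)).mp rfl
  rw [← h1]
  exact B.pow n hc (a := a) (b := 1) (by simp) (by simp) hab

theorem pow_one_iff (n : ℕ) {l : List (G × K)} (h : B.E l) {a : G} {a' : K}
    (ha : (a, a') ∈ l) : a ^ n = 1 ↔ a' ^ n = 1 :=
  ⟨B.pow_one' n h ha, B.symm.pow_one' n (B.swap h) (mem_swap ha)⟩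

theorem conj {l : List (G × K)} (h : B.E l) {g a b : G} {g' a' b' : K} (hg : (g, g') ∈ l)
    (ha : (a, a') ∈ l) (hb : (b, b') ∈ l) (hab : g * a * g⁻¹ = b) : g' * a' * g'⁻¹ = b' := by
  obtain ⟨c', hc⟩ := B.fw h [(g, g'), (a, a'), (b, b')] (by simp [*]) (by simp) (g * a)
  have h1 := (B.mul_iff hc (a := g) (a' := g') (b := a) (b' := a') (c := g * a) (c' := c')
    (by simp) (by simp) (by simp)).mp rfl
  have h2 := (B.mul_iff hc (a := b) (a' := b') (b := g) (b' := g') (c := g * a) (c' := c')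
    (by simp) (by simp) (by simp)).mp (by rw [← hab]; simp)
  rw [h1, ← h2]; simp

end BF

/-- The group-theoretic shape of a coprime extension of abelian groups. -/
structure Ctx (G : Type) [Group G] (ν μ : ℕ) : Prop where
  comm : ∀ x y : G, x ^ ν = 1 → y ^ ν = 1 → x * y = y * x
  cmt : ∀ x y : G, (x * y * x⁻¹ * y⁻¹) ^ ν = 1
  cardV : Nat.card {x : G // x ^ ν = 1} = ν
  cardG : Nat.card G = ν * μ
  cop : μ.Coprime ν

theorem Ctx.transfer {ν μ : ℕ} (B : BF G K k) (h0 : B.E []) (hc : Ctx G ν μ) : Ctx K ν μ := by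
  obtain ⟨f, hf⟩ := B.extB h0 [] (by simp) (by simp)
  refine ⟨fun x' y' hx hy => ?_, fun x' y' => ?_, ?_, ?_, hc.cop⟩
  · obtain ⟨x, h1⟩ := B.bw h0 [] (by simp) (by simp) x'
    obtain ⟨y, h2⟩ := B.bw h1 [(x, x')] (by simp) (by simp) y'
    have hx1 := (B.pow_one_iff ν h2 (a := x) (a' := x') (by simp)).mpr hx
    have hy1 := (B.pow_one_iff ν h2 (a := y) (a' := y') (by simp)).mpr hy
    have h3 := B.conj h2 (g := x) (g' := x') (a := y) (a' := y') (b := y) (b' := y')
      (by simp) (by simp) (by simp) (by rw [hc.comm x y hx1 hy1]; simp)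
    rw [← mul_inv_eq_iff_eq_mul]; exact h3
  · obtain ⟨x, h1⟩ := B.bw h0 [] (by simp) (by simp) x'
    obtain ⟨y, h2⟩ := B.bw h1 [(x, x')] (by simp) (by simp) y'
    obtain ⟨c', h3⟩ := B.fw h2 [(x, x'), (y, y')] (by simp) (by simp) (x * y * x⁻¹)
    obtain ⟨d', h4⟩ := B.fw h3 [(x, x'), (y, y'), (x * y * x⁻¹, c')] (by simp) (by simp)
      (x * y * x⁻¹ * y⁻¹)
    have h5 := B.conj h4 (g := x) (g' := x') (a := y) (a' := y') (b := x * y * x⁻¹) (b' := c')
      (by simp) (by simp) (by simp) rfl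
    have h6 := (B.mul_iff h4 (a := x * y * x⁻¹ * y⁻¹) (a' := d') (b := y) (b' := y')
      (c := x * y * x⁻¹) (c' := c') (by simp) (by simp) (by simp)).mp (by simp)
    have h7 := B.pow_one' ν h4 (a := x * y * x⁻¹ * y⁻¹) (a' := d') (by simp) (hc.cmt x y)
    rw [h5, ← h6]; simpa using h7
  · rw [← hc.cardV]
    symm
    rw [hc.cardV]
    conv_lhs => rw [← hc.cardV]
    exact Nat.card_congr (f.subtypeEquiv fun g => B.pow_one_iff ν (hf g) (by simp))
  · rw [← hc.cardG]; exact (Nat.card_congr f).symm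

theorem ctx_semidirect (H N : Type) [CommGroup H] [CommGroup N] [Finite H] [Finite N]
    (θ : H →* MulAut N) (hc : (Nat.card H).Coprime (Nat.card N)) :
    Ctx (N ⋊[θ] H) (Nat.card N) (Nat.card H) := by
  have key : ∀ x : N ⋊[θ] H, x ^ Nat.card N = 1 ↔ x.right = 1 := by
    intro x
    constructor
    · intro hx
      have h1 : x.right ^ Nat.card N = 1 := by
        have := congrArg (SemidirectProduct.rightHom (φ := θ)) hx
        rw [map_pow, map_one] at this
        exact this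
      have h2 : orderOf x.right ∣ Nat.card N := orderOf_dvd_of_pow_eq_one h1
      have h3 : orderOf x.right ∣ Nat.card H := orderOf_dvd_natCard _
      exact orderOf_eq_one_iff.mp (Nat.eq_one_of_dvd_coprimes hc h3 h2)
    · intro hx
      have : x = SemidirectProduct.inl x.left := by ext <;> simp [hx]
      rw [this, ← map_pow, pow_card_eq_one', map_one]
  refine ⟨fun x y hx hy => ?_, fun x y => ?_, ?_, ?_, hc⟩
  · rw [key] at hx hy
    ext <;> simp [hx, hy, mul_comm]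
  · rw [key]; simp
  · refine Nat.card_congr
      { toFun := fun x => x.1.left
        invFun := fun n => ⟨SemidirectProduct.inl n, (key _).mpr (by simp)⟩
        left_inv := fun x => ?_
        right_inv := fun n => by simp }
    have := (key _).mp x.2
    apply Subtype.ext
    ext <;> simp [this]
  · rw [← Nat.card_prod]
    exact Nat.card_congr SemidirectProduct.equivProd

end GrL

end Pool.Agent.MP_88b4a2_lc

end

section

/-! The module-theoretic model of a coprime extension of abelian groups. -/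

namespace Pool.Agent.MP_88b4a2_lc

namespace GrL

theorem exists_pow_idem (R : Type) [CommRing R] [Finite R] :
    ∃ t : ℕ, 0 < t ∧ ∀ r : R, r ^ t * r ^ t = r ^ t := by
  classical
  have h1 : ∀ r : R, ∃ a b : ℕ, 0 < b ∧ r ^ (a + b) = r ^ a := by
    intro r
    obtain ⟨a, b, hab, h⟩ := Finite.exists_ne_map_eq_of_infinite (fun n : ℕ => r ^ n)
    rcases lt_or_gt_of_ne hab with h' | h'
    · exact ⟨a, b - a, by omega, by rw [Nat.add_sub_cancel' h'.le]; exact h.symm⟩
    · exact ⟨b, a - b, by omega, by rw [Nat.add_sub_cancel' h'.le]; exact h⟩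
  choose a b hb hab using h1
  have := Fintype.ofFinite R
  refine ⟨∏ r, ((a r + 1) * b r), Finset.prod_pos fun r _ => Nat.mul_pos (by omega) (hb r),
    fun r => ?_⟩
  obtain ⟨c, hc⟩ := Finset.dvd_prod_of_mem (fun r => (a r + 1) * b r) (Finset.mem_univ r)
  have hpos : 0 < ∏ r, ((a r + 1) * b r) :=
    Finset.prod_pos fun r _ => Nat.mul_pos (by omega) (hb r)
  have hc0 : 0 < c := by
    rcases Nat.eq_zero_or_pos c with h | h
    · rw [hc, h] at hpos; simp at hpos
    · exact h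
  have key : ∀ n, r ^ (a r + b r * n) = r ^ a r := by
    intro n
    induction n with
    | zero => simp
    | succ n ih => rw [Nat.mul_succ, ← add_assoc, add_right_comm, pow_add, hab, ← pow_add, ih]
  rw [hc]
  obtain ⟨d, hd⟩ : ∃ d, (a r + 1) * b r * c = a r + d := by
    refine ⟨(a r + 1) * b r * c - a r, ?_⟩
    have : a r + 1 ≤ (a r + 1) * b r * c := by
      rw [mul_assoc]; exact Nat.le_mul_of_pos_right _ (Nat.mul_pos (hb r) hc0)
    omega
  have h2 : (a r + 1) * b r * c + (a r + 1) * b r * c = a r + b r * ((a r + 1) * c) + d := by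
    have : b r * ((a r + 1) * c) = (a r + 1) * b r * c := by ring
    rw [this]; omega
  rw [← pow_add, h2, pow_add, key, ← pow_add, hd]

theorem exists_idem (R : Type) [CommRing R] [Finite R] [Fintype (MaximalSpectrum R)] :
    ∃ (t : ℕ) (e : MaximalSpectrum R → R), (∀ j, e j * e j = e j) ∧
      (∀ i j, i ≠ j → e i * e j = 0) ∧ ∑ j, e j = 1 ∧ (∀ j, 1 - e j ∈ j.asIdeal) ∧
      ∀ j, ∀ r ∈ j.asIdeal, r ^ t * e j = 0 := by
  classical
  obtain ⟨t, ht, hid⟩ := exists_pow_idem R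
  have hz : ∀ x : R, x * x = x → (∀ j : MaximalSpectrum R, x ∈ j.asIdeal) → x = 0 := by
    intro x hx hj
    by_contra hne
    have hnu : (Ideal.span {1 - x}) ≠ ⊤ := by
      rw [Ne, Ideal.span_singleton_eq_top]
      intro hu
      apply hne
      have : (1 - x) * x = 0 := by rw [sub_mul, one_mul, hx, sub_self]
      exact (hu.mul_right_eq_zero).mp this
    obtain ⟨m, hm, hle⟩ := Ideal.exists_le_maximal _ hnu
    have h1 : 1 - x ∈ m := hle (Ideal.mem_span_singleton_self _)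
    have h2 : x ∈ m := hj ⟨m, hm⟩
    exact hm.ne_top ((Ideal.eq_top_iff_one _).mpr (by simpa using m.add_mem h1 h2))
  have hsep : ∀ i j : MaximalSpectrum R, ∃ x, x ∉ j.asIdeal ∧ (i ≠ j → x ∈ i.asIdeal) := by
    intro i j
    by_cases h : i = j
    · exact ⟨1, fun h1 => j.isMaximal.ne_top ((Ideal.eq_top_iff_one _).mpr h1),
        fun h' => absurd h h'⟩
    · by_contra hcon
      push Not at hcon
      have hle : i.asIdeal ≤ j.asIdeal := fun x hx => by
        by_contra hx'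
        exact (hcon x hx').2 hx
      exact h (MaximalSpectrum.ext (i.isMaximal.eq_of_le j.isMaximal.ne_top hle))
  choose x hx hx' using hsep
  let e : MaximalSpectrum R → R := fun j => (∏ i, x i j) ^ t
  have he1 : ∀ j, e j * e j = e j := fun j => hid _
  have he2 : ∀ j, e j ∉ j.asIdeal := by
    intro j h
    have hp := j.isMaximal.isPrime
    obtain ⟨i, -, hi⟩ := (Ideal.IsPrime.prod_mem_iff (hp := hp)).mp (hp.mem_of_pow_mem _ h)
    exact hx i j hi
  have he3 : ∀ i j, i ≠ j → e j ∈ i.asIdeal := by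
    intro i j h
    exact Ideal.pow_mem_of_mem _ (Ideal.prod_mem _ (Finset.mem_univ i) (hx' i j h)) _ ht
  have he4 : ∀ j, 1 - e j ∈ j.asIdeal := by
    intro j
    have : (1 - e j) * e j ∈ j.asIdeal := by
      rw [sub_mul, one_mul, he1, sub_self]; exact zero_mem _
    exact (j.isMaximal.isPrime.mem_or_mem this).resolve_right (he2 j)
  have he5 : ∀ i j, i ≠ j → e i * e j = 0 := by
    intro i j h
    refine hz _ (by rw [mul_mul_mul_comm, he1, he1]) fun m => ?_
    by_cases hm : m = i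
    · exact Ideal.mul_mem_left _ _ (he3 _ _ (hm ▸ h))
    · exact Ideal.mul_mem_right _ _ (he3 _ _ hm)
  have he6 : ∀ j, e j * ∑ i, e i = e j := by
    intro j
    rw [Finset.mul_sum, Finset.sum_eq_single j (fun i _ hi => he5 _ _ hi.symm) (by simp), he1]
  refine ⟨t, e, he1, he5, ?_, he4, fun j r hr => ?_⟩
  · symm
    rw [← sub_eq_zero]
    refine hz _ ?_ fun m => ?_
    · have : (∑ i, e i) * ∑ i, e i = ∑ i, e i := by
        rw [Finset.sum_mul]; exact Finset.sum_congr rfl fun i _ => he6 i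
      linear_combination this
    · rw [← Finset.add_sum_erase _ _ (Finset.mem_univ m), ← sub_sub]
      exact m.asIdeal.sub_mem (he4 m) (Ideal.sum_mem _ fun i hi =>
        he3 _ _ (Finset.ne_of_mem_erase hi).symm)
  · refine hz _ (by rw [mul_mul_mul_comm, he1, hid]) fun m => ?_
    by_cases hm : m = j
    · exact Ideal.mul_mem_right _ _ (Ideal.pow_mem_of_mem _ (hm ▸ hr) _ ht)
    · exact Ideal.mul_mem_left _ _ (he3 _ _ hm)

theorem gen_closure {A Q : Type} [Ring A] [Monoid Q] (τ : Q →* A) :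
    AddSubgroup.closure (Set.range (τ.codRestrict (Subring.closure (Set.range τ))
      (fun q => Subring.subset_closure ⟨q, rfl⟩))) = ⊤ := by
  rw [eq_top_iff]
  rintro ⟨x, hx⟩ -
  have h1 : x ∈ AddSubgroup.closure (Set.range τ) := by
    have := Subring.mem_closure_iff.mp hx
    rwa [← MonoidHom.coe_mrange, Submonoid.closure_eq] at this
  have hm : ∀ y, y ∈ AddSubgroup.closure (Set.range τ) → y ∈ Subring.closure (Set.range τ) := by
    intro y hy
    refine Subring.mem_closure_iff.mpr (AddSubgroup.closure_mono Submonoid.subset_closure hy)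
  induction h1 using AddSubgroup.closure_induction with
  | mem y hy =>
    obtain ⟨q, rfl⟩ := hy
    exact AddSubgroup.subset_closure ⟨q, rfl⟩
  | zero => exact zero_mem _
  | add y z hy hz ihy ihz => exact add_mem (ihy (hm _ hy)) (ihz (hm _ hz))
  | neg y hy ih => exact neg_mem (ih (hm _ hy))

theorem frob {S Q : Type} [CommRing S] [Monoid Q] (τ : Q →* S)
    (hgen : AddSubgroup.closure (Set.range τ) = ⊤) (p N : ℕ) (hp : p.Prime)
    (hq : ∀ q : Q, q ^ p ^ N = q) (s : S) : ∃ s', s ^ p ^ N = s + p * s' := by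
  have hs : s ∈ AddSubgroup.closure (Set.range τ) := hgen ▸ AddSubgroup.mem_top s
  have hpos : p ^ N ≠ 0 := pow_ne_zero _ hp.ne_zero
  induction hs using AddSubgroup.closure_induction with
  | mem y hy =>
    obtain ⟨q, rfl⟩ := hy
    exact ⟨0, by rw [← map_pow, hq]; simp⟩
  | zero => exact ⟨0, by rw [zero_pow hpos]; simp⟩
  | add y z _ _ ihy ihz =>
    obtain ⟨y', hy'⟩ := ihy
    obtain ⟨z', hz'⟩ := ihz
    obtain ⟨r, hr⟩ := exists_add_pow_prime_pow_eq hp y z N
    exact ⟨y' + z' + y * z * r, by rw [hr, hy', hz']; ring⟩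
  | neg y _ ih =>
    obtain ⟨y', hy'⟩ := ih
    obtain ⟨r, hr⟩ := exists_add_pow_prime_pow_eq hp y (-y) N
    rw [add_neg_cancel, zero_pow hpos, hy'] at hr
    exact ⟨-y' + y * y * r, by linear_combination -hr⟩

/-- A model of the group: an abelian normal subgroup `V` as a faithful module over a
commutative ring `R` spanned by the image of the abelian quotient `Q`, with its blocks `J`. -/
structure Md (G V R Q J : Type) [Group G] [AddCommGroup V] [CommRing R] [Module R V]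
    [CommGroup Q] [Fintype J] (ν μ : ℕ) where
  ι : V → G
  π : G →* Q
  ρ : Q →* R
  mx : J → Ideal R
  e : J → R
  t : ℕ
  ι_add : ∀ v w, ι (v + w) = ι v * ι w
  ι_inj : Function.Injective ι
  mem_iff : ∀ g, g ^ ν = 1 ↔ ∃ v, ι v = g
  π_surj : Function.Surjective π
  π_eq_one : ∀ g, π g = 1 ↔ g ^ ν = 1
  conj : ∀ g v, ι (ρ (π g) • v) = g * ι v * g⁻¹
  gen : AddSubgroup.closure (Set.range ρ) = ⊤
  faithful : ∀ r : R, (∀ v : V, r • v = 0) → r = 0
  cardQ : Nat.card Q = μ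
  cardV : Nat.card V = ν
  cop : μ.Coprime ν
  max : ∀ j, (mx j).IsMaximal
  e_mul : ∀ j, e j * e j = e j
  e_orth : ∀ i j, i ≠ j → e i * e j = 0
  e_sum : ∑ j, e j = 1
  e_one : ∀ j, 1 - e j ∈ mx j
  e_nil : ∀ j, ∀ r ∈ mx j, r ^ t * e j = 0

theorem exists_md (G : Type) [Group G] [Finite G] {ν μ : ℕ} (hc : Ctx G ν μ) :
    ∃ (V R Q J : Type) (_ : AddCommGroup V) (_ : CommRing R) (_ : Module R V) (_ : CommGroup Q)
      (_ : Fintype J) (_ : Finite V) (_ : Finite R) (_ : Finite Q),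
      Nonempty (Md G V R Q J ν μ) := by
  classical
  let W : Subgroup G :=
    { carrier := {x | x ^ ν = 1}
      mul_mem' := fun {a b} ha hb => by
        have h : Commute a b := hc.comm a b ha hb
        show (a * b) ^ ν = 1
        rw [h.mul_pow, ha, hb, one_mul]
      one_mem' := one_pow _
      inv_mem' := fun {a} ha => by
        show a⁻¹ ^ ν = 1
        rw [inv_pow, ha, inv_one] }
  have hW : ∀ x, x ∈ W ↔ x ^ ν = 1 := fun _ => Iff.rfl
  haveI hN : W.Normal := ⟨fun n hn g => by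
    rw [hW] at hn ⊢
    rw [conj_pow, hn]; simp⟩
  letI iW : CommGroup W :=
    { (inferInstance : Group W) with
      mul_comm := fun a b => Subtype.ext (hc.comm _ _ a.2 b.2) }
  letI iQ : CommGroup (G ⧸ W) :=
    { (inferInstance : Group (G ⧸ W)) with
      mul_comm := fun a b => by
        obtain ⟨a, rfl⟩ := QuotientGroup.mk_surjective a
        obtain ⟨b, rfl⟩ := QuotientGroup.mk_surjective b
        rw [← QuotientGroup.mk_mul, ← QuotientGroup.mk_mul, QuotientGroup.eq, hW]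
        simpa [mul_assoc] using hc.cmt b⁻¹ a⁻¹ }
  let c : G →* AddMonoid.End (Additive W) :=
    { toFun := fun g => MonoidHom.toAdditive (MulAut.conjNormal (H := W) g).toMonoidHom
      map_one' := by rw [map_one]; rfl
      map_mul' := fun a b => by rw [map_mul]; rfl }
  have hcv : ∀ g (v : Additive W), ((c g v).toMul : G) = g * (v.toMul : G) * g⁻¹ := by
    intro g v; rfl
  have hker : W ≤ c.ker := by
    intro g hg
    rw [MonoidHom.mem_ker]
    refine AddMonoidHom.ext fun v => ?_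
    apply Additive.toMul.injective
    apply Subtype.ext
    refine (hcv g v).trans ?_
    rw [hc.comm g _ hg v.toMul.2, mul_inv_cancel_right]
    rfl
  let cQ : G ⧸ W →* AddMonoid.End (Additive W) := QuotientGroup.lift W c hker
  let R := Subring.closure (Set.range cQ)
  have hcomm : IsMulCommutative R := Subring.isMulCommutative_closure (by
    rintro _ ⟨a, rfl⟩ _ ⟨b, rfl⟩
    rw [← map_mul, ← map_mul, mul_comm])
  letI iR : CommRing R := { (inferInstance : Ring R) with mul_comm := hcomm.is_comm.comm }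
  have hfE : Finite (AddMonoid.End (Additive W)) :=
    Finite.of_injective (fun f : Additive W →+ Additive W => (f : Additive W → Additive W))
      DFunLike.coe_injective
  have hfR : Finite R := inferInstance
  have hfI : Finite (Ideal R) :=
    Finite.of_injective (fun K : Ideal R => (K : Set R)) SetLike.coe_injective
  have hfJ : Finite (MaximalSpectrum R) :=
    Finite.of_injective (fun j : MaximalSpectrum R => j.asIdeal) fun _ _ h => MaximalSpectrum.ext h
  letI iJ := Fintype.ofFinite (MaximalSpectrum R)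
  obtain ⟨t, e, h1, h2, h3, h4, h5⟩ := exists_idem R
  have hcW : Nat.card W = ν := hc.cardV
  have hν : ν ≠ 0 := by rw [← hcW]; exact Nat.card_pos.ne'
  refine ⟨Additive W, R, G ⧸ W, MaximalSpectrum R, inferInstance, iR,
    (inferInstance : Module R (Additive W)), iQ, iJ, inferInstance, hfR, inferInstance,
    ⟨{ ι := fun v => (v.toMul : G)
       π := QuotientGroup.mk' W
       ρ := cQ.codRestrict R (fun q => Subring.subset_closure ⟨q, rfl⟩)
       mx := fun j => j.asIdeal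
       e := e
       t := t
       ι_add := fun _ _ => rfl
       ι_inj := fun a b h => Additive.toMul.injective (Subtype.ext h)
       mem_iff := fun g => ⟨fun h => ⟨Additive.ofMul ⟨g, h⟩, rfl⟩, ?_⟩
       π_surj := QuotientGroup.mk'_surjective W
       π_eq_one := fun g => QuotientGroup.eq_one_iff g
       conj := fun g v => hcv g v
       gen := gen_closure cQ
       faithful := fun r hr => Subtype.ext (AddMonoidHom.ext hr)
       cardQ := ?_
       cardV := hcW
       cop := hc.cop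
       max := fun j => j.isMaximal
       e_mul := h1
       e_orth := h2
       e_sum := h3
       e_one := h4
       e_nil := h5 }⟩⟩
  · rintro ⟨v, rfl⟩
    exact v.toMul.2
  · have := Subgroup.card_eq_card_quotient_mul_card_subgroup W
    rw [hc.cardG, hcW, mul_comm] at this
    exact (Nat.eq_of_mul_eq_mul_right (Nat.pos_of_ne_zero hν) this).symm

end GrL

end Pool.Agent.MP_88b4a2_lc

end

section

/-! Blocks, simple elements, characters and the gluing of module isomorphisms. -/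

namespace Pool.Agent.MP_88b4a2_lc

namespace GrL

namespace Md

variable {G V R Q J : Type} [Group G] [AddCommGroup V] [CommRing R] [Module R V]
  [CommGroup Q] [Fintype J] {ν μ : ℕ} (M : Md G V R Q J ν μ)

theorem ι_zero : M.ι 0 = 1 := by
  have := M.ι_add 0 0
  rw [add_zero] at this
  exact left_eq_mul.mp this

theorem ι_eq_one {v : V} : M.ι v = 1 ↔ v = 0 := by
  rw [← M.ι_zero]; exact M.ι_inj.eq_iff

theorem ι_neg (v : V) : M.ι (-v) = (M.ι v)⁻¹ := by
  have := M.ι_add v (-v)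
  rw [add_neg_cancel, M.ι_zero] at this
  exact (inv_eq_of_mul_eq_one_right this.symm).symm

theorem ι_nsmul (n : ℕ) (v : V) : M.ι (n • v) = M.ι v ^ n := by
  induction n with
  | zero => simp [M.ι_zero]
  | succ n ih => rw [succ_nsmul, M.ι_add, ih, pow_succ]

theorem π_ι (v : V) : M.π (M.ι v) = 1 := (M.π_eq_one _).mpr ((M.mem_iff _).mpr ⟨v, rfl⟩)

theorem ext_e {v w : V} (h : ∀ j, M.e j • v = M.e j • w) : v = w := by
  rw [← one_smul R v, ← one_smul R w, ← M.e_sum, Finset.sum_smul, Finset.sum_smul]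
  exact Finset.sum_congr rfl fun j _ => h j

theorem e_e (j : J) (v : V) : M.e j • M.e j • v = M.e j • v := by rw [← mul_smul, M.e_mul]

theorem e_e_ne {i j : J} (h : i ≠ j) (v : V) : M.e i • M.e j • v = 0 := by
  rw [← mul_smul, M.e_orth i j h, zero_smul]

theorem exists_comp (w : J → V) : ∃ n : V, ∀ j, M.e j • n = M.e j • w j := by
  classical
  refine ⟨∑ j, M.e j • w j, fun j => ?_⟩
  rw [Finset.smul_sum, Finset.sum_eq_single j (fun i _ hi => M.e_e_ne hi.symm _) (by simp),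
    M.e_e]

/-- A nonzero element killed by the maximal ideal of the block `j`. -/
def IsS (j : J) (y : V) : Prop := y ≠ 0 ∧ ∀ r ∈ M.mx j, r • y = 0

variable {M}

theorem IsS.ann {j : J} {y : V} (h : M.IsS j y) (r : R) : r • y = 0 ↔ r ∈ M.mx j := by
  refine ⟨fun hr => ?_, h.2 r⟩
  by_contra hm
  obtain ⟨u, c, hc, h1⟩ := (M.max j).exists_inv hm
  apply h.1
  rw [← one_smul R y, ← h1, add_smul, mul_smul, hr, h.2 c hc]; simp

theorem IsS.e_self {j : J} {y : V} (h : M.IsS j y) : M.e j • y = y := by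
  have := h.2 _ (M.e_one j)
  rw [sub_smul, one_smul, sub_eq_zero] at this
  exact this.symm

theorem IsS.e_ne {i j : J} {y : V} (h : M.IsS j y) (hij : i ≠ j) : M.e i • y = 0 := by
  rw [← h.e_self, M.e_e_ne hij]

theorem IsS.uniq {i j : J} {y : V} (h : M.IsS j y) (h' : M.IsS i y) : i = j := by
  by_contra hij
  exact h.1 (by rw [← h'.e_self, h.e_ne hij])

theorem IsS.smul {j : J} {y : V} (h : M.IsS j y) {r : R} (hr : r • y ≠ 0) : M.IsS j (r • y) :=
  ⟨hr, fun s hs => by rw [smul_comm, h.2 s hs, smul_zero]⟩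

variable (M)

theorem supp_iff [Finite V] (j : J) (v : V) : M.e j • v ≠ 0 ↔ ∃ r : R, M.IsS j (r • v) := by
  constructor
  · intro hv
    have hne : {n | ∃ r : R, r • M.e j • v ≠ 0 ∧
        n = (Set.range fun s : R => s • r • M.e j • v).ncard}.Nonempty :=
      ⟨_, 1, by simpa using hv, rfl⟩
    obtain ⟨n, ⟨r, hr, rfl⟩, hmin⟩ := Nat.lt_wfRel.wf.has_min _ hne
    refine ⟨r * M.e j, by rwa [mul_smul], fun s hs => ?_⟩
    by_contra hcon
    rw [mul_smul, ← mul_smul s r] at hcon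
    have hsub : (Set.range fun u : R => u • (s * r) • M.e j • v) ⊆
        Set.range fun u : R => u • r • M.e j • v := by
      rintro _ ⟨u, rfl⟩
      exact ⟨u * s, by simp only [mul_smul]⟩
    have heq := Set.eq_of_subset_of_ncard_le hsub (not_lt.mp (hmin _ ⟨s * r, hcon, rfl⟩))
    obtain ⟨u, hu⟩ : r • M.e j • v ∈ Set.range fun u : R => u • (s * r) • M.e j • v := by
      rw [heq]; exact ⟨1, one_smul _ _⟩
    have hit : ∀ n : ℕ, (u * s) ^ n • r • M.e j • v = r • M.e j • v := by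
      intro n
      induction n with
      | zero => simp
      | succ n ih =>
        rw [pow_succ, mul_smul, mul_smul u s, ← mul_smul s r]
        simp only at hu
        rw [hu, ih]
    apply hr
    rw [← hit M.t, smul_comm, ← mul_smul _ (M.e j), M.e_nil j _ (Ideal.mul_mem_left _ _ hs)]
    simp
  · rintro ⟨r, hr⟩ h0
    apply hr.1
    rw [← hr.e_self, smul_comm, h0, smul_zero]

/-- A generator of a simple submodule. -/
def Simple (R : Type) {V : Type} [CommRing R] [AddCommGroup V] [Module R V] (z : V) : Prop :=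
  z ≠ 0 ∧ ∀ w, (∃ r : R, r • z = w) → w ≠ 0 → ∃ s : R, s • w = z

theorem simple_iff [Finite V] (z : V) : Simple R z ↔ ∃ j, M.IsS j z := by
  constructor
  · rintro ⟨h0, h⟩
    obtain ⟨j, hj⟩ : ∃ j, M.e j • z ≠ 0 := by
      by_contra hcon
      push Not at hcon
      exact h0 (M.ext_e fun j => by rw [hcon, smul_zero])
    obtain ⟨r, hr⟩ := (M.supp_iff j z).mp hj
    obtain ⟨s, hs⟩ := h _ ⟨r, rfl⟩ hr.1
    exact ⟨j, hs ▸ hr.smul (by rw [hs]; exact h0)⟩
  · rintro ⟨j, hj⟩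
    refine ⟨hj.1, ?_⟩
    rintro _ ⟨r, rfl⟩ hr
    obtain ⟨u, c, hc, h1⟩ := (M.max j).exists_inv (fun h => hr (hj.2 r h))
    refine ⟨u, ?_⟩
    conv_rhs => rw [← one_smul R z, ← h1, add_smul, mul_smul, hj.2 c hc, add_zero]

theorem same_iff [Finite V] {i j : J} {y z : V} (hy : M.IsS j y) (hz : M.IsS i z) :
    i = j ↔ (y + z = 0 ∨ Simple R (y + z)) := by
  constructor
  · rintro rfl
    by_cases h : y + z = 0
    · exact Or.inl h
    · exact Or.inr ((M.simple_iff _).mpr ⟨i, h, fun r hr => by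
        rw [smul_add, hy.2 r hr, hz.2 r hr, add_zero]⟩)
  · intro h
    by_contra hij
    have h1 : M.e j • (y + z) = y := by rw [smul_add, hy.e_self, hz.e_ne (Ne.symm hij), add_zero]
    have h2 : M.e i • (y + z) = z := by rw [smul_add, hz.e_self, hy.e_ne hij, zero_add]
    rcases h with h | h
    · rw [h, smul_zero] at h1
      exact hy.1 h1.symm
    · obtain ⟨l, hl⟩ := (M.simple_iff _).mp h
      by_cases hlj : j = l
      · rw [hl.e_ne (hlj ▸ hij)] at h2
        exact hz.1 h2.symm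
      · rw [hl.e_ne hlj] at h1
        exact hy.1 h1.symm

theorem exists_isS [Finite V] (j : J) : ∃ y, M.IsS j y := by
  obtain ⟨v, hv⟩ : ∃ v : V, M.e j • v ≠ 0 := by
    by_contra hcon
    push Not at hcon
    have h0 := M.faithful _ hcon
    have h1 := M.e_one j
    rw [h0, sub_zero] at h1
    exact (M.max j).ne_top ((Ideal.eq_top_iff_one _).mpr h1)
  obtain ⟨r, hr⟩ := (M.supp_iff j v).mp hv
  exact ⟨_, hr⟩

/-- The character of the block `j`. -/
def χ (j : J) : Q →* (R ⧸ M.mx j)ˣ :=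
  ((Ideal.Quotient.mk (M.mx j)).toMonoidHom.comp M.ρ).toHomUnits

theorem χ_eq (j : J) (q q' : Q) : M.χ j q = M.χ j q' ↔ M.ρ q - M.ρ q' ∈ M.mx j := by
  rw [← Units.val_inj, ← Ideal.Quotient.eq]
  rfl

theorem IsS.χ_iff {M : Md G V R Q J ν μ} {j : J} {y : V} (h : M.IsS j y) (q q' : Q) :
    M.χ j q = M.χ j q' ↔ M.ρ q • y = M.ρ q' • y := by
  rw [M.χ_eq, ← h.ann, sub_smul, sub_eq_zero]

theorem exists_gen [Finite R] (j : J) : ∃ g : Q, ∀ q, ∃ a : ℤ, M.χ j q = M.χ j g ^ a := by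
  haveI := (M.max j).isPrime
  haveI : Finite (R ⧸ M.mx j) := Finite.of_surjective _ Ideal.Quotient.mk_surjective
  obtain ⟨⟨_, g, rfl⟩, hg⟩ := IsCyclic.exists_generator (α := (M.χ j).range)
  refine ⟨g, fun q => ?_⟩
  obtain ⟨a, ha⟩ := hg ⟨_, q, rfl⟩
  exact ⟨a, (congrArg Subtype.val ha).symm⟩

/-- Every block component of `n0` generates a simple module. -/
def Full (n0 : V) : Prop := ∀ j, M.IsS j (M.e j • n0)

/-- On the block `j` the element `n` is the translate of `n0` by `q`. -/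
def At (n0 n : V) (j : J) (q : Q) : Prop := M.e j • n = M.ρ q • M.e j • n0

/-- Base data: a full vector and its translate by generators of the character images. -/
structure Base (n0 n1 : V) (g : J → Q) : Prop where
  full : M.Full n0
  at1 : ∀ j, M.At n0 n1 j (g j)
  gen : ∀ j q, ∃ a : ℤ, M.χ j q = M.χ j (g j) ^ a

theorem At.uniq {M : Md G V R Q J ν μ} {n0 n : V} (hf : M.Full n0) {j : J} {q q' : Q}
    (h : M.At n0 n j q) (h' : M.At n0 n j q') : M.χ j q = M.χ j q' :=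
  ((hf j).χ_iff q q').mpr (h.symm.trans h')

theorem At.congr {M : Md G V R Q J ν μ} {n0 n : V} (hf : M.Full n0) {j : J} {q q' : Q}
    (h : M.At n0 n j q) (h' : M.χ j q = M.χ j q') : M.At n0 n j q' :=
  Eq.trans h (((hf j).χ_iff q q').mp h')

theorem exists_vec (n0 : V) (q : J → Q) : ∃ n, ∀ j, M.At n0 n j (q j) := by
  obtain ⟨n, hn⟩ := M.exists_comp fun j => M.ρ (q j) • n0
  exact ⟨n, fun j => by rw [At, hn, smul_comm]⟩

theorem at_all {n0 n : V} {q : Q} : (∀ j, M.At n0 n j q) ↔ n = M.ρ q • n0 := by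
  constructor
  · intro h
    exact M.ext_e fun j => by rw [h j, smul_comm]
  · rintro rfl j
    rw [At, smul_comm]

theorem exists_base [Finite V] [Finite R] : ∃ n0 n1 g, M.Base n0 n1 g := by
  choose y hy using M.exists_isS
  choose g hg using M.exists_gen
  obtain ⟨n0, h0⟩ := M.exists_comp y
  obtain ⟨n1, h1⟩ := M.exists_vec n0 g
  exact ⟨n0, n1, g, fun j => by rw [h0, (hy j).e_self]; exact hy j, h1, hg⟩

theorem exists_log (j : J) (g : Q) (hg : ∀ q, ∃ a : ℤ, M.χ j q = M.χ j g ^ a) (m : ℕ)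
    (hm : orderOf (M.χ j g) = m) :
    ∃ L : Additive Q →+ ZMod m, ∀ (q : Q) (a : ℤ),
      M.χ j q = M.χ j g ^ a ↔ L (Additive.ofMul q) = (a : ZMod m) := by
  choose a ha using hg
  have key : ∀ (q : Q) (b : ℤ), M.χ j q = M.χ j g ^ b ↔ (a q : ZMod m) = (b : ZMod m) := by
    intro q b
    rw [ha q, zpow_eq_zpow_iff_modEq, hm, ZMod.intCast_eq_intCast_iff]
  refine ⟨AddMonoidHom.mk' (fun q => (a q.toMul : ZMod m)) fun x y => ?_, key⟩
  rw [← Int.cast_add, ← key, toMul_add, map_mul, zpow_add, ← ha, ← ha]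

theorem exists_section [Finite G] : ∃ s : Q →* G, ∀ q, M.π (s q) = q := by
  have hk : Nat.card M.π.ker = ν := by
    refine Eq.trans (Nat.card_congr (Equiv.ofBijective
      (fun v : V => (⟨M.ι v, M.π_ι v⟩ : M.π.ker)) ⟨fun a b h => ?_, fun x => ?_⟩)).symm M.cardV
    · exact M.ι_inj (congrArg Subtype.val h)
    · obtain ⟨v, hv⟩ := (M.mem_iff _).mp ((M.π_eq_one _).mp x.2)
      exact ⟨v, Subtype.ext hv⟩
  have hi : M.π.ker.index = μ := by
    rw [Subgroup.index_ker, MonoidHom.range_eq_top.mpr M.π_surj, Subgroup.card_top, M.cardQ]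
  obtain ⟨H, hH⟩ := Subgroup.exists_right_complement'_of_coprime (N := M.π.ker)
    (by rw [hk, hi]; exact M.cop.symm)
  have hb : Function.Bijective (M.π.comp H.subtype) := by
    constructor
    · rw [injective_iff_map_eq_one]
      intro x hx
      exact Subtype.ext (Subgroup.disjoint_def.mp hH.disjoint hx x.2)
    · intro q
      obtain ⟨g, rfl⟩ := M.π_surj q
      obtain ⟨⟨n, h⟩, hnh⟩ := hH.2 g
      refine ⟨h, ?_⟩
      have hn : M.π n = 1 := n.2
      rw [← hnh]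
      simp [hn]
  refine ⟨H.subtype.comp (MulEquiv.ofBijective _ hb).symm.toMonoidHom, fun q => ?_⟩
  exact (MulEquiv.ofBijective _ hb).apply_symm_apply q

theorem bij_section {s : Q →* G} (hs : ∀ q, M.π (s q) = q) :
    Function.Bijective fun x : V × Q => M.ι x.1 * s x.2 := by
  constructor
  · rintro ⟨v, q⟩ ⟨w, r⟩ h
    have h1 := congrArg M.π h
    simp only [map_mul, M.π_ι, hs, one_mul] at h1
    subst h1
    simp only [mul_left_inj] at h
    rw [M.ι_inj h]
  · intro g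
    obtain ⟨v, hv⟩ := (M.mem_iff (g * (s (M.π g))⁻¹)).mp ((M.π_eq_one _).mp (by simp [hs]))
    exact ⟨(v, M.π g), by simp [hv]⟩

theorem mul_section {s : Q →* G} (hs : ∀ q, M.π (s q) = q) (v w : V) (q r : Q) :
    M.ι v * s q * (M.ι w * s r) = M.ι (v + M.ρ q • w) * s (q * r) := by
  have := M.conj (s q) w
  rw [hs] at this
  rw [M.ι_add, this, map_mul]
  group

section Two

variable {K V' R' Q' J' : Type} [Group K] [AddCommGroup V'] [CommRing R'] [Module R' V']
  [CommGroup Q'] [Fintype J'] (M' : Md K V' R' Q' J' ν μ)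

theorem iso_of [Finite G] [Finite K] (α : Q ≃* Q') (β : V ≃+ V')
    (h : ∀ q v, β (M.ρ q • v) = M'.ρ (α q) • β v) : Nonempty (G ≃* K) := by
  obtain ⟨s, hs⟩ := M.exists_section
  obtain ⟨s', hs'⟩ := M'.exists_section
  let E := Equiv.ofBijective _ (M.bij_section hs)
  let E' := Equiv.ofBijective _ (M'.bij_section hs')
  let F : G ≃ K := E.symm.trans ((β.toEquiv.prodCongr α.toEquiv).trans E')
  have hF : ∀ v q, F (M.ι v * s q) = M'.ι (β v) * s' (α q) := by
    intro v q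
    have : E.symm (M.ι v * s q) = (v, q) := E.symm_apply_apply (v, q)
    simp only [F, Equiv.trans_apply, this]
    rfl
  refine ⟨⟨F, fun x y => ?_⟩⟩
  obtain ⟨⟨v, q⟩, rfl⟩ := (M.bij_section hs).2 x
  obtain ⟨⟨w, r⟩, rfl⟩ := (M.bij_section hs).2 y
  show F (M.ι v * s q * (M.ι w * s r)) = F (M.ι v * s q) * F (M.ι w * s r)
  rw [M.mul_section hs, hF, hF, hF, M'.mul_section hs', map_add, h, map_mul]

theorem local_iso [Finite V] [Finite V'] [Finite R] [Finite Q] (α : Q ≃* Q') (j : J) (j' : J')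
    (hker : ∀ x ∈ AddSubgroup.closure (Set.range (M.ρ.prod (M'.ρ.comp α.toMonoidHom))),
      (x.1 ∈ M.mx j ↔ x.2 ∈ M'.mx j'))
    (hcount : ∀ n : ℕ, Nat.card {v : V // M.e j • v = v ∧ n • v = 0} =
      Nat.card {v : V' // M'.e j' • v = v ∧ n • v = 0}) :
    ∃ b : V →+ V', (∀ q v, b (M.ρ q • v) = M'.ρ (α q) • b v) ∧
      (∀ v, M'.e j' • b v = b v) ∧ ∀ v, b v = 0 → M.e j • v = 0 := by
  set τ := M.ρ.prod (M'.ρ.comp α.toMonoidHom) with hτ
  let S := Subring.closure (Set.range τ)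
  let τS : Q →* S := τ.codRestrict S (fun q => Subring.subset_closure ⟨q, rfl⟩)
  have hgen : AddSubgroup.closure (Set.range τS) = ⊤ := gen_closure τ
  let φ : S →+* R := (RingHom.fst R R').comp S.subtype
  let φ' : S →+* R' := (RingHom.snd R R').comp S.subtype
  have hk : ∀ s : S, φ s ∈ M.mx j ↔ φ' s ∈ M'.mx j' := by
    intro s
    have := Subring.mem_closure_iff.mp s.2
    rw [← MonoidHom.coe_mrange, Submonoid.closure_eq] at this
    exact hker _ this
  have hsurj : Function.Surjective φ := by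
    intro r
    have hr : r ∈ AddSubgroup.closure (Set.range M.ρ) := M.gen ▸ AddSubgroup.mem_top r
    induction hr using AddSubgroup.closure_induction with
    | mem y hy =>
      obtain ⟨q, rfl⟩ := hy
      exact ⟨τS q, rfl⟩
    | zero => exact ⟨0, map_zero _⟩
    | add y z _ _ hy hz =>
      obtain ⟨a, rfl⟩ := hy
      obtain ⟨b, rfl⟩ := hz
      exact ⟨a + b, map_add _ _ _⟩
    | neg y _ hy =>
      obtain ⟨a, rfl⟩ := hy
      exact ⟨-a, map_neg _ _⟩
  let N : Submodule R V := LinearMap.eqLocus (M.e j • LinearMap.id) LinearMap.id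
  let N' : Submodule R' V' := LinearMap.eqLocus (M'.e j' • LinearMap.id) LinearMap.id
  have hN : ∀ v, v ∈ N ↔ M.e j • v = v := fun v => Iff.rfl
  have hN' : ∀ v, v ∈ N' ↔ M'.e j' • v = v := fun v => Iff.rfl
  letI : Module S N := Module.compHom N φ
  letI : Module S N' := Module.compHom N' φ'
  have hs : ∀ (s : S) (x : N), ((s • x : N) : V) = φ s • (x : V) := fun _ _ => rfl
  have hs' : ∀ (s : S) (x : N'), ((s • x : N') : V') = φ' s • (x : V') := fun _ _ => rfl
  let I : Ideal S := Module.annihilator S N ⊓ Module.annihilator S N'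
  have hnil : ∀ s : S, φ s ∈ M.mx j → ∀ T, M.t + M'.t ≤ T → s ^ T ∈ I := by
    intro s h T hT
    refine ⟨Module.mem_annihilator.mpr fun x => Subtype.ext ?_,
      Module.mem_annihilator.mpr fun x => Subtype.ext ?_⟩
    · obtain ⟨d, rfl⟩ : ∃ d, T = d + M.t := ⟨T - M.t, by omega⟩
      rw [hs, ← (hN _).mp x.2, map_pow, pow_add, ← mul_smul, mul_assoc, M.e_nil j _ h]
      simp
    · obtain ⟨d, rfl⟩ : ∃ d, T = d + M'.t := ⟨T - M'.t, by omega⟩
      rw [hs', ← (hN' _).mp x.2, map_pow, pow_add, ← mul_smul, mul_assoc,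
        M'.e_nil j' _ ((hk s).mp h)]
      simp
  haveI := (M.max j).isPrime
  haveI : Finite (R ⧸ M.mx j) := Finite.of_surjective _ Ideal.Quotient.mk_surjective
  obtain ⟨p, hpc⟩ := CharP.exists (R ⧸ M.mx j)
  have hp : p.Prime := CharP.char_is_prime (R ⧸ M.mx j) p
  have hpm : (p : R) ∈ M.mx j := by
    rw [← Ideal.Quotient.eq_zero_iff_mem, map_natCast]; exact CharP.cast_eq_zero _ p
  have hν : (ν : R) = 0 := M.faithful _ fun v => by
    rw [Nat.cast_smul_eq_nsmul, ← M.cardV]; exact card_nsmul_eq_zero'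
  have hpν : p ∣ ν := by
    rw [← CharP.cast_eq_zero_iff (R ⧸ M.mx j) p, ← map_natCast (Ideal.Quotient.mk (M.mx j)), hν,
      map_zero]
  have hcop : p.Coprime μ := (Nat.Coprime.coprime_dvd_right hpν M.cop).symm
  have hμ : 0 < μ := M.cardQ ▸ Nat.card_pos
  set T := M.t + M'.t with hT
  have hq : ∀ q : Q, q ^ p ^ (μ.totient * T) = q := by
    intro q
    have h1 : p ^ (μ.totient * T) ≡ 1 [MOD μ] := by
      rw [pow_mul]
      simpa using (Nat.ModEq.pow_totient hcop).pow T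
    have h2 : q ^ μ = 1 := M.cardQ ▸ pow_card_eq_one'
    have := pow_eq_pow_of_modEq h1 h2
    simpa using this
  have hbig : T ≤ p ^ (μ.totient * T) :=
    (Nat.le_mul_of_pos_left T (Nat.totient_pos.mpr hμ)).trans (Nat.lt_pow_self hp.one_lt).le
  have hloc : ∀ r : S, (∃ u, u * r - 1 ∈ I) ∨ ∃ r', r - p * r' ∈ I := by
    intro r
    by_cases hr : φ r ∈ M.mx j
    · right
      obtain ⟨s', hs'⟩ := frob τS hgen p _ hp hq r
      refine ⟨-s', ?_⟩
      have : r - p * -s' = r ^ p ^ (μ.totient * T) := by rw [hs']; ring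
      rw [this]
      exact hnil _ hr _ hbig
    · left
      obtain ⟨u, c, hc, h1⟩ := (M.max j).exists_inv hr
      obtain ⟨u, rfl⟩ := hsurj u
      have h2 : φ (1 - u * r) ∈ M.mx j := by
        rw [map_sub, map_one, map_mul, ← h1]; simpa using hc
      refine ⟨(∑ i ∈ Finset.range T, (1 - u * r) ^ i) * u, ?_⟩
      have h3 := geom_sum_mul (1 - u * r) T
      have : (∑ i ∈ Finset.range T, (1 - u * r) ^ i) * u * r - 1 = -(1 - u * r) ^ T := by
        linear_combination -h3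
      rw [this]
      exact I.neg_mem (hnil _ h2 T le_rfl)
  have hcnt : ∀ b : ℕ, Nat.card {x : N // (p : S) ^ b • x = 0} =
      Nat.card {x : N' // (p : S) ^ b • x = 0} := by
    intro b
    have e1 : Nat.card {x : N // (p : S) ^ b • x = 0} =
        Nat.card {v : V // M.e j • v = v ∧ p ^ b • v = 0} := by
      refine Nat.card_congr ((Equiv.subtypeEquivRight fun x => ?_).trans
        (Equiv.subtypeSubtypeEquivSubtypeInter (fun v => M.e j • v = v) fun v => p ^ b • v = 0))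
      rw [← Nat.cast_pow, Nat.cast_smul_eq_nsmul, Subtype.ext_iff]
      rfl
    have e2 : Nat.card {x : N' // (p : S) ^ b • x = 0} =
        Nat.card {v : V' // M'.e j' • v = v ∧ p ^ b • v = 0} := by
      refine Nat.card_congr ((Equiv.subtypeEquivRight fun x => ?_).trans
        (Equiv.subtypeSubtypeEquivSubtypeInter (fun v => M'.e j' • v = v) fun v => p ^ b • v = 0))
      rw [← Nat.cast_pow, Nat.cast_smul_eq_nsmul, Subtype.ext_iff]
      rfl
    rw [e1, e2, hcount]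
  obtain ⟨β⟩ := modIso (R := S) (M := N) (M' := N') I (p : S) T
    (hnil _ (by rwa [map_natCast]) T le_rfl) hloc
    (fun r hr => Module.mem_annihilator.mp hr.1) (fun r hr => Module.mem_annihilator.mp hr.2)
    hcnt
  let P : V →+ N := AddMonoidHom.mk' (fun v => ⟨M.e j • v, (hN _).mpr (M.e_e j v)⟩)
    fun v w => Subtype.ext (smul_add _ _ _)
  refine ⟨N'.subtype.toAddMonoidHom.comp (β.toAddEquiv.toAddMonoidHom.comp P),
    fun q v => ?_, fun v => (hN' _).mp (β (P v)).2, fun v hv => ?_⟩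
  · have h1 : P (M.ρ q • v) = τS q • P v := Subtype.ext (smul_comm _ _ _)
    show ((β (P (M.ρ q • v)) : N') : V') = M'.ρ (α q) • ((β (P v) : N') : V')
    rw [h1, map_smul, hs']
    rfl
  · have h1 : β (P v) = 0 := Subtype.ext hv
    rw [map_eq_zero_iff _ β.injective] at h1
    exact congrArg Subtype.val h1

theorem glue [Finite V] [Finite V'] (α : Q ≃* Q') (σ : J ≃ J')
    (hb : ∀ j, ∃ b : V →+ V', (∀ q v, b (M.ρ q • v) = M'.ρ (α q) • b v) ∧
      (∀ v, M'.e (σ j) • b v = b v) ∧ ∀ v, b v = 0 → M.e j • v = 0) :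
    ∃ β : V ≃+ V', ∀ q v, β (M.ρ q • v) = M'.ρ (α q) • β v := by
  classical
  choose b h1 h2 h3 using hb
  have hinj : Function.Injective (∑ j, b j : V →+ V') := by
    rw [injective_iff_map_eq_zero]
    intro v hv
    refine M.ext_e fun j => ?_
    rw [smul_zero]
    apply h3
    have := congrArg (fun x => M'.e (σ j) • x) hv
    simp only [AddMonoidHom.finset_sum_apply, Finset.smul_sum, smul_zero] at this
    rw [Finset.sum_eq_single j (fun i _ hi => by
      rw [← h2 i v, M'.e_e_ne (fun h => hi (σ.injective h).symm)]) (by simp), h2] at this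
    exact this
  have hbij : Function.Bijective (∑ j, b j : V →+ V') :=
    hinj.bijective_of_nat_card_le (by rw [M.cardV, M'.cardV])
  refine ⟨AddEquiv.ofBijective _ hbij, fun q v => ?_⟩
  simp only [AddEquiv.ofBijective_apply, AddMonoidHom.finset_sum_apply, Finset.smul_sum, h1]

end Two

end Md

end GrL

end Pool.Agent.MP_88b4a2_lc

end

section

/-! Transfer of module-theoretic properties along a back-and-forth system. -/

namespace Pool.Agent.MP_88b4a2_lc

namespace GrL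

variable {G V R Q J : Type} [Group G] [AddCommGroup V] [CommRing R] [Module R V]
  [CommGroup Q] [Fintype J] {ν μ : ℕ}
  {K V' R' Q' J' : Type} [Group K] [AddCommGroup V'] [CommRing R'] [Module R' V']
  [CommGroup Q'] [Fintype J'] {k : ℕ}
  (M : Md G V R Q J ν μ) (M' : Md K V' R' Q' J' ν μ) (B : BF G K k) {l : List (G × K)}

theorem vext (h : B.E l) (hl : l.length ≤ k) :
    ∃ f : V ≃ V', ∀ v, B.E ((M.ι v, M'.ι (f v)) :: l) := by
  obtain ⟨f, hf⟩ := B.ext h hl
  have h1 : ∀ g, g ∈ Set.range M.ι ↔ f g ∈ Set.range M'.ι := fun g => by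
    rw [Set.mem_range, Set.mem_range, ← M.mem_iff, ← M'.mem_iff]
    exact B.pow_one_iff ν (hf g) (by simp)
  refine ⟨(Equiv.ofInjective _ M.ι_inj).trans ((f.subtypeEquiv h1).trans
    (Equiv.ofInjective _ M'.ι_inj).symm), fun v => ?_⟩
  have := hf (M.ι v)
  convert this using 3
  simp only [Equiv.trans_apply]
  rw [Equiv.apply_ofInjective_symm M'.ι_inj]
  rfl

theorem vfw (h : B.E l) (l₀ : List (G × K)) (h₀ : l₀ ⊆ l) (hl : l₀.length ≤ 8) (v : V) :
    ∃ v', B.E ((M.ι v, M'.ι v') :: l₀) := by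
  obtain ⟨f, hf⟩ := vext M M' B (B.mono h₀ h) (hl.trans B.big)
  exact ⟨_, hf v⟩

theorem vbw (h : B.E l) (l₀ : List (G × K)) (h₀ : l₀ ⊆ l) (hl : l₀.length ≤ 8) (v' : V') :
    ∃ v, B.E ((M.ι v, M'.ι v') :: l₀) := by
  obtain ⟨f, hf⟩ := vext M M' B (B.mono h₀ h) (hl.trans B.big)
  exact ⟨f.symm v', by simpa using hf (f.symm v')⟩

theorem fibre_π (x : G) : ({y | M.π y = M.π x} : Set G).ncard = ν := by
  refine Eq.trans ?_ M.cardV
  rw [← Nat.card_coe_set_eq]
  refine (Nat.card_congr (Equiv.ofBijective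
    (fun v : V => (⟨M.ι v * x, by simp [M.π_ι]⟩ : ({y | M.π y = M.π x} : Set G)))
    ⟨fun a b h => ?_, fun y => ?_⟩)).symm
  · exact M.ι_inj (mul_right_cancel (congrArg Subtype.val h))
  · have hy : M.π y.1 = M.π x := y.2
    obtain ⟨v, hv⟩ := (M.mem_iff (y.1 * x⁻¹)).mp ((M.π_eq_one _).mp (by simp [hy]))
    exact ⟨v, Subtype.ext (by simp [hv])⟩

theorem qext [Finite G] [Finite K] [Finite Q] [Finite Q'] (h : B.E l) (hl : l.length ≤ k) :
    ∃ c : Q ≃ Q', ∀ q, ∃ g g', M.π g = q ∧ M'.π g' = c q ∧ B.E ((g, g') :: l) := by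
  obtain ⟨f, hf⟩ := B.ext h hl
  obtain ⟨c, hc⟩ := hall_fibre M.π M'.π M.π_surj M'.π_surj f fun x => by
    rw [fibre_π, fibre_π]
  refine ⟨c, fun q => ?_⟩
  obtain ⟨x, h1, h2⟩ := hc q
  exact ⟨x, f x, h1, h2, hf x⟩

theorem t_zero (h : B.E l) {v : V} {v' : V'} (hv : (M.ι v, M'.ι v') ∈ l) : v = 0 ↔ v' = 0 := by
  rw [← M.ι_eq_one, ← M'.ι_eq_one]; exact B.one h hv

theorem t_add (h : B.E l) {v w z : V} {v' w' z' : V'} (hv : (M.ι v, M'.ι v') ∈ l)
    (hw : (M.ι w, M'.ι w') ∈ l) (hz : (M.ι z, M'.ι z') ∈ l) : v + w = z ↔ v' + w' = z' := by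
  rw [← M.ι_inj.eq_iff, ← M'.ι_inj.eq_iff, M.ι_add, M'.ι_add]
  exact B.mul_iff h hv hw hz

theorem t_neg (h : B.E l) {v w : V} {v' w' : V'} (hv : (M.ι v, M'.ι v') ∈ l)
    (hw : (M.ι w, M'.ι w') ∈ l) (hvw : -v = w) : -v' = w' := by
  apply M'.ι_inj
  rw [M'.ι_neg]
  exact B.inv h hv hw (by rw [← hvw, M.ι_neg])

theorem t_nsmul (n : ℕ) (h : B.E l) {v : V} {v' : V'} (hv : (M.ι v, M'.ι v') ∈ l) :
    n • v = 0 ↔ n • v' = 0 := by
  rw [← M.ι_eq_one, ← M'.ι_eq_one, M.ι_nsmul, M'.ι_nsmul]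
  exact B.pow_one_iff n h hv

theorem t_act (h : B.E l) {g : G} {g' : K} {v w : V} {v' w' : V'} (hg : (g, g') ∈ l)
    (hv : (M.ι v, M'.ι v') ∈ l) (hw : (M.ι w, M'.ι w') ∈ l) (hvw : M.ρ (M.π g) • v = w) :
    M'.ρ (M'.π g') • v' = w' := by
  apply M'.ι_inj
  rw [M'.conj]
  exact B.conj h hg hv hw (by rw [← hvw, M.conj])

theorem t_qpow (n : ℕ) (h : B.E l) {g : G} {g' : K} (hg : (g, g') ∈ l) :
    M.π g ^ n = 1 ↔ M'.π g' ^ n = 1 := by
  rw [← map_pow, ← map_pow, M.π_eq_one, M'.π_eq_one, ← pow_mul, ← pow_mul]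
  exact B.pow_one_iff _ h hg

theorem t_span (h : B.E l) {y z : V} {y' z' : V'} (hy : (M.ι y, M'.ι y') ∈ l)
    (hz : (M.ι z, M'.ι z') ∈ l) (hyz : ∃ r : R, r • y = z) : ∃ r' : R', r' • y' = z' := by
  obtain ⟨r, rfl⟩ := hyz
  have hr : r ∈ AddSubgroup.closure (Set.range M.ρ) := M.gen ▸ AddSubgroup.mem_top r
  induction hr using AddSubgroup.closure_induction generalizing l z' with
  | mem x hx =>
    obtain ⟨q, rfl⟩ := hx
    obtain ⟨g, rfl⟩ := M.π_surj q
    obtain ⟨g', hg⟩ := B.fw h [(M.ι y, M'.ι y'), (M.ι (M.ρ (M.π g) • y), M'.ι z')]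
      (by simp [*]) (by simp) g
    exact ⟨_, t_act M M' B hg (g := g) (g' := g') (v := y) (by simp) (by simp) (by simp) rfl⟩
  | zero => exact ⟨0, by rw [zero_smul, (t_zero M M' B h hz).mp (zero_smul _ _)]⟩
  | add a b _ _ iha ihb =>
    obtain ⟨u', hu⟩ := vfw M M' B h [(M.ι y, M'.ι y'), (M.ι ((a + b) • y), M'.ι z')]
      (by simp [*]) (by simp) (a • y)
    obtain ⟨w', hw⟩ := vfw M M' B hu _ (List.Subset.refl _) (by simp) (b • y)
    obtain ⟨ra, hra⟩ := iha hw (z' := u') (by simp) (by simp)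
    obtain ⟨rb, hrb⟩ := ihb hw (z' := w') (by simp) (by simp)
    refine ⟨ra + rb, ?_⟩
    rw [add_smul, hra, hrb]
    exact (t_add M M' B hw (v := a • y) (w := b • y) (z := (a + b) • y) (by simp) (by simp)
      (by simp)).mp (add_smul _ _ _).symm
  | neg a _ iha =>
    obtain ⟨u', hu⟩ := vfw M M' B h [(M.ι y, M'.ι y'), (M.ι ((-a) • y), M'.ι z')]
      (by simp only [List.cons_subset, hy, hz, List.nil_subset, and_self]) (by simp) (a • y)
    obtain ⟨ra, hra⟩ := iha hu (z' := u') (by simp) (by simp)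
    refine ⟨-ra, ?_⟩
    rw [neg_smul, hra]
    exact t_neg M M' B hu (v := a • y) (w := (-a) • y) (by simp) (by simp) (neg_smul _ _).symm

theorem t_simple (h : B.E l) {z : V} {z' : V'} (hz : (M.ι z, M'.ι z') ∈ l)
    (hs : Md.Simple R z) : Md.Simple R' z' := by
  refine ⟨fun h0 => hs.1 ((t_zero M M' B h hz).mpr h0), fun w' hw hw0 => ?_⟩
  obtain ⟨w, h1⟩ := vbw M M' B h [(M.ι z, M'.ι z')] (by simp [*]) (by simp) w'
  have h2 := t_span M' M B.symm (B.swap h1) (y := z') (y' := z) (z := w') (z' := w)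
    (by simp) (by simp) hw
  have h3 : w ≠ 0 := fun h0 => hw0 ((t_zero M M' B h1 (by simp)).mp h0)
  exact t_span M M' B h1 (by simp) (by simp) (hs.2 w h2 h3)

variable [Finite V] [Finite V']

theorem t_isS (h : B.E l) {y z : V} {y' z' : V'} (hy : (M.ι y, M'.ι y') ∈ l)
    (hz : (M.ι z, M'.ι z') ∈ l) {j : J} {j' : J'} (h1 : M.IsS j y) (h1' : M'.IsS j' y')
    (h2 : M.IsS j z) : M'.IsS j' z' := by
  obtain ⟨i', hi⟩ := (M'.simple_iff _).mp
    (t_simple M M' B h hz ((M.simple_iff _).mpr ⟨j, h2⟩))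
  obtain ⟨w', hw⟩ := vfw M M' B h [(M.ι y, M'.ι y'), (M.ι z, M'.ι z')]
    (by simp [*]) (by simp) (y + z)
  have h3 : y' + z' = w' := (t_add M M' B hw (v := y) (w := z) (z := y + z) (by simp) (by simp)
    (by simp)).mp rfl
  have h4 : i' = j' := by
    rw [M'.same_iff h1' hi, h3]
    rcases (M.same_iff h1 h2).mp rfl with h5 | h5
    · exact Or.inl ((t_zero M M' B hw (by simp)).mp h5)
    · exact Or.inr (t_simple M M' B hw (by simp) h5)
  exact h4 ▸ hi

theorem t_pteq (h : B.E l) {y z : V} {y' z' : V'} (hy : (M.ι y, M'.ι y') ∈ l)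
    (hz : (M.ι z, M'.ι z') ∈ l) {j i : J} {j' i' : J'} (h1 : M.IsS j y) (h1' : M'.IsS j' y')
    (h2 : M.IsS i z) (h2' : M'.IsS i' z') : j = i ↔ j' = i' := by
  constructor
  · rintro rfl
    exact h2'.uniq (t_isS M M' B h hy hz h1 h1' h2)
  · rintro rfl
    exact h2.uniq (t_isS M' M B.symm (B.swap h) (mem_swap hy) (mem_swap hz) h1' h1 h2')

theorem t_supp (h : B.E l) {y n : V} {y' n' : V'} (hy : (M.ι y, M'.ι y') ∈ l)
    (hn : (M.ι n, M'.ι n') ∈ l) {j : J} {j' : J'} (h1 : M.IsS j y) (h1' : M'.IsS j' y')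
    (h2 : M.e j • n ≠ 0) : M'.e j' • n' ≠ 0 := by
  obtain ⟨r, hr⟩ := (M.supp_iff j n).mp h2
  obtain ⟨w', hw⟩ := vfw M M' B h [(M.ι y, M'.ι y'), (M.ι n, M'.ι n')]
    (by simp [*]) (by simp) (r • n)
  obtain ⟨r', hr'⟩ := t_span M M' B hw (y := n) (y' := n') (z := r • n) (z' := w')
    (by simp) (by simp) ⟨r, rfl⟩
  exact (M'.supp_iff j' n').mpr ⟨r', hr' ▸ t_isS M M' B hw (by simp) (by simp) h1 h1' hr⟩

theorem t_supp_iff (h : B.E l) {y n : V} {y' n' : V'} (hy : (M.ι y, M'.ι y') ∈ l)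
    (hn : (M.ι n, M'.ι n') ∈ l) {j : J} {j' : J'} (h1 : M.IsS j y) (h1' : M'.IsS j' y') :
    M.e j • n = 0 ↔ M'.e j' • n' = 0 :=
  not_iff_not.mp ⟨t_supp M M' B h hy hn h1 h1',
    t_supp M' M B.symm (B.swap h) (mem_swap hy) (mem_swap hn) h1' h1⟩

theorem t_eqj (h : B.E l) {y v w : V} {y' v' w' : V'} (hy : (M.ι y, M'.ι y') ∈ l)
    (hv : (M.ι v, M'.ι v') ∈ l) (hw : (M.ι w, M'.ι w') ∈ l) {j : J} {j' : J'}
    (h1 : M.IsS j y) (h1' : M'.IsS j' y') (h2 : M.e j • v = M.e j • w) :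
    M'.e j' • v' = M'.e j' • w' := by
  obtain ⟨d', hd⟩ := vfw M M' B h [(M.ι y, M'.ι y'), (M.ι v, M'.ι v'), (M.ι w, M'.ι w')]
    (by simp [*]) (by simp) (v - w)
  have h3 : d' + w' = v' := (t_add M M' B hd (v := v - w) (w := w) (z := v) (by simp) (by simp)
    (by simp)).mp (sub_add_cancel _ _)
  have h4 := (t_supp_iff M M' B hd (n := v - w) (n' := d') (by simp) (by simp) h1 h1').mp
    (by rw [smul_sub, h2, sub_self])
  rw [← h3, smul_add, h4, zero_add]

theorem t_at (h : B.E l) {y n0 n : V} {y' n0' n' : V'} {g : G} {g' : K}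
    (hy : (M.ι y, M'.ι y') ∈ l) (h0 : (M.ι n0, M'.ι n0') ∈ l) (hn : (M.ι n, M'.ι n') ∈ l)
    (hg : (g, g') ∈ l) {j : J} {j' : J'} (h1 : M.IsS j y) (h1' : M'.IsS j' y')
    (h2 : M.At n0 n j (M.π g)) : M'.At n0' n' j' (M'.π g') := by
  obtain ⟨w', hw⟩ := vfw M M' B h
    [(M.ι y, M'.ι y'), (M.ι n0, M'.ι n0'), (M.ι n, M'.ι n'), (g, g')]
    (by simp [*]) (by simp) (M.ρ (M.π g) • n0)
  have h3 := t_act M M' B hw (g := g) (g' := g') (v := n0) (v' := n0') (w' := w')
    (by simp) (by simp) (by simp) rfl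
  have h4 := t_eqj M M' B hw (v := n) (v' := n') (w := M.ρ (M.π g) • n0) (w' := w')
    (by simp) (by simp) (by simp) h1 h1' (by rw [h2, smul_comm])
  rw [Md.At, h4, ← h3, smul_comm]

omit [Finite V] [Finite V'] in
theorem t_χ (h : B.E l) {y : V} {y' : V'} {a b : G} {a' b' : K}
    (hy : (M.ι y, M'.ι y') ∈ l) (ha : (a, a') ∈ l) (hb : (b, b') ∈ l)
    {j : J} {j' : J'} (h1 : M.IsS j y) (h1' : M'.IsS j' y')
    (h2 : M.χ j (M.π a) = M.χ j (M.π b)) : M'.χ j' (M'.π a') = M'.χ j' (M'.π b') := by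
  obtain ⟨w', hw⟩ := vfw M M' B h [(M.ι y, M'.ι y'), (a, a'), (b, b')]
    (by simp [*]) (by simp) (M.ρ (M.π a) • y)
  rw [h1.χ_iff] at h2
  rw [h1'.χ_iff, t_act M M' B hw (g := a) (g' := a') (v := y) (v' := y') (w' := w')
    (by simp) (by simp) (by simp) rfl,
    t_act M M' B hw (g := b) (g' := b') (v := y) (v' := y') (w' := w')
    (by simp) (by simp) (by simp) h2.symm]

omit [Finite V] [Finite V'] in
theorem t_χpow (h : B.E l) {y : V} {y' : V'} {a b : G} {a' b' : K}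
    (hy : (M.ι y, M'.ι y') ∈ l) (ha : (a, a') ∈ l) (hb : (b, b') ∈ l)
    {j : J} {j' : J'} (h1 : M.IsS j y) (h1' : M'.IsS j' y') (n : ℤ)
    (h2 : M.χ j (M.π a) = M.χ j (M.π b) ^ n) :
    M'.χ j' (M'.π a') = M'.χ j' (M'.π b') ^ n := by
  obtain ⟨c', hc⟩ := B.fw h [(M.ι y, M'.ι y'), (a, a'), (b, b')]
    (by simp [*]) (by simp) (b ^ n)
  have h3 : b' ^ n = c' := B.zpow n hc (a := b) (b := b ^ n) (by simp) (by simp) rfl
  rw [← map_zpow, ← map_zpow] at h2 ⊢
  rw [h3]
  exact t_χ M M' B hc (by simp) (by simp) (by simp) h1 h1' h2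

theorem bw_isS (h : B.E l) (l₀ : List (G × K)) (h₀ : l₀ ⊆ l) (hl : l₀.length ≤ 8) (j' : J') :
    ∃ y y' j, M.IsS j y ∧ M'.IsS j' y' ∧ B.E ((M.ι y, M'.ι y') :: l₀) := by
  obtain ⟨y', hy'⟩ := M'.exists_isS j'
  obtain ⟨y, hy⟩ := vbw M M' B h l₀ h₀ hl y'
  obtain ⟨j, hj⟩ := (M.simple_iff y).mp (t_simple M' M B.symm (B.swap hy) (z := y') (z' := y)
    (by simp) ((M'.simple_iff _).mpr ⟨j', hy'⟩))
  exact ⟨y, y', j, hj, hy', hy⟩

theorem t_block (h : B.E l) {y v : V} {y' v' : V'} (hy : (M.ι y, M'.ι y') ∈ l)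
    (hv : (M.ι v, M'.ι v') ∈ l) {j : J} {j' : J'} (h1 : M.IsS j y) (h1' : M'.IsS j' y')
    (h2 : M.e j • v = v) : M'.e j' • v' = v' := by
  refine M'.ext_e fun i' => ?_
  by_cases hi : i' = j'
  · rw [hi, M'.e_e]
  · obtain ⟨z, z', i, h3, h3', hz⟩ := bw_isS M M' B h [(M.ι y, M'.ι y'), (M.ι v, M'.ι v')]
      (by simp [*]) (by simp) i'
    have h4 : i ≠ j := fun h5 => hi
      ((t_pteq M M' B hz (y := z) (z := y) (by simp) (by simp) h3 h3' h1 h1').mp h5)
    rw [M'.e_e_ne hi, (t_supp_iff M M' B hz (n := v) (n' := v') (by simp) (by simp) h3 h3').mp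
      (by rw [← h2, M.e_e_ne h4])]

theorem t_full (h : B.E l) {n0 : V} {n0' : V'} (h0 : (M.ι n0, M'.ι n0') ∈ l)
    (hf : M.Full n0) : M'.Full n0' := by
  intro j'
  obtain ⟨y, y', j, h1, h1', hy⟩ := bw_isS M M' B h [(M.ι n0, M'.ι n0')] (by simp [*])
    (by simp) j'
  obtain ⟨z', hz⟩ := vfw M M' B hy _ (List.Subset.refl _) (by simp) (M.e j • n0)
  have h2 : M'.IsS j' z' := t_isS M M' B hz (by simp) (by simp) h1 h1' (hf j)
  have h3 := t_eqj M M' B hz (v := n0) (v' := n0') (w := M.e j • n0) (w' := z')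
    (by simp) (by simp) (by simp) h1 h1' (M.e_e _ _).symm
  rw [h3, h2.e_self]
  exact h2

theorem t_base (h : B.E l) {n0 n1 : V} {n0' n1' : V'} (h0 : (M.ι n0, M'.ι n0') ∈ l)
    (h1 : (M.ι n1, M'.ι n1') ∈ l) {g : J → Q} (hb : M.Base n0 n1 g) :
    ∃ g', M'.Base n0' n1' g' := by
  have key : ∀ j', ∃ g' : Q', M'.At n0' n1' j' g' ∧
      ∀ q, ∃ a : ℤ, M'.χ j' q = M'.χ j' g' ^ a := by
    intro j'
    obtain ⟨y, y', j, h2, h2', hy⟩ := bw_isS M M' B h [(M.ι n0, M'.ι n0'), (M.ι n1, M'.ι n1')]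
      (by simp [*]) (by simp) j'
    obtain ⟨a, ha⟩ := M.π_surj (g j)
    obtain ⟨a', h3⟩ := B.fw hy _ (List.Subset.refl _) (by simp) a
    refine ⟨M'.π a', t_at M M' B h3 (n0 := n0) (n := n1) (g := a) (by simp) (by simp) (by simp)
      (by simp) h2 h2' (ha ▸ hb.at1 j), fun q' => ?_⟩
    obtain ⟨b', rfl⟩ := M'.π_surj q'
    obtain ⟨b, h4⟩ := B.bw h3 _ (List.Subset.refl _) (by simp) b'
    obtain ⟨n, hn⟩ := hb.gen j (M.π b)
    exact ⟨n, t_χpow M M' B h4 (a := b) (b := a) (by simp) (by simp) (by simp) h2 h2' n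
      (ha ▸ hn)⟩
  choose g' h2 h3 using key
  exact ⟨g', t_full M M' B h h0 hb.full, h2, h3⟩

section Base

variable {n0 n1 : V} {n0' n1' : V'} {g : J → Q} {g' : J' → Q'}

theorem t_gen (h : B.E l) (hb : M.Base n0 n1 g) (hb' : M'.Base n0' n1' g')
    (h0 : (M.ι n0, M'.ι n0') ∈ l) (h1 : (M.ι n1, M'.ι n1') ∈ l)
    {y : V} {y' : V'} (hy : (M.ι y, M'.ι y') ∈ l) {j : J} {j' : J'}
    (h2 : M.IsS j y) (h2' : M'.IsS j' y') (l₀ : List (G × K)) (h₀ : l₀ ⊆ l)
    (hl : l₀.length ≤ 5) :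
    ∃ a a', M.π a = g j ∧ M'.χ j' (M'.π a') = M'.χ j' (g' j') ∧
      B.E ((a, a') :: (M.ι y, M'.ι y') :: l₀) := by
  obtain ⟨a, ha⟩ := M.π_surj (g j)
  obtain ⟨a', h3⟩ := B.fw h ((M.ι y, M'.ι y') :: (M.ι n0, M'.ι n0') :: (M.ι n1, M'.ι n1') :: l₀)
    (by simp [*]) (by simp; omega) a
  refine ⟨a, a', ha, Md.At.uniq hb'.full (t_at M M' B h3 (n0 := n0) (n := n1) (g := a)
    (by simp) (by simp) (by simp) (by simp) h2 h2' (ha ▸ hb.at1 j)) (hb'.at1 j'),
    B.mono ?_ h3⟩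
  intro x hx
  simp only [List.mem_cons] at hx ⊢
  tauto

theorem t_pow_one (h : B.E l) (hb : M.Base n0 n1 g) (hb' : M'.Base n0' n1' g')
    (h0 : (M.ι n0, M'.ι n0') ∈ l) (h1 : (M.ι n1, M'.ι n1') ∈ l)
    {y : V} {y' : V'} (hy : (M.ι y, M'.ι y') ∈ l) {j : J} {j' : J'}
    (h2 : M.IsS j y) (h2' : M'.IsS j' y') (n : ℕ) (hn : M.χ j (g j) ^ n = 1) :
    M'.χ j' (g' j') ^ n = 1 := by
  obtain ⟨a, a', ha, ha', h3⟩ := t_gen M M' B h hb hb' h0 h1 hy h2 h2' [] (by simp) (by simp)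
  obtain ⟨c', h4⟩ := B.fw h3 _ (List.Subset.refl _) (by simp) 1
  have h5 : c' = 1 := (B.one h4 (a := 1) (by simp)).mp rfl
  have h6 := t_χpow M M' B h4 (a := 1) (a' := c') (b := a) (b' := a') (by simp) (by simp)
    (by simp) h2 h2' n (by rw [ha, zpow_natCast, hn, map_one, map_one])
  rw [h5, map_one, map_one, ha', zpow_natCast] at h6
  exact h6.symm

theorem t_order (h : B.E l) (hb : M.Base n0 n1 g) (hb' : M'.Base n0' n1' g')
    (h0 : (M.ι n0, M'.ι n0') ∈ l) (h1 : (M.ι n1, M'.ι n1') ∈ l)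
    {y : V} {y' : V'} (hy : (M.ι y, M'.ι y') ∈ l) {j : J} {j' : J'}
    (h2 : M.IsS j y) (h2' : M'.IsS j' y') :
    orderOf (M.χ j (g j)) = orderOf (M'.χ j' (g' j')) :=
  orderOf_eq_orderOf_iff.mpr fun n => ⟨t_pow_one M M' B h hb hb' h0 h1 hy h2 h2' n,
    t_pow_one M' M B.symm (B.swap h) hb' hb (mem_swap h0) (mem_swap h1) (mem_swap hy) h2' h2 n⟩

theorem t_val (h : B.E l) (hb : M.Base n0 n1 g) (hb' : M'.Base n0' n1' g')
    (h0 : (M.ι n0, M'.ι n0') ∈ l) (h1 : (M.ι n1, M'.ι n1') ∈ l)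
    {y n : V} {y' n' : V'} (hy : (M.ι y, M'.ι y') ∈ l) (hn : (M.ι n, M'.ι n') ∈ l)
    {j : J} {j' : J'} (h2 : M.IsS j y) (h2' : M'.IsS j' y') {a a' : ℤ}
    (h3 : M.At n0 n j (g j ^ a)) (h3' : M'.At n0' n' j' (g' j' ^ a')) :
    a ≡ a' [ZMOD orderOf (M.χ j (g j))] := by
  obtain ⟨b, b', hb1, hb2, h4⟩ := t_gen M M' B h hb hb' h0 h1 hy h2 h2'
    [(M.ι n0, M'.ι n0'), (M.ι n, M'.ι n')] (by simp [*]) (by simp)
  obtain ⟨c', h5⟩ := B.fw h4 _ (List.Subset.refl _) (by simp) (b ^ a)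
  have h6 : b' ^ a = c' := B.zpow a h5 (a := b) (b := b ^ a) (by simp) (by simp) rfl
  have h7 := t_at M M' B h5 (n0 := n0) (n0' := n0') (n := n) (n' := n') (g := b ^ a) (g' := c')
    (by simp) (by simp) (by simp) (by simp) h2 h2' (by rwa [map_zpow, hb1])
  have h8 := Md.At.uniq hb'.full h7 h3'
  rw [← h6, map_zpow, map_zpow, map_zpow, hb2, zpow_eq_zpow_iff_modEq] at h8
  rwa [t_order M M' B h hb hb' h0 h1 hy h2 h2']

theorem t_vec (h : B.E l) (hl : l.length ≤ k) (hb : M.Base n0 n1 g) (hb' : M'.Base n0' n1' g')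
    (h0 : (M.ι n0, M'.ι n0') ∈ l) (a : J → ℤ) :
    ∃ (a' : J' → ℤ) (n : V) (n' : V'), B.E ((M.ι n, M'.ι n') :: l) ∧
      (∀ j, M.At n0 n j (g j ^ a j)) ∧ (∀ j', M'.At n0' n' j' (g' j' ^ a' j')) ∧
      ∀ D : ℕ, (∃ q : Q, q ^ D = 1 ∧ ∀ j, M.χ j q = M.χ j (g j) ^ a j) →
        ∃ q' : Q', q' ^ D = 1 ∧ ∀ j', M'.χ j' q' = M'.χ j' (g' j') ^ a' j' := by
  obtain ⟨n, hn⟩ := M.exists_vec n0 fun j => g j ^ a j
  obtain ⟨f, hf⟩ := vext M M' B h hl
  have h1 := hf n
  have key : ∀ j', ∃ a' : ℤ, M'.At n0' (f n) j' (g' j' ^ a') := by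
    intro j'
    obtain ⟨y, y', j, h2, h2', hy⟩ := bw_isS M M' B h1
      [(M.ι n0, M'.ι n0'), (M.ι n, M'.ι (f n))] (by simp [*]) (by simp) j'
    obtain ⟨b, hb1⟩ := M.π_surj (g j ^ a j)
    obtain ⟨b', h3⟩ := B.fw hy _ (List.Subset.refl _) (by simp) b
    have h4 := t_at M M' B h3 (n0 := n0) (n0' := n0') (n := n) (n' := f n) (g := b) (g' := b')
      (by simp) (by simp) (by simp) (by simp) h2 h2' (hb1 ▸ hn j)
    obtain ⟨a', ha'⟩ := hb'.gen j' (M'.π b')
    exact ⟨a', Md.At.congr hb'.full h4 (by rw [ha', map_zpow])⟩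
  choose a' ha' using key
  refine ⟨a', n, f n, h1, hn, ha', ?_⟩
  rintro D ⟨q, hq, hq'⟩
  obtain ⟨b, rfl⟩ := M.π_surj q
  obtain ⟨b', h3⟩ := B.fw h1 [(M.ι n0, M'.ι n0'), (M.ι n, M'.ι (f n))] (by simp [*]) (by simp) b
  have h4 : n = M.ρ (M.π b) • n0 := M.at_all.mp fun j =>
    Md.At.congr hb.full (hn j) (by rw [hq', map_zpow])
  have h5 := t_act M M' B h3 (g := b) (g' := b') (v := n0) (v' := n0') (w := n) (w' := f n)
    (by simp) (by simp) (by simp) h4.symm
  refine ⟨M'.π b', (t_qpow M M' B D h3 (by simp)).mp hq, fun j' => ?_⟩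
  rw [← map_zpow]
  exact Md.At.uniq hb'.full (M'.at_all.mpr h5.symm j') (ha' j')

end Base

end GrL

end Pool.Agent.MP_88b4a2_lc

end

section

/-! The group layer: from the abstract theorem on systems to the pebble game on groups. -/

namespace Pool.Agent.MP_88b4a2_lc

namespace GrL

/-- The least common multiple of `1, ..., i`. -/
def DD (i : ℕ) : ℕ := (Finset.Icc 1 i).lcm id

theorem DD_mono {i i' : ℕ} (h : i ≤ i') : DD i ∣ DD i' :=
  Finset.lcm_mono (Finset.Icc_subset_Icc_right h)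

theorem dvd_DD {n : ℕ} (hn : 0 < n) : n ∣ DD n :=
  Finset.dvd_lcm (f := id) (Finset.mem_Icc.mpr ⟨hn, le_rfl⟩)

theorem exists_unit (p r : ℕ) (hp : p.Prime) :
    ∃ u : ℕ, u ≡ 1 [MOD p ^ r] ∧ DD (p ^ r) ∣ u * p ^ r := by
  set w := ∏ x ∈ Finset.Icc 1 (p ^ r), ordCompl[p] x with hw
  have hcop : w.Coprime (p ^ r) := by
    refine Nat.Coprime.pow_right _ (Nat.Coprime.prod_left fun x hx => ?_)
    exact (Nat.coprime_ordCompl hp (by have := (Finset.mem_Icc.mp hx).1; omega)).symm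
  have hpos : 0 < p ^ r := pow_pos hp.pos _
  refine ⟨w ^ (p ^ r).totient, Nat.ModEq.pow_totient hcop, ?_⟩
  refine Finset.lcm_dvd fun x hx => ?_
  obtain ⟨hx1, hx2⟩ := Finset.mem_Icc.mp hx
  have h1 : ordCompl[p] x ∣ w ^ (p ^ r).totient :=
    (Finset.dvd_prod_of_mem _ hx).trans (dvd_pow_self _ (Nat.totient_pos.mpr hpos).ne')
  have h2 : ordProj[p] x ∣ p ^ r := by
    refine pow_dvd_pow _ ((Nat.pow_le_pow_iff_right hp.one_lt).mp ?_)
    exact (Nat.le_of_dvd (by omega) (Nat.ordProj_dvd x p)).trans hx2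
  show x ∣ _
  rw [← Nat.ordProj_mul_ordCompl_eq_self x p, mul_comm]
  exact Nat.mul_dvd_mul h1 h2

theorem card_fibre {A C : Type} [AddCommGroup A] [AddCommGroup C] (f : A →+ C) (n : ℕ) (c : C)
    (x₀ : A) (h1 : n • x₀ = 0) (h2 : f x₀ = c) :
    Nat.card {x : A // n • x = 0 ∧ f x = c} = Nat.card {x : A // n • x = 0 ∧ f x = 0} := by
  refine Nat.card_congr ((Equiv.subRight x₀).subtypeEquiv fun x => ?_)
  simp [smul_sub, h1, h2, sub_eq_zero]

variable {G V R Q J : Type} [Group G] [AddCommGroup V] [CommRing R] [Module R V]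
  [CommGroup Q] [Fintype J] {ν μ : ℕ}
  {K V' R' Q' J' : Type} [Group K] [AddCommGroup V'] [CommRing R'] [Module R' V']
  [CommGroup Q'] [Fintype J'] {k : ℕ}
  (M : Md G V R Q J ν μ) (M' : Md K V' R' Q' J' ν μ) (B : BF G K k)

/-- Exponent vectors of the elements of order dividing `DD i`. -/
def Lam (g : J → Q) (i : ℕ) : AddSubgroup (J → ℤ) where
  carrier := {a | ∃ q : Q, q ^ DD i = 1 ∧ ∀ j, M.χ j q = M.χ j (g j) ^ a j}
  zero_mem' := ⟨1, one_pow _, fun j => by simp⟩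
  add_mem' := by
    rintro a b ⟨q, hq, h1⟩ ⟨r, hr, h2⟩
    exact ⟨q * r, by rw [mul_pow, hq, hr, one_mul], fun j => by
      rw [map_mul, h1, h2, Pi.add_apply, zpow_add]⟩
  neg_mem' := by
    rintro a ⟨q, hq, h1⟩
    exact ⟨q⁻¹, by rw [inv_pow, hq, inv_one], fun j => by
      rw [map_inv, h1, Pi.neg_apply, zpow_neg]⟩

theorem lam_mono (g : J → Q) : Monotone (Lam M g) := by
  rintro i i' h a ⟨q, hq, h1⟩
  obtain ⟨c, hc⟩ := DD_mono h
  exact ⟨q, by rw [hc, pow_mul, hq, one_pow], h1⟩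

theorem mem_lam (g : J → Q) (i : ℕ) (v : J → ℤ)
    (h : ∀ j, (orderOf (M.χ j (g j)) : ℤ) ∣ v j) : v ∈ Lam M g i :=
  ⟨1, one_pow _, fun j => by rw [map_one, orderOf_dvd_iff_zpow_eq_one.mp (h j)]⟩

variable [Finite V] [Finite V'] [Finite Q] [Finite Q']
  {n0 n1 : V} {n0' n1' : V'} {g : J → Q} {g' : J' → Q'}

theorem ext_pt {l : List (G × K)} (h : B.E l) (hl : l.length + 1 ≤ k) :
    ∃ b : J ≃ J', ∀ j, ∃ y y', M.IsS j y ∧ M'.IsS (b j) y' ∧ B.E ((M.ι y, M'.ι y') :: l) := by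
  classical
  obtain ⟨f, hf⟩ := vext M M' B h (by omega)
  have hs : ∀ v, (∃ j, M.IsS j v) ↔ ∃ j', M'.IsS j' (f v) := fun v => by
    rw [← M.simple_iff, ← M'.simple_iff]
    exact ⟨t_simple M M' B (hf v) (by simp),
      t_simple M' M B.symm (B.swap (hf v)) (z := f v) (z' := v) (by simp)⟩
  let p : {v // ∃ j, M.IsS j v} → J := fun x => x.2.choose
  let p' : {v // ∃ j, M'.IsS j v} → J' := fun x => x.2.choose
  have hp : ∀ x j, p x = j ↔ M.IsS j x.1 := fun x j =>
    ⟨fun h => h ▸ x.2.choose_spec, fun h => h.uniq x.2.choose_spec⟩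
  have hp' : ∀ x j, p' x = j ↔ M'.IsS j x.1 := fun x j =>
    ⟨fun h => h ▸ x.2.choose_spec, fun h => h.uniq x.2.choose_spec⟩
  obtain ⟨c, hc⟩ := hall_fibre p p'
    (fun j => by
      obtain ⟨y, hy⟩ := M.exists_isS j
      exact ⟨⟨y, j, hy⟩, (hp _ _).mpr hy⟩)
    (fun j => by
      obtain ⟨y, hy⟩ := M'.exists_isS j
      exact ⟨⟨y, j, hy⟩, (hp' _ _).mpr hy⟩)
    (f.subtypeEquiv hs) fun x => by
      obtain ⟨f₁, hf₁⟩ := vext M M' B (hf x.1) (by simpa using hl)
      have hs₁ : ∀ v, (∃ j, M.IsS j v) ↔ ∃ j', M'.IsS j' (f₁ v) := fun v => by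
        rw [← M.simple_iff, ← M'.simple_iff]
        exact ⟨t_simple M M' B (hf₁ v) (by simp),
          t_simple M' M B.symm (B.swap (hf₁ v)) (z := f₁ v) (z' := v) (by simp)⟩
      rw [← Nat.card_coe_set_eq, ← Nat.card_coe_set_eq]
      refine Nat.card_congr ((f₁.subtypeEquiv hs₁).subtypeEquiv fun z => ?_)
      exact t_pteq M M' B (hf₁ z.1) (y := z.1) (y' := f₁ z.1) (z := x.1) (z' := f x.1)
        (by simp) (by simp) ((hp _ _).mp rfl) ((hp' ⟨_, (hs₁ _).mp z.2⟩ _).mp rfl)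
        ((hp _ _).mp rfl) ((hp' ⟨_, (hs _).mp x.2⟩ _).mp rfl)
  refine ⟨c, fun j => ?_⟩
  obtain ⟨x, h1, h2⟩ := hc j
  exact ⟨x.1, f x.1, (hp _ _).mp h1, (hp' _ _).mp h2, hf _⟩

omit [Finite V] [Finite V'] [Finite Q] [Finite Q'] in
theorem rot {a b c : G × K} {l : List (G × K)} (h : B.E (c :: a :: b :: l)) :
    B.E (a :: b :: c :: l) := by
  refine B.mono (fun x hx => ?_) h
  simp only [List.mem_cons] at hx ⊢
  tauto

/-- The abstract system attached to a back-and-forth system with matched base data. -/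
noncomputable def toSys (κ : ℕ) (hk : κ + 3 ≤ k) (hb : M.Base n0 n1 g)
    (hb' : M'.Base n0' n1' g') : Sys J J' (G × K) κ where
  W l := B.E ((M.ι n0, M'.ι n0') :: (M.ι n1, M'.ι n1') :: l)
  Pt ω j j' := ∃ y y', ω = (M.ι y, M'.ι y') ∧ M.IsS j y ∧ M'.IsS j' y'
  m j := orderOf (M.χ j (g j))
  m' j := orderOf (M'.χ j (g' j))
  Λ := Lam M g
  Λ' := Lam M' g'
  m_pos j := by
    rw [orderOf_pos_iff]
    exact (M.χ j).isOfFinOrder (isOfFinOrder_of_finite _)
  Λ_mono := lam_mono M g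
  mem_Λ := mem_lam M g
  mem_Λ' := mem_lam M' g'
  mono l l' h := B.mono (List.cons_subset_cons _ (List.cons_subset_cons _ h))
  pt_m := by
    rintro _ j j' h ⟨y, y', rfl, h1, h1'⟩
    exact t_order M M' B h hb hb' (by simp) (by simp) (by simp) h1 h1'
  pt_eq := by
    rintro _ _ j j' i i' h ⟨y, y', rfl, h1, h1'⟩ ⟨z, z', rfl, h2, h2'⟩
    exact t_pteq M M' B h (by simp) (by simp) h1 h1' h2 h2'
  extPt l h hl := by
    obtain ⟨b, hb⟩ := ext_pt M M' B h (by simp; omega)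
    refine ⟨b, fun j => ?_⟩
    obtain ⟨y, y', h1, h2, h3⟩ := hb j
    exact ⟨_, ⟨y, y', rfl, h1, h2⟩, rot B h3⟩
  extSet l h hl S := by
    classical
    obtain ⟨n, hn⟩ := M.exists_comp fun j => if j ∈ S then n0 else 0
    obtain ⟨f, hf⟩ := vext M M' B h (by simp; omega)
    refine ⟨{j' | M'.e j' • f n ≠ 0}, _, rot B (hf n), ?_⟩
    rintro _ j j' h1 ⟨y, y', rfl, h2, h2'⟩
    rw [Set.mem_ofPred_eq, Ne, ← t_supp_iff M M' B h1 (n := n) (by simp) (by simp) h2 h2', hn]
    by_cases hj : j ∈ S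
    · simp only [hj, if_true, true_iff]
      exact (hb.full j).1
    · simp [hj]
  extVec l h hl a := by
    obtain ⟨a', n, n', h1, h2, h3, h4⟩ := t_vec M M' B h (by simp; omega) hb hb' (by simp) a
    refine ⟨a', _, rot B h1, fun i => h4 _, ?_⟩
    rintro _ j j' h5 ⟨y, y', rfl, h6, h6'⟩
    exact t_val M M' B h5 hb hb' (by simp) (by simp) (by simp) (by simp) h6 h6' (h2 j) (h3 j')
  extVec' l h hl a' := by
    obtain ⟨a, n', n, h1, h2, h3, h4⟩ := t_vec M' M B.symm (B.swap h) (by simp; omega) hb' hb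
      (by simp) a'
    refine ⟨a, _, rot B (B.unswap h1), fun i => h4 _, ?_⟩
    rintro _ j j' h5 ⟨y, y', rfl, h6, h6'⟩
    exact t_val M M' B h5 hb hb' (by simp) (by simp) (by simp) (by simp) h6 h6' (h3 j) (h2 j')

omit [Finite V] [Finite V'] [Finite Q] [Finite Q'] in
theorem img_transfer {A A' : Type} [AddCommGroup A] [AddCommGroup A'] {m : J → ℕ}
    (f : A →+ ((j : J) → ZMod (m j))) (f' : A' →+ ((j : J) → ZMod (m j)))
    (h : ∀ i (c : (j : J) → ZMod (m j)),
      (∃ x, DD i • x = 0 ∧ f x = c) → ∃ x, DD i • x = 0 ∧ f' x = c)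
    (p r : ℕ) (hp : p.Prime) (c : (j : J) → ZMod (m j)) :
    (∃ x, p ^ r • x = 0 ∧ f x = c) → ∃ x, p ^ r • x = 0 ∧ f' x = c := by
  rintro ⟨x, hx, rfl⟩
  obtain ⟨u, hu, hu'⟩ := exists_unit p r hp
  obtain ⟨d, hd⟩ := dvd_DD (pow_pos hp.pos r)
  obtain ⟨y, hy, hy'⟩ := h (p ^ r) _ ⟨x, by rw [hd, mul_comm, mul_smul, hx, smul_zero], rfl⟩
  obtain ⟨d', hd'⟩ := hu'
  refine ⟨u • y, by rw [← mul_smul, mul_comm, hd', mul_comm, mul_smul, hy, smul_zero], ?_⟩
  rw [map_nsmul, hy', ← map_nsmul, nsmul_eq_nsmul_of_modEq hu hx, one_smul]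

theorem exists_alpha [Finite G] [Finite K]
    (h : B.E [(M.ι n0, M'.ι n0')]) (hb : M.Base n0 n1 g) (hb' : M'.Base n0' n1' g') (σ : J ≃ J')
    (hm : ∀ j, orderOf (M.χ j (g j)) = orderOf (M'.χ (σ j) (g' (σ j))))
    (hΛ : ∀ i (v : J' → ℤ), (fun j => v (σ j)) ∈ Lam M g i ↔ v ∈ Lam M' g' i) :
    ∃ α : Q ≃* Q', ∀ j q (a : ℤ), M.χ j q = M.χ j (g j) ^ a →
      M'.χ (σ j) (α q) = M'.χ (σ j) (g' (σ j)) ^ a := by
  classical
  choose L hL using fun j => M.exists_log j (g j) (hb.gen j) _ rfl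
  choose L' hL' using fun j => M'.exists_log (σ j) (g' (σ j)) (hb'.gen (σ j)) _ (hm j).symm
  let f : Additive Q →+ ((j : J) → ZMod (orderOf (M.χ j (g j)))) := Pi.addMonoidHom L
  let f' : Additive Q' →+ ((j : J) → ZMod (orderOf (M.χ j (g j)))) := Pi.addMonoidHom L'
  have himg : ∀ i (c : (j : J) → ZMod (orderOf (M.χ j (g j)))),
      (∃ x, DD i • x = 0 ∧ f x = c) ↔ ∃ x, DD i • x = 0 ∧ f' x = c := by
    intro i c
    choose v hv using fun j => ZMod.intCast_surjective (c j)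
    have h1 := hΛ i fun j' => v (σ.symm j')
    simp only [Equiv.symm_apply_apply] at h1
    have e1 : (∃ x, DD i • x = 0 ∧ f x = c) ↔ (fun j => v j) ∈ Lam M g i := by
      constructor
      · rintro ⟨x, hx, hc⟩
        exact ⟨x.toMul, hx, fun j => (hL j _ _).mpr (by rw [hv, ← hc]; rfl)⟩
      · rintro ⟨q, hq, hc⟩
        exact ⟨Additive.ofMul q, hq, funext fun j => by rw [← hv, ← (hL j _ _).mp (hc j)]; rfl⟩
    have e2 : (∃ x, DD i • x = 0 ∧ f' x = c) ↔ (fun j' => v (σ.symm j')) ∈ Lam M' g' i := by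
      constructor
      · rintro ⟨x, hx, hc⟩
        refine ⟨x.toMul, hx, fun j' => ?_⟩
        obtain ⟨j, rfl⟩ := σ.surjective j'
        simp only [Equiv.symm_apply_apply]
        exact (hL' j _ _).mpr (by rw [hv, ← hc]; rfl)
      · rintro ⟨q, hq, hc⟩
        refine ⟨Additive.ofMul q, hq, funext fun j => ?_⟩
        have := hc (σ j)
        simp only [Equiv.symm_apply_apply] at this
        rw [← hv, ← (hL' j _ _).mp this]; rfl
    rw [e1, e2, h1]
  have hker : ∀ n : ℕ, Nat.card {x : Additive Q // n • x = 0 ∧ f x = 0} =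
      Nat.card {x : Additive Q' // n • x = 0 ∧ f' x = 0} := by
    intro n
    obtain ⟨c, hc⟩ := qext M M' B h (by simpa using (by have := B.big; omega : 1 ≤ k))
    refine Nat.card_congr ((Additive.toMul.trans (c.trans Additive.ofMul)).subtypeEquiv
      fun x => ?_)
    obtain ⟨a, a', h1, h2, h3⟩ := hc x.toMul
    have e1 : f x = 0 ↔ M.ρ (M.π a) • n0 = n0 := by
      rw [eq_comm (b := n0), ← M.at_all, h1, funext_iff]
      refine forall_congr' fun j => ?_
      have := hL j x.toMul 0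
      rw [zpow_zero, Int.cast_zero] at this
      refine Iff.trans this.symm ?_
      rw [← map_one (M.χ j), (hb.full j).χ_iff, map_one, one_smul, Md.At, eq_comm]
    have e2 : f' (Additive.ofMul (c x.toMul)) = 0 ↔ M'.ρ (M'.π a') • n0' = n0' := by
      rw [eq_comm (b := n0'), ← M'.at_all, h2, funext_iff, σ.surjective.forall]
      refine forall_congr' fun j => ?_
      have := hL' j (c x.toMul) 0
      rw [zpow_zero, Int.cast_zero] at this
      refine Iff.trans this.symm ?_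
      rw [← map_one (M'.χ (σ j)), (hb'.full (σ j)).χ_iff, map_one, one_smul, Md.At, eq_comm]
    refine and_congr ?_ (e1.trans (Iff.trans ?_ e2.symm))
    · have := t_qpow M M' B n h3 (g := a) (g' := a') (by simp)
      rw [h1, h2] at this
      exact this
    · exact ⟨t_act M M' B h3 (by simp) (by simp) (by simp),
        t_act M' M B.symm (B.swap h3) (by simp) (by simp) (by simp)⟩
  obtain ⟨α, hα⟩ := lovasz_abelian f f' fun p r c hp => by
    by_cases hc : ∃ x, p ^ r • x = 0 ∧ f x = c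
    · obtain ⟨x', h1', h2'⟩ := img_transfer f f' (fun i c => (himg i c).mp) p r hp c hc
      obtain ⟨x, h1, h2⟩ := hc
      rw [card_fibre f _ c x h1 h2, card_fibre f' _ c x' h1' h2', hker]
    · have hc' : ¬ ∃ x, p ^ r • x = 0 ∧ f' x = c := fun h' =>
        hc (img_transfer f' f (fun i c => (himg i c).mpr) p r hp c h')
      haveI : IsEmpty {x : Additive Q // p ^ r • x = 0 ∧ f x = c} := ⟨fun x => hc ⟨x.1, x.2⟩⟩
      haveI : IsEmpty {x : Additive Q' // p ^ r • x = 0 ∧ f' x = c} := ⟨fun x => hc' ⟨x.1, x.2⟩⟩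
      rw [Nat.card_of_isEmpty, Nat.card_of_isEmpty]
  refine ⟨
    { toEquiv := Additive.ofMul.trans (α.toEquiv.trans Additive.toMul)
      map_mul' := fun x y => congrArg Additive.toMul
        (map_add α (Additive.ofMul x) (Additive.ofMul y)) }, fun j q a ha => ?_⟩
  refine (hL' j _ a).mpr ?_
  rw [← (hL j q a).mp ha]
  exact congrFun (hα (Additive.ofMul q)) j

omit [Finite Q] [Finite Q'] in
theorem t_pair {l : List (G × K)} (α : Q ≃* Q') {j : J} {j' : J'} {y : V} {y' : V'}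
    (h1 : M.IsS j y) (h1' : M'.IsS j' y') {a : G} {a' : K}
    (hα : ∀ q, ∃ n : ℤ, M.χ j q = M.χ j (M.π a) ^ n ∧ M'.χ j' (α q) = M'.χ j' (M'.π a') ^ n)
    (x : R × R')
    (hx : x ∈ AddSubgroup.closure (Set.range (M.ρ.prod (M'.ρ.comp α.toMonoidHom))))
    (h : B.E l) (hy : (M.ι y, M'.ι y') ∈ l) (ha : (a, a') ∈ l) {z' : V'}
    (hz : (M.ι (x.1 • y), M'.ι z') ∈ l) : x.2 • y' = z' := by
  induction hx using AddSubgroup.closure_induction generalizing l z' with
  | mem x hx =>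
    obtain ⟨q, rfl⟩ := hx
    obtain ⟨n, hn, hn'⟩ := hα q
    change (M.ι (M.ρ q • y), M'.ι z') ∈ l at hz
    change M'.ρ (α q) • y' = z'
    obtain ⟨c', hc⟩ := B.fw h [(M.ι y, M'.ι y'), (a, a'), (M.ι (M.ρ q • y), M'.ι z')]
      (by simp [*]) (by simp) (a ^ n)
    have h3 : a' ^ n = c' := B.zpow n hc (a := a) (b := a ^ n) (by simp) (by simp) rfl
    rw [← map_zpow, ← map_zpow, h1.χ_iff] at hn
    rw [← map_zpow, ← map_zpow, h1'.χ_iff, h3] at hn'
    rw [hn']
    exact t_act M M' B hc (g := a ^ n) (v := y) (w := M.ρ q • y) (by simp) (by simp) (by simp)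
      hn.symm
  | zero => rw [(t_zero M M' B h hz).mp (zero_smul _ _)]; exact zero_smul _ _
  | add b c _ _ ihb ihc =>
    obtain ⟨u', hu⟩ := vfw M M' B h [(M.ι y, M'.ι y'), (a, a'), (M.ι ((b + c).1 • y), M'.ι z')]
      (by simp only [List.cons_subset, hy, hz, ha, List.nil_subset, and_self]) (by simp) (b.1 • y)
    obtain ⟨w', hw⟩ := vfw M M' B hu _ (List.Subset.refl _) (by simp) (c.1 • y)
    have hb := ihb hw (z' := u') (by simp) (by simp) (by simp)
    have hc := ihc hw (z' := w') (by simp) (by simp) (by simp)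
    rw [Prod.snd_add, add_smul, hb, hc]
    exact (t_add M M' B hw (v := b.1 • y) (w := c.1 • y) (z := (b + c).1 • y) (by simp) (by simp)
      (by simp)).mp (add_smul _ _ _).symm
  | neg b _ ihb =>
    obtain ⟨u', hu⟩ := vfw M M' B h [(M.ι y, M'.ι y'), (a, a'), (M.ι ((-b).1 • y), M'.ι z')]
      (by simp only [List.cons_subset, hy, hz, ha, List.nil_subset, and_self]) (by simp) (b.1 • y)
    have hb := ihb hu (z' := u') (by simp) (by simp) (by simp)
    rw [Prod.snd_neg, neg_smul, hb]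
    exact t_neg M M' B hu (v := b.1 • y) (w := (-b).1 • y) (by simp) (by simp)
      (neg_smul _ _).symm

include M M' in
theorem iso_of_bf [Finite G] [Finite K] [Finite R]
    (κ : ℕ) (habs : SysThm κ) (hk : κ + 3 ≤ k) (h : B.E []) : Nonempty (G ≃* K) := by
  obtain ⟨n0, n1, g, hb⟩ := M.exists_base
  obtain ⟨n1', h1⟩ := vfw M M' B h [] (by simp) (by simp) n1
  obtain ⟨n0', h0⟩ := vfw M M' B h1 _ (List.Subset.refl _) (by simp) n0
  obtain ⟨g', hb'⟩ := t_base M M' B h0 (n0' := n0') (n1' := n1') (by simp) (by simp) hb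
  obtain ⟨σ, hσ, hΛ⟩ := habs J J' (G × K) (toSys M M' B κ hk hb hb') h0
  have hσ' : ∀ j, ∃ y y', M.IsS j y ∧ M'.IsS (σ j) y' ∧
      B.E [(M.ι n0, M'.ι n0'), (M.ι n1, M'.ι n1'), (M.ι y, M'.ι y')] := fun j => by
    obtain ⟨_, ⟨y, y', rfl, h2, h2'⟩, h3⟩ := hσ j
    exact ⟨y, y', h2, h2', h3⟩
  obtain ⟨α, hα⟩ := exists_alpha M M' B (B.mono (by simp) h0) hb hb' σ (fun j => by
    obtain ⟨y, y', h2, h2', h3⟩ := hσ' j
    exact t_order M M' B h3 hb hb' (by simp) (by simp) (by simp) h2 h2') hΛ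
  obtain ⟨β, hβ⟩ := M.glue M' α σ fun j => by
    obtain ⟨y, y', h2, h2', h3⟩ := hσ' j
    refine M.local_iso M' α j (σ j) (fun x hx => ?_) fun n => ?_
    · obtain ⟨a, a', ha, ha', h4⟩ := t_gen M M' B h3 hb hb' (by simp) (by simp) (by simp) h2 h2'
        [] (by simp) (by simp)
      obtain ⟨z', h5⟩ := vfw M M' B h4 _ (List.Subset.refl _) (by simp) (x.1 • y)
      have h6 := t_pair M M' B α h2 h2' (a := a) (a' := a') (fun q => by
        obtain ⟨n, hn⟩ := hb.gen j q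
        exact ⟨n, by rw [ha, hn], by rw [ha', hα j q n hn]⟩) x hx h5 (z' := z')
        (by simp) (by simp) (by simp)
      rw [← h2.ann, ← h2'.ann, h6]
      exact t_zero M M' B h5 (by simp)
    · obtain ⟨f, hf⟩ := vext M M' B h3 (by simpa using (by have := B.big; omega : 3 ≤ k))
      refine Nat.card_congr (f.subtypeEquiv fun v => and_congr ⟨?_, ?_⟩ ?_)
      · exact t_block M M' B (hf v) (by simp) (by simp) h2 h2'
      · exact t_block M' M B.symm (B.swap (hf v)) (by simp) (by simp) h2' h2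
      · exact t_nsmul M M' B n (hf v) (by simp)
  exact M.iso_of M' α β hβ

end GrL

theorem group_layer (κ : ℕ) (habs : SysThm κ) :
    ∃ k : ℕ, 1 ≤ k ∧ ∀ (H N : Type) [CommGroup H] [CommGroup N] [Finite H] [Finite N]
      (θ : H →* MulAut N), (Nat.card H).Coprime (Nat.card N) →
      ∀ (K : Type) [Group K] [Finite K], Nat.card K = Nat.card (N ⋊[θ] H) →
        IsEmpty ((N ⋊[θ] H) ≃* K) →
        ∃ r, WinsIn r (fun _ : Fin (k + 1) => (none : Option ((N ⋊[θ] H) × K))) := by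
  refine ⟨κ + 8, by omega, fun H N _ _ _ _ θ hc K _ _ _ hemp => ?_⟩
  by_contra hcon
  push Not at hcon
  haveI : Finite (N ⋊[θ] H) := Finite.of_equiv _ SemidirectProduct.equivProd.symm
  let B := GrL.ofGame (N ⋊[θ] H) K (κ + 8) (by omega)
  have h0 : B.E [] := ⟨_, hcon, by simp⟩
  have hG := GrL.ctx_semidirect H N θ hc
  obtain ⟨V, R, Q, J, _, _, _, _, _, _, _, _, ⟨M⟩⟩ := GrL.exists_md _ hG
  obtain ⟨V', R', Q', J', _, _, _, _, _, _, _, _, ⟨M'⟩⟩ := GrL.exists_md _ (hG.transfer B h0)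
  exact hemp.false (GrL.iso_of_bf M M' B κ habs (by omega) h0).some

end Pool.Agent.MP_88b4a2_lc

end
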